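import Mathlib

/-!
# Artin–Schreier algebras

`AdjoinRoot (finPoly p f)` is the algebra `R[y]/(y^p - y - f)`, and `AdjoinRoot (infPoly p D)` is
`R[w]/(w^p + D w^(p-1) - D)`, where `w = 1/y` and `D = 1/f`.
-/

open Polynomial TensorProduct

universe u

set_option linter.unusedSectionVars false

namespace Pool.Agent.Lib.MP_76d46b_ag

section Elem

variable {p : ℕ} [hp : Fact p.Prime] {C : Type*} [CommRing C]

theorem add_pow_p (h : (p : C) = 0) (x y : C) : (x + y) ^ p = x ^ p + y ^ p := by
  rcases subsingleton_or_nontrivial C with hC | hC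
  · exact Subsingleton.elim _ _
  · have : CharP C p := by
      refine (CharP.charP_iff_prime_eq_zero hp.out).mpr h
    exact add_pow_char x y p

theorem unit_identity {w D : C} (hw : w ^ p + D * w ^ (p - 1) = D) :
    (1 - w ^ (p - 1)) * (1 + w ^ (p - 1) + D * w ^ (p - 2)) = 1 := by
  obtain ⟨n, rfl⟩ : ∃ n, p = n + 2 := ⟨p - 2, by have := hp.out.two_le; omega⟩
  have e1 : n + 2 - 1 = n + 1 := by omega
  have e2 : n + 2 - 2 = n := by omega
  rw [e1] at hw ⊢
  rw [e2]
  linear_combination (-w ^ n) * hw

theorem isUnit_one_sub {w D : C} (hw : w ^ p + D * w ^ (p - 1) = D) : IsUnit (1 - w ^ (p - 1)) :=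
  IsUnit.of_mul_eq_one _ (unit_identity hw)

theorem one_sub_pow_eq (h : (p : C) = 0) {a : C} (ha : a ^ (p - 1) = 1) (w : C) :
    1 + a * w ∣ 1 - w ^ (p - 1) := by
  have h1 : ((-1 : C)) ^ (p - 1) = 1 := by
    rcases hp.out.eq_two_or_odd' with rfl | hodd
    · have h2 : (2 : C) = 0 := by exact_mod_cast h
      have h3 : (-1 : C) = 1 := by linear_combination -h2
      rw [h3, one_pow]
    · have : Even (p - 1) := hodd.tsub_odd odd_one
      exact this.neg_one_pow
  have h2 : w ^ (p - 1) = (-(a * w)) ^ (p - 1) := by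
    rw [neg_pow, mul_pow, ha, h1, one_mul, one_mul]
  rw [h2, show 1 + a * w = 1 - (-(a * w)) by ring]
  exact one_sub_dvd_one_sub_pow _ _

theorem isUnit_one_add (h : (p : C) = 0) {a : C} (ha : a = 0 ∨ a ^ (p - 1) = 1) {w D : C}
    (hw : w ^ p + D * w ^ (p - 1) = D) : IsUnit (1 + a * w) := by
  rcases ha with rfl | ha
  · rw [zero_mul, add_zero]; exact isUnit_one
  · exact isUnit_of_dvd_unit (one_sub_pow_eq h ha w) (isUnit_one_sub hw)

theorem act_eq (h : (p : C) = 0) {a : C} (ha : a ^ p = a) {w D v : C}
    (hw : w ^ p + D * w ^ (p - 1) = D) (hv : (1 + a * w) * v = 1) :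
    (w * v) ^ p + D * (w * v) ^ (p - 1) = D := by
  have hp1 : p = (p - 1) + 1 := by have := hp.out.two_le; omega
  have h1 : (1 + a * w) ^ p = 1 + a * w ^ p := by
    rw [add_pow_p h, one_pow, mul_pow, ha]
  have h2 : (1 + a * w) ^ p * v ^ p = 1 := by rw [← mul_pow, hv, one_pow]
  have h3 : (1 + a * w) * v ^ p = v ^ (p - 1) := by
    conv_lhs => rw [hp1, pow_succ]
    linear_combination v ^ (p - 1) * hv
  have h4 : w ^ p = w ^ (p - 1) * w := by
    conv_lhs => rw [hp1, pow_succ]
  rw [mul_pow, mul_pow, ← h3]
  rw [h1] at h2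
  linear_combination v ^ p * hw + D * h2 - v ^ p * D * a * h4

theorem inv_eq {w D y f : C} (hD : D * f = 1) (hw : w ^ p + D * w ^ (p - 1) = D)
    (hy : w * y = 1) : y ^ p - y = f := by
  have hp1 : p = (p - 1) + 1 := by have := hp.out.two_le; omega
  have h1 : w ^ p * y ^ p = 1 := by rw [← mul_pow, hy, one_pow]
  have h2 : w ^ (p - 1) * y ^ p = y := by
    conv_lhs => rw [hp1, pow_succ, Nat.add_sub_cancel, ← mul_assoc, ← mul_pow, hy]
    rw [one_pow, one_mul]
  linear_combination (-f * y ^ p) * hw + f * h1 + (f * D) * h2 + (-y ^ p + y) * hD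

theorem inv_eq' {w D y f : C} (hD : D * f = 1) (hy : y ^ p - y = f)
    (hw : w = D * (y ^ (p - 1) - 1)) : w * y = 1 := by
  have hp1 : p = (p - 1) + 1 := by have := hp.out.two_le; omega
  have h1 : y ^ p = y ^ (p - 1) * y := by
    conv_lhs => rw [hp1, pow_succ]
  rw [hw]
  rw [h1] at hy
  linear_combination D * hy + hD

theorem inf_eq {w D y f : C} (hD : D * f = 1) (hy : y ^ p - y = f) (hw : w * y = 1) :
    w ^ p + D * w ^ (p - 1) = D := by
  have hp1 : p = (p - 1) + 1 := by have := hp.out.two_le; omega
  have h1 : w ^ p * y ^ p = 1 := by rw [← mul_pow, hw, one_pow]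
  have h2 : w ^ p * y = w ^ (p - 1) := by
    conv_lhs => rw [hp1, pow_succ]
    linear_combination w ^ (p - 1) * hw
  linear_combination (-D * w ^ p) * hy + w ^ p * (-hD) + D * h1 - D * h2

end Elem

/-! ### The algebras -/

section Alg

variable (p : ℕ) {R : Type u} [CommRing R]

/-- The polynomial `y^p - y - f`. -/
noncomputable def finPoly (f : R) : R[X] := X ^ p - X - C f

/-- The polynomial `w^p + D w^(p-1) - D`. -/
noncomputable def infPoly (D : R) : R[X] := X ^ p + C D * X ^ (p - 1) - C D

variable [hp : Fact p.Prime]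

theorem finPoly_natDegree_aux (f : R) : (-X - C f : R[X]).degree < (p : ℕ) := by
  refine lt_of_le_of_lt (degree_sub_le _ _) (max_lt ?_ ?_)
  · rw [degree_neg]
    exact lt_of_le_of_lt degree_X_le (by exact_mod_cast hp.out.one_lt)
  · exact lt_of_le_of_lt degree_C_le (by exact_mod_cast hp.out.pos)

theorem finPoly_monic (f : R) : (finPoly p f).Monic := by
  have : finPoly p f = X ^ p + (-X - C f) := by rw [finPoly]; ring
  rw [this]
  exact monic_X_pow_add (finPoly_natDegree_aux p f)

theorem infPoly_degree_aux (D : R) : (C D * X ^ (p - 1) - C D : R[X]).degree < (p : ℕ) := by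
  refine lt_of_le_of_lt (degree_sub_le _ _) (max_lt ?_ ?_)
  · refine lt_of_le_of_lt (degree_C_mul_X_pow_le _ _) ?_
    have := hp.out.pos
    exact_mod_cast Nat.sub_lt this one_pos
  · exact lt_of_le_of_lt degree_C_le (by exact_mod_cast hp.out.pos)

theorem infPoly_monic (D : R) : (infPoly p D).Monic := by
  have : infPoly p D = X ^ p + (C D * X ^ (p - 1) - C D) := by rw [infPoly]; ring
  rw [this]
  exact monic_X_pow_add (infPoly_degree_aux p D)

theorem finPoly_natDegree [Nontrivial R] (f : R) : (finPoly p f).natDegree = p := by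
  have : finPoly p f = X ^ p + (-X - C f) := by rw [finPoly]; ring
  rw [this]
  exact natDegree_eq_of_degree_eq_some
    (by rw [degree_add_eq_left_of_degree_lt] <;> rw [degree_X_pow]; exact finPoly_natDegree_aux p f)

theorem infPoly_natDegree [Nontrivial R] (D : R) : (infPoly p D).natDegree = p := by
  have : infPoly p D = X ^ p + (C D * X ^ (p - 1) - C D) := by rw [infPoly]; ring
  rw [this]
  exact natDegree_eq_of_degree_eq_some
    (by rw [degree_add_eq_left_of_degree_lt] <;> rw [degree_X_pow]; exact infPoly_degree_aux p D)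

/-- `R[y]/(y^p - y - f)` -/
abbrev FinAlg (f : R) : Type u := AdjoinRoot (finPoly p f)

/-- `R[w]/(w^p + D w^(p-1) - D)` -/
abbrev InfAlg (D : R) : Type u := AdjoinRoot (infPoly p D)

instance (f : R) : Module.Free R (FinAlg p f) := (finPoly_monic p f).free_adjoinRoot
instance (f : R) : Module.Finite R (FinAlg p f) := (finPoly_monic p f).finite_adjoinRoot
instance (D : R) : Module.Free R (InfAlg p D) := (infPoly_monic p D).free_adjoinRoot
instance (D : R) : Module.Finite R (InfAlg p D) := (infPoly_monic p D).finite_adjoinRoot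

variable {p}

theorem fin_root (f : R) : (AdjoinRoot.root (finPoly p f)) ^ p - AdjoinRoot.root (finPoly p f) =
    algebraMap R _ f := by
  have h := AdjoinRoot.mk_self (f := finPoly p f)
  rw [finPoly, map_sub, map_sub, map_pow, sub_eq_zero] at h
  exact h

theorem inf_root (D : R) : (AdjoinRoot.root (infPoly p D)) ^ p + algebraMap R _ D *
    (AdjoinRoot.root (infPoly p D)) ^ (p - 1) = algebraMap R _ D := by
  have h := AdjoinRoot.mk_self (f := infPoly p D)
  rw [infPoly, map_sub, map_add, map_mul, map_pow, map_pow, sub_eq_zero] at h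
  exact h

section Lift

variable {A : Type*} [CommRing A] [Algebra R A]

/-- Homomorphisms out of `FinAlg`. -/
noncomputable def finLift (f : R) (y : A) (h : y ^ p - y = algebraMap R A f) :
    FinAlg p f →ₐ[R] A :=
  AdjoinRoot.liftAlgHom _ (Algebra.ofId R A) y (by
    rw [finPoly, eval₂_sub, eval₂_sub, eval₂_pow, eval₂_X, eval₂_C, h]
    exact sub_self _)

@[simp]
theorem finLift_root (f : R) (y : A) (h : y ^ p - y = algebraMap R A f) :
    finLift f y h (AdjoinRoot.root _) = y := AdjoinRoot.liftAlgHom_root _ _ _ _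

/-- Homomorphisms out of `InfAlg`. -/
noncomputable def infLift (D : R) (w : A)
    (h : w ^ p + algebraMap R A D * w ^ (p - 1) = algebraMap R A D) :
    InfAlg p D →ₐ[R] A :=
  AdjoinRoot.liftAlgHom _ (Algebra.ofId R A) w (by
    rw [infPoly, eval₂_sub, eval₂_add, eval₂_mul, eval₂_pow, eval₂_pow, eval₂_X, eval₂_C]
    exact sub_eq_zero.mpr h)

@[simp]
theorem infLift_root (D : R) (w : A)
    (h : w ^ p + algebraMap R A D * w ^ (p - 1) = algebraMap R A D) :
    infLift D w h (AdjoinRoot.root _) = w := AdjoinRoot.liftAlgHom_root _ _ _ _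

theorem finAlg_map_root (f : R) (φ : FinAlg p f →ₐ[R] A) :
    (φ (AdjoinRoot.root _)) ^ p - φ (AdjoinRoot.root _) = algebraMap R A f := by
  rw [← map_pow, ← map_sub, fin_root, AlgHom.commutes]

theorem infAlg_map_root (D : R) (φ : InfAlg p D →ₐ[R] A) :
    (φ (AdjoinRoot.root _)) ^ p + algebraMap R A D * φ (AdjoinRoot.root _) ^ (p - 1) =
      algebraMap R A D := by
  have := congrArg φ (inf_root (p := p) D)
  rwa [map_add, map_mul, map_pow, map_pow, AlgHom.commutes] at this

end Lift

/-! ### The action of `ℤ/p` -/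

section Act

variable {K : Type u} [Field K] [CharP K p] [Algebra K R]

variable (K) in
theorem cast_eq_zero_of_algebra (A : Type*) [CommRing A] [Algebra K A] : (p : A) = 0 := by
  rw [← map_natCast (algebraMap K A) p, CharP.cast_eq_zero K p, map_zero]

variable (K) in
/-- The element of a `K`-algebra given by an element of `ℤ/p`. -/
noncomputable def cst (A : Type*) [CommRing A] [Algebra K A] (a : ZMod p) : A :=
  algebraMap K A (ZMod.castHom (dvd_refl p) K a)

section cst

variable (A : Type*) [CommRing A] [Algebra K A]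

variable (K) in
theorem cst_pow (a : ZMod p) : cst K A a ^ p = cst K A a := by
  rw [cst, ← map_pow, ← map_pow, ZMod.pow_card]

variable (K) in
theorem cst_cases (a : ZMod p) : cst K A a = 0 ∨ cst K A a ^ (p - 1) = 1 := by
  by_cases ha : a = 0
  · left; rw [ha, cst, map_zero, map_zero]
  · right; rw [cst, ← map_pow, ← map_pow, ZMod.pow_card_sub_one_eq_one ha, map_one, map_one]

variable (K) in
theorem cst_zero : cst K A (0 : ZMod p) = 0 := by rw [cst, map_zero, map_zero]

variable (K) in
theorem cst_add (a b : ZMod p) : cst K A (a + b) = cst K A a + cst K A b := by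
  rw [cst, map_add, map_add]; rfl

end cst

section

variable {A B : Type*} [CommRing A] [Algebra K A] [CommRing B] [Algebra K B]

theorem map_cst (φ : A →ₐ[K] B) (a : ZMod p) : φ (cst K A a) = cst K B a := by
  rw [cst, AlgHom.commutes]; rfl

theorem map_cst' [Algebra R A] [Algebra R B] [IsScalarTower K R A] [IsScalarTower K R B]
    (φ : A →ₐ[R] B) (a : ZMod p) : φ (cst K A a) = cst K B a :=
  map_cst (φ.restrictScalars K) a

end

variable (K) in
/-- `y ↦ y + a` -/
noncomputable def finAct (f : R) (a : ZMod p) : FinAlg p f →ₐ[R] FinAlg p f :=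
  finLift f (AdjoinRoot.root _ + cst K _ a) (by
    rw [add_pow_p (cast_eq_zero_of_algebra K _), cst_pow, ← fin_root]
    ring)

variable (K) in
theorem finAct_root (f : R) (a : ZMod p) :
    finAct K f a (AdjoinRoot.root _) = AdjoinRoot.root _ + cst K _ a := finLift_root _ _ _

variable (K) in
theorem isUnit_inf (D : R) (a : ZMod p) :
    IsUnit (1 + cst K _ a * AdjoinRoot.root (infPoly p D)) :=
  isUnit_one_add (cast_eq_zero_of_algebra K _) (cst_cases K _ a) (inf_root D)

variable (K) in
/-- the inverse of `1 + a w` -/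
noncomputable def infInv (D : R) (a : ZMod p) : InfAlg p D :=
  ((isUnit_inf K D a).unit⁻¹ : (InfAlg p D)ˣ)

variable (K) in
theorem infInv_spec (D : R) (a : ZMod p) :
    (1 + cst K _ a * AdjoinRoot.root (infPoly p D)) * infInv K D a = 1 :=
  (isUnit_inf K D a).mul_val_inv

variable (K) in
/-- `w ↦ w / (1 + a w)` -/
noncomputable def infAct (D : R) (a : ZMod p) : InfAlg p D →ₐ[R] InfAlg p D :=
  infLift D (AdjoinRoot.root _ * infInv K D a)
    (act_eq (cast_eq_zero_of_algebra K _) (cst_pow K _ a) (inf_root D) (infInv_spec K D a))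

variable (K) in
theorem infAct_root (D : R) (a : ZMod p) :
    infAct K D a (AdjoinRoot.root _) = AdjoinRoot.root _ * infInv K D a := infLift_root _ _ _

variable (K) in
theorem finAct_add (f : R) (a b : ZMod p) :
    finAct K f (a + b) = (finAct K f a).comp (finAct K f b) := by
  apply AdjoinRoot.algHom_ext
  rw [AlgHom.comp_apply, finAct_root, finAct_root, map_add, finAct_root, map_cst', cst_add]
  ring

variable (K) in
theorem finAct_zero (f : R) : finAct K f (0 : ZMod p) = AlgHom.id R _ := by
  apply AdjoinRoot.algHom_ext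
  rw [finAct_root, cst_zero, add_zero]; rfl

variable (K) in
theorem infAct_zero (D : R) : infAct K D (0 : ZMod p) = AlgHom.id R _ := by
  apply AdjoinRoot.algHom_ext
  have h := infInv_spec K D (0 : ZMod p)
  rw [cst_zero, zero_mul, add_zero, one_mul] at h
  rw [infAct_root, h, mul_one]; rfl

variable (K) in
theorem infAct_add (D : R) (a b : ZMod p) :
    infAct K D (a + b) = (infAct K D a).comp (infAct K D b) := by
  apply AdjoinRoot.algHom_ext
  rw [AlgHom.comp_apply, infAct_root, infAct_root, map_mul, infAct_root]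
  have h1 := infInv_spec K D a
  have h2 := infInv_spec K D (a + b)
  have h3 := congrArg (infAct K D a) (infInv_spec K D b)
  rw [map_mul, map_add, map_mul, map_one, map_cst', infAct_root] at h3
  rw [cst_add] at h2
  set w := AdjoinRoot.root (infPoly p D)
  set ca := cst K (InfAlg p D) a
  set cb := cst K (InfAlg p D) b
  set v := infAct K D a (infInv K D b)
  set va := infInv K D a
  set vab := infInv K D (a + b)
  have h4 : (w * va * v) * (1 + (ca + cb) * w) = w := by
    linear_combination w * v * h1 + w * h3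
  calc w * vab = (w * va * v) * (1 + (ca + cb) * w) * vab := by rw [h4]
    _ = w * va * v * ((1 + (ca + cb) * w) * vab) := by ring
    _ = w * va * v := by rw [h2, mul_one]

end Act

/-! ### Comparison of the two algebras over a base on which `D` is invertible -/

section Compare

variable {R' : Type u} [CommRing R'] [Algebra R R']

/-- `w ↦ D (y^(p-1) - 1) = 1/y` -/
noncomputable def infToFin (D : R) (f : R') (h : algebraMap R R' D * f = 1) :
    InfAlg p D →ₐ[R] FinAlg p f :=
  infLift D (algebraMap R' _ (algebraMap R R' D) * (AdjoinRoot.root (finPoly p f) ^ (p - 1) - 1))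
    (by
      have h1 : algebraMap R' (FinAlg p f) (algebraMap R R' D) * algebraMap R' _ f = 1 := by
        rw [← map_mul, h, map_one]
      have := inf_eq (p := p) h1 (fin_root f) (inv_eq' h1 (fin_root f) rfl)
      rwa [← IsScalarTower.algebraMap_apply] at this ⊢)

theorem infToFin_root (D : R) (f : R') (h : algebraMap R R' D * f = 1) :
    infToFin D f h (AdjoinRoot.root (infPoly p D)) =
      algebraMap R' _ (algebraMap R R' D) * (AdjoinRoot.root (finPoly p f) ^ (p - 1) - 1) :=
  infLift_root _ _ _

theorem infToFin_root_mul (D : R) (f : R') (h : algebraMap R R' D * f = 1) :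
    infToFin D f h (AdjoinRoot.root (infPoly p D)) * AdjoinRoot.root (finPoly p f) = 1 := by
  have h1 : algebraMap R' (FinAlg p f) (algebraMap R R' D) * algebraMap R' _ f = 1 := by
    rw [← map_mul, h, map_one]
  exact inv_eq' h1 (fin_root f) (infToFin_root D f h)

/-- Base change `FinAlg p f → FinAlg p f'`. -/
noncomputable def finMap (f : R) (f' : R') (h : algebraMap R R' f = f') :
    FinAlg p f →ₐ[R] FinAlg p f' :=
  finLift f (AdjoinRoot.root _) (by
    rw [fin_root, ← h, ← IsScalarTower.algebraMap_apply])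

theorem finMap_root (f : R) (f' : R') (h : algebraMap R R' f = f') :
    finMap (p := p) f f' h (AdjoinRoot.root _) = AdjoinRoot.root _ := finLift_root _ _ _

/-- Base change `InfAlg p D → InfAlg p D'`. -/
noncomputable def infMap (D : R) (D' : R') (h : algebraMap R R' D = D') :
    InfAlg p D →ₐ[R] InfAlg p D' :=
  infLift D (AdjoinRoot.root _) (by
    subst h
    have := inf_root (p := p) (algebraMap R R' D)
    rwa [← IsScalarTower.algebraMap_apply] at this)

theorem infMap_root (D : R) (D' : R') (h : algebraMap R R' D = D') :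
    infMap (p := p) D D' h (AdjoinRoot.root _) = AdjoinRoot.root _ := infLift_root _ _ _

end Compare

end Alg

end Pool.Agent.Lib.MP_76d46b_ag
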