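import Pool.Agent.Lib.MP_76d46b_ag.Charts2

/-!
# The action of `(ℤ/p)²` on the coordinate rings
-/

open Polynomial TensorProduct CategoryTheory CategoryTheory.Limits

universe u

set_option linter.unusedSectionVars false

namespace Pool.Agent.Lib.MP_76d46b_ag

/-- The group `(ℤ/p)²`, written multiplicatively. -/
abbrev PP (p : ℕ) : Type := Multiplicative (ZMod p × ZMod p)

section Tensor

variable {p : ℕ} {R A B : Type u} [CommRing R] [CommRing A] [CommRing B] [Algebra R A] [Algebra R B]

theorem algHom_ext_tensor {C : Type*} [CommRing C] [Algebra R C] {γ γ' : A ⊗[R] B →ₐ[R] C}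
    (h1 : ∀ a : A, γ (a ⊗ₜ 1) = γ' (a ⊗ₜ 1)) (h2 : ∀ b : B, γ (1 ⊗ₜ b) = γ' (1 ⊗ₜ b)) :
    γ = γ' := by
  apply AlgHom.ext
  intro x
  exact congrArg (fun f => f x) (ringHom_ext_tensor (γ := (γ : A ⊗[R] B →+* C))
    (γ' := (γ' : A ⊗[R] B →+* C)) h1 h2)

/-- The action of `(ℤ/p)²` on a tensor product, given by two actions of `ℤ/p`. -/
noncomputable def tensorAct (e : ZMod p → A →ₐ[R] A) (f : ZMod p → B →ₐ[R] B)
    (e0 : e 0 = AlgHom.id R A) (f0 : f 0 = AlgHom.id R B)
    (eadd : ∀ a b, e (a + b) = (e a).comp (e b)) (fadd : ∀ a b, f (a + b) = (f a).comp (f b)) :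
    PP p →* (A ⊗[R] B →ₐ[R] A ⊗[R] B) where
  toFun σ := Algebra.TensorProduct.map (e σ.toAdd.1) (f σ.toAdd.2)
  map_one' := by
    change Algebra.TensorProduct.map (e 0) (f 0) = _
    rw [e0, f0, Algebra.TensorProduct.map_id]
    rfl
  map_mul' σ τ := by
    change Algebra.TensorProduct.map (e (σ.toAdd.1 + τ.toAdd.1)) (f (σ.toAdd.2 + τ.toAdd.2)) = _
    rw [eadd, fadd, Algebra.TensorProduct.map_comp]
    rfl

theorem tensorAct_tmul (e : ZMod p → A →ₐ[R] A) (f : ZMod p → B →ₐ[R] B)
    (e0 : e 0 = AlgHom.id R A) (f0 : f 0 = AlgHom.id R B)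
    (eadd : ∀ a b, e (a + b) = (e a).comp (e b)) (fadd : ∀ a b, f (a + b) = (f a).comp (f b))
    (σ : PP p) (x : A) (y : B) :
    tensorAct e f e0 f0 eadd fadd σ (x ⊗ₜ y) = e σ.toAdd.1 x ⊗ₜ f σ.toAdd.2 y := by
  change Algebra.TensorProduct.map (e σ.toAdd.1) (f σ.toAdd.2) (x ⊗ₜ y) = _
  rw [Algebra.TensorProduct.map_tmul]

end Tensor

section Single

variable {p : ℕ} [hp : Fact p.Prime] {K : Type u} [Field K] [CharP K p]
variable {R R' : Type u} [CommRing R] [Algebra K R] [CommRing R'] [Algebra K R'] [Algebra R R']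
  [IsScalarTower K R R']

variable (K) in
theorem finMap_finAct (f : R) (f' : R') (h : algebraMap R R' f = f') (a : ZMod p)
    (x : FinAlg p f) : finMap f f' h (finAct K f a x) = finAct K f' a (finMap f f' h x) := by
  have : (finMap f f' h).comp (finAct K f a) =
      ((finAct K f' a).restrictScalars R).comp (finMap f f' h) := by
    apply AdjoinRoot.algHom_ext
    change finMap f f' h (finAct K f a (AdjoinRoot.root _)) =
      finAct K f' a (finMap f f' h (AdjoinRoot.root _))
    rw [finAct_root, map_add, finMap_root, finAct_root, map_cst']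
  exact congrArg (fun g => g x) this

variable (K) in
theorem infMap_infAct (D : R) (D' : R') (h : algebraMap R R' D = D') (a : ZMod p)
    (x : InfAlg p D) : infMap D D' h (infAct K D a x) = infAct K D' a (infMap D D' h x) := by
  have : (infMap D D' h).comp (infAct K D a) =
      ((infAct K D' a).restrictScalars R).comp (infMap D D' h) := by
    apply AdjoinRoot.algHom_ext
    change infMap D D' h (infAct K D a (AdjoinRoot.root _)) =
      infAct K D' a (infMap D D' h (AdjoinRoot.root _))
    rw [infAct_root, map_mul, infMap_root, infAct_root]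
    congr 1
    have h1 := congrArg (infMap D D' h) (infInv_spec K D a)
    rw [map_mul, map_add, map_mul, map_one, infMap_root, map_cst'] at h1
    exact (isUnit_inf K D' a).mul_right_injective (h1.trans (infInv_spec K D' a).symm)
  exact congrArg (fun g => g x) this

variable (K) in
theorem infToFin_infAct (D : R) (f : R') (h : algebraMap R R' D * f = 1) (a : ZMod p)
    (x : InfAlg p D) : infToFin D f h (infAct K D a x) = finAct K f a (infToFin D f h x) := by
  have : (infToFin D f h).comp (infAct K D a) =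
      ((finAct K f a).restrictScalars R).comp (infToFin D f h) := by
    apply AdjoinRoot.algHom_ext
    change infToFin D f h (infAct K D a (AdjoinRoot.root _)) =
      finAct K f a (infToFin D f h (AdjoinRoot.root _))
    rw [infAct_root, map_mul]
    have h1 := congrArg (infToFin D f h) (infInv_spec K D a)
    rw [map_mul, map_add, map_mul, map_one, map_cst'] at h1
    have h2 := infToFin_root_mul (p := p) D f h
    have h3 := congrArg (finAct K f a) h2
    rw [map_mul, map_one, finAct_root] at h3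
    set w := infToFin D f h (AdjoinRoot.root (infPoly p D))
    set y := AdjoinRoot.root (finPoly p f)
    set v := infToFin D f h (infInv K D a)
    have h4 : w * v * (y + cst K _ a) = 1 := by
      linear_combination v * h2 + h1
    calc w * v = w * v * (finAct K f a w * (y + cst K _ a)) := by rw [h3, mul_one]
      _ = finAct K f a w * (w * v * (y + cst K _ a)) := by ring
      _ = finAct K f a w := by rw [h4, mul_one]
  exact congrArg (fun g => g x) this

end Single

section Acts

variable {K : Type u} [Field K] (p : ℕ) [hp : Fact p.Prime] [CharP K p] (D₁ D₂ : K[X])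

/-- The action on `AU`. -/
noncomputable def actU : PP p →* (AU p D₁ D₂ →ₐ[K[X]] AU p D₁ D₂) :=
  tensorAct (infAct K D₁) (infAct K D₂) (infAct_zero K D₁) (infAct_zero K D₂) (infAct_add K D₁)
    (infAct_add K D₂)

/-- The action on `AV`. -/
noncomputable def actV : PP p →* (AV p D₁ D₂ →ₐ[RV (D₁ * D₂)] AV p D₁ D₂) :=
  tensorAct (finAct K _) (finAct K _) (finAct_zero K _) (finAct_zero K _) (finAct_add K _)
    (finAct_add K _)

/-- The action on `AW`. -/
noncomputable def actW : PP p →* (AW p D₁ D₂ →ₐ[RW (D₁ * D₂)] AW p D₁ D₂) :=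
  tensorAct (finAct K _) (finAct K _) (finAct_zero K _) (finAct_zero K _) (finAct_add K _)
    (finAct_add K _)

variable {p D₁ D₂}

theorem actU_tmul (σ : PP p) (x : InfAlg p D₁) (y : InfAlg p D₂) :
    actU p D₁ D₂ σ (x ⊗ₜ y) = infAct K D₁ σ.toAdd.1 x ⊗ₜ infAct K D₂ σ.toAdd.2 y :=
  tensorAct_tmul _ _ _ _ _ _ _ _ _

theorem actV_tmul (σ : PP p) (x : FinAlg p (fV (D₁ * D₂) D₁)) (y : FinAlg p (fV (D₁ * D₂) D₂)) :
    actV p D₁ D₂ σ (x ⊗ₜ y) = finAct K _ σ.toAdd.1 x ⊗ₜ finAct K _ σ.toAdd.2 y :=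
  tensorAct_tmul _ _ _ _ _ _ _ _ _

theorem actW_tmul (σ : PP p) (x : FinAlg p (fW (D₁ * D₂) D₁)) (y : FinAlg p (fW (D₁ * D₂) D₂)) :
    actW p D₁ D₂ σ (x ⊗ₜ y) = finAct K _ σ.toAdd.1 x ⊗ₜ finAct K _ σ.toAdd.2 y :=
  tensorAct_tmul _ _ _ _ _ _ _ _ _

variable [hE : Good (D₁ * D₂)]

theorem aA_actU (σ : PP p) (x : AU p D₁ D₂) :
    aA p D₁ D₂ (actU p D₁ D₂ σ x) = actW p D₁ D₂ σ (aA p D₁ D₂ x) := by
  have : (aA p D₁ D₂).comp (actU p D₁ D₂ σ) =
      ((actW p D₁ D₂ σ).restrictScalars K[X]).comp (aA p D₁ D₂) := by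
    apply algHom_ext_tensor
    · intro a
      rw [AlgHom.comp_apply, AlgHom.comp_apply, AlgHom.restrictScalars_apply, actU_tmul, aA,
        tmap_tmul, tmap_tmul, actW_tmul, map_one, map_one, map_one,
        infToFin_infAct]
    · intro a
      rw [AlgHom.comp_apply, AlgHom.comp_apply, AlgHom.restrictScalars_apply, actU_tmul, aA,
        tmap_tmul, tmap_tmul, actW_tmul, map_one, map_one, map_one,
        infToFin_infAct]
  exact congrArg (fun g => g x) this

theorem bA_actV (σ : PP p) (x : AV p D₁ D₂) :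
    bA p D₁ D₂ (actV p D₁ D₂ σ x) = actW p D₁ D₂ σ (bA p D₁ D₂ x) := by
  have : (bA p D₁ D₂).comp (actV p D₁ D₂ σ) =
      ((actW p D₁ D₂ σ).restrictScalars (RV (D₁ * D₂))).comp (bA p D₁ D₂) := by
    apply algHom_ext_tensor
    · intro a
      rw [AlgHom.comp_apply, AlgHom.comp_apply, AlgHom.restrictScalars_apply, actV_tmul, bA,
        tmap_tmul, tmap_tmul, actW_tmul, map_one, map_one, map_one,
        finMap_finAct]
    · intro a
      rw [AlgHom.comp_apply, AlgHom.comp_apply, AlgHom.restrictScalars_apply, actV_tmul, bA,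
        tmap_tmul, tmap_tmul, actW_tmul, map_one, map_one, map_one,
        finMap_finAct]
  exact congrArg (fun g => g x) this

end Acts

end Pool.Agent.Lib.MP_76d46b_ag
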