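import Pool.Agent.Lib.MP_76d46b_ag.ASAlg

/-!
# Base change of Artin–Schreier algebras
-/

open Polynomial TensorProduct CategoryTheory CategoryTheory.Limits

universe u

set_option linter.unusedSectionVars false

namespace Pool.Agent.Lib.MP_76d46b_ag

/-- `A'` is the base change of the `R`-algebra `A` to `R'`, as a universal property. -/
structure BC (R R' A A' : Type u) [CommRing R] [CommRing R'] [CommRing A] [CommRing A']
    [Algebra R R'] [Algebra R A] [Algebra R' A'] [Algebra R A'] [IsScalarTower R R' A']
    (m : A →ₐ[R] A') : Prop where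
  exists_lift : ∀ (C : Type u) [CommRing C] (α : R' →+* C) (β : A →+* C),
    α.comp (algebraMap R R') = β.comp (algebraMap R A) →
      ∃ γ : A' →+* C, γ.comp (algebraMap R' A') = α ∧ γ.comp (m : A →+* A') = β
  hom_ext : ∀ (C : Type u) [CommRing C] (γ γ' : A' →+* C),
    γ.comp (algebraMap R' A') = γ'.comp (algebraMap R' A') →
      γ.comp (m : A →+* A') = γ'.comp (m : A →+* A') → γ = γ'

section

variable {R R' A A' : Type u} [CommRing R] [CommRing R'] [CommRing A] [CommRing A']
    [Algebra R R'] [Algebra R A] [Algebra R' A'] [Algebra R A'] [IsScalarTower R R' A']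
    {m : A →ₐ[R] A'}

theorem BC.isPushout (h : BC R R' A A' m) :
    IsPushout (CommRingCat.ofHom (algebraMap R R')) (CommRingCat.ofHom (algebraMap R A))
      (CommRingCat.ofHom (algebraMap R' A')) (CommRingCat.ofHom (m : A →+* A')) := by
  have hw : CommRingCat.ofHom (algebraMap R R') ≫ CommRingCat.ofHom (algebraMap R' A') =
      CommRingCat.ofHom (algebraMap R A) ≫ CommRingCat.ofHom (m : A →+* A') := by
    ext r
    change algebraMap R' A' (algebraMap R R' r) = m (algebraMap R A r)
    rw [AlgHom.commutes, ← IsScalarTower.algebraMap_apply]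
  refine ⟨⟨hw⟩, ⟨PushoutCocone.IsColimit.mk hw
    (fun s => CommRingCat.ofHom (h.exists_lift s.pt s.inl.hom s.inr.hom ?_).choose) ?_ ?_ ?_⟩⟩
  · exact congrArg CommRingCat.Hom.hom s.condition
  · intro s
    ext x
    exact congrArg (fun f => f x) (h.exists_lift s.pt s.inl.hom s.inr.hom
      (congrArg CommRingCat.Hom.hom s.condition)).choose_spec.1
  · intro s
    ext x
    exact congrArg (fun f => f x) (h.exists_lift s.pt s.inl.hom s.inr.hom
      (congrArg CommRingCat.Hom.hom s.condition)).choose_spec.2
  · intro s f h1 h2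
    apply CommRingCat.hom_ext
    have hc := (h.exists_lift s.pt s.inl.hom s.inr.hom
      (congrArg CommRingCat.Hom.hom s.condition)).choose_spec
    apply h.hom_ext s.pt
    · exact (congrArg CommRingCat.Hom.hom h1).trans hc.1.symm
    · exact (congrArg CommRingCat.Hom.hom h2).trans hc.2.symm

end

section Tensor

variable {R R' A A' B B' : Type u} [CommRing R] [CommRing R'] [CommRing A] [CommRing A']
    [CommRing B] [CommRing B'] [Algebra R R'] [Algebra R A] [Algebra R' A'] [Algebra R A']
    [IsScalarTower R R' A'] [Algebra R B] [Algebra R' B'] [Algebra R B']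
    [IsScalarTower R R' B'] (m : A →ₐ[R] A') (n : B →ₐ[R] B')

/-- The map `A ⊗[R] B → A' ⊗[R'] B'`. -/
noncomputable def tmap : A ⊗[R] B →ₐ[R] A' ⊗[R'] B' :=
  Algebra.TensorProduct.lift
    ((Algebra.TensorProduct.includeLeft (R := R') (S := R') (A := A') (B := B')).restrictScalars R
      |>.comp m)
    ((Algebra.TensorProduct.includeRight (R := R') (A := A') (B := B')).restrictScalars R
      |>.comp n) (fun _ _ => Commute.all _ _)

@[simp]
theorem tmap_tmul (a : A) (b : B) : tmap (R' := R') m n (a ⊗ₜ b) = m a ⊗ₜ n b := by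
  rw [tmap, Algebra.TensorProduct.lift_tmul]
  change (m a ⊗ₜ[R'] (1 : B')) * ((1 : A') ⊗ₜ[R'] n b) = _
  rw [Algebra.TensorProduct.tmul_mul_tmul, mul_one, one_mul]

theorem ringHom_ext_tensor {C : Type*} [CommRing C] {γ γ' : A ⊗[R] B →+* C}
    (h1 : ∀ a : A, γ (a ⊗ₜ 1) = γ' (a ⊗ₜ 1)) (h2 : ∀ b : B, γ (1 ⊗ₜ b) = γ' (1 ⊗ₜ b)) :
    γ = γ' := by
  apply RingHom.ext
  intro x
  induction x with
  | zero => rw [map_zero, map_zero]
  | add x y hx hy => rw [map_add, map_add, hx, hy]
  | tmul a b =>
    have : a ⊗ₜ[R] b = (a ⊗ₜ[R] (1 : B)) * ((1 : A) ⊗ₜ[R] b) := by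
      rw [Algebra.TensorProduct.tmul_mul_tmul, mul_one, one_mul]
    rw [this, map_mul, map_mul, h1, h2]

theorem BC.tensor {m : A →ₐ[R] A'} {n : B →ₐ[R] B'} (hm : BC R R' A A' m) (hn : BC R R' B B' n) :
    BC R R' (A ⊗[R] B) (A' ⊗[R'] B') (tmap m n) where
  exists_lift C _ α β hαβ := by
    obtain ⟨γ₁, h1, h1'⟩ := hm.exists_lift C α
      (β.comp (Algebra.TensorProduct.includeLeft (R := R) (S := R) (A := A) (B := B)).toRingHom)
      (by
        rw [hαβ]
        ext r
        change _ = β (algebraMap R A r ⊗ₜ 1)
        rfl)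
    obtain ⟨γ₂, h2, h2'⟩ := hn.exists_lift C α
      (β.comp (Algebra.TensorProduct.includeRight (R := R) (A := A) (B := B)).toRingHom)
      (by
        rw [hαβ]
        ext r
        change β (algebraMap R A r ⊗ₜ 1) = β (1 ⊗ₜ algebraMap R B r)
        rw [Algebra.algebraMap_eq_smul_one, Algebra.algebraMap_eq_smul_one, TensorProduct.smul_tmul])
    let algC : Algebra R' C := α.toAlgebra
    let g₁ : A' →ₐ[R'] C := { γ₁ with commutes' := fun r => congrArg (fun f => f r) h1 }
    let g₂ : B' →ₐ[R'] C := { γ₂ with commutes' := fun r => congrArg (fun f => f r) h2 }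
    let γ : A' ⊗[R'] B' →ₐ[R'] C := Algebra.TensorProduct.lift g₁ g₂ (fun _ _ => Commute.all _ _)
    refine ⟨γ, ?_, ?_⟩
    · ext r
      exact γ.commutes r
    · apply ringHom_ext_tensor
      · intro a
        change γ (tmap m n (a ⊗ₜ 1)) = _
        rw [tmap_tmul, Algebra.TensorProduct.lift_tmul, map_one, map_one, mul_one]
        exact congrArg (fun f => f a) h1'
      · intro b
        change γ (tmap m n (1 ⊗ₜ b)) = _
        rw [tmap_tmul, Algebra.TensorProduct.lift_tmul, map_one, map_one, one_mul]
        exact congrArg (fun f => f b) h2'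
  hom_ext C _ γ γ' h1 h2 := by
    have e1 : γ.comp (Algebra.TensorProduct.includeLeft (R := R') (S := R') (A := A')
        (B := B')).toRingHom = γ'.comp (Algebra.TensorProduct.includeLeft (R := R') (S := R')
        (A := A') (B := B')).toRingHom := by
      apply hm.hom_ext
      · exact h1
      · ext a
        have := congrArg (fun f => f (a ⊗ₜ 1)) h2
        change γ (tmap m n (a ⊗ₜ 1)) = γ' (tmap m n (a ⊗ₜ 1)) at this
        rw [tmap_tmul, map_one] at this
        exact this
    have e2 : γ.comp (Algebra.TensorProduct.includeRight (R := R') (A := A')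
        (B := B')).toRingHom = γ'.comp (Algebra.TensorProduct.includeRight (R := R')
        (A := A') (B := B')).toRingHom := by
      apply hn.hom_ext
      · ext r
        have h3 : (1 : A') ⊗ₜ[R'] (algebraMap R' B' r) = algebraMap R' (A' ⊗[R'] B') r := by
          rw [Algebra.TensorProduct.algebraMap_apply, Algebra.algebraMap_eq_smul_one,
            Algebra.algebraMap_eq_smul_one, TensorProduct.smul_tmul]
        change γ (1 ⊗ₜ algebraMap R' B' r) = γ' (1 ⊗ₜ algebraMap R' B' r)
        rw [h3]
        exact congrArg (fun f => f r) h1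
      · ext a
        have := congrArg (fun f => f (1 ⊗ₜ a)) h2
        change γ (tmap m n (1 ⊗ₜ a)) = γ' (tmap m n (1 ⊗ₜ a)) at this
        rw [tmap_tmul, map_one] at this
        exact this
    apply ringHom_ext_tensor
    · exact fun a => congrArg (fun f => f a) e1
    · exact fun a => congrArg (fun f => f a) e2

end Tensor

section AS

variable {p : ℕ} [hp : Fact p.Prime] {R R' : Type u} [CommRing R] [CommRing R'] [Algebra R R']

theorem ringHom_ext_adjoinRoot {S : Type*} [CommRing S] {C : Type*} [CommRing C] {g : S[X]}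
    {γ γ' : AdjoinRoot g →+* C} (h1 : ∀ r : S, γ (algebraMap S _ r) = γ' (algebraMap S _ r))
    (h2 : γ (AdjoinRoot.root g) = γ' (AdjoinRoot.root g)) : γ = γ' := by
  apply AdjoinRoot.ringHom_ext
  · ext r; exact h1 r
  · exact h2

theorem bc_fin (f : R) (f' : R') (h : algebraMap R R' f = f') :
    BC R R' (FinAlg p f) (FinAlg p f') (finMap f f' h) where
  exists_lift C _ α β hαβ := by
    let algC : Algebra R' C := α.toAlgebra
    have h1 : (β (AdjoinRoot.root _)) ^ p - β (AdjoinRoot.root _) = algebraMap R' C f' := by
      rw [← map_pow, ← map_sub, fin_root, ← h]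
      exact (congrArg (fun g => g f) hαβ).symm
    refine ⟨(finLift f' (β (AdjoinRoot.root _)) h1 : _ →+* C), ?_, ?_⟩
    · ext r
      exact AlgHom.commutes (finLift f' _ h1) r
    · apply ringHom_ext_adjoinRoot
      · intro r
        change finLift f' _ h1 (finMap f f' h (algebraMap R _ r)) = _
        rw [AlgHom.commutes, IsScalarTower.algebraMap_apply R R', AlgHom.commutes]
        exact congrArg (fun g => g r) hαβ
      · change finLift f' _ h1 (finMap f f' h (AdjoinRoot.root _)) = _
        rw [finMap_root, finLift_root]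
  hom_ext C _ γ γ' h1 h2 := by
    apply ringHom_ext_adjoinRoot
    · exact fun r => congrArg (fun g => g r) h1
    · have := congrArg (fun g => g (AdjoinRoot.root _)) h2
      change γ (finMap f f' h (AdjoinRoot.root _)) = γ' (finMap f f' h (AdjoinRoot.root _)) at this
      rwa [finMap_root] at this

theorem bc_inf (D : R) (D' : R') (h : algebraMap R R' D = D') :
    BC R R' (InfAlg p D) (InfAlg p D') (infMap D D' h) where
  exists_lift C _ α β hαβ := by
    let algC : Algebra R' C := α.toAlgebra
    have h1 : (β (AdjoinRoot.root _)) ^ p + algebraMap R' C D' * β (AdjoinRoot.root _) ^ (p - 1) =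
        algebraMap R' C D' := by
      have h2 : algebraMap R' C D' = β (algebraMap R _ D) := by
        rw [← h]
        exact congrArg (fun g => g D) hαβ
      rw [h2, ← map_pow, ← map_pow, ← map_mul, ← map_add, inf_root]
    refine ⟨(infLift D' (β (AdjoinRoot.root _)) h1 : _ →+* C), ?_, ?_⟩
    · ext r
      exact AlgHom.commutes (infLift D' _ h1) r
    · apply ringHom_ext_adjoinRoot
      · intro r
        change infLift D' _ h1 (infMap D D' h (algebraMap R _ r)) = _
        rw [AlgHom.commutes, IsScalarTower.algebraMap_apply R R', AlgHom.commutes]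
        exact congrArg (fun g => g r) hαβ
      · change infLift D' _ h1 (infMap D D' h (AdjoinRoot.root _)) = _
        rw [infMap_root, infLift_root]
  hom_ext C _ γ γ' h1 h2 := by
    apply ringHom_ext_adjoinRoot
    · exact fun r => congrArg (fun g => g r) h1
    · have := congrArg (fun g => g (AdjoinRoot.root _)) h2
      change γ (infMap D D' h (AdjoinRoot.root _)) = γ' (infMap D D' h (AdjoinRoot.root _)) at this
      rwa [infMap_root] at this

theorem bc_infToFin (D : R) (f : R') (h : algebraMap R R' D * f = 1) :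
    BC R R' (InfAlg p D) (FinAlg p f) (infToFin D f h) where
  exists_lift C _ α β hαβ := by
    let algC : Algebra R' C := α.toAlgebra
    have h0 : α (algebraMap R R' D) = β (algebraMap R _ D) := congrArg (fun g => g D) hαβ
    have hD : α (algebraMap R R' D) * α f = 1 := by rw [← map_mul, h, map_one]
    have h1 : (β (AdjoinRoot.root _)) ^ p + α (algebraMap R R' D) * β (AdjoinRoot.root _) ^ (p - 1) =
        α (algebraMap R R' D) := by
      rw [h0, ← map_pow, ← map_pow, ← map_mul, ← map_add, inf_root]
    set w := β (AdjoinRoot.root (infPoly p D)) with hw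
    have hunit : IsUnit w := by
      have h2 : w ∣ α (algebraMap R R' D) := by
        rw [← h1]
        refine dvd_add (dvd_pow_self _ hp.out.ne_zero) (dvd_mul_of_dvd_right (dvd_pow_self _ ?_) _)
        have := hp.out.two_le
        omega
      exact isUnit_of_dvd_unit h2 (IsUnit.of_mul_eq_one _ hD)
    obtain ⟨y, hy⟩ := hunit.exists_right_inv
    have h3 : y ^ p - y = algebraMap R' C f := inv_eq hD h1 hy
    refine ⟨(finLift f y h3 : _ →+* C), ?_, ?_⟩
    · ext r
      exact AlgHom.commutes (finLift f _ h3) r
    · apply ringHom_ext_adjoinRoot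
      · intro r
        change finLift f _ h3 (infToFin D f h (algebraMap R _ r)) = _
        rw [AlgHom.commutes, IsScalarTower.algebraMap_apply R R', AlgHom.commutes]
        exact congrArg (fun g => g r) hαβ
      · change finLift f _ h3 (infToFin D f h (AdjoinRoot.root _)) = w
        have h4 := congrArg (finLift f y h3) (infToFin_root_mul D f h)
        rw [map_mul, finLift_root, map_one] at h4
        calc finLift f _ h3 (infToFin D f h (AdjoinRoot.root _))
            = finLift f _ h3 (infToFin D f h (AdjoinRoot.root _)) * (w * y) := by rw [hy, mul_one]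
          _ = (finLift f _ h3 (infToFin D f h (AdjoinRoot.root _)) * y) * w := by ring
          _ = w := by rw [h4, one_mul]
  hom_ext C _ γ γ' h1 h2 := by
    apply ringHom_ext_adjoinRoot
    · exact fun r => congrArg (fun g => g r) h1
    · have h3 := congrArg (fun g => g (AdjoinRoot.root _)) h2
      change γ (infToFin D f h (AdjoinRoot.root _)) = γ' (infToFin D f h (AdjoinRoot.root _)) at h3
      have h4 := congrArg γ (infToFin_root_mul D f h)
      have h5 := congrArg γ' (infToFin_root_mul D f h)
      rw [map_mul, map_one] at h4 h5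
      rw [← h3] at h5
      calc γ (AdjoinRoot.root _) = γ (AdjoinRoot.root _) * (γ (infToFin D f h (AdjoinRoot.root _)) *
            γ' (AdjoinRoot.root _)) := by rw [h5, mul_one]
        _ = (γ (infToFin D f h (AdjoinRoot.root _)) * γ (AdjoinRoot.root _)) *
            γ' (AdjoinRoot.root _) := by ring
        _ = γ' (AdjoinRoot.root _) := by rw [h4, one_mul]

end AS

end Pool.Agent.Lib.MP_76d46b_ag
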