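import Pool.Agent.Lib.MP_76d46b_ag.Model

/-!
# The projective line, glued from two charts, is proper
-/

open Polynomial TensorProduct CategoryTheory CategoryTheory.Limits AlgebraicGeometry

universe u

set_option linter.unusedSectionVars false

noncomputable section

namespace Pool.Agent.Lib.MP_76d46b_ag

section Local

/-- A morphism from the spectrum of a local ring factors through one of the charts. -/
theorem TwoCover.factor {W U V Z : Scheme.{u}} {a : W ⟶ U} {b : W ⟶ V} {i : U ⟶ Z} {j : V ⟶ Z}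
    (h : TwoCover a b i j) {R : Type u} [CommRing R] [IsLocalRing R] (g : Spec (.of R) ⟶ Z) :
    (∃ g' : Spec (.of R) ⟶ U, g' ≫ i = g) ∨ (∃ g' : Spec (.of R) ⟶ V, g' ≫ j = g) := by
  have := h.open_i
  have := h.open_j
  have key : ∀ (O : Z.Opens), g (IsLocalRing.closedPoint R) ∈ O → Set.range g ⊆ (O : Set Z) := by
    rintro O hO _ ⟨x, rfl⟩
    have h1 : x ⤳ (IsLocalRing.closedPoint R : Spec (.of R)) :=
      IsLocalRing.specializes_closedPoint _
    exact (h1.map g.continuous).mem_open O.isOpen hO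
  rcases h.cover (g (IsLocalRing.closedPoint R)) with h1 | h1
  · left
    exact ⟨IsOpenImmersion.lift i g (key i.opensRange h1), IsOpenImmersion.lift_fac _ _ _⟩
  · right
    exact ⟨IsOpenImmersion.lift j g (key j.opensRange h1), IsOpenImmersion.lift_fac _ _ _⟩

end Local

section P1

variable {K : Type u} [Field K] {E : K[X]} [hE : Good E] {Z : Scheme.{u}}
  {iU : Spec (.of K[X]) ⟶ Z} {iV : Spec (.of (RV E)) ⟶ Z}

/-- A point of the chart at infinity where `s` is invertible lies in the other chart. -/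
theorem exists_of_isUnit
    (h : TwoCover (Spec.map (CommRingCat.ofHom (algebraMap K[X] (RW E))))
      (Spec.map (CommRingCat.ofHom (algebraMap (RV E) (RW E)))) iU iV)
    {R : Type u} [CommRing R] (ψ : RV E →+* R) (hψ : IsUnit (ψ (algebraMap K[X] (RV E) X))) :
    ∃ φ : K[X] →+* R, Spec.map (CommRingCat.ofHom φ) ≫ iU = Spec.map (CommRingCat.ofHom ψ) ≫ iV ∧
      φ X * ψ (algebraMap K[X] (RV E) X) = 1 ∧ ∀ c : K, φ (C c) = ψ (algebraMap K (RV E) c) := by
  let θ : RW E →+* R := IsLocalization.Away.lift (algebraMap K[X] (RV E) X) hψ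
  have hθ : ∀ r, θ (algebraMap (RV E) (RW E) r) = ψ r := fun r =>
    IsLocalization.Away.lift_eq _ hψ r
  refine ⟨θ.comp (algebraMap K[X] (RW E)), ?_, ?_, ?_⟩
  · have h1 : ψ = θ.comp (algebraMap (RV E) (RW E)) := RingHom.ext fun r => (hθ r).symm
    have e1 : CommRingCat.ofHom (θ.comp (algebraMap K[X] (RW E))) =
      CommRingCat.ofHom (algebraMap K[X] (RW E)) ≫ CommRingCat.ofHom θ := rfl
    have e2 : CommRingCat.ofHom (θ.comp (algebraMap (RV E) (RW E))) =
      CommRingCat.ofHom (algebraMap (RV E) (RW E)) ≫ CommRingCat.ofHom θ := rfl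
    rw [h1, e1, e2, Spec.map_comp, Spec.map_comp, Category.assoc, Category.assoc, h.isPullback.w]
  · rw [← hθ, RingHom.comp_apply, ← map_mul, algebraMap_VW, bMap_X]
    have := xW_mul_sW hE
    rw [xW] at this
    rw [this, map_one]
  · intro c
    rw [← hθ, RingHom.comp_apply, algebraMap_VW, AlgHom.commutes]
    congr 1

/-- The value of the reverse of a monic polynomial at a nonunit is a unit. -/
theorem isUnit_eval_reverse {R : Type u} [CommRing R] [IsLocalRing R] (ι : K →+* R) {r : R}
    (hr : ¬ IsUnit r) : IsUnit (eval₂ ι r E.reverse) := by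
  have h1 : eval₂ ι r E.reverse = 1 + r * eval₂ ι r E.reverse.divX := by
    conv_lhs => rw [← divX_mul_X_add E.reverse]
    rw [eval₂_add, eval₂_mul, eval₂_X, eval₂_C, coeff_zero_reverse, hE.monic.leadingCoeff,
      map_one]
    ring
  rw [h1]
  have h2 : ¬ IsUnit (r * eval₂ ι r E.reverse.divX) := fun h => hr (isUnit_of_mul_isUnit_left h)
  by_contra h3
  have h4 := IsLocalRing.nonunits_add (a := 1 + r * eval₂ ι r E.reverse.divX)
    (b := -(r * eval₂ ι r E.reverse.divX)) h3 (by rw [mem_nonunits_iff, IsUnit.neg_iff]; exact h2)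
  rw [mem_nonunits_iff] at h4
  apply h4
  rw [add_neg_cancel_right]
  exact isUnit_one

/-- A point of the chart at infinity. -/
theorem exists_point {R : Type u} [CommRing R] (ι : K →+* R) (r : R)
    (hr : IsUnit (eval₂ ι r E.reverse)) :
    ∃ ψ : RV E →+* R, ψ (algebraMap K[X] (RV E) X) = r ∧ ∀ c : K, ψ (algebraMap K (RV E) c) = ι c := by
  let ψ : RV E →+* R := IsLocalization.Away.lift (g := eval₂RingHom ι r) E.reverse hr
  have hψ : ∀ f, ψ (algebraMap K[X] (RV E) f) = eval₂ ι r f := fun f =>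
    IsLocalization.Away.lift_eq _ hr f
  refine ⟨ψ, ?_, ?_⟩
  · rw [hψ, eval₂_X]
  · intro c
    rw [IsScalarTower.algebraMap_apply K K[X] (RV E), hψ]
    exact eval₂_C _ _

theorem ringHom_ext_RV {R : Type u} [CommRing R] {ψ ψ' : RV E →+* R}
    (h1 : ψ (algebraMap K[X] (RV E) X) = ψ' (algebraMap K[X] (RV E) X))
    (h2 : ∀ c : K, ψ (algebraMap K (RV E) c) = ψ' (algebraMap K (RV E) c)) : ψ = ψ' := by
  apply IsLocalization.ringHom_ext (Submonoid.powers E.reverse)
  apply Polynomial.ringHom_ext
  · exact h2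
  · exact h1

variable (π : Z ⟶ Spec (.of K))

theorem existence_P1
    (h : TwoCover (Spec.map (CommRingCat.ofHom (algebraMap K[X] (RW E))))
      (Spec.map (CommRingCat.ofHom (algebraMap (RV E) (RW E)))) iU iV)
    (hU : iU ≫ π = Spec.map (CommRingCat.ofHom (algebraMap K K[X])))
    (hV : iV ≫ π = Spec.map (CommRingCat.ofHom (algebraMap K (RV E)))) :
    ValuativeCriterion.Existence π := by
  rintro ⟨R, L, i₁, i₂, ⟨w⟩⟩
  obtain ⟨ι, rfl⟩ : ∃ ι : K →+* R, i₂ = Spec.map (CommRingCat.ofHom ι) :=
    ⟨(Spec.preimage i₂).hom, (Spec.map_preimage i₂).symm⟩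
  -- the case of a point of the affine line
  have case1 : ∀ φ : K[X] →+* L, Spec.map (CommRingCat.ofHom φ) ≫ iU = i₁ →
      (∀ c : K, φ (C c) = algebraMap R L (ι c)) →
      ∃ l : Spec (.of R) ⟶ Z, Spec.map (CommRingCat.ofHom (algebraMap R L)) ≫ l = i₁ ∧
        l ≫ π = Spec.map (CommRingCat.ofHom ι) := by
    intro φ hφ hφC
    by_cases hint : ∃ r : R, algebraMap R L r = φ X
    · obtain ⟨r, hr⟩ := hint
      refine ⟨Spec.map (CommRingCat.ofHom (eval₂RingHom ι r)) ≫ iU, ?_, ?_⟩
      · rw [← hφ, ← Category.assoc, ← Spec.map_comp, ← CommRingCat.ofHom_comp]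
        congr 3
        apply Polynomial.ringHom_ext
        · intro c
          rw [RingHom.comp_apply, coe_eval₂RingHom, eval₂_C, hφC]
        · rw [RingHom.comp_apply, coe_eval₂RingHom, eval₂_X, hr]
      · rw [Category.assoc, hU, ← Spec.map_comp, ← CommRingCat.ofHom_comp]
        congr 2
        apply RingHom.ext
        intro c
        exact eval₂_C _ _
    · have h0 : φ X ≠ 0 := fun h0 => hint ⟨0, by rw [h0, map_zero]⟩
      obtain ⟨r, hr⟩ | ⟨r, hr⟩ := ValuationRing.isInteger_or_isInteger R (φ X)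
      · exact absurd ⟨r, hr⟩ hint
      have hr' : ¬ IsUnit r := by
        intro hu
        obtain ⟨u, rfl⟩ := hu
        apply hint
        refine ⟨((u⁻¹ : Rˣ) : R), ?_⟩
        have h1 : algebraMap R L u * algebraMap R L ((u⁻¹ : Rˣ) : R) = 1 := by
          rw [← map_mul, Units.mul_inv, map_one]
        rw [hr] at h1
        exact (inv_mul_eq_one₀ h0).mp h1 |>.symm
      obtain ⟨ψ, hψ1, hψ2⟩ := exists_point ι r (isUnit_eval_reverse (E := E) ι hr')
      refine ⟨Spec.map (CommRingCat.ofHom ψ) ≫ iV, ?_, ?_⟩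
      · have hu : IsUnit ((algebraMap R L).comp ψ (algebraMap K[X] (RV E) X)) := by
          rw [RingHom.comp_apply, hψ1, hr]
          exact (inv_ne_zero h0).isUnit
        obtain ⟨φ', h1, h2, h3⟩ := exists_of_isUnit h ((algebraMap R L).comp ψ) hu
        rw [← Category.assoc, ← Spec.map_comp, ← CommRingCat.ofHom_comp, ← h1, ← hφ]
        congr 3
        apply Polynomial.ringHom_ext
        · intro c
          rw [h3, hφC, RingHom.comp_apply, hψ2]
        · rw [RingHom.comp_apply, hψ1, hr] at h2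
          rw [← mul_inv_eq_one₀ h0]
          exact h2
      · rw [Category.assoc, hV, ← Spec.map_comp, ← CommRingCat.ofHom_comp]
        congr 2
        exact RingHom.ext hψ2
  suffices H : ∃ l : Spec (.of R) ⟶ Z, Spec.map (CommRingCat.ofHom (algebraMap R L)) ≫ l = i₁ ∧
      l ≫ π = Spec.map (CommRingCat.ofHom ι) by
    obtain ⟨l, h1, h2⟩ := H
    exact ⟨⟨⟨l, h1, h2⟩⟩⟩
  rcases h.factor i₁ with ⟨g, hg⟩ | ⟨g, hg⟩
  · refine case1 (Spec.preimage g).hom (by
      rw [← hg]; congr 1; exact Spec.map_preimage g) ?_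
    intro c
    have h1 : Spec.map (CommRingCat.ofHom (algebraMap K K[X]) ≫ Spec.preimage g) =
        Spec.map (CommRingCat.ofHom ι ≫ CommRingCat.ofHom (algebraMap R L)) := by
      rw [Spec.map_comp, Spec.map_comp, Spec.map_preimage, ← w, ← hg, Category.assoc, hU]
    exact congrArg (fun k => k.hom c) (Spec.map_injective h1)
  · obtain ⟨ψ, rfl⟩ : ∃ ψ : RV E →+* L, g = Spec.map (CommRingCat.ofHom ψ) :=
      ⟨(Spec.preimage g).hom, (Spec.map_preimage g).symm⟩
    have hψC : ∀ c : K, ψ (algebraMap K (RV E) c) = algebraMap R L (ι c) := by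
      intro c
      have h1 : Spec.map (CommRingCat.ofHom (algebraMap K (RV E)) ≫ CommRingCat.ofHom ψ) =
          Spec.map (CommRingCat.ofHom ι ≫ CommRingCat.ofHom (algebraMap R L)) := by
        rw [Spec.map_comp, Spec.map_comp, ← w, ← hg, Category.assoc, hV]
      exact congrArg (fun k => k.hom c) (Spec.map_injective h1)
    by_cases h0 : ψ (algebraMap K[X] (RV E) X) = 0
    · obtain ⟨ψ', hψ1, hψ2⟩ := exists_point ι (0 : R)
        (isUnit_eval_reverse (E := E) ι not_isUnit_zero)
      refine ⟨Spec.map (CommRingCat.ofHom ψ') ≫ iV, ?_, ?_⟩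
      · rw [← hg, ← Category.assoc, ← Spec.map_comp, ← CommRingCat.ofHom_comp]
        congr 3
        apply ringHom_ext_RV
        · rw [RingHom.comp_apply, hψ1, h0, map_zero]
        · intro c
          rw [RingHom.comp_apply, hψ2, hψC]
      · rw [Category.assoc, hV, ← Spec.map_comp, ← CommRingCat.ofHom_comp]
        congr 2
        exact RingHom.ext hψ2
    · obtain ⟨φ, h1, h2, h3⟩ := exists_of_isUnit h ψ (isUnit_iff_ne_zero.mpr h0)
      exact case1 φ (h1.trans hg) fun c => (h3 c).trans (hψC c)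

theorem uniqueness_P1
    (h : TwoCover (Spec.map (CommRingCat.ofHom (algebraMap K[X] (RW E))))
      (Spec.map (CommRingCat.ofHom (algebraMap (RV E) (RW E)))) iU iV) :
    ValuativeCriterion.Uniqueness π := by
  rintro ⟨R, L, i₁, i₂, ⟨w⟩⟩
  constructor
  rintro ⟨l, hl, hl'⟩ ⟨m, hm, hm'⟩
  change Spec.map (CommRingCat.ofHom (algebraMap R L)) ≫ l = i₁ at hl
  change Spec.map (CommRingCat.ofHom (algebraMap R L)) ≫ m = i₁ at hm
  have := h.open_i
  have := h.open_j
  suffices H : ∀ l m : Spec (.of R) ⟶ Z, Spec.map (CommRingCat.ofHom (algebraMap R L)) ≫ l =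
      Spec.map (CommRingCat.ofHom (algebraMap R L)) ≫ m → l = m by
    obtain rfl : l = m := H l m (hl.trans hm.symm)
    rfl
  clear l m hl hl' hm hm' w i₁ i₂
  intro l m hlm
  have hinj : Function.Injective (algebraMap R L) := IsFractionRing.injective R L
  have caseU : ∀ φ φ' : K[X] →+* R, Spec.map (CommRingCat.ofHom (algebraMap R L)) ≫
      Spec.map (CommRingCat.ofHom φ) ≫ iU = Spec.map (CommRingCat.ofHom (algebraMap R L)) ≫
      Spec.map (CommRingCat.ofHom φ') ≫ iU → φ = φ' := by
    intro φ φ' he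
    rw [← Category.assoc, ← Category.assoc, cancel_mono, ← Spec.map_comp, ← Spec.map_comp] at he
    apply RingHom.ext
    intro f
    exact hinj (congrArg (fun k => k.hom f) (Spec.map_injective he))
  have caseUV : ∀ (φ : K[X] →+* R) (ψ : RV E →+* R),
      Spec.map (CommRingCat.ofHom (algebraMap R L)) ≫
      Spec.map (CommRingCat.ofHom φ) ≫ iU = Spec.map (CommRingCat.ofHom (algebraMap R L)) ≫
      Spec.map (CommRingCat.ofHom ψ) ≫ iV →
      Spec.map (CommRingCat.ofHom φ) ≫ iU = Spec.map (CommRingCat.ofHom ψ) ≫ iV := by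
    intro φ ψ he
    rw [← Category.assoc, ← Category.assoc] at he
    obtain ⟨θ, hθ1, hθ2⟩ : ∃ θ : RW E →+* L, θ.comp (algebraMap K[X] (RW E)) =
        (algebraMap R L).comp φ ∧ θ.comp (algebraMap (RV E) (RW E)) =
        (algebraMap R L).comp ψ := by
      have h1 := h.isPullback.lift_fst _ _ he
      have h2 := h.isPullback.lift_snd _ _ he
      refine ⟨(Spec.preimage (h.isPullback.lift _ _ he)).hom, ?_, ?_⟩
      · have h3 : Spec.map (CommRingCat.ofHom (algebraMap K[X] (RW E)) ≫
            Spec.preimage (h.isPullback.lift _ _ he)) =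
            Spec.map (CommRingCat.ofHom φ ≫ CommRingCat.ofHom (algebraMap R L)) := by
          rw [Spec.map_comp, Spec.map_comp, Spec.map_preimage]
          exact h1
        exact congrArg (fun k => k.hom) (Spec.map_injective h3)
      · have h3 : Spec.map (CommRingCat.ofHom (algebraMap (RV E) (RW E)) ≫
            Spec.preimage (h.isPullback.lift _ _ he)) =
            Spec.map (CommRingCat.ofHom ψ ≫ CommRingCat.ofHom (algebraMap R L)) := by
          rw [Spec.map_comp, Spec.map_comp, Spec.map_preimage]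
          exact h2
        exact congrArg (fun k => k.hom) (Spec.map_injective h3)
    have hab : φ X * ψ (algebraMap K[X] (RV E) X) = 1 := by
      apply hinj
      rw [map_mul, map_one]
      have h1 := congrArg (fun k => k X) hθ1
      have h2 := congrArg (fun k => k (algebraMap K[X] (RV E) X)) hθ2
      change θ (algebraMap K[X] (RW E) X) = algebraMap R L (φ X) at h1
      change θ (algebraMap (RV E) (RW E) (algebraMap K[X] (RV E) X)) =
        algebraMap R L (ψ (algebraMap K[X] (RV E) X)) at h2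
      rw [← h1, ← h2, ← map_mul, algebraMap_VW, bMap_X]
      have := xW_mul_sW hE
      rw [xW] at this
      rw [this, map_one]
    obtain ⟨φ', h1, -, -⟩ := exists_of_isUnit h ψ (IsUnit.of_mul_eq_one_right _ hab)
    rw [← h1]
    rw [caseU φ φ' (by rw [h1, ← Category.assoc, he, Category.assoc])]
  have hS : ∀ {A : Type u} [CommRing A] (g : Spec (.of R) ⟶ Spec (.of A)),
      ∃ ψ : A →+* R, g = Spec.map (CommRingCat.ofHom ψ) :=
    fun g => ⟨(Spec.preimage g).hom, (Spec.map_preimage g).symm⟩
  rcases h.factor l with ⟨g, rfl⟩ | ⟨g, rfl⟩ <;> rcases h.factor m with ⟨g', rfl⟩ | ⟨g', rfl⟩ <;>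
    obtain ⟨ψ, rfl⟩ := hS g <;> obtain ⟨ψ', rfl⟩ := hS g'
  · rw [caseU ψ ψ' hlm]
  · exact caseUV ψ ψ' hlm
  · exact (caseUV ψ' ψ hlm.symm).symm
  · have he := hlm
    rw [← Category.assoc, ← Category.assoc, cancel_mono, ← Spec.map_comp, ← Spec.map_comp] at he
    have : ψ = ψ' := by
      apply RingHom.ext
      intro f
      exact hinj (congrArg (fun k => k.hom f) (Spec.map_injective he))
    rw [this]

/-- The projective line is proper. -/
theorem isProper_P1
    (h : TwoCover (Spec.map (CommRingCat.ofHom (algebraMap K[X] (RW E))))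
      (Spec.map (CommRingCat.ofHom (algebraMap (RV E) (RW E)))) iU iV)
    (hU : iU ≫ π = Spec.map (CommRingCat.ofHom (algebraMap K K[X])))
    (hV : iV ≫ π = Spec.map (CommRingCat.ofHom (algebraMap K (RV E)))) :
    IsProper π := by
  have hft : LocallyOfFiniteType π := by
    apply h.of_source @LocallyOfFiniteType
    · rw [hU, HasRingHomProperty.Spec_iff (P := @LocallyOfFiniteType)]
      exact RingHom.finiteType_algebraMap.mpr inferInstance
    · rw [hV, HasRingHomProperty.Spec_iff (P := @LocallyOfFiniteType)]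
      refine RingHom.finiteType_algebraMap.mpr ?_
      have : Algebra.FiniteType K[X] (RV E) := IsLocalization.finiteType_of_monoid_fg
        (Submonoid.powers E.reverse) _
      exact Algebra.FiniteType.trans (S := K[X]) inferInstance this
  have hcpt : CompactSpace Z := by
    refine ⟨?_⟩
    have h1 : (Set.univ : Set Z) = Set.range iU ∪ Set.range iV := by
      ext x
      exact ⟨fun _ => h.cover x, fun _ => trivial⟩
    rw [h1]
    exact (isCompact_range iU.continuous).union (isCompact_range iV.continuous)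
  have hqc : QuasiCompact π := HasAffineProperty.iff_of_isAffine.mpr hcpt
  have hnoeth : IsLocallyNoetherian Z := LocallyOfFiniteType.isLocallyNoetherian π
  have hqs : QuasiSeparated π := inferInstance
  apply IsProper.of_valuativeCriterion
  rw [ValuativeCriterion.iff]
  exact ⟨existence_P1 π h hU hV, uniqueness_P1 π h⟩

end P1

/-- The curve `X` of a model is proper. -/
theorem Model.proper_X {K : Type u} [Field K] {p : ℕ} [hp : Fact p.Prime] [CharP K p]
    {D₁ D₂ : K[X]} [hE : Good (D₁ * D₂)] {G : Tuple (PP p) (Spec (.of K))}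
    (M : Model p D₁ D₂ G) : IsProper G.π :=
  isProper_P1 G.π M.coverX M.iU_π M.iV_π

end Pool.Agent.Lib.MP_76d46b_ag
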