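import Pool.Agent.Lib.MP_76d46b_ag.Smooth
import Pool.Agent.Lib.MP_76d46b_ag.ProperX

/-!
# The branch divisor of a model
-/

open Polynomial TensorProduct CategoryTheory CategoryTheory.Limits AlgebraicGeometry

universe u

set_option linter.unusedSectionVars false

namespace Pool.Agent.Lib.MP_76d46b_ag

section

variable {p : ℕ} [hp : Fact p.Prime] {K : Type u} [Field K] [CharP K p] {D₁ D₂ : K[X]}
variable [hE : Good (D₁ * D₂)] {G : Tuple (PP p) (Spec (.of K))} (M : Model p D₁ D₂ G)

include M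

theorem Model.eB_ιπ : M.eB ≫ G.ι ≫ G.π =
    Spec.map (CommRingCat.ofHom (algebraMap K (AdjoinRoot (D₁ * D₂)))) := by
  rw [← Category.assoc, M.eB_ι, Category.assoc, M.iU_π, ← Spec.map_comp, ← CommRingCat.ofHom_comp]
  rfl

theorem Model.ιπ_eq [IsIso M.eB] : G.ι ≫ G.π = inv M.eB ≫
    Spec.map (CommRingCat.ofHom (algebraMap K (AdjoinRoot (D₁ * D₂)))) := by
  rw [← M.eB_ιπ, IsIso.inv_hom_id_assoc]

theorem Model.finite_B : IsFinite (G.ι ≫ G.π) := by
  have := M.isIso_eB
  have h1 : Module.Finite K (AdjoinRoot (D₁ * D₂)) :=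
    (AdjoinRoot.powerBasis' hE.monic).finite
  have h2 : IsFinite (Spec.map (CommRingCat.ofHom (algebraMap K (AdjoinRoot (D₁ * D₂))))) := by
    rw [IsFinite.SpecMap_iff]
    exact RingHom.finite_algebraMap.mpr h1
  rw [M.ιπ_eq]
  infer_instance

omit M in
theorem etale_adjoinRoot (E : K[X]) (hm : E.Monic) (hs : E.Separable) :
    Algebra.Etale K (AdjoinRoot E) := by
  obtain ⟨a, b, hab⟩ := hs
  let P : StandardEtalePair K := ⟨E, hm, 1, b, a, 1, by
    rw [one_pow, ← hab]; ring⟩
  have h1 : IsLocalization.Away (AdjoinRoot.mk P.f P.g) (AdjoinRoot E) := by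
    change IsLocalization.Away (AdjoinRoot.mk E 1) (AdjoinRoot E)
    rw [map_one]
    exact IsLocalization.away_of_isUnit_of_bijective (AdjoinRoot E) isUnit_one
      Function.bijective_id
  exact etale_away P (AdjoinRoot E)

theorem Model.etale_B (hs : (D₁ * D₂).Separable) : Etale (G.ι ≫ G.π) := by
  have := M.isIso_eB
  have h2 : Etale (Spec.map (CommRingCat.ofHom (algebraMap K (AdjoinRoot (D₁ * D₂))))) := by
    rw [HasRingHomProperty.Spec_iff (P := @Etale)]
    exact RingHom.etale_algebraMap.mpr (etale_adjoinRoot _ hE.monic hs)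
  rw [M.ιπ_eq]
  infer_instance

theorem Model.degree_B (s : Spec (.of K)) : (G.ι ≫ G.π).finrank s = (D₁ * D₂).natDegree := by
  have := M.isIso_eB
  have := M.finite_B
  have h2 : Module.Finite K (AdjoinRoot (D₁ * D₂)) :=
    (AdjoinRoot.powerBasis' hE.monic).finite
  have h1 := Scheme.Hom.finrank_comp_left_of_isIso M.eB (G.ι ≫ G.π)
  rw [← h1, M.eB_ιπ, Scheme.Hom.finrank_SpecMap_algebraMap K (AdjoinRoot (D₁ * D₂)) s,
    Module.rankAtStalk_eq_finrank_of_free]
  exact (AdjoinRoot.powerBasis' hE.monic).finrank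

theorem Model.closed_B : IsClosedImmersion G.ι := by
  have := M.isIso_eB
  have := M.finite_B
  have := M.proper_X
  have := M.open_iU
  have h1 : IsClosedImmersion (Spec.map (CommRingCat.ofHom (AdjoinRoot.mk (D₁ * D₂)))) :=
    IsClosedImmersion.spec_of_surjective _ AdjoinRoot.mk_surjective
  have h2 : IsPreimmersion G.ι := by
    have h3 : G.ι = inv M.eB ≫ Spec.map (CommRingCat.ofHom (AdjoinRoot.mk (D₁ * D₂))) ≫ M.iU := by
      rw [← M.eB_ι, IsIso.inv_hom_id_assoc]
    rw [h3]
    infer_instance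
  have h3 : IsProper G.ι := by
    have : IsProper (G.ι ≫ G.π) := inferInstance
    exact IsProper.of_comp G.ι G.π
  exact .of_isPreimmersion _ (G.ι.isClosedMap.isClosed_range)

end

end Pool.Agent.Lib.MP_76d46b_ag
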