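import Pool.Agent.Lib.MP_76d46b_ag.SmoothCurve

/-!
# Stalks of smooth curves over algebraically closed fields
-/

open Polynomial TensorProduct CategoryTheory AlgebraicGeometry
universe u
namespace Pool.Agent.Lib.MP_76d46b_ag

/-- The structure map from the base field to the stalk. -/
noncomputable def fieldToStalk {K : Type u} [Field K] {C : Scheme.{u}} (f : C ⟶ Spec (.of K))
    (c : C) : CommRingCat.of K ⟶ C.presheaf.stalk c :=
  Spec.preimage (C.fromSpecStalk c ≫ f)

theorem SpecMap_fieldToStalk {K : Type u} [Field K] {C : Scheme.{u}} (f : C ⟶ Spec (.of K))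
    (c : C) : Spec.map (fieldToStalk f c) = C.fromSpecStalk c ≫ f := Spec.map_preimage _

theorem fieldToStalk_comp {K : Type u} [Field K] {X Y : Scheme.{u}} (f : X ⟶ Spec (.of K))
    (φ : Y ⟶ X) (y : Y) : fieldToStalk (φ ≫ f) y = fieldToStalk f (φ y) ≫ φ.stalkMap y := by
  apply Spec.map_injective
  rw [Spec.map_comp, SpecMap_fieldToStalk, SpecMap_fieldToStalk,
    Scheme.SpecMap_stalkMap_fromSpecStalk_assoc]

theorem residue_fieldToStalk_surjective {K : Type u} [Field K] [IsAlgClosed K] {C : Scheme.{u}}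
    (f : C ⟶ Spec (.of K)) [LocallyOfFiniteType f] (c : C) (hc : IsClosed {c}) :
    Function.Surjective ((IsLocalRing.residue (C.presheaf.stalk c)).comp
      (fieldToStalk f c).hom) := by
  have h1 := SpecMap_residueFieldIsoBase_inv f c hc
  have h2 : (residueFieldIsoBase f c hc).inv = fieldToStalk f c ≫ C.residue c := by
    apply Spec.map_injective
    rw [h1, Spec.map_comp, SpecMap_fieldToStalk, Scheme.fromSpecResidueField, Category.assoc]
  have h3 : Function.Surjective (residueFieldIsoBase f c hc).inv.hom :=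
    (ConcreteCategory.bijective_of_isIso (residueFieldIsoBase f c hc).inv).surjective
  rw [h2] at h3
  exact h3

theorem fieldToStalk_eq_germ {K : Type u} [Field K] {C : Scheme.{u}} (f : C ⟶ Spec (.of K))
    (c : C) (V : C.Opens) (hc : c ∈ V) (e : V ≤ f ⁻¹ᵁ ⊤) :
    fieldToStalk f c = (Scheme.ΓSpecIso (.of K)).inv ≫ f.appLE ⊤ V e ≫ C.presheaf.germ V c hc := by
  apply Spec.map_injective
  rw [SpecMap_fieldToStalk]
  apply ext_of_isAffine
  rw [Scheme.Hom.comp_appTop, Scheme.fromSpecStalk_appTop]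
  have h1 : f.appTop ≫ C.presheaf.germ ⊤ c (TopologicalSpace.Opens.mem_top c) =
      f.appLE ⊤ V e ≫ C.presheaf.germ V c hc := by
    rw [Scheme.Hom.appLE, Category.assoc, TopCat.Presheaf.germ_res]
    rfl
  rw [← Category.assoc, h1]
  rw [← cancel_mono (Scheme.ΓSpecIso (C.presheaf.stalk c)).hom, Scheme.ΓSpecIso_naturality]
  simp


theorem eq_top_of_mem_field {K : Type u} [Field K] (U : (Spec (.of K)).Opens)
    (x : Spec (.of K)) (hx : x ∈ U) : U = ⊤ := by
  rw [eq_top_iff]
  intro y _
  have : Subsingleton (PrimeSpectrum K) := inferInstance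
  have hxy : y = x := Subsingleton.elim (α := PrimeSpectrum K) y x
  rwa [hxy]

theorem stalk_smooth_curve {K : Type u} [Field K] [IsAlgClosed K] {C : Scheme.{u}}
    (f : C ⟶ Spec (.of K)) [hf : SmoothOfRelativeDimension 1 f] (c : C) (hc : IsClosed {c}) :
    IsNoetherianRing (C.presheaf.stalk c) ∧ IsDomain (C.presheaf.stalk c) ∧
      ∃ t : C.presheaf.stalk c, t ≠ 0 ∧
        IsLocalRing.maximalIdeal (C.presheaf.stalk c) = Ideal.span {t} := by
  have hsm : Smooth f := SmoothOfRelativeDimension.smooth 1 f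
  obtain ⟨U, hU, V, hV, hcV, e, h⟩ := hf.exists_isStandardSmoothOfRelativeDimension c
  obtain rfl : U = ⊤ := eq_top_of_mem_field U (f c) (e hcV)
  have hres := residue_fieldToStalk_surjective f c hc
  have hg := fieldToStalk_eq_germ f c V hcV e
  -- the algebra structures
  let S := Γ(C, V)
  let g : K →+* Γ(C, V) := ((Scheme.ΓSpecIso (.of K)).inv ≫ f.appLE ⊤ V e).hom
  have hg0 : g.IsStandardSmoothOfRelativeDimension 1 := by
    have h0 : (Scheme.ΓSpecIso (.of K)).inv.hom.IsStandardSmoothOfRelativeDimension 0 :=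
      RingHom.IsStandardSmoothOfRelativeDimension.equiv
        (Scheme.ΓSpecIso (.of K)).symm.commRingCatIsoToRingEquiv
    exact h.comp h0
  let algS : Algebra K Γ(C, V) := g.toAlgebra
  have inst1 : Algebra.IsStandardSmoothOfRelativeDimension 1 K Γ(C, V) := hg0
  let algB : Algebra Γ(C, V) (C.presheaf.stalk c) := (C.presheaf.germ V c hcV).hom.toAlgebra
  let algK : Algebra K (C.presheaf.stalk c) := (fieldToStalk f c).hom.toAlgebra
  have tower : IsScalarTower K Γ(C, V) (C.presheaf.stalk c) := .of_algebraMap_eq' (by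
    change (fieldToStalk f c).hom = _
    rw [hg]
    rfl)
  have hloc : IsLocalization.AtPrime (C.presheaf.stalk c) (hV.primeIdealOf ⟨c, hcV⟩).asIdeal :=
    hV.isLocalization_stalk ⟨c, hcV⟩
  obtain ⟨t, ht1, ht2⟩ := uniformizer_of_standardSmooth (K := K) (S := Γ(C, V))
    (B := C.presheaf.stalk c) (hV.primeIdealOf ⟨c, hcV⟩).asIdeal hres
  have hsm' : Algebra.IsStandardSmooth K Γ(C, V) :=
    Algebra.IsStandardSmoothOfRelativeDimension.isStandardSmooth 1
  have hft : Algebra.FiniteType K Γ(C, V) := inferInstance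
  have hnoeS : IsNoetherianRing Γ(C, V) := Algebra.FiniteType.isNoetherianRing K _
  have hnoe : IsNoetherianRing (C.presheaf.stalk c) :=
    IsLocalization.isNoetherianRing (hV.primeIdealOf ⟨c, hcV⟩).asIdeal.primeCompl _ hnoeS
  have hdom := isDomain_of_uniformizer t ht2 ht1
  refine ⟨hnoe, hdom, t, ?_, ht2⟩
  rintro rfl
  have := @ht1 (1 : C.presheaf.stalk c) 0 (by simp)
  exact one_ne_zero this

end Pool.Agent.Lib.MP_76d46b_ag
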