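import Mathlib

/-!
# Unramifiedness from counting points in a fibre
-/

universe u

namespace Pool.Agent.Lib.MP_76d46b_ag

theorem isUnramifiedAt_of_card_primesOver {R S : Type*} [CommRing R] [CommRing S] [Algebra R S]
    [Module.Finite R S] [Module.Flat R S] (p : Ideal R) [hp : p.IsPrime]
    [PerfectField p.ResidueField]
    (hcard : Nat.card (p.primesOver S) = Module.rankAtStalk (R := R) S ⟨p, hp⟩) (q : Ideal S)
    [hq : q.IsPrime] [q.LiesOver p] : Algebra.IsUnramifiedAt R q := by
  classical
  obtain rfl : p = q.under R := Ideal.LiesOver.over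
  have hqf : Algebra.QuasiFinite R S := inferInstance
  have hfin : Finite ((q.under R).primesOver S) := Algebra.QuasiFinite.finite_primesOver (q.under R)
  have := Fintype.ofFinite ((q.under R).primesOver S)
  have h1 := Ideal.sum_ramification_inertia_eq_finrank_fiber (q.under R) S
  rw [Ideal.finrank_fiber_eq_rankAtStalk, ← hcard, Nat.card_eq_fintype_card,
    Fintype.card_eq_sum_ones] at h1
  have h2 : ∀ q' : (q.under R).primesOver S, 1 ≤ q'.1.ramificationIdx R * q'.1.inertiaDeg R := by
    intro q'
    have := q'.2.1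
    exact Nat.mul_pos (q'.1.ramificationIdx_pos R) (q'.1.inertiaDeg_pos R)
  have h3 := (Finset.sum_eq_sum_iff_of_le (fun q _ => h2 q)).mp h1.symm ⟨q, hq, inferInstance⟩
    (Finset.mem_univ _)
  have h4 : q.ramificationIdx R = 1 := (mul_eq_one.mp h3.symm).1
  exact Ideal.ramificationIdx_eq_one_iff.mp h4

end Pool.Agent.Lib.MP_76d46b_ag
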