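import Pool.Agent.Lib.MP_76d46b_ag.Defs
import Pool.Agent.Lib.MP_76d46b_ag.Unram
import Pool.Agent.Lib.MP_76d46b_ag.Stalk

/-!
# Computations in affine charts
-/

open CategoryTheory CategoryTheory.Limits AlgebraicGeometry
universe u
namespace Pool.Agent.Lib.MP_76d46b_ag

/-- The stalk at a point in an affine chart is a localization of the coordinate ring. -/
theorem exists_chart_stalk {X : Scheme.{u}} {R : Type u} [CommRing R] (i : Spec (.of R) ⟶ X)
    [IsOpenImmersion i] (x : X) (p : PrimeSpectrum R) (h : i p = x) :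
    ∃ g : CommRingCat.of R ⟶ X.presheaf.stalk x, Spec.map g ≫ i = X.fromSpecStalk x ∧
      (letI := g.hom.toAlgebra; IsLocalization.AtPrime (X.presheaf.stalk x) p.asIdeal) := by
  subst h
  let p' : Spec (.of R) := p
  have hiso : IsIso (i.stalkMap p') := inferInstance
  let g0 : CommRingCat.of R ⟶ (Spec (.of R)).presheaf.stalk p' := StructureSheaf.toStalk R p
  refine ⟨g0 ≫ inv (i.stalkMap p'), ?_, ?_⟩
  · have h1 := Scheme.SpecMap_stalkMap_fromSpecStalk i (x := p')
    have h2 : (Spec (.of R)).fromSpecStalk p' = Spec.map g0 :=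
      Spec.fromSpecStalk_eq' _ _
    rw [h2] at h1
    rw [Spec.map_comp, Category.assoc, ← h1, ← Category.assoc, ← Spec.map_comp,
      IsIso.hom_inv_id, Spec.map_id, Category.id_comp]
  · let a0 : Algebra R ((Spec (.of R)).presheaf.stalk p') := g0.hom.toAlgebra
    have h0 : IsLocalization.AtPrime ((Spec (.of R)).presheaf.stalk p') p.asIdeal :=
      StructureSheaf.IsLocalization.to_stalk R p
    let alg : Algebra R (X.presheaf.stalk (i p')) := (g0 ≫ inv (i.stalkMap p')).hom.toAlgebra
    exact (IsLocalization.isLocalization_iff_of_algEquiv p.asIdeal.primeCompl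
      (S := (Spec (.of R)).presheaf.stalk p') (P := X.presheaf.stalk (i p'))
      { (asIso (i.stalkMap p')).symm.commRingCatIsoToRingEquiv with
        commutes' := fun r => rfl }).mp h0

theorem differentMult_of_charts {X Y : Scheme.{u}} (φ : Y ⟶ X) {R A : Type u} [CommRing R]
    [CommRing A] [Algebra R A] (i : Spec (.of R) ⟶ X) [IsOpenImmersion i]
    (j : Spec (.of A) ⟶ Y) [IsOpenImmersion j]
    (h : j ≫ φ = Spec.map (CommRingCat.ofHom (algebraMap R A)) ≫ i)
    (y : Y) (q : PrimeSpectrum A) (hq : j q = y) (n : ℕ∞)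
    (H : ∀ (B : Type u) [CommRing B] [Algebra A B] [Algebra R B] [IsScalarTower R A B]
      [IsLocalization.AtPrime B q.asIdeal], Module.length B Ω[B⁄R] = n) :
    differentMult φ y = n := by
  obtain ⟨gA, hgA, hA⟩ := exists_chart_stalk j y q hq
  let p : PrimeSpectrum R := Spec.map (CommRingCat.ofHom (algebraMap R A)) q
  have hp : i p = φ y := by
    rw [← hq]
    exact (congrArg (fun f : Spec (.of A) ⟶ X => f q) h).symm
  obtain ⟨gR, hgR, hR⟩ := exists_chart_stalk i (φ y) p hp
  have hsq : CommRingCat.ofHom (algebraMap R A) ≫ gA = gR ≫ φ.stalkMap y := by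
    apply Spec.map_injective
    rw [← cancel_mono i, Spec.map_comp, Spec.map_comp, Category.assoc, Category.assoc, ← h, hgR,
      Scheme.SpecMap_stalkMap_fromSpecStalk, ← Category.assoc, hgA]
  let a1 : Algebra A (Y.presheaf.stalk y) := gA.hom.toAlgebra
  let a2 : Algebra R (X.presheaf.stalk (φ y)) := gR.hom.toAlgebra
  let a3 : Algebra (X.presheaf.stalk (φ y)) (Y.presheaf.stalk y) := (φ.stalkMap y).hom.toAlgebra
  let a4 : Algebra R (Y.presheaf.stalk y) :=
    (CommRingCat.ofHom (algebraMap R A) ≫ gA).hom.toAlgebra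
  have t1 : IsScalarTower R A (Y.presheaf.stalk y) := .of_algebraMap_eq' rfl
  have t2 : IsScalarTower R (X.presheaf.stalk (φ y)) (Y.presheaf.stalk y) :=
    .of_algebraMap_eq' (by
      change (CommRingCat.ofHom (algebraMap R A) ≫ gA).hom = _
      rw [hsq]
      rfl)
  have hA' : IsLocalization.AtPrime (Y.presheaf.stalk y) q.asIdeal := hA
  have hR' : IsLocalization.AtPrime (X.presheaf.stalk (φ y)) p.asIdeal := hR
  have h1 := H (Y.presheaf.stalk y)
  have h2 : Algebra.FormallyUnramified R (X.presheaf.stalk (φ y)) :=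
    .of_isLocalization p.asIdeal.primeCompl
  change Module.length (Y.presheaf.stalk y) Ω[Y.presheaf.stalk y⁄X.presheaf.stalk (φ y)] = n
  rw [← h1]
  symm
  have h3 := KaehlerDifferential.map_surjective R (X.presheaf.stalk (φ y)) (Y.presheaf.stalk y)
  have h4 := KaehlerDifferential.exact_mapBaseChange_map R (X.presheaf.stalk (φ y))
    (Y.presheaf.stalk y)
  have h5 : Subsingleton (TensorProduct (X.presheaf.stalk (φ y)) (Y.presheaf.stalk y)
    Ω[X.presheaf.stalk (φ y)⁄R]) := inferInstance
  have h6 : Function.Injective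
      (KaehlerDifferential.map R (X.presheaf.stalk (φ y)) (Y.presheaf.stalk y)
        (Y.presheaf.stalk y)) := by
    rw [injective_iff_map_eq_zero]
    intro a ha
    obtain ⟨b, rfl⟩ := (h4 a).mp ha
    rw [Subsingleton.elim b 0, map_zero]
  exact (LinearEquiv.ofBijective _ ⟨h6, h3⟩).length_eq

theorem isPullback_fromSpec {X Y : Scheme.{u}} (φ : Y ⟶ X) {U : X.Opens} (hU : IsAffineOpen U)
    (hV : IsAffineOpen (φ ⁻¹ᵁ U)) :
    IsPullback hV.fromSpec (Spec.map (φ.app U)) φ hU.fromSpec := by
  refine (IsOpenImmersion.isPullback _ _ _ _ ?_ ?_).flip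
  · have := hU.SpecMap_appLE_fromSpec φ hV le_rfl
    rw [← Scheme.Hom.app_eq_appLE] at this
    exact this.symm
  · rw [IsAffineOpen.opensRange_fromSpec, IsAffineOpen.opensRange_fromSpec]

theorem differentMult_eq_zero_of_card {X Y : Scheme.{u}} (φ : Y ⟶ X) [IsFinite φ] [Flat φ]
    {R A : Type u} [CommRing R] [CommRing A] [Algebra R A] (i : Spec (.of R) ⟶ X)
    [IsOpenImmersion i] (j : Spec (.of A) ⟶ Y)
    (h : IsPullback j (Spec.map (CommRingCat.ofHom (algebraMap R A))) φ i)
    (x : X) (hcard : Nat.card (φ ⁻¹' {x}) = φ.finrank x) (p : PrimeSpectrum R) (hp : i p = x)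
    [PerfectField p.asIdeal.ResidueField] (y : Y) (hy : φ y = x) : differentMult φ y = 0 := by
  have hj : IsOpenImmersion j := MorphismProperty.of_isPullback h.flip inferInstance
  have hfin : IsFinite (Spec.map (CommRingCat.ofHom (algebraMap R A))) :=
    MorphismProperty.of_isPullback h inferInstance
  have hflat : Flat (Spec.map (CommRingCat.ofHom (algebraMap R A))) :=
    MorphismProperty.of_isPullback h inferInstance
  have hfin' : Module.Finite R A := by
    rw [IsFinite.SpecMap_iff] at hfin
    exact RingHom.finite_algebraMap.mp hfin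
  have hflat' : Module.Flat R A := by
    rw [Flat.SpecMap_iff] at hflat
    exact RingHom.flat_algebraMap_iff.mp hflat
  have hw : ∀ q : PrimeSpectrum A, φ (j q) = i (q.comap (algebraMap R A)) := fun q =>
    congrArg (fun f : Spec (.of A) ⟶ X => f q) h.w
  have hiinj : Function.Injective i := i.isOpenEmbedding.injective
  have hjinj : Function.Injective j := j.isOpenEmbedding.injective
  have hlift : ∀ y' : Y, φ y' = x → ∃ q : PrimeSpectrum A, j q = y' := by
    intro y' hy'
    obtain ⟨q, hq, -⟩ := Scheme.exists_preimage_of_isPullback h y' p (hy'.trans hp.symm)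
    exact ⟨q, hq⟩
  let e : p.asIdeal.primesOver A → (φ ⁻¹' {x}) := fun Q =>
    ⟨j (⟨Q.1, Q.2.1⟩ : PrimeSpectrum A), by
      have h1 := hw ⟨Q.1, Q.2.1⟩
      rw [Set.mem_preimage, Set.mem_singleton_iff, h1, ← hp]
      congr 1
      apply PrimeSpectrum.ext
      exact Q.2.2.over.symm⟩
  have he : Function.Bijective e := by
    constructor
    · intro Q Q' hQ
      have h1 := hjinj (congrArg Subtype.val hQ)
      exact Subtype.ext (congrArg PrimeSpectrum.asIdeal h1)
    · rintro ⟨y', hy'⟩
      obtain ⟨q, rfl⟩ := hlift y' hy'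
      have h1 : i (q.comap (algebraMap R A)) = i p := by
        rw [← hw, hp]; exact hy'
      have h2 := hiinj h1
      refine ⟨⟨q.asIdeal, q.2, ⟨?_⟩⟩, rfl⟩
      exact (congrArg PrimeSpectrum.asIdeal h2).symm
  have hrank : Module.rankAtStalk (R := R) A p = φ.finrank x := by
    rw [← Scheme.Hom.finrank_SpecMap_algebraMap R A p, ← hp]
    exact Scheme.Hom.finrank_of_isPullback _ _ _ _ h _
  have hcard' : Nat.card (p.asIdeal.primesOver A) = Module.rankAtStalk (R := R) A p := by
    rw [hrank, ← hcard]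
    exact Nat.card_congr (Equiv.ofBijective e he)
  obtain ⟨q, hq⟩ := hlift y hy
  have hqp : q.comap (algebraMap R A) = p := by
    apply hiinj
    rw [← hw, hp, hq, hy]
  have hover : q.asIdeal.LiesOver p.asIdeal := ⟨(congrArg PrimeSpectrum.asIdeal hqp).symm⟩
  have hunr := isUnramifiedAt_of_card_primesOver p.asIdeal hcard' q.asIdeal
  refine differentMult_of_charts φ i j h.w y q hq 0 ?_
  intro B _ _ _ _ _
  let eB := IsLocalization.algEquiv q.asIdeal.primeCompl (Localization.AtPrime q.asIdeal) B
  have h1 : Algebra.FormallyUnramified R B :=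
    Algebra.FormallyUnramified.of_equiv (eB.restrictScalars R)
  rw [Module.length_eq_zero_iff]
  infer_instance

end Pool.Agent.Lib.MP_76d46b_ag
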