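import Pool.Agent.Lib.MP_76d46b_ag.P1Ring
import Pool.Agent.Lib.MP_76d46b_ag.BaseChange

/-!
# The charts of the covering curve
-/

open Polynomial TensorProduct CategoryTheory CategoryTheory.Limits

universe u

set_option linter.unusedSectionVars false

namespace Pool.Agent.Lib.MP_76d46b_ag

section

variable {K : Type u} [Field K] {E : K[X]} [hE : Good E]

noncomputable instance algVW : Algebra (RV E) (RW E) := (bMap hE : RV E →+* RW E).toAlgebra

theorem algebraMap_VW (r : RV E) : algebraMap (RV E) (RW E) r = bMap hE r := rfl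

instance : IsScalarTower K (RV E) (RW E) := .of_algebraMap_eq fun r => by
  rw [algebraMap_VW, AlgHom.commutes]

instance isLoc_VW : IsLocalization.Away (algebraMap K[X] (RV E) X) (RW E) := isLocalization_bMap hE

/-- The function `1/D` in the chart at infinity, for a divisor `D` of `E`. -/
noncomputable def fV (E D : K[X]) : RV E :=
  Ring.inverse (algebraMap K[X] (RV E) D.reverse) * (algebraMap K[X] (RV E) X) ^ D.natDegree

/-- The function `1/D` on the intersection, for a divisor `D` of `E`. -/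
noncomputable def fW (E D : K[X]) : RW E := Ring.inverse (algebraMap K[X] (RW E) D)

theorem isUnit_reverse_V {D : K[X]} (hD : D ∣ E) :
    IsUnit (algebraMap K[X] (RV E) D.reverse) := by
  have h1 : D.reverse ∣ E.reverse := by
    obtain ⟨D', rfl⟩ := hD
    rw [reverse_mul_of_domain]
    exact dvd_mul_right _ _
  exact isUnit_of_dvd_unit (map_dvd _ h1) (IsLocalization.Away.algebraMap_isUnit E.reverse)

theorem isUnit_W {D : K[X]} (hD : D ∣ E) : IsUnit (algebraMap K[X] (RW E) D) :=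
  isUnit_of_dvd_unit (map_dvd _ hD) (IsLocalization.Away.algebraMap_isUnit E)

theorem mul_fW {D : K[X]} (hD : D ∣ E) : algebraMap K[X] (RW E) D * fW E D = 1 :=
  Ring.mul_inverse_cancel _ (isUnit_W hD)

theorem mul_fV {D : K[X]} (hD : D ∣ E) :
    algebraMap K[X] (RV E) D.reverse * fV E D = (algebraMap K[X] (RV E) X) ^ D.natDegree := by
  rw [fV, ← mul_assoc, Ring.mul_inverse_cancel _ (isUnit_reverse_V hD), one_mul]

theorem algebraMap_fV {D : K[X]} (hD : D ∣ E) : algebraMap (RV E) (RW E) (fV E D) = fW E D := by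
  have h1 := congrArg (bMap hE) (mul_fV hD)
  rw [map_mul, map_pow, bMap_X, bMap_algebraMap] at h1
  have h2 := aeval_reverse_mul hE D
  have h3 := mul_fW (E := E) hD
  have h4 : sW E ^ D.natDegree * xW E ^ D.natDegree = 1 := by
    rw [← mul_pow, sW_mul_xW hE, one_pow]
  rw [algebraMap_VW]
  have h5 : algebraMap K[X] (RW E) D * bMap hE (fV E D) = 1 := by
    rw [← h2]
    linear_combination (xW E ^ D.natDegree) * h1 + h4
  exact (isUnit_W hD).mul_right_injective (h5.trans h3.symm)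

end

/-! ### Coordinate rings of the covering curve -/

section

variable {K : Type u} [Field K] (p : ℕ) [hp : Fact p.Prime] (D₁ D₂ : K[X])

/-- over `K[x]` -/
abbrev AU : Type u := InfAlg p D₁ ⊗[K[X]] InfAlg p D₂

/-- over the chart at infinity -/
abbrev AV : Type u := FinAlg p (fV (D₁ * D₂) D₁) ⊗[RV (D₁ * D₂)] FinAlg p (fV (D₁ * D₂) D₂)

/-- over the intersection -/
abbrev AW : Type u := FinAlg p (fW (D₁ * D₂) D₁) ⊗[RW (D₁ * D₂)] FinAlg p (fW (D₁ * D₂) D₂)

variable [hE : Good (D₁ * D₂)]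

/-- `AU → AW` -/
noncomputable def aA : AU p D₁ D₂ →ₐ[K[X]] AW p D₁ D₂ :=
  tmap (infToFin D₁ _ (mul_fW (dvd_mul_right D₁ D₂))) (infToFin D₂ _ (mul_fW (dvd_mul_left D₂ D₁)))

/-- `AV → AW` -/
noncomputable def bA : AV p D₁ D₂ →ₐ[RV (D₁ * D₂)] AW p D₁ D₂ :=
  tmap (finMap _ _ (algebraMap_fV (dvd_mul_right D₁ D₂)))
    (finMap _ _ (algebraMap_fV (dvd_mul_left D₂ D₁)))

theorem bc_aA : BC K[X] (RW (D₁ * D₂)) (AU p D₁ D₂) (AW p D₁ D₂) (aA p D₁ D₂) :=
  BC.tensor (bc_infToFin _ _ _) (bc_infToFin _ _ _)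

theorem bc_bA : BC (RV (D₁ * D₂)) (RW (D₁ * D₂)) (AV p D₁ D₂) (AW p D₁ D₂) (bA p D₁ D₂) :=
  BC.tensor (bc_fin _ _ _) (bc_fin _ _ _)

end

end Pool.Agent.Lib.MP_76d46b_ag
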