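import Pool.Agent.Lib.MP_76d46b_ag.Defs

/-!
# The action of the automorphisms of the group on the moduli stack and on the moduli space
-/

open CategoryTheory CategoryTheory.Limits AlgebraicGeometry
universe u
namespace Pool.Agent.Lib.MP_76d46b_ag

/-! ### Twisting by automorphisms of the group -/

section Twist

variable {P : Type} [Group P]

theorem IsGaloisCover.twist {K : Type u} [Field K] {G : Tuple P (Spec (.of K))} {gX gY : ℕ}
    {η : Multiset ℕ} (h : IsGaloisCover G gX gY η) (α : MulAut P) :
    IsGaloisCover (G.twist α) gX gY η where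
  curve_X := h.curve_X
  curve_Y := h.curve_Y
  genus_X := h.genus_X
  genus_Y := h.genus_Y
  finite := h.finite
  galois := by
    obtain ⟨U, hU, het, hgal⟩ := h.galois
    refine ⟨U, hU, het, fun Ω _ _ x hx => ⟨(hgal Ω x hx).1, fun y y' hy hy' => ?_⟩⟩
    obtain ⟨σ, hσ, hσ'⟩ := (hgal Ω x hx).2 y y' hy hy'
    refine ⟨α.symm σ, ?_, fun τ hτ => ?_⟩
    · change y ≫ (G.act (α (α.symm σ))).hom = y'
      rw [MulEquiv.apply_symm_apply]
      exact hσ
    · have h1 := hσ' (α τ) hτ
      rw [← h1, MulEquiv.symm_apply_apply]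
  branch := h.branch
  config := h.config

/-- A cartesian morphism stays cartesian after twisting. -/
def Tuple.Cart.twist {T S : Scheme.{u}} {G : Tuple P T} {F : Tuple P S} {f : T ⟶ S}
    (c : G.Cart F f) (α : MulAut P) : (G.twist α).Cart (F.twist α) f where
  x := c.x
  b := c.b
  y := c.y
  isPullback_x := c.isPullback_x
  isPullback_b := c.isPullback_b
  isPullback_y := c.isPullback_y
  equivariant σ := c.equivariant (α σ)

theorem IsFamily.twist {S : Scheme.{u}} {F : Tuple P S} {gX gY : ℕ} {η : Multiset ℕ}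
    (h : IsFamily F gX gY η) (α : MulAut P) : IsFamily (F.twist α) gX gY η where
  smooth_X := h.smooth_X
  proper_X := h.proper_X
  closed_B := h.closed_B
  finite_B := h.finite_B
  etale_B := h.etale_B
  degree_B := h.degree_B
  finite_Y := h.finite_Y
  flat_Y := h.flat_Y
  fibre K _ _ s := by
    obtain ⟨G, ⟨c⟩, hG⟩ := h.fibre K s
    exact ⟨G.twist α, ⟨c.twist α⟩, hG.twist α⟩

/-- The automorphism group of `P` acts on the objects of `𝓜_η`, by changing the action of `P`
on `Y` by an automorphism of `P` (and leaving the covering morphism unchanged). -/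
def Obj.twist {k : Type u} [Field k] {gX gY : ℕ} {η : Multiset ℕ} (F : Obj.{u} k P gX gY η)
    (α : MulAut P) : Obj.{u} k P gX gY η where
  S := F.S
  str := F.str
  F := F.F.twist α
  isFamily := F.isFamily.twist α

/-- Morphisms of the stack are compatible with the action of the automorphisms of `P`. -/
def Obj.Hom.twist {k : Type u} [Field k] {gX gY : ℕ} {η : Multiset ℕ} {G F : Obj.{u} k P gX gY η}
    (h : G.Hom F) (α : MulAut P) : (G.twist α).Hom (F.twist α) where
  f := h.f
  w := h.w
  cart := h.cart.twist α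

/-- The action on pointed families. -/
def Pointed.twist {k : Type u} [Field k] {gX gY : ℕ} {η : Multiset ℕ}
    (a : Pointed.{u} k P gX gY η) (α : MulAut P) : Pointed.{u} k P gX gY η :=
  ⟨a.family.twist α, a.pt⟩

theorem Pointed.Rel.twist {k : Type u} [Field k] {gX gY : ℕ} {η : Multiset ℕ}
    {a b : Pointed.{u} k P gX gY η} (h : a.Rel b) (α : MulAut P) :
    (a.twist α).Rel (b.twist α) := by
  obtain ⟨h, hh⟩ := h
  exact ⟨h.twist α, hh⟩

/-- The action of the automorphism group of `P` on the moduli space `|𝓜_η|`. -/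
def Moduli.twist {k : Type u} [Field k] {gX gY : ℕ} {η : Multiset ℕ} (α : MulAut P)
    (x : Moduli.{u} k P gX gY η) : Moduli.{u} k P gX gY η :=
  Quot.map (fun a => a.twist α) (fun _ _ h => h.twist α) x

end Twist

/-- `|𝓜_η|` is the disjoint union of two nonempty open and closed subsets that are stable under
the action of the automorphism group of `P`. -/
def DisconnectedModAut (k : Type u) [Field k] (P : Type) [Group P] (gX gY : ℕ)
    (η : Multiset ℕ) : Prop :=
  ∃ C : Set (Moduli.{u} k P gX gY η), IsClopen C ∧ C.Nonempty ∧ Cᶜ.Nonempty ∧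
    ∀ (α : MulAut P) (x : Moduli.{u} k P gX gY η), Moduli.twist α x ∈ C ↔ x ∈ C

end Pool.Agent.Lib.MP_76d46b_ag
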