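import Pool.Agent.Lib.MP_76d46b_ag.Family
import Pool.Agent.Lib.MP_76d46b_ag.Twist

/-!
# The decomposition of the moduli and its invariance under automorphisms of the group
-/

open CategoryTheory CategoryTheory.Limits AlgebraicGeometry
universe u
namespace Pool.Agent.Lib.MP_76d46b_ag

section Decomp

variable (k : Type u) [Field k] (p : ℕ) [Fact p.Prime] [CharP k p]
variable (P : Type) [CommGroup P] [Finite P] (gX gY : ℕ)

theorem exists_isClopen (hP : Nat.card P = p ^ 2) (r m : ℕ) :
    ∃ C : Set (Moduli.{u} k P gX gY (Multiset.replicate r (2 * p * (p - 1)))), IsClopen C ∧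
      ∀ (F : Obj.{u} k P gX gY (Multiset.replicate r (2 * p * (p - 1)))) (s : F.S),
        F.point s ∈ C ↔ ∃ σ ≠ 1, F.F.count σ s = m := by
  let pred : Moduli.{u} k P gX gY (Multiset.replicate r (2 * p * (p - 1))) → Prop :=
    Quot.lift (fun a => ∃ σ ≠ 1, a.family.F.count σ a.pt = m) (by
      rintro ⟨G, t⟩ ⟨F, s⟩ hh
      obtain ⟨h, rfl⟩ : ∃ h : G.Hom F, h.f t = s := hh
      apply propext
      refine exists_congr fun σ => and_congr_right fun hσ => ?_
      have := h.cart.count_eq p hP r F.str G.str F.isFamily G.isFamily σ hσ t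
      change G.F.count σ t = m ↔ F.F.count σ (h.f t) = m
      rw [this])
  refine ⟨{x | pred x}, ?_, fun F s => Iff.rfl⟩
  have key : ∀ (F : Obj.{u} k P gX gY (Multiset.replicate r (2 * p * (p - 1)))),
      IsClopen {s : F.S | ∃ σ ≠ 1, F.F.count σ s = m} := by
    intro F
    have h1 : {s : F.S | ∃ σ ≠ 1, F.F.count σ s = m} =
        ⋃ σ : {σ : P // σ ≠ 1}, (F.F.count σ.1) ⁻¹' {m} := by
      ext s
      simp only [Set.mem_ofPred_eq, Set.mem_iUnion, Set.mem_preimage, Set.mem_singleton_iff,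
        Subtype.exists, exists_prop]
    rw [h1]
    refine isClopen_iUnion_of_finite fun σ => ?_
    exact (F.isFamily.isLocallyConstant_count p hP r F.str σ.1 σ.2).isClopen_fiber m
  have hcont : ∀ U : Set (Moduli.{u} k P gX gY (Multiset.replicate r (2 * p * (p - 1)))),
      (∀ F : Obj.{u} k P gX gY (Multiset.replicate r (2 * p * (p - 1))),
        IsOpen {s : F.S | F.point s ∈ U}) → IsOpen U := by
    intro U hU
    exact hU
  constructor
  · rw [← isOpen_compl_iff]
    exact hcont _ fun F => (key F).1.isOpen_compl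
  · exact hcont _ fun F => (key F).2

theorem Obj.count_twist {k : Type u} [Field k] {P : Type} [Group P] {gX gY : ℕ} {η : Multiset ℕ}
    (F : Obj.{u} k P gX gY η) (α : MulAut P) (s : F.S) (m : ℕ) :
    (∃ σ ≠ 1, (F.twist α).F.count σ s = m) ↔ ∃ σ ≠ 1, F.F.count σ s = m := by
  have h1 : ∀ σ, (F.twist α).F.count σ s = F.F.count (α σ) s := fun σ => rfl
  constructor
  · rintro ⟨σ, hσ, h⟩
    exact ⟨α σ, fun h0 => hσ (by simpa using h0), (h1 σ).symm.trans h⟩
  · rintro ⟨σ, hσ, h⟩
    refine ⟨α.symm σ, fun h0 => hσ (by simpa using h0), ?_⟩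
    rw [h1, MulEquiv.apply_symm_apply]
    exact h

end Decomp

end Pool.Agent.Lib.MP_76d46b_ag
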