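import Pool.Agent.Lib.MP_76d46b_ag.GaloisModel
import Pool.Agent.Lib.MP_76d46b_ag.Decomp

/-!
# The counting function for models
-/

open Polynomial TensorProduct CategoryTheory CategoryTheory.Limits AlgebraicGeometry

universe u

set_option linter.unusedSectionVars false

namespace Pool.Agent.Lib.MP_76d46b_ag

variable {p : ℕ} [hp : Fact p.Prime] {K : Type u} [Field K] [CharP K p] [IsAlgClosed K]
  {D₁ D₂ : K[X]}
variable [hE : Good (D₁ * D₂)] {G : Tuple (PP p) (Spec (.of K))} (M : Model p D₁ D₂ G)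

include M

/-- Over a zero `r` of `E`, the automorphism `σ` has a fixed point iff `σ` lies in the inertia
group. -/
theorem Model.exists_fix_iff (hs : (D₁ * D₂).Separable) (σ : PP p) (r : K)
    (hr : (D₁ * D₂).IsRoot r) :
    (∃ y, G.φ y = M.iU (ptX r) ∧ σ ∈ G.stab y) ↔
      (D₁.IsRoot r ∧ σ.toAdd.2 = 0) ∨ (D₂.IsRoot r ∧ σ.toAdd.1 = 0) := by
  constructor
  · rintro ⟨y, hy, hσ⟩
    obtain ⟨q, rfl, hq⟩ := M.exists_jU y _ hy
    have h1 : ∀ f : K[X], f.IsRoot r ↔ algebraMap K[X] (AU p D₁ D₂) f ∈ q.asIdeal := by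
      intro f
      rw [← mem_ptX, ← hq]
      rfl
    rcases mem_or_mem_of_mul M q.asIdeal hs.isCoprime ((h1 _).mp hr) with ⟨h2, -⟩ | ⟨-, h2⟩
    · exact Or.inl ⟨(h1 _).mpr h2, (M.mem_stab₁ hs σ q h2).mp hσ⟩
    · exact Or.inr ⟨(h1 _).mpr h2, (M.mem_stab₂ hs σ q h2).mp hσ⟩
  · obtain ⟨q, hq⟩ := exists_over (p := p) (D₁ := D₁) (D₂ := D₂) (ptX r)
    have h1 : ∀ f : K[X], f.IsRoot r → algebraMap K[X] (AU p D₁ D₂) f ∈ q.asIdeal := by
      intro f hf
      rw [← mem_ptX, ← hq] at hf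
      exact hf
    rintro (⟨h2, h3⟩ | ⟨h2, h3⟩)
    · exact ⟨M.jU q, by rw [M.φ_jU, hq], (M.mem_stab₁ hs σ q (h1 _ h2)).mpr h3⟩
    · exact ⟨M.jU q, by rw [M.φ_jU, hq], (M.mem_stab₂ hs σ q (h1 _ h2)).mpr h3⟩

theorem Model.count_eq {gX gY : ℕ} {η : Multiset ℕ} (h : IsGaloisCover G gX gY η)
    [IsClosedImmersion G.ι] [IsFinite (G.ι ≫ G.π)] [Etale (G.ι ≫ G.π)]
    (hs : (D₁ * D₂).Separable) (σ : PP p) (s : Spec (.of K)) :
    G.count σ s = Nat.card {r : K // (D₁.IsRoot r ∧ σ.toAdd.2 = 0) ∨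
      (D₂.IsRoot r ∧ σ.toAdd.1 = 0)} := by
  have hdisc := discreteTopology_of_finite (G.ι ≫ G.π)
  have hfin : IsFinite (G.fixOpens σ).ι := finite_ι_of_isClopen _ (isClosed_discrete _)
  have hfin2 : IsFinite ((G.fixOpens σ).ι ≫ G.ι ≫ G.π) := inferInstance
  have het : Etale ((G.fixOpens σ).ι ≫ G.ι ≫ G.π) := inferInstance
  rw [Tuple.count, finrank_eq_card]
  have hset : ((G.fixOpens σ : Set G.B)) = G.fixBranch σ :=
    (isOpen_discrete (G.fixBranch σ)).interior_eq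
  have hιinj : Function.Injective G.ι := G.ι.isClosedEmbedding.injective
  let e : {r : K // (D₁.IsRoot r ∧ σ.toAdd.2 = 0) ∨ (D₂.IsRoot r ∧ σ.toAdd.1 = 0)} →
      G.fixOpens σ := fun r => by
    have hr : (D₁ * D₂).IsRoot r.1 := by
      rcases r.2 with ⟨h1, -⟩ | ⟨h1, -⟩
      · exact root_mul_right_of_isRoot _ h1
      · exact root_mul_left_of_isRoot _ h1
    have h1 := (M.mem_range_ι (M.iU (ptX r.1))).mpr ⟨ptX r.1, (mem_ptX _ _).mpr hr, rfl⟩
    refine ⟨h1.choose, ?_⟩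
    change h1.choose ∈ (G.fixOpens σ : Set G.B)
    rw [hset, h.mem_fixBranch_iff, h1.choose_spec]
    exact (M.exists_fix_iff hs σ r.1 hr).mpr r.2
  have he : ∀ r, G.ι (e r).1 = M.iU (ptX r.1) := by
    intro r
    have hr : (D₁ * D₂).IsRoot r.1 := by
      rcases r.2 with ⟨h1, -⟩ | ⟨h1, -⟩
      · exact root_mul_right_of_isRoot _ h1
      · exact root_mul_left_of_isRoot _ h1
    have h1 := (M.mem_range_ι (M.iU (ptX r.1))).mpr ⟨ptX r.1, (mem_ptX _ _).mpr hr, rfl⟩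
    exact h1.choose_spec
  symm
  refine Nat.card_congr (Equiv.ofBijective e ⟨?_, ?_⟩)
  · intro r r' hrr
    have h1 : M.iU (ptX r.1) = M.iU (ptX r'.1) := by rw [← he, ← he, hrr]
    exact Subtype.ext (ptX_injective (M.iU_injective h1))
  · rintro ⟨b, hb⟩
    have hb' : b ∈ G.fixBranch σ := by
      rw [← hset]; exact hb
    have hb2 : G.ι b ∈ branchLocus G.φ := by
      rw [← M.branch hs]; exact ⟨b, rfl⟩
    obtain ⟨r, hr, hrb⟩ := (M.mem_branchLocus hs _).mp hb2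
    rw [h.mem_fixBranch_iff, ← hrb] at hb'
    have h2 := (M.exists_fix_iff hs σ r hr).mp hb'
    refine ⟨⟨r, h2⟩, ?_⟩
    apply Subtype.ext
    apply hιinj
    rw [he, hrb]

omit M hE in
theorem card_roots_eq {D : K[X]} (hs : D.Separable) : Nat.card {r : K // D.IsRoot r} = D.natDegree := by
  classical
  have h1 : Nat.card {r : K // D.IsRoot r} = D.roots.toFinset.card := by
    have h2 : Nat.card {r : K // D.IsRoot r} = Nat.card D.roots.toFinset :=
      Nat.card_congr (Equiv.subtypeEquivRight fun r => by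
        rw [Multiset.mem_toFinset, mem_roots hs.ne_zero])
    rw [h2, Nat.card_eq_fintype_card, Fintype.card_coe]
  rw [h1, Multiset.toFinset_card_of_nodup (nodup_roots hs)]
  exact (splits_iff_card_roots.mp (IsAlgClosed.splits D))

theorem Model.count_left {gX gY : ℕ} {η : Multiset ℕ} (h : IsGaloisCover G gX gY η)
    [IsClosedImmersion G.ι] [IsFinite (G.ι ≫ G.π)] [Etale (G.ι ≫ G.π)]
    (hs : (D₁ * D₂).Separable) (σ : PP p) (h1 : σ.toAdd.1 ≠ 0) (h2 : σ.toAdd.2 = 0)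
    (s : Spec (.of K)) : G.count σ s = D₁.natDegree := by
  rw [M.count_eq h hs, ← card_roots_eq hs.of_mul_left]
  refine Nat.card_congr (Equiv.subtypeEquivRight fun r => ?_)
  simp only [h1, h2, and_true, and_false, or_false]

theorem Model.count_right {gX gY : ℕ} {η : Multiset ℕ} (h : IsGaloisCover G gX gY η)
    [IsClosedImmersion G.ι] [IsFinite (G.ι ≫ G.π)] [Etale (G.ι ≫ G.π)]
    (hs : (D₁ * D₂).Separable) (σ : PP p) (h1 : σ.toAdd.1 = 0) (h2 : σ.toAdd.2 ≠ 0)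
    (s : Spec (.of K)) : G.count σ s = D₂.natDegree := by
  rw [M.count_eq h hs, ← card_roots_eq hs.of_mul_right]
  refine Nat.card_congr (Equiv.subtypeEquivRight fun r => ?_)
  simp only [h1, h2, and_true, and_false, false_or]

theorem Model.count_none {gX gY : ℕ} {η : Multiset ℕ} (h : IsGaloisCover G gX gY η)
    [IsClosedImmersion G.ι] [IsFinite (G.ι ≫ G.π)] [Etale (G.ι ≫ G.π)]
    (hs : (D₁ * D₂).Separable) (σ : PP p) (h1 : σ.toAdd.1 ≠ 0) (h2 : σ.toAdd.2 ≠ 0)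
    (s : Spec (.of K)) : G.count σ s = 0 := by
  rw [M.count_eq h hs, Nat.card_eq_zero]
  left
  constructor
  rintro ⟨r, hr⟩
  simp only [h1, h2, and_false, or_false] at hr

end Pool.Agent.Lib.MP_76d46b_ag
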