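import Pool.Agent.Lib.MP_76d46b_ag.FieldChange

/-!
# Change of the base field for the coordinate rings of the covering curve
-/

open Polynomial TensorProduct CategoryTheory CategoryTheory.Limits

universe u

set_option linter.unusedSectionVars false

namespace Pool.Agent.Lib.MP_76d46b_ag

section Cst

variable {p : ℕ} [hp : Fact p.Prime] {K K' : Type u} [Field K] [Field K'] [Algebra K K']
  [CharP K p] [CharP K' p]

variable (K K') in
theorem cst_eq_cst (A : Type*) [CommRing A] [Algebra K A] [Algebra K' A] [IsScalarTower K K' A]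
    (a : ZMod p) : cst K A a = cst K' A a := by
  rw [cst, cst, IsScalarTower.algebraMap_apply K K' A]
  congr 1
  exact congrArg (fun f : ZMod p →+* K' => f a) (Subsingleton.elim
    ((algebraMap K K').comp (ZMod.castHom (dvd_refl p) K)) (ZMod.castHom (dvd_refl p) K'))

variable {R : Type u} [CommRing R] [Algebra K R] [Algebra K' R] [IsScalarTower K K' R]

variable (K K') in
theorem finAct_eq (f : R) (a : ZMod p) : finAct K f a = finAct K' f a := by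
  apply AdjoinRoot.algHom_ext
  rw [finAct_root, finAct_root, cst_eq_cst K K']

variable (K K') in
theorem infAct_eq (D : R) (a : ZMod p) : infAct K D a = infAct K' D a := by
  apply AdjoinRoot.algHom_ext
  rw [infAct_root, infAct_root]
  congr 1
  have h1 := infInv_spec K D a
  have h2 := infInv_spec K' D a
  rw [cst_eq_cst K K'] at h1
  exact (isUnit_inf K' D a).mul_right_injective (h1.trans h2.symm)

end Cst

section

variable {K K' : Type u} [Field K] [Field K'] [Algebra K K'] (p : ℕ) [hp : Fact p.Prime]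

attribute [local instance] Polynomial.algebra

variable (D₁ D₂ : K[X]) (D₁' D₂' : K'[X]) (h₁ : D₁.map (algebraMap K K') = D₁')
  (h₂ : D₂.map (algebraMap K K') = D₂')

/-- single factor of `mapAU` -/
noncomputable def mapFU (D : K[X]) (D' : K'[X]) (hD : D.map (algebraMap K K') = D') :
    InfAlg p D →+* InfAlg p D' :=
  (infMap (p := p) (R := K[X]) (R' := K'[X]) D D' hD : InfAlg p D →ₐ[K[X]] InfAlg p D')

theorem mapFU_root (D : K[X]) (D' : K'[X]) (hD : D.map (algebraMap K K') = D') :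
    mapFU p D D' hD (AdjoinRoot.root _) = AdjoinRoot.root _ :=
  infMap_root (p := p) (R := K[X]) (R' := K'[X]) D D' hD

theorem mapFU_algebraMap (D : K[X]) (D' : K'[X]) (hD : D.map (algebraMap K K') = D') (r : K[X]) :
    mapFU p D D' hD (algebraMap _ _ r) = algebraMap K'[X] _ (r.map (algebraMap K K')) :=
  AlgHom.commutes (infMap (p := p) (R := K[X]) (R' := K'[X]) D D' hD) r

theorem mapFU_infAct [CharP K p] [CharP K' p] (D : K[X]) (D' : K'[X])
    (hD : D.map (algebraMap K K') = D') (a : ZMod p) (x : InfAlg p D) :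
    mapFU p D D' hD (infAct K D a x) = infAct K' D' a (mapFU p D D' hD x) := by
  rw [← infAct_eq K K' D']
  exact infMap_infAct K (R := K[X]) (R' := K'[X]) D D' hD a x

/-- `AU → AU'` -/
noncomputable def mapAU : AU p D₁ D₂ →+* AU p D₁' D₂' :=
  (tmap (infMap (p := p) D₁ D₁' h₁) (infMap (p := p) D₂ D₂' h₂) :
    AU p D₁ D₂ →ₐ[K[X]] AU p D₁' D₂')

theorem isPushout_AU : IsPushout (CommRingCat.ofHom (mapRingHom (algebraMap K K')))
    (CommRingCat.ofHom (algebraMap K[X] (AU p D₁ D₂)))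
    (CommRingCat.ofHom (algebraMap K'[X] (AU p D₁' D₂')))
    (CommRingCat.ofHom (mapAU p D₁ D₂ D₁' D₂' h₁ h₂)) :=
  (BC.tensor (bc_inf (p := p) (R := K[X]) (R' := K'[X]) D₁ D₁' h₁)
    (bc_inf (p := p) (R := K[X]) (R' := K'[X]) D₂ D₂' h₂)).isPushout

theorem mapAU_tmul (x : InfAlg p D₁) (y : InfAlg p D₂) :
    mapAU p D₁ D₂ D₁' D₂' h₁ h₂ (x ⊗ₜ y) = mapFU p D₁ D₁' h₁ x ⊗ₜ mapFU p D₂ D₂' h₂ y :=
  tmap_tmul _ _ _ _

theorem mapAU_actU [CharP K p] [CharP K' p] (σ : PP p) (x : AU p D₁ D₂) :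
    mapAU p D₁ D₂ D₁' D₂' h₁ h₂ (actU p D₁ D₂ σ x) =
      actU p D₁' D₂' σ (mapAU p D₁ D₂ D₁' D₂' h₁ h₂ x) := by
  refine TensorProduct.induction_on x ?_ ?_ ?_
  · simp only [map_zero]
  · intro x y
    rw [actU_tmul, mapAU_tmul, mapAU_tmul, actU_tmul, mapFU_infAct, mapFU_infAct]
  · intro x y hx hy
    rw [map_add, map_add, map_add, map_add, hx, hy]

variable (h : (D₁ * D₂).map (algebraMap K K') = D₁' * D₂')
variable [hE : Good (D₁ * D₂)] [hE' : Good (D₁' * D₂')]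

/-- the algebra structure -/
noncomputable abbrev algV : Algebra (RV (D₁ * D₂)) (RV (D₁' * D₂')) := (mapV _ _ h).toAlgebra

/-- the algebra structure -/
noncomputable abbrev algW : Algebra (RW (D₁ * D₂)) (RW (D₁' * D₂')) := (mapW _ _ h).toAlgebra

include h₁ h in
theorem mapV_fV₁ : mapV _ _ h (fV (D₁ * D₂) D₁) = fV (D₁' * D₂') D₁' := by
  rw [mapV_fV _ _ h _ (dvd_mul_right D₁ D₂), h₁]

include h₂ h in
theorem mapV_fV₂ : mapV _ _ h (fV (D₁ * D₂) D₂) = fV (D₁' * D₂') D₂' := by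
  rw [mapV_fV _ _ h _ (dvd_mul_left D₂ D₁), h₂]

include h₁ h in
theorem mapW_fW₁ : mapW _ _ h (fW (D₁ * D₂) D₁) = fW (D₁' * D₂') D₁' := by
  rw [mapW_fW _ _ h _ (dvd_mul_right D₁ D₂), h₁]

include h₂ h in
theorem mapW_fW₂ : mapW _ _ h (fW (D₁ * D₂) D₂) = fW (D₁' * D₂') D₂' := by
  rw [mapW_fW _ _ h _ (dvd_mul_left D₂ D₁), h₂]

/-- `AV → AV'` -/
noncomputable def mapAV : AV p D₁ D₂ →+* AV p D₁' D₂' :=
  letI := algV D₁ D₂ D₁' D₂' h
  (tmap (finMap (p := p) _ _ (mapV_fV₁ D₁ D₂ D₁' D₂' h₁ h))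
    (finMap (p := p) _ _ (mapV_fV₂ D₁ D₂ D₁' D₂' h₂ h)) :
    AV p D₁ D₂ →ₐ[RV (D₁ * D₂)] AV p D₁' D₂')

/-- `AW → AW'` -/
noncomputable def mapAW : AW p D₁ D₂ →+* AW p D₁' D₂' :=
  letI := algW D₁ D₂ D₁' D₂' h
  (tmap (finMap (p := p) _ _ (mapW_fW₁ D₁ D₂ D₁' D₂' h₁ h))
    (finMap (p := p) _ _ (mapW_fW₂ D₁ D₂ D₁' D₂' h₂ h)) :
    AW p D₁ D₂ →ₐ[RW (D₁ * D₂)] AW p D₁' D₂')

theorem isPushout_AV : IsPushout (CommRingCat.ofHom (mapV _ _ h))
    (CommRingCat.ofHom (algebraMap (RV (D₁ * D₂)) (AV p D₁ D₂)))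
    (CommRingCat.ofHom (algebraMap (RV (D₁' * D₂')) (AV p D₁' D₂')))
    (CommRingCat.ofHom (mapAV p D₁ D₂ D₁' D₂' h₁ h₂ h)) :=
  letI := algV D₁ D₂ D₁' D₂' h
  (BC.tensor (bc_fin (p := p) (R := RV (D₁ * D₂)) (R' := RV (D₁' * D₂')) _ _
      (mapV_fV₁ D₁ D₂ D₁' D₂' h₁ h))
    (bc_fin (p := p) (R := RV (D₁ * D₂)) (R' := RV (D₁' * D₂')) _ _
      (mapV_fV₂ D₁ D₂ D₁' D₂' h₂ h))).isPushout

/-- single factor of `mapAV` -/
noncomputable def mapFV (f : RV (D₁ * D₂)) (f' : RV (D₁' * D₂')) (hf : mapV _ _ h f = f') :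
    FinAlg p f →+* FinAlg p f' :=
  letI := algV D₁ D₂ D₁' D₂' h
  (finMap (p := p) f f' hf : FinAlg p f →ₐ[RV (D₁ * D₂)] FinAlg p f')

/-- single factor of `mapAW` -/
noncomputable def mapFW (f : RW (D₁ * D₂)) (f' : RW (D₁' * D₂')) (hf : mapW _ _ h f = f') :
    FinAlg p f →+* FinAlg p f' :=
  letI := algW D₁ D₂ D₁' D₂' h
  (finMap (p := p) f f' hf : FinAlg p f →ₐ[RW (D₁ * D₂)] FinAlg p f')

theorem mapAV_tmul (x : FinAlg p (fV (D₁ * D₂) D₁)) (y : FinAlg p (fV (D₁ * D₂) D₂)) :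
    mapAV p D₁ D₂ D₁' D₂' h₁ h₂ h (x ⊗ₜ y) =
      mapFV p D₁ D₂ D₁' D₂' h _ _ (mapV_fV₁ D₁ D₂ D₁' D₂' h₁ h) x ⊗ₜ
      mapFV p D₁ D₂ D₁' D₂' h _ _ (mapV_fV₂ D₁ D₂ D₁' D₂' h₂ h) y :=
  letI := algV D₁ D₂ D₁' D₂' h
  tmap_tmul _ _ _ _

theorem mapAW_tmul (x : FinAlg p (fW (D₁ * D₂) D₁)) (y : FinAlg p (fW (D₁ * D₂) D₂)) :
    mapAW p D₁ D₂ D₁' D₂' h₁ h₂ h (x ⊗ₜ y) =
      mapFW p D₁ D₂ D₁' D₂' h _ _ (mapW_fW₁ D₁ D₂ D₁' D₂' h₁ h) x ⊗ₜ
      mapFW p D₁ D₂ D₁' D₂' h _ _ (mapW_fW₂ D₁ D₂ D₁' D₂' h₂ h) y :=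
  letI := algW D₁ D₂ D₁' D₂' h
  tmap_tmul _ _ _ _

theorem mapFV_root (f : RV (D₁ * D₂)) (f' : RV (D₁' * D₂')) (hf : mapV _ _ h f = f') :
    mapFV p D₁ D₂ D₁' D₂' h f f' hf (AdjoinRoot.root _) = AdjoinRoot.root _ :=
  letI := algV D₁ D₂ D₁' D₂' h
  finMap_root (R := RV (D₁ * D₂)) (R' := RV (D₁' * D₂')) f f' hf

theorem mapFW_root (f : RW (D₁ * D₂)) (f' : RW (D₁' * D₂')) (hf : mapW _ _ h f = f') :
    mapFW p D₁ D₂ D₁' D₂' h f f' hf (AdjoinRoot.root _) = AdjoinRoot.root _ :=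
  letI := algW D₁ D₂ D₁' D₂' h
  finMap_root (R := RW (D₁ * D₂)) (R' := RW (D₁' * D₂')) f f' hf

theorem mapFV_algebraMap (f : RV (D₁ * D₂)) (f' : RV (D₁' * D₂')) (hf : mapV _ _ h f = f')
    (r : RV (D₁ * D₂)) :
    mapFV p D₁ D₂ D₁' D₂' h f f' hf (algebraMap _ _ r) =
      algebraMap (RV (D₁' * D₂')) _ (mapV _ _ h r) :=
  letI := algV D₁ D₂ D₁' D₂' h
  AlgHom.commutes (finMap (p := p) f f' hf) r

theorem mapFW_algebraMap (f : RW (D₁ * D₂)) (f' : RW (D₁' * D₂')) (hf : mapW _ _ h f = f')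
    (r : RW (D₁ * D₂)) :
    mapFW p D₁ D₂ D₁' D₂' h f f' hf (algebraMap _ _ r) =
      algebraMap (RW (D₁' * D₂')) _ (mapW _ _ h r) :=
  letI := algW D₁ D₂ D₁' D₂' h
  AlgHom.commutes (finMap (p := p) f f' hf) r

theorem mapFV_cst [CharP K p] [CharP K' p] (f : RV (D₁ * D₂)) (f' : RV (D₁' * D₂'))
    (hf : mapV _ _ h f = f') (a : ZMod p) :
    mapFV p D₁ D₂ D₁' D₂' h f f' hf (cst K _ a) = cst K' _ a := by
  have e1 : cst K (FinAlg p f) a = algebraMap (RV (D₁ * D₂)) _ (algebraMap K[X] _ (C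
      (ZMod.castHom (dvd_refl p) K a))) := by
    rw [cst, IsScalarTower.algebraMap_apply K (RV (D₁ * D₂)),
      IsScalarTower.algebraMap_apply K K[X] (RV (D₁ * D₂))]
    rfl
  rw [e1, mapFV_algebraMap, mapV_algebraMap, map_C]
  have e2 : algebraMap K K' (ZMod.castHom (dvd_refl p) K a) = ZMod.castHom (dvd_refl p) K' a :=
    congrArg (fun f : ZMod p →+* K' => f a) (Subsingleton.elim
    ((algebraMap K K').comp (ZMod.castHom (dvd_refl p) K)) (ZMod.castHom (dvd_refl p) K'))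
  rw [e2, cst, IsScalarTower.algebraMap_apply K' (RV (D₁' * D₂')),
    IsScalarTower.algebraMap_apply K' K'[X] (RV (D₁' * D₂'))]
  rfl

theorem mapFV_finAct [CharP K p] [CharP K' p] (f : RV (D₁ * D₂)) (f' : RV (D₁' * D₂'))
    (hf : mapV _ _ h f = f') (a : ZMod p) (x : FinAlg p f) :
    mapFV p D₁ D₂ D₁' D₂' h f f' hf (finAct K f a x) =
      finAct K' f' a (mapFV p D₁ D₂ D₁' D₂' h f f' hf x) := by
  have : (mapFV p D₁ D₂ D₁' D₂' h f f' hf).comp (finAct K f a : FinAlg p f →+* FinAlg p f) =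
      (finAct K' f' a : FinAlg p f' →+* FinAlg p f').comp (mapFV p D₁ D₂ D₁' D₂' h f f' hf) := by
    apply ringHom_ext_adjoinRoot
    · intro r
      change mapFV p D₁ D₂ D₁' D₂' h f f' hf (finAct K f a (algebraMap _ _ r)) =
        finAct K' f' a (mapFV p D₁ D₂ D₁' D₂' h f f' hf (algebraMap _ _ r))
      rw [AlgHom.commutes, mapFV_algebraMap, AlgHom.commutes]
    · change mapFV p D₁ D₂ D₁' D₂' h f f' hf (finAct K f a (AdjoinRoot.root _)) =
        finAct K' f' a (mapFV p D₁ D₂ D₁' D₂' h f f' hf (AdjoinRoot.root _))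
      rw [finAct_root, map_add, mapFV_root, finAct_root, mapFV_cst]
  exact congrArg (fun g => g x) this

theorem mapAV_actV [CharP K p] [CharP K' p] (σ : PP p) (x : AV p D₁ D₂) :
    mapAV p D₁ D₂ D₁' D₂' h₁ h₂ h (actV p D₁ D₂ σ x) =
      actV p D₁' D₂' σ (mapAV p D₁ D₂ D₁' D₂' h₁ h₂ h x) := by
  refine TensorProduct.induction_on x ?_ ?_ ?_
  · simp only [map_zero]
  · intro x y
    rw [actV_tmul, mapAV_tmul, mapAV_tmul, actV_tmul, mapFV_finAct, mapFV_finAct]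
  · intro x y hx hy
    rw [map_add, map_add, map_add, map_add, hx, hy]

theorem mapFW_finMap (f : RV (D₁ * D₂)) (f' : RV (D₁' * D₂')) (hf : mapV _ _ h f = f')
    (g : RW (D₁ * D₂)) (g' : RW (D₁' * D₂')) (hg : mapW _ _ h g = g')
    (hfg : algebraMap (RV (D₁ * D₂)) (RW (D₁ * D₂)) f = g)
    (hfg' : algebraMap (RV (D₁' * D₂')) (RW (D₁' * D₂')) f' = g') (x : FinAlg p f) :
    mapFW p D₁ D₂ D₁' D₂' h g g' hg (finMap f g hfg x) =
      finMap f' g' hfg' (mapFV p D₁ D₂ D₁' D₂' h f f' hf x) := by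
  have : (mapFW p D₁ D₂ D₁' D₂' h g g' hg).comp (finMap (p := p) f g hfg : FinAlg p f →+* FinAlg p g) =
      (finMap (p := p) f' g' hfg' : FinAlg p f' →+* FinAlg p g').comp
        (mapFV p D₁ D₂ D₁' D₂' h f f' hf) := by
    apply ringHom_ext_adjoinRoot
    · intro r
      change mapFW p D₁ D₂ D₁' D₂' h g g' hg (finMap f g hfg (algebraMap _ _ r)) =
        finMap f' g' hfg' (mapFV p D₁ D₂ D₁' D₂' h f f' hf (algebraMap _ _ r))
      rw [AlgHom.commutes, mapFV_algebraMap, AlgHom.commutes,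
        IsScalarTower.algebraMap_apply (RV (D₁ * D₂)) (RW (D₁ * D₂)) (FinAlg p g),
        mapFW_algebraMap, mapW_VW,
        ← IsScalarTower.algebraMap_apply (RV (D₁' * D₂')) (RW (D₁' * D₂')) (FinAlg p g')]
    · change mapFW p D₁ D₂ D₁' D₂' h g g' hg (finMap f g hfg (AdjoinRoot.root _)) =
        finMap f' g' hfg' (mapFV p D₁ D₂ D₁' D₂' h f f' hf (AdjoinRoot.root _))
      rw [finMap_root, mapFW_root, mapFV_root, finMap_root]
  exact congrArg (fun g => g x) this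

theorem mapAW_bA (x : AV p D₁ D₂) :
    mapAW p D₁ D₂ D₁' D₂' h₁ h₂ h (bA p D₁ D₂ x) =
      bA p D₁' D₂' (mapAV p D₁ D₂ D₁' D₂' h₁ h₂ h x) := by
  refine TensorProduct.induction_on x ?_ ?_ ?_
  · simp only [map_zero]
  · intro x y
    rw [bA, tmap_tmul, mapAW_tmul, mapAV_tmul, bA, tmap_tmul, mapFW_finMap, mapFW_finMap]
  · intro x y hx hy
    rw [map_add, map_add, map_add, map_add, hx, hy]

theorem mapFW_infToFin (D : K[X]) (D' : K'[X]) (hD : D.map (algebraMap K K') = D')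
    (g : RW (D₁ * D₂)) (g' : RW (D₁' * D₂')) (hg : mapW _ _ h g = g')
    (hDg : algebraMap K[X] (RW (D₁ * D₂)) D * g = 1)
    (hDg' : algebraMap K'[X] (RW (D₁' * D₂')) D' * g' = 1) (x : InfAlg p D) :
    mapFW p D₁ D₂ D₁' D₂' h g g' hg (infToFin D g hDg x) =
      infToFin D' g' hDg' (mapFU p D D' hD x) := by
  have : (mapFW p D₁ D₂ D₁' D₂' h g g' hg).comp
      (infToFin (p := p) D g hDg : InfAlg p D →+* FinAlg p g) =
      (infToFin (p := p) D' g' hDg' : InfAlg p D' →+* FinAlg p g').comp (mapFU p D D' hD) := by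
    apply ringHom_ext_adjoinRoot
    · intro r
      change mapFW p D₁ D₂ D₁' D₂' h g g' hg (infToFin D g hDg (algebraMap _ _ r)) =
        infToFin D' g' hDg' (mapFU p D D' hD (algebraMap _ _ r))
      rw [AlgHom.commutes, mapFU_algebraMap, AlgHom.commutes,
        IsScalarTower.algebraMap_apply K[X] (RW (D₁ * D₂)) (FinAlg p g),
        mapFW_algebraMap, mapW_algebraMap,
        IsScalarTower.algebraMap_apply K'[X] (RW (D₁' * D₂')) (FinAlg p g')]
    · change mapFW p D₁ D₂ D₁' D₂' h g g' hg (infToFin D g hDg (AdjoinRoot.root _)) =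
        infToFin D' g' hDg' (mapFU p D D' hD (AdjoinRoot.root _))
      rw [infToFin_root, map_mul, map_sub, map_pow, mapFW_root, mapFW_algebraMap, map_one,
        mapW_algebraMap, mapFU_root, infToFin_root, hD]
  exact congrArg (fun g => g x) this

theorem mapAW_aA (x : AU p D₁ D₂) :
    mapAW p D₁ D₂ D₁' D₂' h₁ h₂ h (aA p D₁ D₂ x) =
      aA p D₁' D₂' (mapAU p D₁ D₂ D₁' D₂' h₁ h₂ x) := by
  refine TensorProduct.induction_on x ?_ ?_ ?_
  · simp only [map_zero]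
  · intro x y
    rw [aA, tmap_tmul, mapAW_tmul, mapAU_tmul, aA, tmap_tmul, mapFW_infToFin, mapFW_infToFin]
  · intro x y hx hy
    rw [map_add, map_add, map_add, map_add, hx, hy]

end

end Pool.Agent.Lib.MP_76d46b_ag
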