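import Mathlib

/-!
# Moduli of wildly ramified `P`-Galois covers of curves: definitions

All the notions that the statement of the result uses are defined in this file.
-/

open CategoryTheory CategoryTheory.Limits AlgebraicGeometry

universe u

noncomputable section

namespace Pool.Agent.Lib.MP_76d46b_ag

/-- A tuple `(X → S, B → X, Y → X, P-action on Y over X)` over a scheme `S`
(no conditions imposed yet). -/
structure Tuple (P : Type) [Group P] (S : Scheme.{u}) where
  X : Scheme.{u}
  B : Scheme.{u}
  Y : Scheme.{u}
  /-- the structure morphism `X ⟶ S` -/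
  π : X ⟶ S
  /-- the morphism `B ⟶ X` -/
  ι : B ⟶ X
  /-- the covering morphism `Y ⟶ X` -/
  φ : Y ⟶ X
  /-- the action of `P` on `Y` -/
  act : P →* Aut Y
  /-- the action is an action over `X` -/
  act_φ : ∀ σ, (act σ).hom ≫ φ = φ

/-- A cartesian morphism of tuples over a morphism `f : T ⟶ S` of base schemes: morphisms
`G.X ⟶ F.X`, `G.B ⟶ F.B`, `G.Y ⟶ F.Y`, the last one `P`-equivariant, identifying `G` with the
pull-back of `F` along `f`.  For `f = 𝟙 S` this is an isomorphism of tuples over `S`. -/
structure Tuple.Cart {P : Type} [Group P] {T S : Scheme.{u}} (G : Tuple P T) (F : Tuple P S)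
    (f : T ⟶ S) where
  x : G.X ⟶ F.X
  b : G.B ⟶ F.B
  y : G.Y ⟶ F.Y
  isPullback_x : IsPullback x G.π F.π f
  isPullback_b : IsPullback b G.ι F.ι x
  isPullback_y : IsPullback y G.φ F.φ x
  equivariant : ∀ σ, (G.act σ).hom ≫ y = y ≫ (F.act σ).hom

/-- The same tuple with the action of `P` composed with an automorphism `α` of `P`. -/
def Tuple.twist {P : Type} [Group P] {S : Scheme.{u}} (F : Tuple P S) (α : MulAut P) :
    Tuple P S where
  X := F.X
  B := F.B
  Y := F.Y
  π := F.π
  ι := F.ι
  φ := F.φ
  act := F.act.comp α.toMonoidHom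
  act_φ σ := F.act_φ (α σ)

section Curves

variable {K : Type u} [Field K]

/-- A smooth projective connected curve over `K`
(for curves, projective and proper are the same). -/
structure IsCurve {C : Scheme.{u}} (f : C ⟶ Spec (.of K)) : Prop where
  smooth : SmoothOfRelativeDimension 1 f
  proper : IsProper f
  connected : ConnectedSpace C

/-- The restriction homomorphism `Γ(C, U) → Γ(C, V)` for open sets `V ≤ U`. -/
def resMap {C : Scheme.{u}} {U V : C.Opens} (h : V ≤ U) : Γ(C, U) ⟶ Γ(C, V) :=
  C.presheaf.map (homOfLE h).op

/-- The structure homomorphism `K → Γ(C, ⊤)` of a `K`-scheme `C`. -/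
def globalMap {C : Scheme.{u}} (f : C ⟶ Spec (.of K)) : CommRingCat.of K ⟶ Γ(C, ⊤) :=
  (Scheme.ΓSpecIso (.of K)).inv ≫ f.appTop

/-- The structure homomorphism `K → Γ(C, W)` of a `K`-scheme `C`, for an open set `W`. -/
def sectionsMap {C : Scheme.{u}} (f : C ⟶ Spec (.of K)) (W : C.Opens) :
    CommRingCat.of K ⟶ Γ(C, W) :=
  globalMap f ≫ resMap le_top

/-- For homomorphisms of commutative rings `c : R → W`, `a : A → W` and `b : B → W`, the rank of
the `R`-module `W / (R-span of the images of a and b)`. -/
def cechRank {R A B W : CommRingCat.{u}} (c : R ⟶ W) (a : A ⟶ W) (b : B ⟶ W) : Cardinal.{u} :=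
  letI := c.hom.toAlgebra
  Module.rank R (W ⧸ Submodule.span R (Set.range a.hom ∪ Set.range b.hom))

/-- The dimension over `K` of the Čech cohomology group
`H¹({U, V}, 𝒪) = Γ(U ∩ V) / (Γ(U) + Γ(V))` of a `K`-scheme `C`. -/
def cechDim {C : Scheme.{u}} (f : C ⟶ Spec (.of K)) (U V : C.Opens) : Cardinal.{u} :=
  cechRank (sectionsMap f (U ⊓ V)) (resMap (inf_le_left : U ⊓ V ≤ U))
    (resMap (inf_le_right : U ⊓ V ≤ V))

/-- The curve `C` over `K` has genus `g`: `H¹(C, 𝒪_C)`, computed as the Čech cohomology of a
covering of `C` by two affine open sets, has dimension `g` over `K`. -/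
def HasGenus {C : Scheme.{u}} (f : C ⟶ Spec (.of K)) (g : ℕ) : Prop :=
  ∃ U V : C.Opens, IsAffineOpen U ∧ IsAffineOpen V ∧ U ⊔ V = ⊤ ∧ cechDim f U V = g

end Curves

section Ramification

variable {X Y : Scheme.{u}} (φ : Y ⟶ X)

/-- The length of the `B`-module of relative differentials of a ring homomorphism `A → B`. -/
def omegaLength {A B : Type u} [CommRing A] [CommRing B] (f : A →+* B) : ℕ∞ :=
  letI := f.toAlgebra
  Module.length B Ω[B⁄A]

/-- The multiplicity `d_y` of `y` in the different divisor (ramification divisor) of `φ : Y ⟶ X`: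
the length of the stalk at `y` of the sheaf of relative differentials of `Y` over `X`. -/
def differentMult (y : Y) : ℕ∞ := omegaLength (φ.stalkMap y).hom

/-- The degree of the different above `ξ`: the sum of the `d_y` over the points `y` above `ξ`. -/
def differentDegree (ξ : X) : ℕ∞ := ∑ᶠ y ∈ φ ⁻¹' {ξ}, differentMult φ y

/-- The branch locus of `φ`: the set of images of the points at which `φ` ramifies. -/
def branchLocus : Set X := φ '' {y | differentMult φ y ≠ 0}

/-- The ramification configuration is `η`: there are finitely many branch points, and the degrees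
of the different above them form the multiset `η`. -/
def HasConfig (η : Multiset ℕ) : Prop :=
  ∃ s : Finset X, (s : Set X) = branchLocus φ ∧
    s.val.map (differentDegree φ) = η.map (fun n : ℕ => (n : ℕ∞))

end Ramification

/-- `P` acts simply transitively on the geometric fibres of `Y ⟶ X` over the open set `U`. -/
def Tuple.Torsor {P : Type} [Group P] {S : Scheme.{u}} (G : Tuple P S) (U : G.X.Opens) : Prop :=
  ∀ (Ω : Type u) [Field Ω] [IsAlgClosed Ω] (x : Spec (.of Ω) ⟶ G.X), Set.range x ⊆ U →
      (∃ y : Spec (.of Ω) ⟶ G.Y, y ≫ G.φ = x) ∧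
      ∀ y y' : Spec (.of Ω) ⟶ G.Y, y ≫ G.φ = x → y' ≫ G.φ = x →
        ∃! σ : P, y ≫ (G.act σ).hom = y'

/-- The tuple `(X, B, Y)` over a field `K` is a `P`-Galois cover `Y → X` of smooth projective
connected curves over `K`, with `g(X) = gX`, `g(Y) = gY`, branch locus `B` and ramification
configuration `η`. -/
structure IsGaloisCover {P : Type} [Group P] {K : Type u} [Field K]
    (G : Tuple P (Spec (.of K))) (gX gY : ℕ) (η : Multiset ℕ) : Prop where
  curve_X : IsCurve G.π
  curve_Y : IsCurve (G.φ ≫ G.π)
  genus_X : HasGenus G.π gX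
  genus_Y : HasGenus (G.φ ≫ G.π) gY
  /-- `Y ⟶ X` is finite -/
  finite : IsFinite G.φ
  /-- `Y ⟶ X` is separable (generically étale) and `P` acts simply transitively on the geometric
  fibres over a dense open subset of `X`. -/
  galois : ∃ U : G.X.Opens, Dense (U : Set G.X) ∧ Etale (G.φ ∣_ U) ∧ G.Torsor U
  /-- `B` is the branch locus -/
  branch : Set.range G.ι = branchLocus G.φ
  /-- the degrees of the different above the branch points form the multiset `η` -/
  config : HasConfig G.φ η

/-- `F` is an object of the moduli stack `𝓜_η` over the scheme `S`: `X → S` is smooth and proper of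
relative dimension one, `B ⊂ X` is a closed subscheme finite étale of degree `r = |η|` over `S`,
`Y → X` is finite and flat, and for every geometric point `s` of `S` the fibre of `F` over `s`
(that is: a tuple `G` over `s` with a cartesian morphism to `F`) is a `P`-Galois cover of curves
with the given invariants. -/
structure IsFamily {P : Type} [Group P] {S : Scheme.{u}} (F : Tuple P S) (gX gY : ℕ)
    (η : Multiset ℕ) : Prop where
  smooth_X : SmoothOfRelativeDimension 1 F.π
  proper_X : IsProper F.π
  closed_B : IsClosedImmersion F.ι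
  finite_B : IsFinite (F.ι ≫ F.π)
  etale_B : Etale (F.ι ≫ F.π)
  degree_B : ∀ s : S, (F.ι ≫ F.π).finrank s = Multiset.card η
  finite_Y : IsFinite F.φ
  flat_Y : Flat F.φ
  fibre : ∀ (K : Type u) [Field K] [IsAlgClosed K] (s : Spec (.of K) ⟶ S),
    ∃ G : Tuple P (Spec (.of K)), Nonempty (G.Cart F s) ∧ IsGaloisCover G gX gY η

section Moduli

variable (k : Type u) [Field k] (P : Type) [Group P] (gX gY : ℕ) (η : Multiset ℕ)

/-- An object of the moduli stack `𝓜_η` over `k`: a `k`-scheme `S` and a family over `S`. -/
structure Obj where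
  S : Scheme.{u}
  str : S ⟶ Spec (.of k)
  F : Tuple P S
  isFamily : IsFamily F gX gY η

variable {k P gX gY η}

/-- A morphism of the moduli stack `𝓜_η` (as a category fibred in groupoids over `k`-schemes):
a morphism `f` of the base `k`-schemes and a cartesian morphism of the families over `f`. -/
structure Obj.Hom (G F : Obj k P gX gY η) where
  f : G.S ⟶ F.S
  w : f ≫ F.str = G.str
  cart : G.F.Cart F.F f

variable (k P gX gY η)

/-- A family over a `k`-scheme `S` together with a point of `S`. -/
structure Pointed where
  family : Obj.{u} k P gX gY η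
  pt : family.S

variable {k P gX gY η}

/-- Two pointed families are related if there is a morphism of the stack whose morphism of base
schemes maps the one point to the other. -/
def Pointed.Rel (a b : Pointed.{u} k P gX gY η) : Prop :=
  ∃ h : a.family.Hom b.family, h.f a.pt = b.pt

variable (k P gX gY η)

/-- The underlying set of the topological space `|𝓜_η|` of the moduli stack: pairs (family over
`S`, point `s` of `S`), where `(G, t)` and `(F, s)` are identified when there is a morphism
`G ⟶ F` of the stack whose morphism of base schemes maps `t` to `s`. -/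
def Moduli : Type (u + 1) := Quot (Pointed.Rel (k := k) (P := P) (gX := gX) (gY := gY) (η := η))

variable {k P gX gY η}

/-- The point of `|𝓜_η|` defined by a family over `S` and a point `s` of `S`. -/
def Obj.point (F : Obj.{u} k P gX gY η) (s : F.S) : Moduli.{u} k P gX gY η :=
  Quot.mk _ ⟨F, s⟩

/-- The topology of `|𝓜_η|`: the finest one such that for every family over a `k`-scheme `S` the
map `|S| → |𝓜_η|` is continuous.  That is, a subset `U` is open if and only if for every family
over a `k`-scheme `S` its preimage in `S` is open. -/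
instance : TopologicalSpace (Moduli.{u} k P gX gY η) where
  IsOpen U := ∀ F : Obj.{u} k P gX gY η, IsOpen (F.point ⁻¹' U)
  isOpen_univ _ := isOpen_univ
  isOpen_inter _ _ hU hV F := (hU F).inter (hV F)
  isOpen_sUnion _ hs F := by
    rw [Set.preimage_sUnion]
    exact isOpen_biUnion fun t ht => hs t ht F

end Moduli

end Pool.Agent.Lib.MP_76d46b_ag
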