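import Pool.Agent.Lib.MP_76d46b_ag.ASAlg

/-!
# Étale coordinates on Artin–Schreier algebras
-/

open Polynomial TensorProduct

universe u

set_option linter.unusedSectionVars false

namespace Pool.Agent.Lib.MP_76d46b_ag

section

variable {p : ℕ} [hp : Fact p.Prime] {K : Type u} [Field K] [CharP K p]

theorem etale_away {R : Type u} [CommRing R] (P : StandardEtalePair R) (B : Type u) [CommRing B]
    [Algebra (AdjoinRoot P.f) B] [Algebra R B] [IsScalarTower R (AdjoinRoot P.f) B]
    [IsLocalization.Away (AdjoinRoot.mk P.f P.g) B] : Algebra.Etale R B := by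
  let e : Localization.Away (AdjoinRoot.mk P.f P.g) ≃ₐ[AdjoinRoot P.f] B :=
    IsLocalization.algEquiv (Submonoid.powers (AdjoinRoot.mk P.f P.g)) _ _
  exact Algebra.Etale.of_equiv (P.equivAwayAdjoinRoot.trans (e.restrictScalars R))

variable {R : Type u} [CommRing R]

theorem derivative_finPoly (h0 : (p : R) = 0) (f : R) : derivative (finPoly p f) = -1 := by
  rw [finPoly, derivative_sub, derivative_sub, derivative_X_pow, derivative_X, derivative_C,
    h0, C_0, zero_mul]
  ring

/-- the finite algebra is étale -/
theorem etale_fin (h0 : (p : R) = 0) (f : R) : Algebra.Etale R (FinAlg p f) := by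
  let P : StandardEtalePair R := ⟨finPoly p f, finPoly_monic p f, 1, -1, 0, 1, by
    rw [derivative_finPoly h0]; ring⟩
  have h1 : IsLocalization.Away (AdjoinRoot.mk P.f P.g) (FinAlg p f) := by
    change IsLocalization.Away (AdjoinRoot.mk (finPoly p f) 1) (FinAlg p f)
    rw [map_one]
    exact IsLocalization.away_of_isUnit_of_bijective (FinAlg p f) isUnit_one
      Function.bijective_id
  exact etale_away P (FinAlg p f)

theorem derivative_infPoly (h0 : (p : R) = 0) (D : R) :
    derivative (infPoly p D) = - C D * X ^ (p - 2) := by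
  rw [infPoly, derivative_sub, derivative_add, derivative_X_pow, derivative_C_mul,
    derivative_X_pow, derivative_C, h0, C_0, zero_mul]
  have hp2 := hp.out.two_le
  have e1 : p - 1 - 1 = p - 2 := by omega
  have e2 : ((p - 1 : ℕ) : R) = -1 := by
    have h1 : ((p - 1 : ℕ) : R) + 1 = (p : R) := by
      have : ((p - 1 : ℕ) : R) + 1 = ((p - 1 + 1 : ℕ) : R) := by push_cast; rfl
      rw [this]
      congr 1
      omega
    linear_combination h1 + h0
  rw [e1, e2, C_neg, C_1]
  ring

/-- the infinite algebra is étale where `D` is invertible -/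
theorem etale_inf (h0 : (p : R) = 0) (D : R) (B : Type u) [CommRing B] [Algebra (InfAlg p D) B]
    [Algebra R B] [IsScalarTower R (InfAlg p D) B]
    [hloc : IsLocalization.Away (algebraMap R (InfAlg p D) D) B] : Algebra.Etale R B := by
  let P : StandardEtalePair R := ⟨infPoly p D, infPoly_monic p D, C D, -(X ^ 2 + C D * X),
    - C D, 2, by
      rw [derivative_infPoly h0, infPoly]
      obtain ⟨n, hn⟩ : ∃ n, p = n + 2 := ⟨p - 2, by have := hp.out.two_le; omega⟩
      have e1 : p - 1 = n + 1 := by omega
      have e2 : p - 2 = n := by omega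
      rw [e1, e2, hn]
      ring⟩
  have h1 : IsLocalization.Away (AdjoinRoot.mk P.f P.g) B := hloc
  exact etale_away P B

end

section TCoord

variable {p : ℕ} [hp : Fact p.Prime] {K : Type u} [Field K] (D : K[X])

/-- `K[T]` localized at `T^(p-1) - 1` -/
abbrev RT (p : ℕ) (K : Type u) [Field K] : Type u := Localization.Away ((X : K[X]) ^ (p - 1) - 1)

/-- `T` -/
noncomputable def tT : RT p K := algebraMap K[X] _ X

/-- `T^p / (T^(p-1) - 1)` -/
noncomputable def cT : RT p K := tT ^ p * Ring.inverse (tT ^ (p - 1) - 1)

theorem isUnit_tT : IsUnit ((tT : RT p K) ^ (p - 1) - 1) := by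
  have := IsLocalization.Away.algebraMap_isUnit (S := RT p K) ((X : K[X]) ^ (p - 1) - 1)
  rwa [map_sub, map_pow, map_one] at this

theorem cT_mul : (cT : RT p K) * (tT ^ (p - 1) - 1) = tT ^ p := by
  rw [cT, mul_assoc, Ring.inverse_mul_cancel _ isUnit_tT, mul_one]

variable {D}

/-- the standard étale pair describing the infinite algebra near the zeros of `D` -/
noncomputable def pairT (hD : D.Monic) (hD0 : 0 < D.natDegree) : StandardEtalePair (RT p K) where
  f := D.map (algebraMap K (RT p K)) + C cT
  monic_f := by
    rcases subsingleton_or_nontrivial (RT p K) with h | h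
    · exact Subsingleton.elim _ _
    refine (hD.map _).add_of_left ?_
    refine lt_of_le_of_lt degree_C_le ?_
    rw [hD.degree_map]
    exact natDegree_pos_iff_degree_pos.mp hD0
  g := (derivative D).map (algebraMap K (RT p K))
  cond := ⟨1, 0, 1, by
    rw [derivative_add, derivative_C, derivative_map]; ring⟩

theorem etale_T (hD : D.Monic) (hD0 : 0 < D.natDegree) (B : Type u) [CommRing B]
    [Algebra (InfAlg p D) B]
    [hloc : IsLocalization.Away (algebraMap K[X] (InfAlg p D) (derivative D)) B]
    [Algebra K[X] B] [IsScalarTower K[X] (InfAlg p D) B] [Algebra K B] [IsScalarTower K K[X] B] :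
    (aeval (R := K) (algebraMap (InfAlg p D) B (AdjoinRoot.root _)) : K[X] →ₐ[K] B).toRingHom.Etale
    := by
  set w : B := algebraMap (InfAlg p D) B (AdjoinRoot.root _) with hw
  set x : B := algebraMap K[X] B X with hx
  have hDx : aeval x D = algebraMap K[X] B D := by
    have : aeval x = (IsScalarTower.toAlgHom K K[X] B) := by
      apply algHom_ext
      rw [aeval_X]; rfl
    rw [this]; rfl
  have hDx' : aeval x (derivative D) = algebraMap K[X] B (derivative D) := by
    have : aeval x = (IsScalarTower.toAlgHom K K[X] B) := by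
      apply algHom_ext
      rw [aeval_X]; rfl
    rw [this]; rfl
  have hwD : w ^ p + algebraMap K[X] B D * w ^ (p - 1) = algebraMap K[X] B D := by
    have := congrArg (algebraMap (InfAlg p D) B) (inf_root (p := p) D)
    rwa [map_add, map_mul, map_pow, map_pow, ← IsScalarTower.algebraMap_apply] at this
  have hunit : IsUnit (w ^ (p - 1) - 1) := by
    have := isUnit_one_sub hwD
    rw [← neg_sub, IsUnit.neg_iff]
    exact this
  -- `B` as an algebra over `RT`
  let gB : RT p K →ₐ[K] B := IsLocalization.liftAlgHom
    (M := Submonoid.powers ((X : K[X]) ^ (p - 1) - 1)) (f := aeval (R := K) w) (by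
      rintro ⟨_, n, rfl⟩
      change IsUnit (aeval w (((X : K[X]) ^ (p - 1) - 1) ^ n))
      rw [map_pow, map_sub, map_pow, aeval_X, map_one]
      exact hunit.pow n)
  have hgB : ∀ f : K[X], gB (algebraMap K[X] (RT p K) f) = aeval w f := fun f =>
    IsLocalization.lift_eq _ _
  let algB : Algebra (RT p K) B := (gB : RT p K →+* B).toAlgebra
  have halg : ∀ r, algebraMap (RT p K) B r = gB r := fun _ => rfl
  have hT : gB tT = w := by rw [tT, hgB, aeval_X]
  have hcT : gB cT * (w ^ (p - 1) - 1) = w ^ p := by
    have := congrArg gB (cT_mul (p := p) (K := K))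
    rwa [map_mul, map_sub, map_pow, map_pow, map_one, hT] at this
  have tower : IsScalarTower K (RT p K) B := .of_algebraMap_eq fun r => by
    rw [halg, AlgHom.commutes]
  have hmap : ∀ f : K[X], aeval x (f.map (algebraMap K (RT p K))) = aeval x f := fun f =>
    aeval_map_algebraMap _ _ _
  have hasMap : (pairT (p := p) hD hD0).HasMap x := by
    constructor
    · change aeval x (D.map (algebraMap K (RT p K)) + C cT) = 0
      rw [map_add, hmap, hDx, aeval_C, halg]
      have h1 : (algebraMap K[X] B D + gB cT) * (w ^ (p - 1) - 1) = 0 := by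
        linear_combination hwD + hcT
      exact (hunit.mul_left_eq_zero).mp h1
    · change IsUnit (aeval x ((derivative D).map (algebraMap K (RT p K))))
      rw [hmap, hDx', IsScalarTower.algebraMap_apply K[X] (InfAlg p D) B]
      exact IsLocalization.Away.algebraMap_isUnit _
  let fwd : (pairT (p := p) hD hD0).Ring →ₐ[RT p K] B := (pairT hD hD0).lift x hasMap
  -- the inverse
  let S := (pairT (p := p) hD hD0).Ring
  let PX : S := (pairT (p := p) hD hD0).X
  let algKS : Algebra K S := ((algebraMap (RT p K) S).comp (algebraMap K (RT p K))).toAlgebra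
  have towerS : IsScalarTower K (RT p K) S := .of_algebraMap_eq' rfl
  let algXS : Algebra K[X] S := (aeval (R := K) PX : K[X] →ₐ[K] S).toRingHom.toAlgebra
  have halgXS : ∀ f, algebraMap K[X] S f = aeval PX f := fun _ => rfl
  have hX := (pairT (p := p) hD hD0).hasMap_X
  have hX1 : aeval PX D + algebraMap (RT p K) S cT = 0 := by
    have := hX.1
    change aeval PX (D.map (algebraMap K (RT p K)) + C cT) = 0 at this
    rwa [map_add, aeval_map_algebraMap, aeval_C] at this
  have hX2 : IsUnit (aeval PX (derivative D)) := by
    have := hX.2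
    change IsUnit (aeval PX ((derivative D).map (algebraMap K (RT p K)))) at this
    rwa [aeval_map_algebraMap] at this
  let tS : S := algebraMap (RT p K) S tT
  have htS : tS ^ p + algebraMap K[X] S D * tS ^ (p - 1) = algebraMap K[X] S D := by
    rw [halgXS]
    have h1 := congrArg (algebraMap (RT p K) S) (cT_mul (p := p) (K := K))
    rw [map_mul, map_sub, map_pow, map_pow, map_one] at h1
    linear_combination (tS ^ (p - 1) - 1) * hX1 - h1
  let bwd0 : InfAlg p D →ₐ[K[X]] S := infLift D tS htS
  let bwd : B →+* S := IsLocalization.lift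
    (M := Submonoid.powers (algebraMap K[X] (InfAlg p D) (derivative D)))
    (g := (bwd0 : InfAlg p D →+* S)) (by
      rintro ⟨_, n, rfl⟩
      change IsUnit (bwd0 ((algebraMap K[X] (InfAlg p D) (derivative D)) ^ n))
      rw [map_pow, AlgHom.commutes, halgXS]
      exact hX2.pow n)
  have hbwd : ∀ a, bwd (algebraMap (InfAlg p D) B a) = bwd0 a := fun a =>
    IsLocalization.lift_eq _ _
  have hbx : bwd x = PX := by
    rw [hx, IsScalarTower.algebraMap_apply K[X] (InfAlg p D) B, hbwd, AlgHom.commutes, halgXS,
      aeval_X]
  have hbw : bwd w = tS := by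
    rw [hw, hbwd]
    exact infLift_root _ _ _
  have hbK : ∀ c : K, bwd (algebraMap K B c) = algebraMap K S c := by
    intro c
    rw [IsScalarTower.algebraMap_apply K K[X] B, IsScalarTower.algebraMap_apply K[X] (InfAlg p D) B,
      hbwd, AlgHom.commutes, halgXS]
    exact aeval_C _ _
  have hcomm : ∀ r, bwd (algebraMap (RT p K) B r) = algebraMap (RT p K) S r := by
    intro r
    have : bwd.comp (algebraMap (RT p K) B) = algebraMap (RT p K) S := by
      apply IsLocalization.ringHom_ext (Submonoid.powers ((X : K[X]) ^ (p - 1) - 1))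
      apply Polynomial.ringHom_ext
      · intro c
        change bwd (gB (algebraMap K[X] (RT p K) (C c))) =
          algebraMap (RT p K) S (algebraMap K[X] (RT p K) (C c))
        rw [hgB, aeval_C, hbK]
        rfl
      · change bwd (gB tT) = algebraMap (RT p K) S tT
        rw [hT, hbw]
    exact congrArg (fun f => f r) this
  let bwdA : B →ₐ[RT p K] S := { bwd with commutes' := hcomm }
  have h1 : fwd.comp bwdA = AlgHom.id _ _ := by
    apply AlgHom.ext
    intro b
    have : (fwd : S →+* B).comp bwd = RingHom.id B := by
      apply IsLocalization.ringHom_ext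
        (Submonoid.powers (algebraMap K[X] (InfAlg p D) (derivative D)))
      apply AdjoinRoot.ringHom_ext
      · apply Polynomial.ringHom_ext
        · intro c
          change fwd (bwd (algebraMap (InfAlg p D) B (algebraMap K[X] (InfAlg p D) (C c)))) =
            algebraMap (InfAlg p D) B (algebraMap K[X] (InfAlg p D) (C c))
          rw [← IsScalarTower.algebraMap_apply]
          have h2 : algebraMap K[X] B (C c) = algebraMap K B c :=
            (IsScalarTower.algebraMap_apply K K[X] B c).symm
          rw [h2, hbK]
          change fwd (algebraMap (RT p K) S (algebraMap K (RT p K) c)) = _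
          rw [AlgHom.commutes, ← IsScalarTower.algebraMap_apply]
        · change fwd (bwd (algebraMap (InfAlg p D) B (algebraMap K[X] (InfAlg p D) X))) =
            algebraMap (InfAlg p D) B (algebraMap K[X] (InfAlg p D) X)
          rw [← IsScalarTower.algebraMap_apply]
          change fwd (bwd x) = x
          rw [hbx]
          exact StandardEtalePair.lift_X _ _ _
      · change fwd (bwd w) = w
        rw [hbw]
        change fwd (algebraMap (RT p K) S tT) = w
        rw [AlgHom.commutes]
        exact hT
    exact congrArg (fun f => f b) this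
  have h2 : bwdA.comp fwd = AlgHom.id _ _ := by
    apply StandardEtalePair.hom_ext
    change bwd (fwd PX) = PX
    have : fwd PX = x := StandardEtalePair.lift_X _ _ _
    rw [this, hbx]
  have het : Algebra.Etale (RT p K) B := Algebra.Etale.of_equiv (AlgEquiv.ofAlgHom fwd bwdA h1 h2)
  have het1 : (algebraMap (RT p K) B).Etale := RingHom.etale_algebraMap.mpr het
  have het2 : (algebraMap K[X] (RT p K)).Etale := RingHom.etale_algebraMap.mpr
    (Algebra.Etale.of_isLocalizationAway ((X : K[X]) ^ (p - 1) - 1))
  have het3 := RingHom.Etale.stableUnderComposition _ _ het2 het1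
  have h3 : (algebraMap (RT p K) B).comp (algebraMap K[X] (RT p K)) =
      (aeval (R := K) w : K[X] →ₐ[K] B).toRingHom := RingHom.ext hgB
  rw [← h3]
  exact het3

end TCoord

end Pool.Agent.Lib.MP_76d46b_ag
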