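import Mathlib

/-!
# Local algebra: a lower bound for the length of the module of differentials
-/

open Polynomial

namespace Pool.Agent.Lib.MP_76d46b_ag

theorem exists_derivation {A B : Type*} [CommRing A] [CommRing B] [Algebra A B] (t : B)
    (ht : Function.Surjective (aeval t : A[X] →ₐ[A] B)) (c : B)
    (hc : ∀ g : A[X], aeval t g = 0 → c ∣ aeval t (derivative g)) :
    ∃ D : Derivation A B (B ⧸ Ideal.span {c}), D t = 1 := by
  classical
  let s : B → A[X] := Function.surjInv ht
  have hs : ∀ b, aeval t (s b) = b := Function.surjInv_eq ht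
  have key : ∀ g h : A[X], aeval t g = aeval t h →
      (Ideal.Quotient.mk (Ideal.span {c}) (aeval t (derivative g)) : B ⧸ Ideal.span {c}) =
        Ideal.Quotient.mk _ (aeval t (derivative h)) := by
    intro g h e
    rw [Ideal.Quotient.eq, ← map_sub, ← derivative_sub, Ideal.mem_span_singleton]
    exact hc _ (by rw [map_sub, e, sub_self])
  let L : B →ₗ[A] (B ⧸ Ideal.span {c}) :=
    { toFun := fun b => Ideal.Quotient.mk _ (aeval t (derivative (s b)))
      map_add' := by
        intro a b
        rw [key (s (a + b)) (s a + s b) (by rw [hs, map_add, hs, hs])]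
        simp
      map_smul' := by
        intro r b
        rw [key (s (r • b)) (r • s b) (by rw [hs, map_smul, hs])]
        rw [derivative_smul, map_smul]
        rw [RingHom.id_apply, ← Ideal.Quotient.mkₐ_eq_mk A, map_smul] }
  refine ⟨Derivation.mk' L ?_, ?_⟩
  · intro a b
    change (Ideal.Quotient.mk _ (aeval t (derivative (s (a * b)))) : B ⧸ Ideal.span {c}) =
      a • Ideal.Quotient.mk _ (aeval t (derivative (s b))) +
      b • Ideal.Quotient.mk _ (aeval t (derivative (s a)))
    rw [key (s (a * b)) (s a * s b) (by rw [hs, map_mul, hs, hs]), derivative_mul, map_add,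
      map_mul, map_mul, hs, hs]
    rw [map_add, map_mul, map_mul, Algebra.smul_def, Algebra.smul_def]
    simp only [Ideal.Quotient.algebraMap_eq]
    ring
  · change (Ideal.Quotient.mk _ (aeval t (derivative (s t))) : B ⧸ Ideal.span {c}) = 1
    rw [key (s t) X (by rw [hs, aeval_X])]
    simp

theorem length_kaehler_ge {A B : Type*} [CommRing A] [CommRing B] [Algebra A B] (t : B)
    (ht : Function.Surjective (aeval t : A[X] →ₐ[A] B)) (c : B)
    (hc : ∀ g : A[X], aeval t g = 0 → c ∣ aeval t (derivative g)) :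
    Ring.ord B c ≤ Module.length B (Ω[B⁄A]) := by
  obtain ⟨D, hD⟩ := exists_derivation t ht c hc
  refine Module.length_le_of_surjective D.liftKaehlerDifferential ?_
  intro x
  obtain ⟨b, rfl⟩ := Ideal.Quotient.mk_surjective x
  refine ⟨b • KaehlerDifferential.D A B t, ?_⟩
  rw [map_smul, Derivation.liftKaehlerDifferential_comp_D, hD, Algebra.smul_def, mul_one]
  rfl

/-- `B = A[t]` for a finite extension of local rings with the same residue field and such that `t`
generates the maximal ideal. -/
theorem aeval_surjective_of_local {A B : Type*} [CommRing A] [CommRing B] [IsLocalRing A]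
    [IsLocalRing B] [Algebra A B] [IsLocalHom (algebraMap A B)] [Module.Finite A B] (t : B)
    (ht : IsLocalRing.maximalIdeal B = Ideal.span {t})
    (hres : Function.Surjective ((IsLocalRing.residue B).comp (algebraMap A B))) :
    Function.Surjective (aeval t : A[X] →ₐ[A] B) := by
  classical
  -- `N` is the image of `A[X]`
  let N : Submodule A B := LinearMap.range (aeval t : A[X] →ₐ[A] B).toLinearMap
  suffices h : N = ⊤ by
    intro b
    have : b ∈ N := h ▸ Submodule.mem_top
    exact this
  -- some power of `t` lies in `m_A B`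
  let I : Ideal B := (IsLocalRing.maximalIdeal A).map (algebraMap A B)
  have hpow : ∃ n : ℕ, t ^ n ∈ I := by
    let k := IsLocalRing.ResidueField A
    have hI : I ≠ ⊤ := by
      intro h
      have h1 : I ≤ IsLocalRing.maximalIdeal B :=
        ((IsLocalRing.local_hom_TFAE (algebraMap A B)).out 0 2 rfl rfl).mp inferInstance
      rw [h] at h1
      exact (IsLocalRing.maximalIdeal.isMaximal B).ne_top (top_le_iff.mp h1)
    have : Nontrivial (B ⧸ I) := Ideal.Quotient.nontrivial_iff.mpr hI
    let : Algebra (A ⧸ IsLocalRing.maximalIdeal A) (B ⧸ I) := inferInstance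
    have : Module.Finite (A ⧸ IsLocalRing.maximalIdeal A) (B ⧸ I) := by
      have : Module.Finite A (B ⧸ I) :=
        Module.Finite.of_surjective (Ideal.Quotient.mkₐ A I).toLinearMap
          (Ideal.Quotient.mkₐ_surjective A I)
      exact Module.Finite.of_restrictScalars_finite A _ _
    let : Field (A ⧸ IsLocalRing.maximalIdeal A) := Ideal.Quotient.field _
    have : IsArtinianRing (B ⧸ I) :=
      IsArtinianRing.of_finite (A ⧸ IsLocalRing.maximalIdeal A) (B ⧸ I)
    have : IsLocalRing (B ⧸ I) :=
      IsLocalRing.of_surjective' (Ideal.Quotient.mk I) Ideal.Quotient.mk_surjective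
    have hnil : IsNilpotent (IsLocalRing.maximalIdeal (B ⧸ I)) :=
      IsArtinianRing.isNilpotent_jacobson_bot (R := B ⧸ I) |> fun h => by
        rwa [IsLocalRing.jacobson_eq_maximalIdeal ⊥ bot_ne_top] at h
    obtain ⟨n, hn⟩ := hnil
    refine ⟨n, ?_⟩
    rw [← Ideal.Quotient.eq_zero_iff_mem, map_pow]
    have hmem : Ideal.Quotient.mk I t ∈ IsLocalRing.maximalIdeal (B ⧸ I) := by
      rw [IsLocalRing.mem_maximalIdeal]
      intro hu
      have htm : t ∈ IsLocalRing.maximalIdeal B := ht ▸ Ideal.mem_span_singleton_self t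
      have : IsLocalHom (Ideal.Quotient.mk I) :=
        .of_surjective _ Ideal.Quotient.mk_surjective
      exact (IsLocalRing.mem_maximalIdeal t).mp htm (isUnit_of_map_unit _ _ hu)
    have := Ideal.pow_mem_pow hmem n
    rw [hn] at this
    simpa using this
  obtain ⟨n, hn⟩ := hpow
  have hstep : ∀ (m : ℕ) (b : B), ∃ x ∈ N, ∃ y : B, b = x + t ^ m * y := by
    intro m
    induction m with
    | zero => intro b; exact ⟨0, N.zero_mem, b, by simp⟩
    | succ m ih =>
      intro b
      obtain ⟨x, hx, y, rfl⟩ := ih b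
      obtain ⟨a, ha⟩ := hres (IsLocalRing.residue B y)
      have hya : y - algebraMap A B a ∈ IsLocalRing.maximalIdeal B := by
        rw [← IsLocalRing.residue_eq_zero_iff, map_sub, sub_eq_zero, ← ha]
        rfl
      rw [ht, Ideal.mem_span_singleton] at hya
      obtain ⟨z, hz⟩ := hya
      refine ⟨x + t ^ m * algebraMap A B a, N.add_mem hx ⟨C a * X ^ m, by
        change aeval t (C a * X ^ m) = _
        rw [map_mul, aeval_C, map_pow, aeval_X]; ring⟩, z, ?_⟩
      have : y = algebraMap A B a + t * z := by rw [← hz]; ring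
      rw [this]; ring
  have hsup : (⊤ : Submodule A B) ≤ N ⊔ (IsLocalRing.maximalIdeal A) • (⊤ : Submodule A B) := by
    intro b _
    obtain ⟨x, hx, y, rfl⟩ := hstep n b
    refine Submodule.add_mem_sup hx ?_
    have h2 : t ^ n * y ∈ I := I.mul_mem_right _ hn
    have h3 : I.restrictScalars A = (IsLocalRing.maximalIdeal A) • (⊤ : Submodule A B) := by
      rw [Ideal.smul_top_eq_map]
    rw [← h3]
    exact h2
  have := Submodule.le_of_le_smul_of_le_jacobson_bot (R := A) (M := B)
    (I := IsLocalRing.maximalIdeal A) (N := N) (N' := ⊤)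
    Module.Finite.fg_top (by rw [IsLocalRing.jacobson_eq_maximalIdeal ⊥ bot_ne_top]) hsup
  exact top_le_iff.mp this


theorem ord_uniformizer {B : Type*} [CommRing B] [IsLocalRing B] (t : B)
    (ht : IsLocalRing.maximalIdeal B = Ideal.span {t}) : Ring.ord B t = 1 := by
  rw [Ring.ord, Module.length_eq_one_iff, ← ht, isSimpleModule_iff_isCoatom]
  exact (IsLocalRing.maximalIdeal.isMaximal B).out

theorem prod_dvd_derivative {A B : Type*} [CommRing A] [CommRing B] [IsDomain B] [Algebra A B]
    (t : B) {ι : Type*} [Fintype ι] [DecidableEq ι] (ρ : ι → B →ₐ[A] B) (i₀ : ι)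
    (h0 : ρ i₀ t = t) (hinj : Function.Injective (fun i => ρ i t)) (g : A[X])
    (hg : aeval t g = 0) :
    (∏ i ∈ Finset.univ.erase i₀, (t - ρ i t)) ∣ aeval t (derivative g) := by
  classical
  set G : B[X] := g.map (algebraMap A B) with hG
  have hroot : ∀ i, G.eval (ρ i t) = 0 := by
    intro i
    rw [hG, eval_map_algebraMap, aeval_algHom_apply, hg, map_zero]
  have hdvd : (∏ i, (X - C (ρ i t))) ∣ G := by
    by_cases hG0 : G = 0
    · rw [hG0]; exact dvd_zero _
    have h1 : (Finset.univ.image (fun i => ρ i t)).val ≤ G.roots := by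
      rw [Finset.val_le_iff_val_subset]
      intro x hx
      simp only [Finset.image_val, Multiset.mem_dedup, Multiset.mem_map, Finset.mem_val,
        Finset.mem_univ, true_and] at hx
      obtain ⟨i, rfl⟩ := hx
      rw [mem_roots hG0]
      exact hroot i
    have h2 := (Multiset.prod_dvd_prod_of_le (Multiset.map_le_map h1 (f := fun a => X - C a))).trans
      (prod_multiset_X_sub_C_dvd G)
    have h3 : ((Finset.univ.image (fun i => ρ i t)).val.map (fun a => X - C a)).prod =
        ∏ i, (X - C (ρ i t)) := by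
      change ∏ a ∈ Finset.univ.image (fun i => ρ i t), (X - C a) = _
      rw [Finset.prod_image (fun i _ j _ h => hinj h)]
    rwa [h3] at h2
  obtain ⟨h, hh⟩ := hdvd
  have hder : aeval t (derivative g) = (derivative G).eval t := by
    rw [hG, derivative_map, eval_map_algebraMap]
  rw [hder, hh, ← Finset.mul_prod_erase Finset.univ (fun i => (X - C (ρ i t))) (Finset.mem_univ i₀),
    mul_assoc, derivative_mul, eval_add, eval_mul,
    eval_mul (p := X - C (ρ i₀ t))]
  have e1 : eval t (X - C (ρ i₀ t)) = 0 := by rw [h0]; simp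
  have e2 : eval t (derivative (X - C (ρ i₀ t))) = 1 := by simp
  rw [e1, e2, zero_mul, add_zero, one_mul, eval_mul, eval_prod]
  refine Dvd.intro (eval t h) ?_
  congr 1
  refine Finset.prod_congr rfl fun i _ => ?_
  simp

/-- The lower bound for the length of the differentials at a totally ramified point. -/
theorem length_kaehler_ge_of_aut {A B : Type*} [CommRing A] [CommRing B] [IsDomain B]
    [IsLocalRing A] [IsLocalRing B] [Algebra A B] [IsLocalHom (algebraMap A B)] [Module.Finite A B]
    (t : B) (ht0 : t ≠ 0) (ht : IsLocalRing.maximalIdeal B = Ideal.span {t})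
    (hres : Function.Surjective ((IsLocalRing.residue B).comp (algebraMap A B)))
    {ι : Type*} [Fintype ι] (ρ : ι → B →ₐ[A] B) (i₀ : ι)
    (h0 : ρ i₀ t = t) (hinj : Function.Injective (fun i => ρ i t))
    (h2 : ∀ i, i ≠ i₀ → t ^ 2 ∣ t - ρ i t) :
    ((2 * (Fintype.card ι - 1) : ℕ) : ℕ∞) ≤ Module.length B (Ω[B⁄A]) := by
  classical
  have hsurj := aeval_surjective_of_local t ht hres
  refine le_trans ?_ (length_kaehler_ge t hsurj (∏ i ∈ Finset.univ.erase i₀, (t - ρ i t))
    (fun g hg => prod_dvd_derivative t ρ i₀ h0 hinj g hg))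
  have h3 : t ^ (2 * (Fintype.card ι - 1)) ∣ ∏ i ∈ Finset.univ.erase i₀, (t - ρ i t) := by
    have : t ^ (2 * (Fintype.card ι - 1)) = ∏ i ∈ Finset.univ.erase i₀, t ^ 2 := by
      rw [Finset.prod_const, Finset.card_erase_of_mem (Finset.mem_univ _), Finset.card_univ,
        ← pow_mul]
    rw [this]
    exact Finset.prod_dvd_prod_of_dvd _ _ fun i hi => h2 i (Finset.ne_of_mem_erase hi)
  refine le_trans ?_ (Ring.ord_le_ord_of_dvd h3)
  rw [Ring.ord_pow (mem_nonZeroDivisors_of_ne_zero ht0), ord_uniformizer t ht]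
  simp


/-- Wild automorphisms move a uniformizer only in order at least two. -/
theorem sq_dvd_sub_of_iterate {B : Type*} [CommRing B] [IsDomain B] [IsLocalRing B]
    (t : B) (ht0 : t ≠ 0) (ht : IsLocalRing.maximalIdeal B = Ideal.span {t}) (p k : ℕ)
    [Fact p.Prime] [CharP (IsLocalRing.ResidueField B) p] (ρ : B →+* B)
    (hres : ∀ b, ρ b - b ∈ IsLocalRing.maximalIdeal B) (hit : ρ^[p ^ k] t = t) :
    t ^ 2 ∣ t - ρ t := by
  have htm : t ∈ IsLocalRing.maximalIdeal B := ht ▸ Ideal.mem_span_singleton_self t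
  have h1 : ρ t ∈ IsLocalRing.maximalIdeal B := by
    have := Ideal.add_mem _ (hres t) htm
    simpa using this
  rw [ht, Ideal.mem_span_singleton] at h1
  obtain ⟨u, hu⟩ := h1
  have hru : ∃ w, ρ u = u + t * w := by
    have := hres u
    rw [ht, Ideal.mem_span_singleton] at this
    obtain ⟨w, hw⟩ := this
    exact ⟨w, by rw [← hw]; ring⟩
  obtain ⟨w, hw⟩ := hru
  have hiter : ∀ n : ℕ, ∃ z, ρ^[n] t = u ^ n * t + t ^ 2 * z := by
    intro n
    induction n with
    | zero => exact ⟨0, by simp⟩
    | succ n ih =>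
      obtain ⟨z, hz⟩ := ih
      rw [Function.iterate_succ_apply', hz, map_add, map_mul, map_mul, map_pow, map_pow, hu, hw]
      have : ∃ y, (u + t * w) ^ n = u ^ n + t * y := by
        have := sub_dvd_pow_sub_pow (u + t * w) u n
        have h' : t ∣ (u + t * w) ^ n - u ^ n := by
          refine dvd_trans ?_ this
          exact ⟨w, by ring⟩
        obtain ⟨y, hy⟩ := h'
        exact ⟨y, by rw [← hy]; ring⟩
      obtain ⟨y, hy⟩ := this
      rw [hy]
      exact ⟨y * u + u ^ 2 * ρ z, by ring⟩
  obtain ⟨z, hz⟩ := hiter (p ^ k)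
  rw [hit] at hz
  have h3 : (1 : B) = u ^ (p ^ k) + t * z := by
    apply mul_left_cancel₀ ht0
    calc t * 1 = u ^ p ^ k * t + t ^ 2 * z := by rw [mul_one]; exact hz
      _ = t * (u ^ p ^ k + t * z) := by ring
  have h4 : (IsLocalRing.residue B u) ^ (p ^ k) = 1 := by
    have h5 := congrArg (IsLocalRing.residue B) h3
    rw [map_one, map_add, map_pow, map_mul, (IsLocalRing.residue_eq_zero_iff t).mpr htm,
      zero_mul, add_zero] at h5
    exact h5.symm
  have h6 : IsLocalRing.residue B u = 1 := by
    have h7 : (IsLocalRing.residue B u - 1) ^ (p ^ k) = 0 := by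
      rw [sub_pow_char_pow, h4, one_pow, sub_self]
    exact sub_eq_zero.mp (pow_eq_zero_iff (pow_ne_zero _ (Fact.out : p.Prime).ne_zero) |>.mp h7)
  have h8 : u - 1 ∈ IsLocalRing.maximalIdeal B := by
    rw [← IsLocalRing.residue_eq_zero_iff, map_sub, h6, map_one, sub_self]
  rw [ht, Ideal.mem_span_singleton] at h8
  obtain ⟨v, hv⟩ := h8
  refine ⟨-v, ?_⟩
  rw [hu]
  have : u = 1 + t * v := by rw [← hv]; ring
  rw [this]; ring

end Pool.Agent.Lib.MP_76d46b_ag
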