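import Pool.Agent.Lib.MP_76d46b_ag.Points
import Pool.Agent.Lib.MP_76d46b_ag.EtaleAlg
import Pool.Agent.Lib.MP_76d46b_ag.LocalAlg

/-!
# The local ring at a ramified point
-/

open Polynomial TensorProduct

universe u

set_option linter.unusedSectionVars false

namespace Pool.Agent.Lib.MP_76d46b_ag

variable {p : ℕ} [hp : Fact p.Prime] {K : Type u} [Field K] [CharP K p] [IsAlgClosed K]
  {D₁ D₂ : K[X]} {A : Type u}
  [CommRing A] [Algebra K[X] A] {w₁ w₂ : A} [Algebra K A] [IsScalarTower K K[X] A]

variable (h : Pt p D₁ D₂ A w₁ w₂) (q : Ideal A) [hq : q.IsPrime]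

include h

/-- every prime above a zero of `D₁` is generated by `x - r`, `w₁`, `w₂ - e` -/
theorem Pt.le_span (r : K) (hr : algebraMap K[X] A (X - C r) ∈ q) (hw₁ : w₁ ∈ q) (e : K)
    (he : w₂ - algebraMap K A e ∈ q) :
    q ≤ Ideal.span {algebraMap K[X] A (X - C r), w₁, w₂ - algebraMap K A e} := by
  set J := Ideal.span {algebraMap K[X] A (X - C r), w₁, w₂ - algebraMap K A e} with hJ
  have hJ1 : algebraMap K[X] A (X - C r) ∈ J := Ideal.subset_span (by simp)
  have hJ2 : w₁ ∈ J := Ideal.subset_span (by simp)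
  have hJ3 : w₂ - algebraMap K A e ∈ J := Ideal.subset_span (by simp)
  have hJq : J ≤ q := by
    rw [hJ, Ideal.span_le]
    intro x hx
    rcases hx with rfl | rfl | hx
    · exact hr
    · exact hw₁
    · rw [Set.mem_singleton_iff] at hx
      subst hx
      exact he
  have key : ∀ z : A, ∃ c : K, z - algebraMap K A c ∈ J := by
    intro z
    have hz : z ∈ Algebra.adjoin K[X] {w₁, w₂} := by rw [h.gen]; exact Algebra.mem_top
    induction hz using Algebra.adjoin_induction with
    | mem x hx =>
      rcases hx with rfl | hx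
      · exact ⟨0, by rw [map_zero, sub_zero]; exact hJ2⟩
      · rw [Set.mem_singleton_iff] at hx
        subst hx
        exact ⟨e, hJ3⟩
    | algebraMap f =>
      refine ⟨f.eval r, ?_⟩
      have h1 : X - C r ∣ f - C (f.eval r) := dvd_iff_isRoot.mpr (by simp)
      obtain ⟨g, hg⟩ := h1
      have h2 : algebraMap K[X] A f - algebraMap K A (f.eval r) =
          algebraMap K[X] A (X - C r) * algebraMap K[X] A g := by
        rw [← map_mul, ← hg, map_sub, IsScalarTower.algebraMap_apply K K[X] A]
        rfl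
      rw [h2]
      exact J.mul_mem_right _ hJ1
    | add x y _ _ hx hy =>
      obtain ⟨c, hc⟩ := hx
      obtain ⟨d, hd⟩ := hy
      refine ⟨c + d, ?_⟩
      rw [map_add]
      have : x + y - (algebraMap K A c + algebraMap K A d) =
          (x - algebraMap K A c) + (y - algebraMap K A d) := by ring
      rw [this]
      exact J.add_mem hc hd
    | mul x y _ _ hx hy =>
      obtain ⟨c, hc⟩ := hx
      obtain ⟨d, hd⟩ := hy
      refine ⟨c * d, ?_⟩
      rw [map_mul]
      have : x * y - (algebraMap K A c * algebraMap K A d) =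
          y * (x - algebraMap K A c) + algebraMap K A c * (y - algebraMap K A d) := by ring
      rw [this]
      exact J.add_mem (J.mul_mem_left _ hc) (J.mul_mem_left _ hd)
  intro z hz
  obtain ⟨c, hc⟩ := key z
  have h1 : algebraMap K A c ∈ q := by
    have : algebraMap K A c = z - (z - algebraMap K A c) := by ring
    rw [this]
    exact q.sub_mem hz (hJq hc)
  have h2 : c = 0 := by
    by_contra hc0
    apply hq.ne_top
    exact Ideal.eq_top_of_isUnit_mem _ h1 ((isUnit_iff_ne_zero.mpr hc0).map (algebraMap K A))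
  rw [h2, map_zero, sub_zero] at hc
  exact hc

/-- `w₁` generates the maximal ideal of the local ring. -/
theorem Pt.maximalIdeal_eq (hD₁ : algebraMap K[X] A D₁ ∈ q) (hD₂ : algebraMap K[X] A D₂ ∉ q)
    (hs : D₁.Separable) (B : Type u) [CommRing B] [IsLocalRing B] [Algebra A B]
    [IsLocalization.AtPrime B q] :
    IsLocalRing.maximalIdeal B = Ideal.span {algebraMap A B w₁} := by
  have hw₁ := h.mem_of_mem q hD₁
  obtain ⟨r, hr, hrq⟩ := exists_root_of_mem h q hs.ne_zero hD₁
  obtain ⟨e, he0, he, heq⟩ := h.exists_value q hD₂ r hrq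
  have hunit : ∀ x : A, x ∉ q → IsUnit (algebraMap A B x) := fun x hx =>
    IsLocalization.map_units B (⟨x, hx⟩ : q.primeCompl)
  have h1w : (1 : A) - w₁ ^ (p - 1) ∉ q := by
    intro hmem
    apply hq.ne_top
    rw [Ideal.eq_top_iff_one]
    have : (1 : A) = (1 - w₁ ^ (p - 1)) + w₁ ^ (p - 1) := by ring
    rw [this]
    exact q.add_mem hmem (q.pow_mem_of_mem hw₁ _ (by have := hp.out.two_le; omega))
  set J := Ideal.span {algebraMap A B w₁} with hJ
  have hJ1 : algebraMap A B w₁ ∈ J := Ideal.mem_span_singleton_self _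
  -- `D₁ ∈ J`
  have hJD : algebraMap A B (algebraMap K[X] A D₁) ∈ J := by
    have h2 : algebraMap A B (algebraMap K[X] A D₁) * algebraMap A B (1 - w₁ ^ (p - 1)) =
        algebraMap A B w₁ ^ p := by
      rw [← map_mul, ← map_pow]
      congr 1
      linear_combination -h.eq₁
    have h3 : algebraMap A B w₁ ^ p ∈ J := J.pow_mem_of_mem hJ1 _ hp.out.pos
    rw [← h2] at h3
    exact (J.mul_unit_mem_iff_mem (hunit _ h1w)).mp h3
  -- `x - r ∈ J`
  have hJξ : algebraMap A B (algebraMap K[X] A (X - C r)) ∈ J := by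
    obtain ⟨g, hg⟩ := dvd_iff_isRoot.mpr hr
    have hg0 : g.eval r ≠ 0 := by
      have h2 : (derivative D₁).eval r ≠ 0 := by
        intro h0
        obtain ⟨a, b, hab⟩ := hs
        have h3 := congrArg (eval r) hab
        rw [eval_add, eval_mul, eval_mul, hr, h0, mul_zero, mul_zero, add_zero, eval_one] at h3
        exact zero_ne_one h3
      rw [hg, derivative_mul, eval_add, eval_mul, eval_mul] at h2
      simpa using h2
    have hgq : algebraMap K[X] A g ∉ q := by
      intro hmem
      obtain ⟨g', hg'⟩ := (dvd_iff_isRoot.mpr (by simp) : X - C r ∣ g - C (g.eval r))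
      have h2 : algebraMap K A (g.eval r) = algebraMap K[X] A g -
          algebraMap K[X] A (X - C r) * algebraMap K[X] A g' := by
        rw [← map_mul, ← hg', map_sub, IsScalarTower.algebraMap_apply K K[X] A]
        change algebraMap K[X] A (C (eval r g)) = _
        ring
      have h3 : algebraMap K A (g.eval r) ∈ q := by
        rw [h2]
        exact q.sub_mem hmem (q.mul_mem_right _ hrq)
      apply hq.ne_top
      exact Ideal.eq_top_of_isUnit_mem _ h3
        ((isUnit_iff_ne_zero.mpr hg0).map (algebraMap K A))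
    have h4 := hJD
    rw [hg, map_mul, map_mul] at h4
    exact (J.mul_unit_mem_iff_mem (hunit _ hgq)).mp h4
  -- `w₂ - e ∈ J`
  have hJe : algebraMap A B (w₂ - algebraMap K A e) ∈ J := by
    have hroot : (infPoly p (D₂.eval r)).IsRoot e := by
      rw [IsRoot.def, infPoly, eval_sub, eval_add, eval_mul, eval_pow, eval_pow, eval_X, eval_C,
        he, sub_self]
    obtain ⟨Q, hQ⟩ := dvd_iff_isRoot.mpr hroot
    have hD0 : D₂.eval r ≠ 0 := by
      intro h0
      rw [h0, zero_mul, add_zero] at he
      exact he0 (pow_eq_zero_iff hp.out.ne_zero |>.mp he)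
    have hQ0 : Q.eval e ≠ 0 := by
      have h2 : (derivative (infPoly p (D₂.eval r))).eval e ≠ 0 := by
        rw [derivative_infPoly (CharP.cast_eq_zero K p)]
        rw [eval_mul, eval_neg, eval_C, eval_pow, eval_X]
        exact mul_ne_zero (neg_ne_zero.mpr hD0) (pow_ne_zero _ he0)
      rw [hQ, derivative_mul, eval_add, eval_mul, eval_mul] at h2
      simpa using h2
    have hQq : aeval w₂ Q ∉ q := by
      intro hmem
      obtain ⟨g', hg'⟩ := (dvd_iff_isRoot.mpr (by simp) : X - C e ∣ Q - C (Q.eval e))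
      have h2 : algebraMap K A (Q.eval e) = aeval w₂ Q -
          (w₂ - algebraMap K A e) * aeval w₂ g' := by
        have h3 := congrArg (aeval w₂) hg'
        rw [map_sub, map_mul, map_sub, aeval_X, aeval_C, aeval_C] at h3
        linear_combination -h3
      have h3 : algebraMap K A (Q.eval e) ∈ q := by
        rw [h2]
        exact q.sub_mem hmem (q.mul_mem_right _ heq)
      apply hq.ne_top
      exact Ideal.eq_top_of_isUnit_mem _ h3
        ((isUnit_iff_ne_zero.mpr hQ0).map (algebraMap K A))
    obtain ⟨g, hg⟩ := (dvd_iff_isRoot.mpr (by simp) : X - C r ∣ D₂ - C (D₂.eval r))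
    have h3 : (w₂ - algebraMap K A e) * aeval w₂ Q =
        algebraMap K[X] A (X - C r) * (algebraMap K[X] A g * (1 - w₂ ^ (p - 1))) := by
      have h4 := congrArg (aeval w₂) hQ
      rw [infPoly, map_sub, map_add, map_mul, map_mul, map_sub, map_pow, map_pow, aeval_X,
        aeval_C, aeval_C] at h4
      have h5 := congrArg (algebraMap K[X] A) hg
      rw [map_sub, map_mul] at h5
      have h6 : algebraMap K[X] A (C (D₂.eval r)) = algebraMap K A (D₂.eval r) := by
        rw [IsScalarTower.algebraMap_apply K K[X] A]; rfl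
      rw [h6] at h5
      linear_combination -h4 + h.eq₂ + (1 - w₂ ^ (p - 1)) * h5
    have h7 := congrArg (algebraMap A B) h3
    rw [map_mul, map_mul] at h7
    have h8 : algebraMap A B (w₂ - algebraMap K A e) * algebraMap A B (aeval w₂ Q) ∈ J := by
      rw [h7]
      exact J.mul_mem_right _ hJξ
    exact (J.mul_unit_mem_iff_mem (hunit _ hQq)).mp h8
  apply le_antisymm
  · rw [← IsLocalization.AtPrime.map_eq_maximalIdeal q B, Ideal.map_le_iff_le_comap]
    refine (h.le_span q r hrq hw₁ e heq).trans ?_
    rw [Ideal.span_le]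
    intro x hx
    rcases hx with rfl | rfl | hx
    · exact hJξ
    · exact hJ1
    · rw [Set.mem_singleton_iff] at hx
      subst hx
      exact hJe
  · rw [hJ, Ideal.span_singleton_le_iff_mem, ← IsLocalization.AtPrime.map_eq_maximalIdeal q B]
    exact Ideal.mem_map_of_mem _ hw₁

/-- `w₁` is regular. -/
theorem Pt.mem_nonZeroDivisors (B : Type u) [CommRing B] [Algebra A B] [Algebra K[X] B]
    [IsScalarTower K[X] A B] [Module.Flat K[X] B] (hD₁0 : D₁ ≠ 0) :
    algebraMap A B w₁ ∈ nonZeroDivisors B := by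
  have h1 : IsSMulRegular B D₁ :=
    Module.Flat.isSMulRegular_of_nonZeroDivisors (mem_nonZeroDivisors_of_ne_zero hD₁0)
  rw [mem_nonZeroDivisors_iff_right]
  intro b hb
  apply h1
  change D₁ • b = D₁ • 0
  rw [smul_zero, Algebra.smul_def, IsScalarTower.algebraMap_apply K[X] A B]
  have h2 := congrArg (algebraMap A B) h.eq₁
  rw [map_add, map_mul, map_pow, map_pow] at h2
  obtain ⟨n, hn⟩ : ∃ n, p = n + 2 := ⟨p - 2, by have := hp.out.two_le; omega⟩
  have e1 : p - 1 = n + 1 := by omega
  rw [e1, hn] at h2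
  set w := algebraMap A B w₁
  set d := algebraMap A B (algebraMap K[X] A D₁)
  linear_combination (w ^ (n + 1) + d * w ^ n) * hb - b * h2

end Pool.Agent.Lib.MP_76d46b_ag
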