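import Pool.Agent.Lib.MP_76d46b_ag.KaehlerEtale
import Pool.Agent.Lib.MP_76d46b_ag.LocalPt

/-!
# The multiplicity of the different at the ramified points
-/

open Polynomial TensorProduct

universe u

set_option linter.unusedSectionVars false

namespace Pool.Agent.Lib.MP_76d46b_ag

/-- The length of the module of differentials of the local ring of `A` at `q` over `R`. -/
def KLen (R A : Type u) [CommRing R] [CommRing A] [Algebra R A] (q : Ideal A) [q.IsPrime]
    (n : ℕ∞) : Prop :=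
  ∀ (B : Type u) [CommRing B] [Algebra A B] [Algebra R B] [IsScalarTower R A B]
    [IsLocalization.AtPrime B q], Module.length B Ω[B⁄R] = n

theorem KLen.of_equiv {R A A' : Type u} [CommRing R] [CommRing A] [CommRing A'] [Algebra R A]
    [Algebra R A'] (e : A' ≃ₐ[R] A) (q : Ideal A) [hq : q.IsPrime] (n : ℕ∞)
    (h : KLen R A' (q.comap (e : A' →+* A)) n) : KLen R A q n := by
  intro B _ _ _ _ hB
  let a1 : Algebra A' B := ((algebraMap A B).comp (e : A' →+* A)).toAlgebra
  have t1 : IsScalarTower R A' B := by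
    refine IsScalarTower.of_algebraMap_eq (R := R) (S := A') (A := B) fun x => ?_
    rw [IsScalarTower.algebraMap_apply R A B]
    change _ = algebraMap A B (e (algebraMap R A' x))
    rw [AlgEquiv.commutes]
  have hloc : IsLocalization.AtPrime B (q.comap (e : A' →+* A)) := by
    refine IsLocalization.of_ringEquiv_left (R := A') (S := A) (K := B) e.toRingEquiv
      (M₁ := q.primeCompl) (M₂ := (q.comap (e : A' →+* A)).primeCompl) ?_ (fun x => rfl)
    ext x
    constructor
    · rintro ⟨y, hy, rfl⟩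
      exact hy
    · intro hx
      refine ⟨e.symm x, ?_, ?_⟩
      · intro hmem
        apply hx
        rw [SetLike.mem_coe, Ideal.mem_comap] at hmem
        change e (e.symm x) ∈ q at hmem
        rwa [AlgEquiv.apply_symm_apply] at hmem
      · change e (e.symm x) = x
        rw [AlgEquiv.apply_symm_apply]
  exact h B

variable {p : ℕ} [hp : Fact p.Prime] {K : Type u} [Field K] [CharP K p] [IsAlgClosed K]
  {D₁ D₂ : K[X]}

theorem kLen_AU₁ (hs : D₁.Separable) (q : Ideal (AU p D₁ D₂)) [hq : q.IsPrime]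
    (hD₁ : algebraMap K[X] (AU p D₁ D₂) D₁ ∈ q) (hD₂ : algebraMap K[X] (AU p D₁ D₂) D₂ ∉ q) :
    KLen K[X] (AU p D₁ D₂) q ((2 * (p - 1) : ℕ) : ℕ∞) := by
  intro B _ _ _ _ _
  have hloc : IsLocalRing B := IsLocalization.AtPrime.isLocalRing B q
  let a1 : Algebra (InfAlg p D₁) B := ((algebraMap (AU p D₁ D₂) B).comp
    (Algebra.TensorProduct.includeLeftRingHom : InfAlg p D₁ →+* AU p D₁ D₂)).toAlgebra
  have t1 : IsScalarTower (InfAlg p D₁) (AU p D₁ D₂) B :=
    IsScalarTower.of_algebraMap_eq (R := InfAlg p D₁) (S := AU p D₁ D₂) (A := B) fun x => rfl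
  have t2 : IsScalarTower K[X] (InfAlg p D₁) B := by
    refine IsScalarTower.of_algebraMap_eq (R := K[X]) (S := InfAlg p D₁) (A := B) fun x => ?_
    rw [IsScalarTower.algebraMap_apply K[X] (AU p D₁ D₂) B]
    rfl
  have h0 : ((p : ℕ) : K[X]) = 0 := by
    rw [← map_natCast (algebraMap K K[X]), CharP.cast_eq_zero, map_zero]
  have e1 : Algebra.Etale K[X]
      (Localization.Away (algebraMap K[X] (InfAlg p D₂) D₂)) := etale_inf h0 D₂ _
  have e2 : Algebra.FormallyEtale (InfAlg p D₁) B :=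
    formallyEtale_left (A₁ := InfAlg p D₁) (A₂ := InfAlg p D₂)
      (algebraMap K[X] (InfAlg p D₂) D₂) q (by
        have h1 : algebraMap K[X] (AU p D₁ D₂) D₂ =
            (Algebra.TensorProduct.includeRight : InfAlg p D₂ →ₐ[K[X]] AU p D₁ D₂)
              (algebraMap K[X] (InfAlg p D₂) D₂) := (AlgHom.commutes _ _).symm
        rw [h1] at hD₂
        exact hD₂) B
  rw [length_kaehler_of_formallyEtale (infPoly p D₁) B, derivative_infPoly h0]
  have hpt := pt_AU (p := p) D₁ D₂
  set w : B := algebraMap (AU p D₁ D₂) B (AdjoinRoot.root (infPoly p D₁) ⊗ₜ[K[X]] 1) with hw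
  have hmax := hpt.maximalIdeal_eq q hD₁ hD₂ hs B
  have hflat : Module.Flat K[X] B := by
    have h1 : Module.Flat (AU p D₁ D₂) B := IsLocalization.flat B q.primeCompl
    exact Module.Flat.trans K[X] (AU p D₁ D₂) B
  have hreg := hpt.mem_nonZeroDivisors B hs.ne_zero
  rw [← hw] at hmax hreg
  have hw1 : algebraMap (InfAlg p D₁) B (AdjoinRoot.root (infPoly p D₁)) = w := rfl
  have hroot : w ^ p + algebraMap K[X] B D₁ * w ^ (p - 1) = algebraMap K[X] B D₁ := by
    have := congrArg (algebraMap (InfAlg p D₁) B) (inf_root (p := p) D₁)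
    rwa [map_add, map_mul, map_pow, map_pow, ← IsScalarTower.algebraMap_apply, hw1] at this
  have hunit : IsUnit (1 - w ^ (p - 1)) := isUnit_one_sub hroot
  obtain ⟨v, hv⟩ := hunit
  have hD : algebraMap K[X] B D₁ = ↑v⁻¹ * w ^ p := by
    have h1 : algebraMap K[X] B D₁ * v = w ^ p := by
      rw [hv]; linear_combination -hroot
    rw [← h1]
    rw [mul_comm, mul_assoc, Units.mul_inv, mul_one]
  have hval : algebraMap (AdjoinRoot (infPoly p D₁)) B
      (aeval (AdjoinRoot.root (infPoly p D₁)) (-C D₁ * X ^ (p - 2))) =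
      ↑(-v⁻¹) * w ^ (2 * (p - 1)) := by
    rw [map_mul, map_neg, aeval_C, map_pow, aeval_X, map_mul, map_neg, map_pow,
      ← IsScalarTower.algebraMap_apply]
    change -(algebraMap K[X] B D₁) * w ^ (p - 2) = _
    rw [hD, Units.val_neg]
    have e3 : 2 * (p - 1) = p + (p - 2) := by have := hp.out.two_le; omega
    rw [e3, pow_add]
    ring
  rw [hval, Ring.ord_mul B (pow_mem hreg _), Ring.ord_pow hreg, ord_uniformizer w hmax]
  rw [Ring.ord_of_isUnit (Units.isUnit _)]
  simp

theorem kLen_AU₂ (hs : D₂.Separable) (q : Ideal (AU p D₁ D₂)) [hq : q.IsPrime]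
    (hD₁ : algebraMap K[X] (AU p D₁ D₂) D₁ ∉ q) (hD₂ : algebraMap K[X] (AU p D₁ D₂) D₂ ∈ q) :
    KLen K[X] (AU p D₁ D₂) q ((2 * (p - 1) : ℕ) : ℕ∞) := by
  refine KLen.of_equiv (Algebra.TensorProduct.comm K[X] (InfAlg p D₂) (InfAlg p D₁)) q _ ?_
  refine kLen_AU₁ hs _ ?_ ?_
  · rw [Ideal.mem_comap]
    have h1 : ((Algebra.TensorProduct.comm K[X] (InfAlg p D₂) (InfAlg p D₁) :
        AU p D₂ D₁ →+* AU p D₁ D₂)) (algebraMap K[X] (AU p D₂ D₁) D₂) =
        algebraMap K[X] (AU p D₁ D₂) D₂ := AlgEquiv.commutes _ _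
    rw [h1]
    exact hD₂
  · rw [Ideal.mem_comap]
    have h1 : ((Algebra.TensorProduct.comm K[X] (InfAlg p D₂) (InfAlg p D₁) :
        AU p D₂ D₁ →+* AU p D₁ D₂)) (algebraMap K[X] (AU p D₂ D₁) D₁) =
        algebraMap K[X] (AU p D₁ D₂) D₁ := AlgEquiv.commutes _ _
    rw [h1]
    exact hD₁

end Pool.Agent.Lib.MP_76d46b_ag
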