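import Pool.Agent.Lib.MP_76d46b_ag.FibreStab

/-!
# The decomposition of the branch divisor of a family, and the induced decomposition of the moduli
-/

open CategoryTheory CategoryTheory.Limits AlgebraicGeometry
universe u
namespace Pool.Agent.Lib.MP_76d46b_ag

section

variable {P : Type} [CommGroup P] [Finite P] {S : Scheme.{u}}
variable {F : Tuple P S} {gX gY : ℕ}

theorem IsFamily.exists_fibre {k : Type u} [Field k] (p : ℕ) [Fact p.Prime] [CharP k p]
    (hP : Nat.card P = p ^ 2) (r : ℕ) (str : S ⟶ Spec (.of k))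
    (h : IsFamily F gX gY (Multiset.replicate r (2 * p * (p - 1)))) (b : F.B) :
    (∃ σ ≠ 1, b ∈ F.fixBranch σ) ∧ ∀ σ τ : P, σ ≠ 1 → τ ≠ 1 → b ∈ F.fixBranch σ →
      b ∈ F.fixBranch τ → Subgroup.zpowers σ = Subgroup.zpowers τ := by
  have := h.closed_B
  have := h.finite_B
  have := h.finite_Y
  have := h.flat_Y
  obtain ⟨Ω, _, _, w, hw⟩ := exists_geometric_point b
  obtain ⟨G, ⟨c⟩, hG⟩ := h.fibre Ω (w ≫ F.ι ≫ F.π)
  have hchar : CharP Ω p := by
    let g : CommRingCat.of k ⟶ CommRingCat.of Ω := Spec.preimage ((w ≫ F.ι ≫ F.π) ≫ str)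
    exact charP_of_injective_ringHom (RingHom.injective g.hom) p
  let x' : Spec (.of Ω) ⟶ G.X := c.isPullback_x.lift (w ≫ F.ι) (𝟙 _)
    (by rw [Category.assoc, Category.id_comp])
  let β : Spec (.of Ω) ⟶ G.B := c.isPullback_b.lift w x' (c.isPullback_x.lift_fst _ _ _).symm
  have hβ : β ≫ c.b = w := c.isPullback_b.lift_fst _ _ _
  let t : Spec (.of Ω) := IsLocalRing.closedPoint Ω
  have hb : c.b (β t) = b := by
    rw [← Scheme.Hom.comp_apply, hβ]
    have : w t ∈ ({b} : Set F.B) := hw ▸ ⟨t, rfl⟩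
    exact this
  have i1 : Flat G.φ := MorphismProperty.of_isPullback c.isPullback_y inferInstance
  have i2 : IsClosedImmersion G.ι := MorphismProperty.of_isPullback c.isPullback_b inferInstance
  have i3 : IsFinite (G.ι ≫ G.π) :=
    MorphismProperty.of_isPullback (c.isPullback_b.paste_vert c.isPullback_x) inferInstance
  constructor
  · obtain ⟨σ, hσ, hσ'⟩ := hG.exists_mem_fixBranch p hP r (β t)
    exact ⟨σ, hσ, hb ▸ (c.mem_fixBranch_iff σ _).mp hσ'⟩
  · intro σ τ hσ hτ h1 h2
    rw [← hb, ← c.mem_fixBranch_iff] at h1 h2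
    exact hG.zpowers_eq p hP r (β t) σ τ hσ hτ h1 h2

theorem Tuple.fixBranch_mul_subset {P : Type} [Group P] {S : Scheme.{u}} (F : Tuple P S)
    (σ : P) (n : ℤ) : F.fixBranch σ ⊆ F.fixBranch (σ ^ n) := by
  intro b hb
  obtain ⟨Ω, _, _, z, w, hzw, hz, hw⟩ := F.exists_point_of_mem_fixBranch σ hb
  have hb' : b ∈ Set.range w := hw ▸ Set.mem_singleton b
  obtain ⟨t, rfl⟩ := hb'
  have hpow : ∀ m : ℕ, z ≫ (F.act (σ ^ m)).hom = z := by
    intro m
    induction m with
    | zero => rw [pow_zero, F.act_one, Category.comp_id]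
    | succ m ih => rw [pow_succ, F.act_mul, ← Category.assoc, hz, ih]
  refine F.mem_fixBranch_of_point _ z w hzw ?_ t
  obtain ⟨m, rfl | rfl⟩ := n.eq_nat_or_neg
  · rw [zpow_natCast]
    exact hpow m
  · rw [zpow_neg, zpow_natCast]
    have h1 : z ≫ (F.act (σ ^ m)).hom ≫ (F.act (σ ^ m)⁻¹).hom = z := by
      rw [← F.act_mul, inv_mul_cancel, F.act_one, Category.comp_id]
    rwa [← Category.assoc, hpow] at h1

theorem Tuple.fixBranch_eq_of_zpowers {P : Type} [Group P] {S : Scheme.{u}} (F : Tuple P S)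
    (σ τ : P) (h : Subgroup.zpowers σ = Subgroup.zpowers τ) : F.fixBranch σ = F.fixBranch τ := by
  have key : ∀ σ τ : P, Subgroup.zpowers σ = Subgroup.zpowers τ →
      F.fixBranch σ ⊆ F.fixBranch τ := by
    intro σ τ h
    have : τ ∈ Subgroup.zpowers σ := h ▸ Subgroup.mem_zpowers τ
    obtain ⟨n, rfl⟩ := Subgroup.mem_zpowers_iff.mp this
    exact F.fixBranch_mul_subset σ n
  exact Set.Subset.antisymm (key σ τ h) (key τ σ h.symm)

theorem IsFamily.isClopen_fixBranch {k : Type u} [Field k] (p : ℕ) [Fact p.Prime] [CharP k p]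
    (hP : Nat.card P = p ^ 2) (r : ℕ) (str : S ⟶ Spec (.of k))
    (h : IsFamily F gX gY (Multiset.replicate r (2 * p * (p - 1)))) (σ : P) (hσ : σ ≠ 1) :
    IsClopen (F.fixBranch σ) := by
  have := h.finite_Y
  refine ⟨F.isClosed_fixBranch σ, ?_⟩
  rw [← isClosed_compl_iff]
  have h1 : (F.fixBranch σ)ᶜ = ⋃ τ : {τ : P // τ ≠ 1 ∧ Subgroup.zpowers σ ≠ Subgroup.zpowers τ},
      F.fixBranch τ.1 := by
    ext b
    have hb := h.exists_fibre p hP r str b
    simp only [Set.mem_compl_iff, Set.mem_iUnion, Subtype.exists]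
    constructor
    · intro hb'
      obtain ⟨τ, hτ, hτ'⟩ := hb.1
      refine ⟨τ, ⟨hτ, fun h0 => hb' ?_⟩, hτ'⟩
      rwa [F.fixBranch_eq_of_zpowers σ τ h0]
    · rintro ⟨τ, ⟨hτ, hτ'⟩, hbτ⟩ hbσ
      exact hτ' (hb.2 σ τ hσ hτ hbσ hbτ)
  rw [h1]
  exact isClosed_iUnion_of_finite fun τ => F.isClosed_fixBranch τ.1

/-- The open subscheme of branch points above which `σ` has a fixed point
(for general tuples: its interior). -/
noncomputable def Tuple.fixOpens {P : Type} [Group P] {S : Scheme.{u}} (F : Tuple P S) (σ : P) :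
    F.B.Opens := ⟨interior (F.fixBranch σ), isOpen_interior⟩

/-- The number of geometric branch points over `s` above which `σ` has a fixed point. -/
noncomputable def Tuple.count {P : Type} [Group P] {S : Scheme.{u}} (F : Tuple P S) (σ : P)
    (s : S) : ℕ := ((F.fixOpens σ).ι ≫ F.ι ≫ F.π).finrank s

theorem finite_ι_of_isClopen {X : Scheme.{u}} (U : X.Opens) (hU : IsClosed (U : Set X)) :
    IsFinite U.ι := by
  have : IsClosedImmersion U.ι := by
    have h1 : IsClosed (Set.range U.ι) := by rwa [Scheme.Opens.range_ι]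
    exact .of_isPreimmersion _ h1
  infer_instance

theorem IsFamily.isLocallyConstant_count {k : Type u} [Field k] (p : ℕ) [Fact p.Prime] [CharP k p]
    (hP : Nat.card P = p ^ 2) (r : ℕ) (str : S ⟶ Spec (.of k))
    (h : IsFamily F gX gY (Multiset.replicate r (2 * p * (p - 1)))) (σ : P) (hσ : σ ≠ 1) :
    IsLocallyConstant (F.count σ) := by
  have := h.finite_B
  have := h.etale_B
  have hc := h.isClopen_fixBranch p hP r str σ hσ
  have : IsFinite (F.fixOpens σ).ι := by
    apply finite_ι_of_isClopen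
    change IsClosed (interior (F.fixBranch σ))
    rw [hc.2.interior_eq]
    exact hc.1
  exact ((F.fixOpens σ).ι ≫ F.ι ≫ F.π).isLocallyConstant_finrank

theorem Tuple.Cart.count_eq {k : Type u} [Field k] (p : ℕ) [Fact p.Prime] [CharP k p]
    (hP : Nat.card P = p ^ 2) (r : ℕ) {T : Scheme.{u}} {G : Tuple P T} {f : T ⟶ S}
    (c : G.Cart F f) (str : S ⟶ Spec (.of k)) (strT : T ⟶ Spec (.of k))
    (hF : IsFamily F gX gY (Multiset.replicate r (2 * p * (p - 1))))
    (hG : IsFamily G gX gY (Multiset.replicate r (2 * p * (p - 1)))) (σ : P) (hσ : σ ≠ 1)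
    (t : T) : G.count σ t = F.count σ (f t) := by
  have := hF.finite_B
  have := hF.etale_B
  have hc := hF.isClopen_fixBranch p hP r str σ hσ
  have hc' := hG.isClopen_fixBranch p hP r strT σ hσ
  have : IsFinite (F.fixOpens σ).ι := by
    apply finite_ι_of_isClopen
    change IsClosed (interior (F.fixBranch σ))
    rw [hc.2.interior_eq]
    exact hc.1
  have h1 : G.fixOpens σ = c.b ⁻¹ᵁ F.fixOpens σ := by
    apply TopologicalSpace.Opens.ext
    change interior (G.fixBranch σ) = c.b ⁻¹' (interior (F.fixBranch σ))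
    rw [hc.2.interior_eq, hc'.2.interior_eq]
    ext b
    exact c.mem_fixBranch_iff σ b
  have h2 := isPullback_morphismRestrict c.b (F.fixOpens σ)
  have h3 := h2.paste_vert (c.isPullback_b.paste_vert c.isPullback_x)
  have h4 := Scheme.Hom.finrank_of_isPullback _ _ _ _ h3 t
  rw [Tuple.count, Tuple.count, ← h4, h1]

end

end Pool.Agent.Lib.MP_76d46b_ag
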