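import Pool.Agent.Lib.MP_76d46b_ag.Stalk

/-!
# Finite étale schemes over an algebraically closed field
-/

open Polynomial TensorProduct CategoryTheory CategoryTheory.Limits AlgebraicGeometry
universe u
namespace Pool.Agent.Lib.MP_76d46b_ag

theorem finrank_eq_card {Ω : Type u} [Field Ω] [IsAlgClosed Ω] {Z : Scheme.{u}}
    (g : Z ⟶ Spec (.of Ω)) [hfin : IsFinite g] [het : Etale g] (s : Spec (.of Ω)) :
    g.finrank s = Nat.card Z := by
  have hZ : IsAffine Z := isAffine_of_isAffineHom g
  wlog h : ∃ A, Z = Spec A generalizing Z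
  · have h1 := this (Z := Spec Γ(Z, ⊤)) (Z.isoSpec.inv ≫ g) inferInstance ⟨_, rfl⟩
    rw [Scheme.Hom.finrank_comp_left_of_isIso] at h1
    rw [h1]
    exact Nat.card_congr (Scheme.homeoOfIso Z.isoSpec).toEquiv.symm
  obtain ⟨A, rfl⟩ := h
  obtain ⟨φ, rfl⟩ := Spec.map_surjective g
  have h1 : φ.hom.Finite := (IsFinite.SpecMap_iff _).mp hfin
  have h2 : φ.hom.Etale := HasRingHomProperty.Spec_iff.mp het
  algebraize [φ.hom]
  have h3 := Scheme.Hom.finrank_SpecMap_algebraMap Ω A s
  have h4 : CommRingCat.ofHom (algebraMap Ω A) = φ := rfl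
  rw [h4] at h3
  rw [h3, Module.rankAtStalk_eq_finrank_of_free]
  let e := Algebra.FormallyEtale.equivPiOfIsSepClosed Ω A
  rw [e.toLinearEquiv.finrank_eq]
  have : IsArtinianRing A := .of_finite Ω A
  have : Finite (PrimeSpectrum A) := inferInstance
  have := Fintype.ofFinite (PrimeSpectrum A)
  rw [Module.finrank_pi, ← Nat.card_eq_fintype_card]
  rfl

theorem discreteTopology_of_finite {Ω : Type u} [Field Ω] {Z : Scheme.{u}}
    (g : Z ⟶ Spec (.of Ω)) [IsFinite g] : DiscreteTopology Z := by
  let s : Spec (.of Ω) := IsLocalRing.closedPoint Ω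
  have h1 := g.isDiscrete_preimage_singleton s
  have h2 : g ⁻¹' {s} = Set.univ := by
    ext z
    simp only [Set.mem_preimage, Set.mem_singleton_iff, Set.mem_univ, iff_true]
    exact Subsingleton.elim (α := PrimeSpectrum Ω) _ _
  rw [h2] at h1
  exact isDiscrete_univ_iff.mp h1

/-- The number of points of a finite étale scheme over an algebraically closed field, counted as
sections. -/
theorem finrank_eq_card_sections {Ω : Type u} [Field Ω] [IsAlgClosed Ω] {Z : Scheme.{u}}
    (g : Z ⟶ Spec (.of Ω)) [hfin : IsFinite g] [het : Etale g] (s : Spec (.of Ω)) :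
    g.finrank s = Nat.card {z : Spec (.of Ω) ⟶ Z // z ≫ g = 𝟙 _} := by
  rw [finrank_eq_card g s]
  have := discreteTopology_of_finite g
  rw [Nat.card_congr (pointEquivClosedPoint g), closedPoints_eq_univ]
  exact (Nat.card_congr (Equiv.Set.univ Z)).symm

end Pool.Agent.Lib.MP_76d46b_ag
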