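import Pool.Agent.Lib.MP_76d46b_ag.Defs
import Pool.Agent.Lib.MP_76d46b_ag.LocalAlg
import Pool.Agent.Lib.MP_76d46b_ag.Stalk
import Pool.Agent.Lib.MP_76d46b_ag.FinRank

/-!
# Geometric fibres: `P`-Galois covers of curves over algebraically closed fields
-/

open CategoryTheory CategoryTheory.Limits AlgebraicGeometry

universe u

namespace Pool.Agent.Lib.MP_76d46b_ag

variable {P : Type} [Group P] {K : Type u} [Field K]

theorem Tuple.act_one {S : Scheme.{u}} (G : Tuple P S) : (G.act 1).hom = 𝟙 G.Y := by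
  rw [map_one]; rfl

theorem Tuple.act_mul {S : Scheme.{u}} (G : Tuple P S) (σ τ : P) :
    (G.act (σ * τ)).hom = (G.act τ).hom ≫ (G.act σ).hom := by
  rw [map_mul]; rfl

section Basic

variable {G : Tuple P (Spec (.of K))} {gX gY : ℕ} {η : Multiset ℕ}

theorem IsGaloisCover.noetherian_X (h : IsGaloisCover G gX gY η) : IsLocallyNoetherian G.X := by
  have := h.curve_X.smooth
  have := SmoothOfRelativeDimension.smooth 1 G.π
  exact LocallyOfFiniteType.isLocallyNoetherian G.π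

theorem IsGaloisCover.noetherian_Y (h : IsGaloisCover G gX gY η) : IsLocallyNoetherian G.Y := by
  have := h.curve_Y.smooth
  have := SmoothOfRelativeDimension.smooth 1 (G.φ ≫ G.π)
  exact LocallyOfFiniteType.isLocallyNoetherian (G.φ ≫ G.π)

theorem IsGaloisCover.fp_φ (h : IsGaloisCover G gX gY η) : LocallyOfFinitePresentation G.φ := by
  have := h.noetherian_X
  have := h.finite
  exact LocallyOfFinitePresentation.iff_locallyOfFiniteType.mpr inferInstance

theorem IsGaloisCover.isOpenMap_φ (h : IsGaloisCover G gX gY η) [Flat G.φ] :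
    IsOpenMap G.φ := by
  have := h.fp_φ
  exact G.φ.isOpenMap

/-- A geometric point above a given point. -/
theorem exists_geometric_point {Y : Scheme.{u}} (y : Y) :
    ∃ (Ω : Type u) (_ : Field Ω) (_ : IsAlgClosed Ω) (z : Spec (.of Ω) ⟶ Y),
      Set.range z = {y} := by
  refine ⟨AlgebraicClosure (Y.residueField y), inferInstance, inferInstance,
    Spec.map (CommRingCat.ofHom (algebraMap (Y.residueField y) _)) ≫ Y.fromSpecResidueField y, ?_⟩
  apply Set.eq_singleton_iff_unique_mem.mpr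
  constructor
  · let s : Spec (.of (AlgebraicClosure (Y.residueField y))) :=
      IsLocalRing.closedPoint (AlgebraicClosure (Y.residueField y))
    refine ⟨s, ?_⟩
    rw [Scheme.Hom.comp_apply]
    exact Scheme.fromSpecResidueField_apply _ _
  · rintro _ ⟨s, rfl⟩
    rw [Scheme.Hom.comp_apply]
    exact Scheme.fromSpecResidueField_apply _ _

theorem IsGaloisCover.eq_one_of_fixes_open (h : IsGaloisCover G gX gY η) [Flat G.φ] (σ : P)
    (V : G.Y.Opens) (y : G.Y) (hy : y ∈ V) (hσ : V.ι ≫ (G.act σ).hom = V.ι) : σ = 1 := by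
  obtain ⟨U, hU, het, hgal⟩ := h.galois
  have h1 : IsOpen (G.φ '' V) := h.isOpenMap_φ _ V.2
  obtain ⟨x, ⟨y', hy'V, rfl⟩, hxU⟩ := hU.inter_open_nonempty _ h1 ⟨_, y, hy, rfl⟩
  obtain ⟨Ω, _, _, z, hz⟩ := exists_geometric_point y'
  have hzV : Set.range z ⊆ Set.range V.ι := by
    rw [hz, Scheme.Opens.range_ι]
    simpa using hy'V
  have h2 : z ≫ (G.act σ).hom = z := by
    have h3 := IsOpenImmersion.lift_fac V.ι z hzV
    rw [← h3, Category.assoc, hσ]
  have h3 : Set.range (z ≫ G.φ) ⊆ U := by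
    rintro _ ⟨s, rfl⟩
    rw [Scheme.Hom.comp_apply]
    have : z s ∈ ({y'} : Set G.Y) := hz ▸ ⟨s, rfl⟩
    rw [Set.mem_singleton_iff] at this
    rw [this]
    exact hxU
  obtain ⟨τ, -, hτ⟩ := (hgal Ω (z ≫ G.φ) h3).2 z z rfl rfl
  have e1 := hτ σ h2
  have e2 := hτ 1 (by simp only [G.act_one, Category.comp_id])
  rw [e1, e2]

/-- `P` acts transitively on the fibres of `φ`. -/
theorem IsGaloisCover.exists_act_eq [Finite P] (h : IsGaloisCover G gX gY η) [Flat G.φ]
    (y y' : G.Y) (hyy : G.φ y = G.φ y') : ∃ σ : P, (G.act σ).hom y = y' := by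
  obtain ⟨U, hU, het, hgal⟩ := h.galois
  have := h.fp_φ
  have := h.finite
  let Γ : P → (G.Y ⟶ pullback G.φ G.φ) := fun σ =>
    pullback.lift (𝟙 _) (G.act σ).hom (by rw [Category.id_comp, G.act_φ])
  have hΓ1 : ∀ σ, Γ σ ≫ pullback.fst _ _ = 𝟙 _ := fun σ => pullback.lift_fst _ _ _
  have hΓ2 : ∀ σ, Γ σ ≫ pullback.snd _ _ = (G.act σ).hom := fun σ => pullback.lift_snd _ _ _
  have hclosed : IsClosed (⋃ σ, Set.range (Γ σ)) := by
    refine isClosed_iUnion_of_finite fun σ => ?_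
    have : IsClosedImmersion (Γ σ ≫ pullback.fst _ _) := by rw [hΓ1]; infer_instance
    have : IsClosedImmersion (Γ σ) := IsClosedImmersion.of_comp (Γ σ) (pullback.fst _ _)
    exact (Γ σ).isClosedEmbedding.isClosed_range
  let q : pullback G.φ G.φ ⟶ G.X := pullback.fst _ _ ≫ G.φ
  have hq : IsOpenMap q := q.isOpenMap
  have hdense : Dense (q ⁻¹' (U : Set G.X)) := hU.preimage hq
  have hsub : q ⁻¹' (U : Set G.X) ⊆ ⋃ σ, Set.range (Γ σ) := by
    intro z hz
    obtain ⟨Ω, _, _, w, hw⟩ := exists_geometric_point z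
    have h1 : Set.range ((w ≫ pullback.fst _ _) ≫ G.φ) ⊆ U := by
      rintro _ ⟨s, rfl⟩
      rw [Scheme.Hom.comp_apply, Scheme.Hom.comp_apply]
      have : w s ∈ ({z} : Set _) := hw ▸ ⟨s, rfl⟩
      rw [Set.mem_singleton_iff] at this
      rw [this]
      exact hz
    obtain ⟨σ, hσ, -⟩ := (hgal Ω _ h1).2 (w ≫ pullback.fst _ _) (w ≫ pullback.snd _ _) rfl
      (by rw [Category.assoc, Category.assoc, pullback.condition])
    have h2 : w = (w ≫ pullback.fst _ _) ≫ Γ σ := by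
      apply pullback.hom_ext
      · rw [Category.assoc, Category.assoc, hΓ1, Category.comp_id]
      · rw [Category.assoc _ (Γ σ), hΓ2, hσ]
    refine Set.mem_iUnion.mpr ⟨σ, ?_⟩
    have h3 : z ∈ Set.range w := hw ▸ Set.mem_singleton z
    obtain ⟨s, rfl⟩ := h3
    rw [h2]
    exact ⟨(w ≫ pullback.fst _ _) s, by rw [Scheme.Hom.comp_apply, Scheme.Hom.comp_apply, Scheme.Hom.comp_apply]⟩
  have huniv : (⋃ σ, Set.range (Γ σ)) = Set.univ := by
    apply Set.eq_univ_of_univ_subset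
    rw [← hdense.closure_eq]
    exact hclosed.closure_subset_iff.mpr hsub
  obtain ⟨z, hz1, hz2⟩ := Scheme.Pullback.exists_preimage_pullback y y' hyy
  obtain ⟨σ, w, rfl⟩ := Set.mem_iUnion.mp (huniv ▸ Set.mem_univ z)
  refine ⟨σ, ?_⟩
  rw [← Scheme.Hom.comp_apply, hΓ1] at hz1
  rw [← Scheme.Hom.comp_apply, hΓ2] at hz2
  rw [← hz1, ← hz2]
  rfl

/-- The degree of `φ` is `|P|` everywhere. -/
theorem IsGaloisCover.finrank_eq [Finite P] (h : IsGaloisCover G gX gY η) [Flat G.φ] (x : G.X) :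
    G.φ.finrank x = Nat.card P := by
  obtain ⟨U, hU, het, hgal⟩ := h.galois
  have := h.fp_φ
  have := h.finite
  have hlc := Scheme.Hom.isLocallyConstant_finrank G.φ
  suffices hUx : ∀ x ∈ U, G.φ.finrank x = Nat.card P by
    have h1 : IsClosed (G.φ.finrank ⁻¹' {Nat.card P}) :=
      (hlc.isClopen_fiber (Nat.card P)).1
    have h2 : (U : Set G.X) ⊆ G.φ.finrank ⁻¹' {Nat.card P} := fun x hx => hUx x hx
    have h3 : G.φ.finrank ⁻¹' {Nat.card P} = Set.univ := by
      apply Set.eq_univ_of_univ_subset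
      rw [← hU.closure_eq]
      exact h1.closure_subset_iff.mpr h2
    have h4 : x ∈ G.φ.finrank ⁻¹' {Nat.card P} := h3 ▸ Set.mem_univ x
    exact h4
  intro x hx
  obtain ⟨Ω, _, _, z, hz⟩ := exists_geometric_point x
  have hzU : Set.range z ⊆ Set.range U.ι := by
    rw [hz, Scheme.Opens.range_ι]
    simpa using hx
  let z' : Spec (.of Ω) ⟶ U := IsOpenImmersion.lift U.ι z hzU
  have hz' : z' ≫ U.ι = z := IsOpenImmersion.lift_fac U.ι z hzU
  let Z := pullback (G.φ ∣_ U) z'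
  let g : Z ⟶ Spec (.of Ω) := pullback.snd _ _
  have hpb : IsPullback (pullback.fst (G.φ ∣_ U) z' ≫ (G.φ ⁻¹ᵁ U).ι) g G.φ z := by
    have h1 := (IsPullback.of_hasPullback (G.φ ∣_ U) z').paste_horiz
      (isPullback_morphismRestrict G.φ U).flip
    rw [hz'] at h1
    exact h1
  let s : Spec (.of Ω) := IsLocalRing.closedPoint Ω
  have h1 := Scheme.Hom.finrank_of_isPullback _ _ _ _ hpb s
  have h2 : z s = x := by
    have : z s ∈ ({x} : Set G.X) := hz ▸ ⟨s, rfl⟩
    exact this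
  rw [h2] at h1
  rw [← h1]
  have : IsFinite g := MorphismProperty.of_isPullback hpb inferInstance
  have : Etale g := inferInstanceAs (Etale (pullback.snd (G.φ ∣_ U) z'))
  rw [finrank_eq_card_sections]
  have hzU' : Set.range z ⊆ U := by rw [Scheme.Opens.range_ι] at hzU; exact hzU
  obtain ⟨⟨y₀, hy₀⟩, htr⟩ := hgal Ω z hzU'
  let T := pullback.fst (G.φ ∣_ U) z' ≫ (G.φ ⁻¹ᵁ U).ι
  let e : {t : Spec (.of Ω) ⟶ Z // t ≫ g = 𝟙 _} ≃ {y : Spec (.of Ω) ⟶ G.Y // y ≫ G.φ = z} :=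
    { toFun := fun t => ⟨t.1 ≫ T, by rw [Category.assoc, hpb.w, ← Category.assoc, t.2,
        Category.id_comp]⟩
      invFun := fun y => ⟨hpb.lift y.1 (𝟙 _) (by rw [y.2, Category.id_comp]), hpb.lift_snd _ _ _⟩
      left_inv := fun t => by
        apply Subtype.ext
        apply hpb.hom_ext
        · rw [hpb.lift_fst]
        · rw [hpb.lift_snd, t.2]
      right_inv := fun y => by
        apply Subtype.ext
        exact hpb.lift_fst _ _ _ }
  let e' : P → {y : Spec (.of Ω) ⟶ G.Y // y ≫ G.φ = z} := fun σ =>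
    ⟨y₀ ≫ (G.act σ).hom, by rw [Category.assoc, G.act_φ, hy₀]⟩
  have he' : Function.Bijective e' := by
    constructor
    · intro σ τ hστ
      obtain ⟨ρ, -, hρ⟩ := htr y₀ (y₀ ≫ (G.act τ).hom) hy₀
        (by rw [Category.assoc, G.act_φ, hy₀])
      rw [hρ σ (congrArg Subtype.val hστ), hρ τ rfl]
    · rintro ⟨y, hy⟩
      obtain ⟨ρ, hρ, -⟩ := htr y₀ y hy₀ hy
      exact ⟨ρ, Subtype.ext hρ⟩
  rw [Nat.card_congr e, Nat.card_congr (Equiv.ofBijective e' he')]

end Basic

end Pool.Agent.Lib.MP_76d46b_ag
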