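import Pool.Agent.Lib.MP_76d46b_ag.FixBranch

/-!
# Branch points of a geometric fibre: the stabilizers have order `p`
-/

open CategoryTheory CategoryTheory.Limits AlgebraicGeometry
universe u
namespace Pool.Agent.Lib.MP_76d46b_ag

section

variable {P : Type} [CommGroup P] [Finite P] {K : Type u} [Field K] [IsAlgClosed K]
variable {G : Tuple P (Spec (.of K))} {gX gY : ℕ} {η : Multiset ℕ}

omit [Finite P] in
theorem Tuple.stab_act {S : Scheme.{u}} (G : Tuple P S) (σ : P) (y : G.Y) :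
    G.stab ((G.act σ).hom y) = G.stab y := by
  ext τ
  rw [G.mem_stab, G.mem_stab, ← G.act_mul_apply, mul_comm, G.act_mul_apply]
  constructor
  · intro h
    have h1 := congrArg (G.act σ⁻¹).hom h
    rw [← G.act_mul_apply, ← G.act_mul_apply, inv_mul_cancel, one_mul] at h1
    rw [h1, ← G.act_mul_apply, inv_mul_cancel, G.act_one_apply]
  · intro h
    rw [h]

omit [IsAlgClosed K] in
theorem IsGaloisCover.stab_eq (h : IsGaloisCover G gX gY η) [Flat G.φ] (y y' : G.Y)
    (hyy : G.φ y = G.φ y') : G.stab y = G.stab y' := by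
  obtain ⟨σ, rfl⟩ := h.exists_act_eq y y' hyy
  rw [G.stab_act]

theorem isClosed_singleton_of_finite {X Y : Scheme.{u}} (φ : Y ⟶ X) [IsFinite φ] (y : Y)
    (hx : IsClosed {φ y}) : IsClosed {y} := by
  have h1 : IsClosed (φ ⁻¹' {φ y}) := hx.preimage φ.continuous
  have h2 : DiscreteTopology (φ ⁻¹' {φ y}) :=
    isDiscrete_iff_discreteTopology.mp (φ.isDiscrete_preimage_singleton (φ y))
  have h3 := h1.isClosedEmbedding_subtypeVal.isClosedMap {⟨y, rfl⟩} (isClosed_discrete _)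
  rwa [Set.image_singleton] at h3

omit [Finite P] [IsAlgClosed K] in
theorem IsGaloisCover.isClosed_ι [IsClosedImmersion G.ι] [IsFinite (G.ι ≫ G.π)] (b : G.B) :
    IsClosed {G.ι b} := by
  have := discreteTopology_of_finite (G.ι ≫ G.π)
  have h3 := G.ι.isClosedEmbedding.isClosedMap {b} (isClosed_discrete _)
  rwa [Set.image_singleton] at h3

omit [Finite P] in
theorem IsGaloisCover.mem_fixBranch_iff (h : IsGaloisCover G gX gY η) [IsClosedImmersion G.ι]
    [IsFinite (G.ι ≫ G.π)] (σ : P) (b : G.B) :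
    b ∈ G.fixBranch σ ↔ ∃ y, G.φ y = G.ι b ∧ σ ∈ G.stab y := by
  have := h.finite
  have := h.curve_X.smooth
  have := SmoothOfRelativeDimension.smooth 1 G.π
  have := h.curve_Y.smooth
  have := SmoothOfRelativeDimension.smooth 1 (G.φ ≫ G.π)
  constructor
  · intro hb
    obtain ⟨Ω, _, _, z, w, hzw, hz, hw⟩ := G.exists_point_of_mem_fixBranch σ hb
    have hb' : b ∈ Set.range w := hw ▸ Set.mem_singleton b
    obtain ⟨t, rfl⟩ := hb'
    refine ⟨z t, ?_, ?_⟩
    · rw [← Scheme.Hom.comp_apply, hzw, Scheme.Hom.comp_apply]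
    · rw [G.mem_stab, ← Scheme.Hom.comp_apply, hz]
  · rintro ⟨y, hy, hσ⟩
    have hx := IsGaloisCover.isClosed_ι (G := G) b
    have hyc : IsClosed {y} := isClosed_singleton_of_finite G.φ y (hy ▸ hx)
    have hdis := discreteTopology_of_finite (G.ι ≫ G.π)
    have hbc : IsClosed {b} := isClosed_discrete _
    let z := pointOfClosedPoint (G.φ ≫ G.π) y hyc
    let w := pointOfClosedPoint (G.ι ≫ G.π) b hbc
    have hz : z ≫ (G.φ ≫ G.π) = 𝟙 _ := pointOfClosedPoint_comp _ _ _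
    have hw : w ≫ (G.ι ≫ G.π) = 𝟙 _ := pointOfClosedPoint_comp _ _ _
    have hz1 : z (IsLocalRing.closedPoint K) = y := pointOfClosedPoint_apply _ _ _ _
    have hw1 : w (IsLocalRing.closedPoint K) = b := pointOfClosedPoint_apply _ _ _ _
    have h1 : z ≫ G.φ = w ≫ G.ι := by
      refine ext_of_apply_closedPoint_eq G.π (by rw [Category.assoc, hz])
        (by rw [Category.assoc, hw]) ?_
      change G.φ (z (IsLocalRing.closedPoint K)) = G.ι (w (IsLocalRing.closedPoint K))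
      rw [hz1, hw1, hy]
    have h2 : z ≫ (G.act σ).hom = z := by
      refine ext_of_apply_closedPoint_eq (G.φ ≫ G.π) ?_ hz ?_
      · rw [Category.assoc, ← Category.assoc (G.act σ).hom, G.act_φ, hz]
      · change (G.act σ).hom (z (IsLocalRing.closedPoint K)) = z (IsLocalRing.closedPoint K)
        rw [hz1]
        exact hσ
    rw [← hw1]
    exact G.mem_fixBranch_of_point σ z w h1 h2 _

theorem IsGaloisCover.card_stab (p : ℕ) [Fact p.Prime] [CharP K p] (hP : Nat.card P = p ^ 2)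
    (r : ℕ) (h : IsGaloisCover G gX gY (Multiset.replicate r (2 * p * (p - 1)))) [Flat G.φ]
    [IsClosedImmersion G.ι] [IsFinite (G.ι ≫ G.π)] (b : G.B) (y : G.Y) (hy : G.φ y = G.ι b) :
    Nat.card (G.stab y) = p := by
  have := h.finite
  have hp := (Fact.out : p.Prime)
  have hx := IsGaloisCover.isClosed_ι (G := G) b
  have hyc : IsClosed {y} := isClosed_singleton_of_finite G.φ y (hy ▸ hx)
  have hmem : G.ι b ∈ branchLocus G.φ := h.branch ▸ ⟨b, rfl⟩
  have h1 : G.stab y ≠ ⊥ := by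
    obtain ⟨y', hy'1, hy'2⟩ := hmem
    rw [h.stab_eq y y' (by rw [hy, hy'2])]
    intro h0
    refine hy'1 (h.differentMult_eq_zero y' ?_ h0)
    exact isClosed_singleton_of_finite G.φ y' (hy'2 ▸ hx)
  have h2 : G.stab y ≠ ⊤ := by
    intro h0
    have h3 := h.le_differentMult p (IsPGroup.of_card hP) y hyc h0
    have h4 : differentDegree G.φ (G.ι b) = differentMult G.φ y := by
      rw [differentDegree]
      have : G.φ ⁻¹' {G.ι b} = {y} := by
        apply Set.eq_singleton_iff_unique_mem.mpr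
        refine ⟨hy, fun y' hy' => ?_⟩
        obtain ⟨σ, hσ⟩ := h.exists_act_eq y y' (hy.trans (Eq.symm hy'))
        rw [← hσ]
        exact (h0 ▸ Subgroup.mem_top σ : σ ∈ G.stab y)
      rw [this, finsum_mem_singleton]
    have h5 : differentDegree G.φ (G.ι b) = ((2 * p * (p - 1) : ℕ) : ℕ∞) := by
      obtain ⟨s, hs, hs'⟩ := h.config
      have h6 : G.ι b ∈ s := by
        rw [← Finset.mem_coe, hs]
        exact hmem
      have h7 : differentDegree G.φ (G.ι b) ∈ s.val.map (differentDegree G.φ) :=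
        Multiset.mem_map_of_mem _ h6
      rw [hs', Multiset.map_replicate] at h7
      exact Multiset.eq_of_mem_replicate h7
    rw [← h4, h5, hP, Nat.cast_le] at h3
    have h8 : 2 ≤ p := hp.two_le
    obtain ⟨m, rfl⟩ : ∃ m, p = m + 2 := ⟨p - 2, by omega⟩
    have h9 : (m + 2) ^ 2 - 1 = (m + 2) * (m + 1) + (m + 1) := by
      have : (m + 2) ^ 2 = ((m + 2) * (m + 1) + (m + 1)) + 1 := by ring
      omega
    rw [h9] at h3
    have h10 : m + 2 - 1 = m + 1 := by omega
    rw [h10] at h3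
    nlinarith
  have h3 : Nat.card (G.stab y) ∣ p ^ 2 := hP ▸ Subgroup.card_subgroup_dvd_card _
  obtain ⟨k, hk, hk'⟩ := (Nat.dvd_prime_pow hp).mp h3
  interval_cases k
  · exact absurd ((Subgroup.card_eq_one).mp (by simpa using hk')) h1
  · simpa using hk'
  · exact absurd ((Subgroup.card_eq_iff_eq_top _).mp (by rw [hk', hP])) h2

theorem zpowers_eq_of_card {P : Type} [Group P] (p : ℕ) [hp : Fact p.Prime] (H : Subgroup P)
    (hH : Nat.card H = p) (σ : P) (hσ : σ ∈ H) (hσ1 : σ ≠ 1) : Subgroup.zpowers σ = H := by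
  have : Finite H := Nat.finite_of_card_ne_zero (by rw [hH]; exact hp.out.ne_zero)
  have h1 : Subgroup.zpowers σ ≤ H := by rwa [Subgroup.zpowers_le]
  refine Subgroup.eq_of_le_of_card_ge h1 ?_
  rw [hH]
  have h2 : Nat.card (Subgroup.zpowers σ) ∣ p := hH ▸ Subgroup.card_dvd_of_le h1
  rcases (Nat.dvd_prime hp.out).mp h2 with h3 | h3
  · rw [Subgroup.card_eq_one, Subgroup.zpowers_eq_bot] at h3
    exact absurd h3 hσ1
  · rw [h3]

theorem IsGaloisCover.exists_mem_fixBranch (p : ℕ) [Fact p.Prime] [CharP K p]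
    (hP : Nat.card P = p ^ 2) (r : ℕ)
    (h : IsGaloisCover G gX gY (Multiset.replicate r (2 * p * (p - 1)))) [Flat G.φ]
    [IsClosedImmersion G.ι] [IsFinite (G.ι ≫ G.π)] (b : G.B) :
    ∃ σ ≠ 1, b ∈ G.fixBranch σ := by
  have hmem : G.ι b ∈ branchLocus G.φ := h.branch ▸ ⟨b, rfl⟩
  obtain ⟨y, -, hy⟩ := hmem
  have h1 := h.card_stab p hP r b y hy
  have h2 : G.stab y ≠ ⊥ := by
    intro h0
    rw [h0, Subgroup.card_bot] at h1
    exact (Fact.out : p.Prime).one_lt.ne h1
  obtain ⟨⟨σ, hσ⟩, hσ1⟩ := (G.stab y).ne_bot_iff_exists_ne_one.mp h2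
  exact ⟨σ, fun h0 => hσ1 (Subtype.ext h0), (h.mem_fixBranch_iff σ b).mpr ⟨y, hy, hσ⟩⟩

theorem IsGaloisCover.zpowers_eq (p : ℕ) [Fact p.Prime] [CharP K p]
    (hP : Nat.card P = p ^ 2) (r : ℕ)
    (h : IsGaloisCover G gX gY (Multiset.replicate r (2 * p * (p - 1)))) [Flat G.φ]
    [IsClosedImmersion G.ι] [IsFinite (G.ι ≫ G.π)] (b : G.B) (σ τ : P) (hσ : σ ≠ 1) (hτ : τ ≠ 1)
    (h1 : b ∈ G.fixBranch σ) (h2 : b ∈ G.fixBranch τ) :
    Subgroup.zpowers σ = Subgroup.zpowers τ := by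
  obtain ⟨y, hy, hy'⟩ := (h.mem_fixBranch_iff σ b).mp h1
  obtain ⟨z, hz, hz'⟩ := (h.mem_fixBranch_iff τ b).mp h2
  rw [zpowers_eq_of_card p _ (h.card_stab p hP r b y hy) σ hy' hσ,
    zpowers_eq_of_card p _ (h.card_stab p hP r b z hz) τ hz' hτ]
  exact h.stab_eq y z (by rw [hy, hz])

end

end Pool.Agent.Lib.MP_76d46b_ag
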