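import Pool.Agent.Lib.MP_76d46b_ag.Action

/-!
# Change of the base field for the coordinate rings
-/

open Polynomial TensorProduct CategoryTheory CategoryTheory.Limits

universe u

set_option linter.unusedSectionVars false

namespace Pool.Agent.Lib.MP_76d46b_ag

section

variable {K K' : Type u} [Field K] [Field K'] [Algebra K K']

attribute [local instance] Polynomial.algebra

theorem reverse_map_eq (f : K[X]) :
    (f.map (algebraMap K K')).reverse = f.reverse.map (algebraMap K K') := by
  rw [reverse, reverse, natDegree_map, reflect_map]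

instance good_map {E : K[X]} [hE : Good E] : Good (E.map (algebraMap K K')) where
  monic := hE.monic.map _
  dvd := by
    have := Polynomial.map_dvd (algebraMap K K') hE.dvd
    rwa [map_X] at this

section Maps

variable (E : K[X]) (E' : K'[X]) (h : E.map (algebraMap K K') = E')

include h in
theorem mapW_aux (y : Submonoid.powers E) :
    IsUnit (((algebraMap K'[X] (RW E')).comp (mapRingHom (algebraMap K K'))) (y : K[X])) := by
  obtain ⟨_, n, rfl⟩ := y
  rw [map_pow]
  refine IsUnit.pow _ ?_
  rw [RingHom.comp_apply, coe_mapRingHom, h]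
  exact IsLocalization.Away.algebraMap_isUnit E'

/-- `RW E → RW E'` -/
noncomputable def mapW : RW E →+* RW E' :=
  IsLocalization.lift (M := Submonoid.powers E)
    (g := (algebraMap K'[X] (RW E')).comp (mapRingHom (algebraMap K K'))) (mapW_aux E E' h)

theorem mapW_algebraMap (f : K[X]) :
    mapW E E' h (algebraMap K[X] (RW E) f) = algebraMap K'[X] (RW E') (f.map (algebraMap K K')) :=
  IsLocalization.lift_eq _ _

include h in
theorem mapV_aux (y : Submonoid.powers E.reverse) :
    IsUnit (((algebraMap K'[X] (RV E')).comp (mapRingHom (algebraMap K K'))) (y : K[X])) := by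
  obtain ⟨_, n, rfl⟩ := y
  rw [map_pow]
  refine IsUnit.pow _ ?_
  rw [RingHom.comp_apply, coe_mapRingHom, ← reverse_map_eq, h]
  exact IsLocalization.Away.algebraMap_isUnit E'.reverse

/-- `RV E → RV E'` -/
noncomputable def mapV : RV E →+* RV E' :=
  IsLocalization.lift (M := Submonoid.powers E.reverse)
    (g := (algebraMap K'[X] (RV E')).comp (mapRingHom (algebraMap K K'))) (mapV_aux E E' h)

theorem mapV_algebraMap (f : K[X]) :
    mapV E E' h (algebraMap K[X] (RV E) f) = algebraMap K'[X] (RV E') (f.map (algebraMap K K')) :=
  IsLocalization.lift_eq _ _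

theorem isPushout_mapU : IsPushout (CommRingCat.ofHom (algebraMap K K'))
    (CommRingCat.ofHom (algebraMap K K[X])) (CommRingCat.ofHom (algebraMap K' K'[X]))
    (CommRingCat.ofHom (mapRingHom (algebraMap K K'))) :=
  CommRingCat.isPushout_iff_isPushout.mpr inferInstance

theorem powers_map (f : K[X]) : (Submonoid.powers f).map (mapRingHom (algebraMap K K')) =
    Submonoid.powers (f.map (algebraMap K K')) := by
  rw [Submonoid.map_powers]; rfl

theorem isPushout_mapW : IsPushout (CommRingCat.ofHom (mapRingHom (algebraMap K K')))
    (CommRingCat.ofHom (algebraMap K[X] (RW E))) (CommRingCat.ofHom (algebraMap K'[X] (RW E')))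
    (CommRingCat.ofHom (mapW E E' h)) := by
  subst h
  have : IsLocalization ((Submonoid.powers E).map (mapRingHom (algebraMap K K')))
      (RW (E.map (algebraMap K K'))) := by
    rw [powers_map]
    infer_instance
  exact CommRingCat.isPushout_of_isLocalization _ _ (RingHom.ext fun f => mapW_algebraMap E _ rfl f) (Submonoid.powers E)

theorem isPushout_mapV : IsPushout (CommRingCat.ofHom (mapRingHom (algebraMap K K')))
    (CommRingCat.ofHom (algebraMap K[X] (RV E))) (CommRingCat.ofHom (algebraMap K'[X] (RV E')))
    (CommRingCat.ofHom (mapV E E' h)) := by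
  subst h
  have : IsLocalization ((Submonoid.powers E.reverse).map (mapRingHom (algebraMap K K')))
      (RV (E.map (algebraMap K K'))) := by
    rw [powers_map, ← reverse_map_eq]
    infer_instance
  exact CommRingCat.isPushout_of_isLocalization _ _ (RingHom.ext fun f => mapV_algebraMap E _ rfl f) (Submonoid.powers E.reverse)

/-- the pushout square for the chart at infinity over the field -/
theorem isPushout_V : IsPushout (CommRingCat.ofHom (algebraMap K K'))
    (CommRingCat.ofHom (algebraMap K (RV E))) (CommRingCat.ofHom (algebraMap K' (RV E')))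
    (CommRingCat.ofHom (mapV E E' h)) := by
  have h1 := (isPushout_mapU (K := K) (K' := K')).paste_vert (isPushout_mapV E E' h)
  exact h1

variable [hE : Good E] [hE' : Good E']

theorem mapW_xW : mapW E E' h (xW E) = xW E' := by
  rw [xW, mapW_algebraMap, map_X]; rfl

theorem mapW_sW : mapW E E' h (sW E) = sW E' := by
  have h1 := congrArg (mapW E E' h) (xW_mul_sW hE)
  rw [map_mul, mapW_xW, map_one] at h1
  exact (isUnit_xW hE').mul_right_injective (h1.trans (xW_mul_sW hE').symm)

theorem mapW_algebraMap_K (c : K) :
    mapW E E' h (algebraMap K (RW E) c) = algebraMap K' (RW E') (algebraMap K K' c) := by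
  rw [IsScalarTower.algebraMap_apply K K[X] (RW E), mapW_algebraMap,
    IsScalarTower.algebraMap_apply K' K'[X] (RW E')]
  congr 1
  exact map_C _

theorem mapW_VW (r : RV E) :
    mapW E E' h (algebraMap (RV E) (RW E) r) = algebraMap (RV E') (RW E') (mapV E E' h r) := by
  have : (mapW E E' h).comp (algebraMap (RV E) (RW E)) =
      (algebraMap (RV E') (RW E')).comp (mapV E E' h) := by
    apply IsLocalization.ringHom_ext (Submonoid.powers E.reverse)
    apply Polynomial.ringHom_ext
    · intro c
      have e1 : algebraMap K[X] (RV E) (C c) = algebraMap K (RV E) c :=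
        (IsScalarTower.algebraMap_apply K K[X] (RV E) c).symm
      change mapW E E' h (algebraMap (RV E) (RW E) (algebraMap K[X] (RV E) (C c))) =
        algebraMap (RV E') (RW E') (mapV E E' h (algebraMap K[X] (RV E) (C c)))
      rw [mapV_algebraMap, e1, ← IsScalarTower.algebraMap_apply K (RV E) (RW E),
        mapW_algebraMap_K, map_C]
      have e2 : algebraMap K'[X] (RV E') (C (algebraMap K K' c)) =
          algebraMap K' (RV E') (algebraMap K K' c) :=
        (IsScalarTower.algebraMap_apply K' K'[X] (RV E') _).symm
      rw [e2, ← IsScalarTower.algebraMap_apply K' (RV E') (RW E')]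
    · change mapW E E' h (algebraMap (RV E) (RW E) (algebraMap K[X] (RV E) X)) =
        algebraMap (RV E') (RW E') (mapV E E' h (algebraMap K[X] (RV E) X))
      rw [mapV_algebraMap, map_X, algebraMap_VW, algebraMap_VW, bMap_X, bMap_X, mapW_sW]
  exact congrArg (fun g => g r) this

theorem mapW_fW (D : K[X]) (hD : D ∣ E) :
    mapW E E' h (fW E D) = fW E' (D.map (algebraMap K K')) := by
  have hD' : D.map (algebraMap K K') ∣ E' := h ▸ Polynomial.map_dvd _ hD
  have h1 := congrArg (mapW E E' h) (mul_fW hD)
  rw [map_mul, mapW_algebraMap, map_one] at h1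
  exact (isUnit_W hD').mul_right_injective (h1.trans (mul_fW hD').symm)

theorem mapV_fV (D : K[X]) (hD : D ∣ E) :
    mapV E E' h (fV E D) = fV E' (D.map (algebraMap K K')) := by
  apply bMap_injective hE'
  rw [← algebraMap_VW, ← algebraMap_VW, ← mapW_VW, algebraMap_fV hD, mapW_fW E E' h D hD,
    algebraMap_fV (h ▸ Polynomial.map_dvd _ hD)]

end Maps

end

end Pool.Agent.Lib.MP_76d46b_ag
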