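import Pool.Agent.Lib.MP_76d46b_ag.Total

/-!
# Branch points with a fixed point of a given element of `P` above them
-/

open CategoryTheory CategoryTheory.Limits AlgebraicGeometry
universe u
namespace Pool.Agent.Lib.MP_76d46b_ag

variable {P : Type} [Group P]

section Fix

variable {S : Scheme.{u}} (F : Tuple P S) (σ : P)

/-- The graph of the action of `σ`. -/
noncomputable def Tuple.graph : F.Y ⟶ pullback F.φ F.φ :=
  pullback.lift (𝟙 _) (F.act σ).hom (by rw [Category.id_comp, F.act_φ])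

/-- The scheme of fixed points of `σ`. -/
noncomputable def Tuple.fixScheme : Scheme.{u} := pullback (pullback.diagonal F.φ) (F.graph σ)

noncomputable def Tuple.fixι : F.fixScheme σ ⟶ F.Y := pullback.snd _ _

theorem Tuple.graph_fst : F.graph σ ≫ pullback.fst _ _ = 𝟙 _ := pullback.lift_fst _ _ _

theorem Tuple.graph_snd : F.graph σ ≫ pullback.snd _ _ = (F.act σ).hom := pullback.lift_snd _ _ _

theorem Tuple.fixι_act : F.fixι σ ≫ (F.act σ).hom = F.fixι σ := by
  have h := pullback.condition (f := pullback.diagonal F.φ) (g := F.graph σ)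
  have h1 := congrArg (· ≫ pullback.fst _ _) h
  have h2 := congrArg (· ≫ pullback.snd _ _) h
  simp only [Category.assoc, pullback.diagonal_fst, F.graph_fst,
    pullback.diagonal_snd, F.graph_snd, Category.comp_id] at h1 h2
  change pullback.snd _ _ ≫ _ = pullback.snd _ _
  rw [← h2, h1]

theorem Tuple.exists_lift_fix {T : Scheme.{u}} (z : T ⟶ F.Y) (hz : z ≫ (F.act σ).hom = z) :
    ∃ z' : T ⟶ F.fixScheme σ, z' ≫ F.fixι σ = z := by
  refine ⟨pullback.lift z z ?_, pullback.lift_snd _ _ _⟩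
  apply pullback.hom_ext
  · rw [Category.assoc, Category.assoc, F.graph_fst, pullback.diagonal_fst]
  · rw [Category.assoc, Category.assoc, F.graph_snd, pullback.diagonal_snd, hz, Category.comp_id]

instance [IsSeparated F.φ] : IsClosedImmersion (F.fixι σ) :=
  inferInstanceAs (IsClosedImmersion (pullback.snd (pullback.diagonal F.φ) (F.graph σ)))

/-- The scheme of pairs (fixed point of `σ`, branch point under it). -/
noncomputable def Tuple.fixBranchScheme : Scheme.{u} := pullback (F.fixι σ ≫ F.φ) F.ι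

/-- The set of branch points above which `σ` has a fixed point. -/
noncomputable def Tuple.fixBranch : Set F.B := Set.range (pullback.snd (F.fixι σ ≫ F.φ) F.ι)

theorem Tuple.isClosed_fixBranch [IsFinite F.φ] : IsClosed (F.fixBranch σ) := by
  have h : IsFinite (pullback.snd (F.fixι σ ≫ F.φ) F.ι) := inferInstance
  exact (pullback.snd (F.fixι σ ≫ F.φ) F.ι).isClosedMap.isClosed_range

theorem Tuple.mem_fixBranch_of_point {T : Scheme.{u}} (z : T ⟶ F.Y) (w : T ⟶ F.B)
    (hzw : z ≫ F.φ = w ≫ F.ι) (hz : z ≫ (F.act σ).hom = z) (t : T) : w t ∈ F.fixBranch σ := by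
  obtain ⟨z', hz'⟩ := F.exists_lift_fix σ z hz
  refine ⟨pullback.lift z' w (by rw [← Category.assoc, hz', hzw]) t, ?_⟩
  rw [← Scheme.Hom.comp_apply, pullback.lift_snd]

theorem Tuple.exists_point_of_mem_fixBranch {b : F.B} (hb : b ∈ F.fixBranch σ) :
    ∃ (Ω : Type u) (_ : Field Ω) (_ : IsAlgClosed Ω) (z : Spec (.of Ω) ⟶ F.Y)
      (w : Spec (.of Ω) ⟶ F.B), z ≫ F.φ = w ≫ F.ι ∧ z ≫ (F.act σ).hom = z ∧
      Set.range w = {b} := by
  obtain ⟨e, rfl⟩ := hb
  obtain ⟨Ω, _, _, v, hv⟩ := exists_geometric_point e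
  refine ⟨Ω, inferInstance, inferInstance, v ≫ pullback.fst _ _ ≫ F.fixι σ,
    v ≫ pullback.snd _ _, ?_, ?_, ?_⟩
  · rw [Category.assoc, Category.assoc, pullback.condition, Category.assoc]
  · rw [Category.assoc, Category.assoc, F.fixι_act]
  · rw [Scheme.Hom.comp_base, TopCat.coe_comp, Set.range_comp, hv, Set.image_singleton]

end Fix

section Cart

variable {T S : Scheme.{u}} {G : Tuple P T} {F : Tuple P S} {f : T ⟶ S}

theorem Tuple.Cart.mem_fixBranch_iff (c : G.Cart F f) (σ : P) (b : G.B) :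
    b ∈ G.fixBranch σ ↔ c.b b ∈ F.fixBranch σ := by
  constructor
  · intro hb
    obtain ⟨Ω, _, _, z, w, hzw, hz, hw⟩ := G.exists_point_of_mem_fixBranch σ hb
    have hb' : b ∈ Set.range w := hw ▸ Set.mem_singleton b
    obtain ⟨t, rfl⟩ := hb'
    rw [← Scheme.Hom.comp_apply]
    refine F.mem_fixBranch_of_point σ (z ≫ c.y) (w ≫ c.b) ?_ ?_ t
    · rw [Category.assoc, c.isPullback_y.w, ← Category.assoc, hzw, Category.assoc,
        ← c.isPullback_b.w, Category.assoc]
    · rw [Category.assoc, ← c.equivariant, ← Category.assoc, hz]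
  · intro hb
    obtain ⟨e, he⟩ := hb
    obtain ⟨v, -, hv⟩ := Scheme.Pullback.exists_preimage_pullback
      (f := pullback.snd (F.fixι σ ≫ F.φ) F.ι) (g := c.b) e b he
    obtain ⟨Ω, _, _, u, hu⟩ := exists_geometric_point v
    let w : Spec (.of Ω) ⟶ G.B := u ≫ pullback.snd _ _
    let z : Spec (.of Ω) ⟶ F.Y := u ≫ pullback.fst _ _ ≫ pullback.fst _ _ ≫ F.fixι σ
    have hzw : z ≫ F.φ = (w ≫ G.ι) ≫ c.x := by
      simp only [z, w, Category.assoc]
      rw [pullback.condition (f := F.fixι σ ≫ F.φ), pullback.condition_assoc, c.isPullback_b.w]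
    have hz : z ≫ (F.act σ).hom = z := by
      simp only [z, Category.assoc]
      rw [F.fixι_act]
    let z' : Spec (.of Ω) ⟶ G.Y := c.isPullback_y.lift z (w ≫ G.ι) hzw
    have hz1 : z' ≫ c.y = z := c.isPullback_y.lift_fst _ _ _
    have hz2 : z' ≫ G.φ = w ≫ G.ι := c.isPullback_y.lift_snd _ _ _
    have hz' : z' ≫ (G.act σ).hom = z' := by
      apply c.isPullback_y.hom_ext
      · rw [Category.assoc, c.equivariant, ← Category.assoc, hz1, hz]
      · rw [Category.assoc, G.act_φ]
    let t : Spec (.of Ω) := IsLocalRing.closedPoint Ω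
    have hw : w t = b := by
      have h1 : u t ∈ ({v} : Set _) := hu ▸ ⟨_, rfl⟩
      rw [Set.mem_singleton_iff] at h1
      change (u ≫ pullback.snd _ _) t = b
      rw [Scheme.Hom.comp_apply, h1, hv]
    rw [← hw]
    exact G.mem_fixBranch_of_point σ z' w hz2 hz' _

end Cart

end Pool.Agent.Lib.MP_76d46b_ag
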