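import Pool.Agent.Lib.MP_76d46b_ag.Model

/-!
# Existence of models: gluing
-/

open Polynomial TensorProduct CategoryTheory CategoryTheory.Limits AlgebraicGeometry

universe u

set_option linter.unusedSectionVars false

namespace Pool.Agent.Lib.MP_76d46b_ag

section

variable {K : Type u} [Field K] (p : ℕ) [hp : Fact p.Prime] [CharP K p] (D₁ D₂ : K[X])
  [hE : Good (D₁ * D₂)]

instance isOpen_a : IsOpenImmersion
    (Spec.map (CommRingCat.ofHom (algebraMap K[X] (RW (D₁ * D₂))))) :=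
  IsOpenImmersion.of_isLocalization (D₁ * D₂)

instance isOpen_b : IsOpenImmersion
    (Spec.map (CommRingCat.ofHom (algebraMap (RV (D₁ * D₂)) (RW (D₁ * D₂))))) :=
  IsOpenImmersion.of_isLocalization (algebraMap K[X] (RV (D₁ * D₂)) X)

theorem isPullback_aA : IsPullback
    (Spec.map (CommRingCat.ofHom (aA p D₁ D₂ : AU p D₁ D₂ →+* AW p D₁ D₂)))
    (Spec.map (CommRingCat.ofHom (algebraMap (RW (D₁ * D₂)) (AW p D₁ D₂))))
    (Spec.map (CommRingCat.ofHom (algebraMap K[X] (AU p D₁ D₂))))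
    (Spec.map (CommRingCat.ofHom (algebraMap K[X] (RW (D₁ * D₂))))) :=
  (isPullback_SpecMap_of_isPushout _ _ _ _ (bc_aA p D₁ D₂).isPushout).flip

theorem isPullback_bA : IsPullback
    (Spec.map (CommRingCat.ofHom (bA p D₁ D₂ : AV p D₁ D₂ →+* AW p D₁ D₂)))
    (Spec.map (CommRingCat.ofHom (algebraMap (RW (D₁ * D₂)) (AW p D₁ D₂))))
    (Spec.map (CommRingCat.ofHom (algebraMap (RV (D₁ * D₂)) (AV p D₁ D₂))))
    (Spec.map (CommRingCat.ofHom (algebraMap (RV (D₁ * D₂)) (RW (D₁ * D₂))))) :=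
  (isPullback_SpecMap_of_isPushout _ _ _ _ (bc_bA p D₁ D₂).isPushout).flip

instance isOpen_aA : IsOpenImmersion
    (Spec.map (CommRingCat.ofHom (aA p D₁ D₂ : AU p D₁ D₂ →+* AW p D₁ D₂))) :=
  MorphismProperty.of_isPullback (isPullback_aA p D₁ D₂).flip inferInstance

instance isOpen_bA : IsOpenImmersion
    (Spec.map (CommRingCat.ofHom (bA p D₁ D₂ : AV p D₁ D₂ →+* AW p D₁ D₂))) :=
  MorphismProperty.of_isPullback (isPullback_bA p D₁ D₂).flip inferInstance

/-- The projective line, glued. -/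
noncomputable abbrev gX : Scheme.{u} :=
  pushout (Spec.map (CommRingCat.ofHom (algebraMap K[X] (RW (D₁ * D₂)))))
    (Spec.map (CommRingCat.ofHom (algebraMap (RV (D₁ * D₂)) (RW (D₁ * D₂)))))

/-- The covering curve, glued. -/
noncomputable abbrev gY : Scheme.{u} :=
  pushout (Spec.map (CommRingCat.ofHom (aA p D₁ D₂ : AU p D₁ D₂ →+* AW p D₁ D₂)))
    (Spec.map (CommRingCat.ofHom (bA p D₁ D₂ : AV p D₁ D₂ →+* AW p D₁ D₂)))

/-- the structure morphism -/
noncomputable def gπ : gX D₁ D₂ ⟶ Spec (.of K) :=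
  pushout.desc (Spec.map (CommRingCat.ofHom (algebraMap K K[X])))
    (Spec.map (CommRingCat.ofHom (algebraMap K (RV (D₁ * D₂))))) (by
      rw [← Spec.map_comp, ← Spec.map_comp]
      congr 1
      ext r
      change algebraMap K[X] (RW (D₁ * D₂)) (algebraMap K K[X] r) =
        algebraMap (RV (D₁ * D₂)) (RW (D₁ * D₂)) (algebraMap K (RV (D₁ * D₂)) r)
      rw [← IsScalarTower.algebraMap_apply, ← IsScalarTower.algebraMap_apply])

/-- the covering morphism -/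
noncomputable def gφ : gY p D₁ D₂ ⟶ gX D₁ D₂ :=
  glueMap (isPullback_aA p D₁ D₂).w (isPullback_bA p D₁ D₂).w

theorem actU_comm (σ : PP p) :
    Spec.map (CommRingCat.ofHom (aA p D₁ D₂ : AU p D₁ D₂ →+* AW p D₁ D₂)) ≫
      Spec.map (CommRingCat.ofHom (actU p D₁ D₂ σ : AU p D₁ D₂ →+* AU p D₁ D₂)) =
    Spec.map (CommRingCat.ofHom (actW p D₁ D₂ σ : AW p D₁ D₂ →+* AW p D₁ D₂)) ≫
      Spec.map (CommRingCat.ofHom (aA p D₁ D₂ : AU p D₁ D₂ →+* AW p D₁ D₂)) := by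
  rw [← Spec.map_comp, ← Spec.map_comp]
  congr 1
  apply CommRingCat.hom_ext
  exact RingHom.ext fun x => aA_actU σ x

theorem actV_comm (σ : PP p) :
    Spec.map (CommRingCat.ofHom (bA p D₁ D₂ : AV p D₁ D₂ →+* AW p D₁ D₂)) ≫
      Spec.map (CommRingCat.ofHom (actV p D₁ D₂ σ : AV p D₁ D₂ →+* AV p D₁ D₂)) =
    Spec.map (CommRingCat.ofHom (actW p D₁ D₂ σ : AW p D₁ D₂ →+* AW p D₁ D₂)) ≫
      Spec.map (CommRingCat.ofHom (bA p D₁ D₂ : AV p D₁ D₂ →+* AW p D₁ D₂)) := by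
  rw [← Spec.map_comp, ← Spec.map_comp]
  congr 1
  apply CommRingCat.hom_ext
  exact RingHom.ext fun x => bA_actV σ x

/-- the action of `σ` -/
noncomputable def gAct (σ : PP p) : gY p D₁ D₂ ⟶ gY p D₁ D₂ :=
  glueMap (actU_comm p D₁ D₂ σ) (actV_comm p D₁ D₂ σ)

theorem gAct_one : gAct p D₁ D₂ 1 = 𝟙 _ := by
  apply pushout.hom_ext
  · rw [gAct, inl_glueMap, map_one, Category.comp_id]
    have : CommRingCat.ofHom ((1 : AU p D₁ D₂ →ₐ[K[X]] AU p D₁ D₂) : AU p D₁ D₂ →+* AU p D₁ D₂) =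
      𝟙 _ := rfl
    rw [this, Spec.map_id, Category.id_comp]
  · rw [gAct, inr_glueMap, map_one, Category.comp_id]
    have : CommRingCat.ofHom ((1 : AV p D₁ D₂ →ₐ[RV (D₁ * D₂)] AV p D₁ D₂) :
      AV p D₁ D₂ →+* AV p D₁ D₂) = 𝟙 _ := rfl
    rw [this, Spec.map_id, Category.id_comp]

theorem gAct_mul (σ τ : PP p) : gAct p D₁ D₂ (σ * τ) = gAct p D₁ D₂ τ ≫ gAct p D₁ D₂ σ := by
  apply pushout.hom_ext
  · rw [gAct, inl_glueMap, gAct, inl_glueMap_assoc, gAct, inl_glueMap, ← Category.assoc,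
      ← Spec.map_comp, mul_comm σ τ, map_mul]
    rfl
  · rw [gAct, inr_glueMap, gAct, inr_glueMap_assoc, gAct, inr_glueMap, ← Category.assoc,
      ← Spec.map_comp, mul_comm σ τ, map_mul]
    rfl

/-- the action -/
noncomputable def gActHom : PP p →* Aut (gY p D₁ D₂) where
  toFun σ := { hom := gAct p D₁ D₂ σ, inv := gAct p D₁ D₂ σ⁻¹,
               hom_inv_id := by rw [← gAct_mul, inv_mul_cancel, gAct_one],
               inv_hom_id := by rw [← gAct_mul, mul_inv_cancel, gAct_one] }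
  map_one' := by
    apply Iso.ext
    exact gAct_one p D₁ D₂
  map_mul' σ τ := by
    apply Iso.ext
    exact gAct_mul p D₁ D₂ σ τ

theorem gAct_φ (σ : PP p) : gAct p D₁ D₂ σ ≫ gφ p D₁ D₂ = gφ p D₁ D₂ := by
  apply pushout.hom_ext
  · rw [gAct, inl_glueMap_assoc, gφ, inl_glueMap, ← Category.assoc, ← Spec.map_comp]
    congr 2
    apply CommRingCat.hom_ext
    exact RingHom.ext fun x => AlgHom.commutes (actU p D₁ D₂ σ) x
  · rw [gAct, inr_glueMap_assoc, gφ, inr_glueMap, ← Category.assoc, ← Spec.map_comp]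
    congr 2
    apply CommRingCat.hom_ext
    exact RingHom.ext fun x => AlgHom.commutes (actV p D₁ D₂ σ) x

/-- The glued tuple. -/
noncomputable def gTuple : Tuple (PP p) (Spec (.of K)) where
  X := gX D₁ D₂
  B := Spec (.of (AdjoinRoot (D₁ * D₂)))
  Y := gY p D₁ D₂
  π := gπ D₁ D₂
  ι := Spec.map (CommRingCat.ofHom (AdjoinRoot.mk (D₁ * D₂))) ≫ pushout.inl _ _
  φ := gφ p D₁ D₂
  act := gActHom p D₁ D₂
  act_φ := gAct_φ p D₁ D₂

/-- The glued tuple is a model. -/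
noncomputable def gModel : Model p D₁ D₂ (gTuple p D₁ D₂) where
  iU := pushout.inl _ _
  iV := pushout.inr _ _
  coverX := twoCover_glue _ _
  iU_π := pushout.inl_desc _ _ _
  iV_π := pushout.inr_desc _ _ _
  jU := pushout.inl _ _
  jV := pushout.inr _ _
  pullU := glueMap_isPullback_inl (isPullback_aA p D₁ D₂) (isPullback_bA p D₁ D₂)
  pullV := glueMap_isPullback_inr (isPullback_aA p D₁ D₂) (isPullback_bA p D₁ D₂)
  glueY := pushout.condition
  act_U σ := inl_glueMap (actU_comm p D₁ D₂ σ) (actV_comm p D₁ D₂ σ)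
  act_V σ := inr_glueMap (actU_comm p D₁ D₂ σ) (actV_comm p D₁ D₂ σ)
  eB := 𝟙 _
  isIso_eB := IsIso.id _
  eB_ι := Category.id_comp _

end

end Pool.Agent.Lib.MP_76d46b_ag
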