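import Pool.Agent.Lib.MP_76d46b_ag.GenusAlg
import Pool.Agent.Lib.MP_76d46b_ag.GluedModel

/-!
# The genus in terms of charts
-/

open Polynomial TensorProduct CategoryTheory CategoryTheory.Limits AlgebraicGeometry

universe u

set_option linter.unusedSectionVars false

noncomputable section

namespace Pool.Agent.Lib.MP_76d46b_ag

section Chart

variable {C : Scheme.{u}} {R : Type u} [CommRing R]

/-- The sections over an open set in terms of a chart. -/
def chartMap (i : Spec (.of R) ⟶ C) (O : C.Opens) (h : ⊤ ≤ i ⁻¹ᵁ O) : Γ(C, O) ⟶ .of R :=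
  i.appLE O ⊤ h ≫ (Scheme.ΓSpecIso (.of R)).hom

theorem isIso_chartMap (i : Spec (.of R) ⟶ C) [IsOpenImmersion i] (O : C.Opens)
    (h : ⊤ ≤ i ⁻¹ᵁ O) (hO : O ≤ i.opensRange) : IsIso (chartMap i O h) := by
  have h1 : IsIso (i.app O) := i.isIso_app O hO
  have h2 : i ⁻¹ᵁ O = ⊤ := top_le_iff.mp h
  have h3 : IsIso (i.appLE O ⊤ h) := by
    have h4 : IsIso (i.appLE O (i ⁻¹ᵁ O) le_rfl) := by
      rw [Scheme.Hom.appLE_eq_app]; exact h1
    exact (Scheme.Hom.appLE_congr i le_rfl rfl h2 (fun f => IsIso f)).mp h4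
  rw [chartMap]
  infer_instance

theorem chartMap_comp {R' : Type u} [CommRing R'] (φ : R →+* R') (i : Spec (.of R) ⟶ C)
    (k : Spec (.of R') ⟶ C) (hk : Spec.map (CommRingCat.ofHom φ) ≫ i = k)
    (O O' : C.Opens) (hO : O' ≤ O) (h : ⊤ ≤ i ⁻¹ᵁ O) (h' : ⊤ ≤ k ⁻¹ᵁ O') :
    C.presheaf.map (homOfLE hO).op ≫ chartMap k O' h' =
      chartMap i O h ≫ CommRingCat.ofHom φ := by
  subst hk
  rw [chartMap, chartMap, ← Category.assoc, Scheme.Hom.map_appLE, Category.assoc,
    ← Scheme.ΓSpecIso_naturality, ← Category.assoc,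
    ← Scheme.Hom.appLE_comp_appLE _ _ O ⊤ ⊤ h le_rfl]
  congr 2

theorem chartMap_str {K : Type u} [Field K] [Algebra K R] (f : C ⟶ Spec (.of K))
    (i : Spec (.of R) ⟶ C) (hi : i ≫ f = Spec.map (CommRingCat.ofHom (algebraMap K R)))
    (O : C.Opens) (h : ⊤ ≤ i ⁻¹ᵁ O) :
    ((Scheme.ΓSpecIso (.of K)).inv ≫ f.appTop ≫ C.presheaf.map (homOfLE le_top).op) ≫
      chartMap i O h = CommRingCat.ofHom (algebraMap K R) := by
  rw [chartMap, Category.assoc, Category.assoc, ← Category.assoc (C.presheaf.map _),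
    Scheme.Hom.map_appLE, ← Category.assoc f.appTop]
  have h1 : f.appTop ≫ i.appLE ⊤ ⊤ le_top = (i ≫ f).appTop := by
    have h0 : i.appLE ⊤ ⊤ le_top = i.appTop := Scheme.Hom.appLE_eq_app i
    rw [h0, ← Scheme.Hom.comp_appTop]
  have h2 : f.appTop ≫ i.appLE ⊤ ⊤ le_top ≫ (Scheme.ΓSpecIso (.of R)).hom =
      (i ≫ f).appTop ≫ (Scheme.ΓSpecIso (.of R)).hom := by
    rw [← Category.assoc, h1]
  rw [Category.assoc]
  refine (congrArg (fun g => (Scheme.ΓSpecIso (.of K)).inv ≫ g) h2).trans ?_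
  rw [hi, Scheme.ΓSpecIso_naturality, Iso.inv_hom_id_assoc]

end Chart

/-- The Čech cohomology of a covering by two affine charts. -/
theorem cechDim_of_charts {K : Type u} [Field K] {C : Scheme.{u}} (f : C ⟶ Spec (.of K))
    {A B W : Type u} [CommRing A] [CommRing B] [CommRing W] [Algebra K A] [Algebra K B]
    [Algebra K W] (a : A →+* W) (b : B →+* W)
    (i : Spec (.of A) ⟶ C) (j : Spec (.of B) ⟶ C)
    (h : TwoCover (Spec.map (CommRingCat.ofHom a)) (Spec.map (CommRingCat.ofHom b)) i j)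
    (hW : (Spec.map (CommRingCat.ofHom a) ≫ i) ≫ f =
      Spec.map (CommRingCat.ofHom (algebraMap K W))) (U V : C.Opens)
    (hU : (U : Set C) = Set.range i) (hV : (V : Set C) = Set.range j) :
    cechDim f U V = Module.rank K (W ⧸ Submodule.span K (Set.range a ∪ Set.range b)) := by
  have := h.open_i
  have := h.open_j
  have := h.open_a
  set k := Spec.map (CommRingCat.ofHom a) ≫ i with hk
  have hk' : Spec.map (CommRingCat.ofHom b) ≫ j = k := h.isPullback.w.symm
  have hiU : ⊤ ≤ i ⁻¹ᵁ U := fun x _ => by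
    change i x ∈ (U : Set C)
    rw [hU]
    exact ⟨x, rfl⟩
  have hjV : ⊤ ≤ j ⁻¹ᵁ V := fun x _ => by
    change j x ∈ (V : Set C)
    rw [hV]
    exact ⟨x, rfl⟩
  have hkW : ⊤ ≤ k ⁻¹ᵁ (U ⊓ V) := fun x _ => by
    refine ⟨?_, ?_⟩
    · change k x ∈ (U : Set C)
      rw [hU]
      exact ⟨_, rfl⟩
    · change k x ∈ (V : Set C)
      rw [hV, ← hk']
      exact ⟨_, rfl⟩
  have hkO : U ⊓ V ≤ k.opensRange := by
    rintro x ⟨hx1, hx2⟩
    change x ∈ (U : Set C) at hx1
    change x ∈ (V : Set C) at hx2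
    rw [hU] at hx1
    rw [hV] at hx2
    obtain ⟨y, rfl⟩ := hx1
    obtain ⟨z, hz⟩ := hx2
    obtain ⟨w, hw, -⟩ := Scheme.exists_preimage_of_isPullback h.isPullback y z hz.symm
    exact ⟨w, congrArg i hw⟩
  have hUO : U ≤ i.opensRange := fun x hx => by
    change x ∈ (U : Set C) at hx
    rw [hU] at hx
    exact hx
  have hVO : V ≤ j.opensRange := fun x hx => by
    change x ∈ (V : Set C) at hx
    rw [hV] at hx
    exact hx
  have i1 := isIso_chartMap i U hiU hUO
  have i2 := isIso_chartMap j V hjV hVO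
  have i3 := isIso_chartMap k (U ⊓ V) hkW hkO
  have c1 := chartMap_comp a i k rfl U (U ⊓ V) inf_le_left hiU hkW
  have c2 := chartMap_comp b j k hk' V (U ⊓ V) inf_le_right hjV hkW
  have c3 := chartMap_str f k hW (U ⊓ V) hkW
  let alg : Algebra K Γ(C, U ⊓ V) := (sectionsMap f (U ⊓ V)).hom.toAlgebra
  let e : Γ(C, U ⊓ V) ≃+* W := (asIso (chartMap k (U ⊓ V) hkW)).commRingCatIsoToRingEquiv
  have he : ∀ x, e x = (chartMap k (U ⊓ V) hkW).hom x := fun x => rfl
  let eK : Γ(C, U ⊓ V) ≃ₗ[K] W :=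
    (AlgEquiv.ofRingEquiv (f := e) (fun r => congrArg (fun g => g.hom r) c3)).toLinearEquiv
  have heK : ∀ x, eK x = (chartMap k (U ⊓ V) hkW).hom x := fun x => rfl
  have h1 : (Submodule.span K
      (Set.range (C.presheaf.map (homOfLE (inf_le_left : U ⊓ V ≤ U)).op).hom ∪
      Set.range (C.presheaf.map (homOfLE (inf_le_right : U ⊓ V ≤ V)).op).hom)).map
      (eK : Γ(C, U ⊓ V) →ₗ[K] W) = Submodule.span K (Set.range a ∪ Set.range b) := by
    rw [Submodule.map_span, Set.image_union, ← Set.range_comp, ← Set.range_comp]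
    have e1 : Set.range ((eK : Γ(C, U ⊓ V) →ₗ[K] W) ∘
        (C.presheaf.map (homOfLE (inf_le_left : U ⊓ V ≤ U)).op).hom) = Set.range a := by
      ext x
      constructor
      · rintro ⟨y, rfl⟩
        exact ⟨(chartMap i U hiU).hom y, (congrArg (fun g => g.hom y) c1).symm⟩
      · rintro ⟨y, rfl⟩
        refine ⟨(inv (chartMap i U hiU)).hom y, ?_⟩
        have := congrArg (fun g => g.hom ((inv (chartMap i U hiU)).hom y)) c1
        refine this.trans ?_
        change a ((chartMap i U hiU).hom ((inv (chartMap i U hiU)).hom y)) = a y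
        congr 1
        exact congrArg (fun g => g.hom y) (IsIso.inv_hom_id (chartMap i U hiU))
    have e2 : Set.range ((eK : Γ(C, U ⊓ V) →ₗ[K] W) ∘
        (C.presheaf.map (homOfLE (inf_le_right : U ⊓ V ≤ V)).op).hom) = Set.range b := by
      ext x
      constructor
      · rintro ⟨y, rfl⟩
        exact ⟨(chartMap j V hjV).hom y, (congrArg (fun g => g.hom y) c2).symm⟩
      · rintro ⟨y, rfl⟩
        refine ⟨(inv (chartMap j V hjV)).hom y, ?_⟩
        have := congrArg (fun g => g.hom ((inv (chartMap j V hjV)).hom y)) c2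
        refine this.trans ?_
        change b ((chartMap j V hjV).hom ((inv (chartMap j V hjV)).hom y)) = b y
        congr 1
        exact congrArg (fun g => g.hom y) (IsIso.inv_hom_id (chartMap j V hjV))
    rw [e1, e2]
  exact (Submodule.Quotient.equiv _ _ eK h1).rank_eq

/-- The genus in terms of a covering by two affine charts. -/
theorem hasGenus_of_charts {K : Type u} [Field K] {C : Scheme.{u}} (f : C ⟶ Spec (.of K))
    {A B W : Type u} [CommRing A] [CommRing B] [CommRing W] [Algebra K A] [Algebra K B]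
    [Algebra K W] (a : A →+* W) (b : B →+* W)
    (i : Spec (.of A) ⟶ C) (j : Spec (.of B) ⟶ C)
    (h : TwoCover (Spec.map (CommRingCat.ofHom a)) (Spec.map (CommRingCat.ofHom b)) i j)
    (hW : (Spec.map (CommRingCat.ofHom a) ≫ i) ≫ f =
      Spec.map (CommRingCat.ofHom (algebraMap K W))) (g : ℕ)
    (hg : Module.rank K (W ⧸ Submodule.span K (Set.range a ∪ Set.range b)) = g) :
    HasGenus f g := by
  have := h.open_i
  have := h.open_j
  refine ⟨i.opensRange, j.opensRange, isAffineOpen_opensRange i, isAffineOpen_opensRange j, ?_, ?_⟩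
  · rw [eq_top_iff]
    rintro x -
    exact h.cover x
  · rw [cechDim_of_charts f a b i j h hW _ _ rfl rfl, hg]

section Model

variable {K : Type u} [Field K] {p : ℕ} [hp : Fact p.Prime] [CharP K p] {D₁ D₂ : K[X]}
  [hE : Good (D₁ * D₂)] {G : Tuple (PP p) (Spec (.of K))}

/-- The covering of `Y` by the two affine charts. -/
theorem Model.coverY (M : Model p D₁ D₂ G) :
    TwoCover (Spec.map (CommRingCat.ofHom (aA p D₁ D₂ : AU p D₁ D₂ →+* AW p D₁ D₂)))
      (Spec.map (CommRingCat.ofHom (bA p D₁ D₂ : AV p D₁ D₂ →+* AW p D₁ D₂))) M.jU M.jV :=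
  M.coverX.of_isPullback M.pullU.flip M.pullV.flip (isPullback_aA p D₁ D₂).flip M.glueY
    (isPullback_bA p D₁ D₂).w.symm

theorem Model.genus_X (M : Model p D₁ D₂ G) : HasGenus G.π 0 := by
  refine hasGenus_of_charts G.π (algebraMap K[X] (RW (D₁ * D₂)))
    (algebraMap (RV (D₁ * D₂)) (RW (D₁ * D₂))) M.iU M.iV M.coverX ?_ 0 ?_
  · rw [Category.assoc, M.iU_π, ← Spec.map_comp, ← CommRingCat.ofHom_comp,
      ← IsScalarTower.algebraMap_eq]
  · exact rank_cech_X.trans Nat.cast_zero.symm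

theorem Model.genus_Y (M : Model p D₁ D₂ G) (h1 : D₁.Monic) (h2 : D₂.Monic)
    (hd1 : 0 < D₁.natDegree) (hd2 : 0 < D₂.natDegree) (hd : D₁.natDegree + D₂.natDegree = 4) :
    HasGenus (G.φ ≫ G.π) ((p - 1) * (3 * p - 1)) := by
  refine hasGenus_of_charts (G.φ ≫ G.π) (aA p D₁ D₂ : AU p D₁ D₂ →+* AW p D₁ D₂)
    (bA p D₁ D₂ : AV p D₁ D₂ →+* AW p D₁ D₂) M.jU M.jV M.coverY ?_ _
    (rank_cech_Y p h1 h2 hd1 hd2 hd)
  have e1 : M.jU ≫ G.φ ≫ G.π =
      Spec.map (CommRingCat.ofHom (algebraMap K[X] (AU p D₁ D₂))) ≫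
        Spec.map (CommRingCat.ofHom (algebraMap K K[X])) := by
    rw [← Category.assoc, M.pullU.w, Category.assoc, M.iU_π]
  rw [Category.assoc, e1, ← Spec.map_comp, ← Spec.map_comp, ← CommRingCat.ofHom_comp,
    ← CommRingCat.ofHom_comp]
  congr 2
  apply RingHom.ext
  intro x
  change aA p D₁ D₂ (algebraMap K[X] (AU p D₁ D₂) (algebraMap K K[X] x)) = algebraMap K _ x
  rw [AlgHom.commutes, ← IsScalarTower.algebraMap_apply]

end Model

end Pool.Agent.Lib.MP_76d46b_ag
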