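import Pool.Agent.Lib.MP_76d46b_ag.Ram
import Pool.Agent.Lib.MP_76d46b_ag.GenusScheme
import Pool.Agent.Lib.MP_76d46b_ag.ProperX

/-!
# A model over an algebraically closed field is a Galois cover
-/

open Polynomial TensorProduct CategoryTheory CategoryTheory.Limits AlgebraicGeometry

universe u

set_option linter.unusedSectionVars false

namespace Pool.Agent.Lib.MP_76d46b_ag

/-- The point of the affine line given by `r`. -/
noncomputable def ptX {K : Type u} [Field K] (r : K) : PrimeSpectrum K[X] :=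
  ⟨Ideal.span {X - C r}, (Ideal.span_singleton_prime (X_sub_C_ne_zero r)).mpr (prime_X_sub_C r)⟩

theorem eq_ptX {K : Type u} [Field K] (r : K) (P : PrimeSpectrum K[X]) (h : X - C r ∈ P.asIdeal) :
    P = ptX r := by
  have h1 : (Ideal.span {X - C r} : Ideal K[X]).IsMaximal :=
    PrincipalIdealRing.isMaximal_of_irreducible (irreducible_X_sub_C r)
  apply PrimeSpectrum.ext
  symm
  exact h1.eq_of_le P.2.ne_top ((Ideal.span_singleton_le_iff_mem _).mpr h)

theorem mem_ptX {K : Type u} [Field K] (r : K) (f : K[X]) :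
    f ∈ (ptX r).asIdeal ↔ f.IsRoot r := by
  rw [← dvd_iff_isRoot]
  exact Ideal.mem_span_singleton

theorem ptX_injective {K : Type u} [Field K] : Function.Injective (ptX : K → PrimeSpectrum K[X]) := by
  intro r s h
  have h1 : X - C r ∈ (ptX s).asIdeal := by
    rw [← h, mem_ptX]; simp
  rw [mem_ptX, IsRoot.def, eval_sub, eval_X, eval_C, sub_eq_zero] at h1
  exact h1.symm

section

variable {p : ℕ} [hp : Fact p.Prime] {K : Type u} [Field K] [CharP K p] {D₁ D₂ : K[X]}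
variable [hE : Good (D₁ * D₂)] {G : Tuple (PP p) (Spec (.of K))} (M : Model p D₁ D₂ G)

omit hE in
theorem exists_over (P : PrimeSpectrum K[X]) :
    ∃ q : PrimeSpectrum (AU p D₁ D₂), q.comap (algebraMap K[X] (AU p D₁ D₂)) = P := by
  have h1 : Nontrivial (InfAlg p D₁) := by
    apply AdjoinRoot.nontrivial
    rw [degree_eq_natDegree (infPoly_monic p D₁).ne_zero, infPoly_natDegree]
    exact_mod_cast hp.out.ne_zero
  have h2 : Nontrivial (InfAlg p D₂) := by
    apply AdjoinRoot.nontrivial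
    rw [degree_eq_natDegree (infPoly_monic p D₂).ne_zero, infPoly_natDegree]
    exact_mod_cast hp.out.ne_zero
  have h3 : Module.FaithfullyFlat K[X] (AU p D₁ D₂) := inferInstance
  exact PrimeSpectrum.comap_surjective_of_faithfullyFlat P

include M

theorem Model.mem_range_ι (x : G.X) :
    x ∈ Set.range G.ι ↔ ∃ P : PrimeSpectrum K[X], D₁ * D₂ ∈ P.asIdeal ∧ M.iU P = x := by
  have hiso := M.isIso_eB
  have h0 : ∀ z : PrimeSpectrum (AdjoinRoot (D₁ * D₂)), G.ι (M.eB z) =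
      M.iU (z.comap (AdjoinRoot.mk (D₁ * D₂))) := fun z =>
    congrArg (fun f : Spec (.of (AdjoinRoot (D₁ * D₂))) ⟶ G.X => f z) M.eB_ι
  have hsurj : Function.Surjective M.eB := M.eB.homeomorph.surjective
  have hr := range_comap_of_surjective (AdjoinRoot (D₁ * D₂))
    (AdjoinRoot.mk (D₁ * D₂)) AdjoinRoot.mk_surjective
  constructor
  · rintro ⟨b, rfl⟩
    obtain ⟨(z : PrimeSpectrum (AdjoinRoot (D₁ * D₂))), rfl⟩ := hsurj b
    refine ⟨PrimeSpectrum.comap (AdjoinRoot.mk (D₁ * D₂)) z, ?_, (h0 z).symm⟩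
    rw [PrimeSpectrum.comap_asIdeal, Ideal.mem_comap, AdjoinRoot.mk_self]
    exact Ideal.zero_mem _
  · rintro ⟨P, hP, rfl⟩
    have h1 : P ∈ Set.range (PrimeSpectrum.comap (AdjoinRoot.mk (D₁ * D₂))) := by
      rw [hr, PrimeSpectrum.mem_zeroLocus]
      intro f hf
      rw [SetLike.mem_coe, RingHom.mem_ker, AdjoinRoot.mk_eq_zero] at hf
      exact Ideal.mem_of_dvd _ hf hP
    obtain ⟨z, rfl⟩ := h1
    exact ⟨M.eB z, h0 z⟩

/-- Points above the zeros of `E`. -/
theorem Model.exists_jU (y : G.Y) (P : PrimeSpectrum K[X]) (hy : G.φ y = M.iU P) :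
    ∃ q : PrimeSpectrum (AU p D₁ D₂), M.jU q = y ∧
      q.comap (algebraMap K[X] (AU p D₁ D₂)) = P := by
  obtain ⟨q, hq⟩ := M.mem_range_jU_of_φ y ⟨P, hy.symm⟩
  refine ⟨q, hq, ?_⟩
  apply M.iU_injective
  rw [← hy, ← hq]
  exact (M.φ_jU q).symm

end

section AlgClosed

variable {p : ℕ} [hp : Fact p.Prime] {K : Type u} [Field K] [CharP K p] [IsAlgClosed K]
  {D₁ D₂ : K[X]}
variable [hE : Good (D₁ * D₂)] {G : Tuple (PP p) (Spec (.of K))} (M : Model p D₁ D₂ G)

include M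

theorem Model.differentMult_of_φ (hs : (D₁ * D₂).Separable) (y : G.Y) (P : PrimeSpectrum K[X])
    (hP : D₁ * D₂ ∈ P.asIdeal) (hy : G.φ y = M.iU P) :
    differentMult G.φ y = ((2 * (p - 1) : ℕ) : ℕ∞) := by
  obtain ⟨q, rfl, rfl⟩ := M.exists_jU y P hy
  exact M.differentMult_jU hs q hP

theorem Model.branch (hs : (D₁ * D₂).Separable) : Set.range G.ι = branchLocus G.φ := by
  ext x
  rw [M.mem_range_ι]
  constructor
  · rintro ⟨P, hP, rfl⟩
    obtain ⟨q, rfl⟩ := exists_over (p := p) (D₁ := D₁) (D₂ := D₂) P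
    refine ⟨M.jU q, ?_, M.φ_jU q⟩
    change differentMult G.φ (M.jU q) ≠ 0
    rw [M.differentMult_jU hs q hP]
    have := hp.out.two_le
    exact_mod_cast (by omega : 2 * (p - 1) ≠ 0)
  · rintro ⟨y, hy, rfl⟩
    have h1 : y ∉ Set.range M.jV := fun h => hy (M.differentMult_jV y h)
    rcases M.coverY_points y with ⟨(q : PrimeSpectrum (AU p D₁ D₂)), rfl⟩ | h
    · refine ⟨PrimeSpectrum.comap (algebraMap K[X] (AU p D₁ D₂)) q, ?_, (M.φ_jU q).symm⟩
      by_contra hE
      apply h1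
      apply M.mem_range_jV_of_φ
      have h2 := M.φ_jU q
      rw [h2]
      exact M.mem_range_iV _ hE
    · exact absurd h h1

theorem Model.mem_branchLocus (hs : (D₁ * D₂).Separable) (x : G.X) :
    x ∈ branchLocus G.φ ↔ ∃ r, (D₁ * D₂).IsRoot r ∧ M.iU (ptX r) = x := by
  rw [← M.branch hs, M.mem_range_ι]
  constructor
  · rintro ⟨P, hP, rfl⟩
    obtain ⟨q, rfl⟩ := exists_over (p := p) (D₁ := D₁) (D₂ := D₂) P
    obtain ⟨r, hr, hrP⟩ := exists_root_of_mem (pt_AU (p := p) D₁ D₂) q.asIdeal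
      hs.ne_zero hP
    exact ⟨r, hr, congrArg (fun z : Spec (.of K[X]) => M.iU z) (eq_ptX r _ hrP).symm⟩
  · rintro ⟨r, hr, rfl⟩
    exact ⟨ptX r, (mem_ptX r _).mpr hr, rfl⟩

theorem Model.differentDegree_eq (hs : (D₁ * D₂).Separable) (P : PrimeSpectrum K[X])
    (hP : D₁ * D₂ ∈ P.asIdeal) :
    differentDegree G.φ (M.iU P) = ((2 * p * (p - 1) : ℕ) : ℕ∞) := by
  obtain ⟨q, rfl⟩ := exists_over (p := p) (D₁ := D₁) (D₂ := D₂) P
  have hcard := M.card_fibre hs q hP
  rw [M.φ_jU] at hcard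
  set S : Set G.Y := G.φ ⁻¹' {M.iU (PrimeSpectrum.comap (algebraMap K[X] (AU p D₁ D₂)) q)}
  have hfin : S.Finite := Nat.finite_of_card_ne_zero (by rw [hcard]; exact hp.out.ne_zero)
  have h1 : differentDegree G.φ
      (M.iU (PrimeSpectrum.comap (algebraMap K[X] (AU p D₁ D₂)) q)) =
      ∑ᶠ y ∈ S, ((2 * (p - 1) : ℕ) : ℕ∞) := by
    refine finsum_mem_congr rfl fun y hy => ?_
    exact M.differentMult_of_φ hs y _ hP hy
  rw [h1, finsum_mem_eq_finite_toFinset_sum _ hfin, Finset.sum_const]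
  rw [Nat.card_coe_set_eq, Set.ncard_eq_toFinset_card S hfin] at hcard
  rw [hcard, nsmul_eq_mul]
  have h2 : 2 * p * (p - 1) = p * (2 * (p - 1)) := by ring
  rw [h2, Nat.cast_mul p]

theorem Model.config (hs : (D₁ * D₂).Separable) :
    ∃ s : Finset G.X, (s : Set G.X) = branchLocus G.φ ∧
    s.val.map (differentDegree G.φ) =
      (Multiset.replicate (D₁ * D₂).natDegree (2 * p * (p - 1))).map (fun n : ℕ => (n : ℕ∞)) := by
  classical
  let f : K → G.X := fun r => M.iU (ptX r)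
  have hf : Function.Injective f := fun r s h => ptX_injective (M.iU_injective h)
  let s : Finset G.X := (D₁ * D₂).roots.toFinset.image f
  have hmem : ∀ x, x ∈ s ↔ x ∈ branchLocus G.φ := by
    intro x
    rw [M.mem_branchLocus hs, Finset.mem_image]
    simp only [Multiset.mem_toFinset, mem_roots hs.ne_zero, f]
  refine ⟨s, Set.ext fun x => hmem x, ?_⟩
  have hcard : s.card = (D₁ * D₂).natDegree := by
    rw [Finset.card_image_of_injective _ hf, Multiset.toFinset_card_of_nodup (nodup_roots hs)]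
    exact (splits_iff_card_roots.mp (IsAlgClosed.splits (D₁ * D₂)))
  have h1 : s.val.map (differentDegree G.φ) =
      s.val.map (fun _ => ((2 * p * (p - 1) : ℕ) : ℕ∞)) := by
    refine Multiset.map_congr rfl fun x hx => ?_
    obtain ⟨r, hr, rfl⟩ := (M.mem_branchLocus hs x).mp ((hmem x).mp hx)
    exact M.differentDegree_eq hs _ ((mem_ptX r _).mpr hr)
  rw [h1, Multiset.map_const', Multiset.map_replicate]
  congr 1

theorem Model.nonempty_Y : Nonempty G.Y := by
  obtain ⟨q, -⟩ := exists_over (p := p) (D₁ := D₁) (D₂ := D₂) (ptX 0)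
  exact ⟨M.jU q⟩

theorem Model.connectedSpace_X : ConnectedSpace G.X := by
  have := M.irreducibleSpace_X
  infer_instance

theorem Model.connectedSpace_Y (h₁0 : 0 < D₁.natDegree)
    (h₂0 : 0 < D₂.natDegree) (hs : (D₁ * D₂).Separable) : ConnectedSpace G.Y := by
  have := M.connectedSpace_X
  have := M.isFinite
  have := M.flat
  have := M.lfp
  refine G.connectedSpace_Y M.nonempty_Y M.exists_act_eq ?_
  set H := Subgroup.closure {σ : PP p | ∃ x : G.X, ∀ y, G.φ y = x → (G.act σ).hom y = y}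
  obtain ⟨r₁, hr₁⟩ := IsAlgClosed.exists_root D₁ (by
    rw [degree_eq_natDegree hs.of_mul_left.ne_zero]; exact_mod_cast h₁0.ne')
  obtain ⟨r₂, hr₂⟩ := IsAlgClosed.exists_root D₂ (by
    rw [degree_eq_natDegree hs.of_mul_right.ne_zero]; exact_mod_cast h₂0.ne')
  have hH₁ : ∀ σ : PP p, σ.toAdd.2 = 0 → σ ∈ H := by
    intro σ hσ
    apply Subgroup.subset_closure
    refine ⟨M.iU (ptX r₁), fun y hy => ?_⟩
    obtain ⟨q, rfl, hq⟩ := M.exists_jU y _ hy
    refine (M.mem_stab₁ hs σ q ?_).mpr hσ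
    have h1 : D₁ ∈ (q.comap (algebraMap K[X] (AU p D₁ D₂))).asIdeal := by
      rw [hq]; exact (mem_ptX r₁ _).mpr hr₁
    exact h1
  have hH₂ : ∀ σ : PP p, σ.toAdd.1 = 0 → σ ∈ H := by
    intro σ hσ
    apply Subgroup.subset_closure
    refine ⟨M.iU (ptX r₂), fun y hy => ?_⟩
    obtain ⟨q, rfl, hq⟩ := M.exists_jU y _ hy
    refine (M.mem_stab₂ hs σ q ?_).mpr hσ
    have h1 : D₂ ∈ (q.comap (algebraMap K[X] (AU p D₁ D₂))).asIdeal := by
      rw [hq]; exact (mem_ptX r₂ _).mpr hr₂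
    exact h1
  rw [eq_top_iff]
  intro σ _
  have h1 : σ = Multiplicative.ofAdd (σ.toAdd.1, 0) * Multiplicative.ofAdd (0, σ.toAdd.2) := by
    apply Multiplicative.toAdd.injective
    rw [toAdd_mul, toAdd_ofAdd, toAdd_ofAdd, Prod.mk_add_mk, add_zero, zero_add]
  rw [h1]
  exact H.mul_mem (hH₁ _ rfl) (hH₂ _ rfl)

/-- A model over an algebraically closed field is a Galois cover with the expected invariants. -/
theorem Model.isGaloisCover (h₁ : D₁.Monic) (h₁0 : 0 < D₁.natDegree) (h₂ : D₂.Monic)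
    (h₂0 : 0 < D₂.natDegree) (hd : D₁.natDegree + D₂.natDegree = 4)
    (hs : (D₁ * D₂).Separable) :
    IsGaloisCover G 0 ((p - 1) * (3 * p - 1)) (Multiset.replicate 4 (2 * p * (p - 1))) where
  curve_X := ⟨M.smooth_X, M.proper_X, M.connectedSpace_X⟩
  curve_Y := by
    refine ⟨M.smooth_Y h₁ h₁0 h₂ h₂0 hs, ?_, M.connectedSpace_Y h₁0 h₂0 hs⟩
    have := M.proper_X
    have := M.isFinite
    infer_instance
  genus_X := M.genus_X
  genus_Y := M.genus_Y h₁ h₂ h₁0 h₂0 hd
  finite := M.isFinite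
  galois := ⟨M.V, by rw [M.coe_V]; exact M.dense_V, M.etale_V, M.torsor⟩
  branch := M.branch hs
  config := by
    have h := M.config hs
    rwa [h₁.natDegree_mul h₂, hd] at h

end AlgClosed

end Pool.Agent.Lib.MP_76d46b_ag
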