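import Pool.Agent.Lib.MP_76d46b_ag.Charts2

/-!
# The Čech cohomology of the covering curve
-/

open Polynomial TensorProduct

universe u

set_option linter.unusedSectionVars false

namespace Pool.Agent.Lib.MP_76d46b_ag

/-! ### The pieces -/

section Piece

variable {K : Type u} [Field K] {E : K[X]} (hE : Good E)

/-- `RV + e K[x]` in `RW` -/
noncomputable def NSub (e : K[X]) : Submodule K (RW E) :=
  LinearMap.range (bMap hE).toLinearMap ⊔
    LinearMap.range ((IsScalarTower.toAlgHom K K[X] (RW E)).toLinearMap ∘ₗ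
      LinearMap.mulLeft K e)

theorem mem_NSub {e : K[X]} {z : RW E} :
    z ∈ NSub hE e ↔ ∃ (r : RV E) (g : K[X]), z = bMap hE r + algebraMap K[X] (RW E) (e * g) := by
  rw [NSub, Submodule.mem_sup]
  constructor
  · rintro ⟨_, ⟨r, rfl⟩, _, ⟨g, rfl⟩, rfl⟩
    exact ⟨r, g, rfl⟩
  · rintro ⟨r, g, rfl⟩
    exact ⟨_, ⟨r, rfl⟩, _, ⟨g, rfl⟩, rfl⟩

/-- `c ↦ ∑ c_i x^(i+1)` -/
noncomputable def pieceMap (n : ℕ) : (Fin n → K) →ₗ[K] K[X] where
  toFun c := ∑ i : Fin n, C (c i) * X ^ ((i : ℕ) + 1)
  map_add' c d := by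
    rw [← Finset.sum_add_distrib]
    refine Finset.sum_congr rfl fun i _ => ?_
    rw [Pi.add_apply, C_add, add_mul]
  map_smul' c d := by
    rw [RingHom.id_apply, Finset.smul_sum]
    refine Finset.sum_congr rfl fun i _ => ?_
    rw [Pi.smul_apply, smul_eq_mul, C_mul, smul_eq_C_mul, mul_assoc]

theorem pieceMap_apply (n : ℕ) (c : Fin n → K) :
    pieceMap n c = ∑ i : Fin n, C (c i) * X ^ ((i : ℕ) + 1) := rfl

theorem pieceMap_coeff (n : ℕ) (c : Fin n → K) (i : Fin n) :
    (pieceMap n c).coeff ((i : ℕ) + 1) = c i := by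
  rw [pieceMap_apply, finsetSum_coeff, Finset.sum_eq_single i]
  · rw [coeff_C_mul, coeff_X_pow, if_pos rfl, mul_one]
  · intro j _ hj
    rw [coeff_C_mul, coeff_X_pow, if_neg, mul_zero]
    intro h
    apply hj
    apply Fin.ext
    omega
  · intro h
    exact absurd (Finset.mem_univ i) h

theorem pieceMap_natDegree_le (n : ℕ) (c : Fin n → K) : (pieceMap n c).natDegree ≤ n := by
  rw [pieceMap_apply]
  refine natDegree_sum_le_of_forall_le _ _ fun i _ => ?_
  refine (natDegree_C_mul_X_pow_le _ _).trans ?_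
  have := i.2
  omega

theorem rank_piece {e : K[X]} (he : e.Monic) :
    Module.rank K (RW E ⧸ NSub hE e) = ((e.natDegree - 1 : ℕ) : Cardinal.{u}) := by
  set n := e.natDegree - 1 with hn
  let L : (Fin n → K) →ₗ[K] RW E ⧸ NSub hE e :=
    (NSub hE e).mkQ ∘ₗ (IsScalarTower.toAlgHom K K[X] (RW E)).toLinearMap ∘ₗ pieceMap n
  have hL : ∀ c, L c = (NSub hE e).mkQ (algebraMap K[X] (RW E) (pieceMap n c)) := fun c => rfl
  have hinj : Function.Injective L := by
    rw [injective_iff_map_eq_zero]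
    intro c hc
    rw [hL, Submodule.mkQ_apply, Submodule.Quotient.mk_eq_zero, mem_NSub] at hc
    obtain ⟨r, g, hr⟩ := hc
    obtain ⟨k, hk⟩ := eq_C_of_mem hE (pieceMap n c - e * g) r (by
      rw [map_sub, hr]; ring)
    rcases Nat.eq_zero_or_pos n with h0 | hpos
    · ext i
      exact absurd i.2 (by omega)
    have hg : g = 0 := by
      by_contra hg
      have h1 : e * g = pieceMap n c - C k := by rw [← hk]; ring
      have h2 : (e * g).natDegree ≤ n := by
        rw [h1]
        refine (natDegree_sub_le _ _).trans (max_le (pieceMap_natDegree_le n c) ?_)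
        rw [natDegree_C]
        exact Nat.zero_le _
      rw [he.natDegree_mul' hg] at h2
      omega
    rw [hg, mul_zero, sub_zero] at hk
    ext i
    rw [← pieceMap_coeff n c i, hk, coeff_C, if_neg (Nat.succ_ne_zero _)]
    rfl
  have hsurj : Function.Surjective L := by
    intro z
    obtain ⟨z, rfl⟩ := Submodule.mkQ_surjective _ z
    obtain ⟨g, r, rfl⟩ := exists_sum hE z
    set g' := g %ₘ e with hg'
    have hdeg : g'.natDegree ≤ n := by
      rcases Nat.eq_zero_or_pos e.natDegree with h0 | hpos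
      · have : e = 1 := he.natDegree_eq_zero.mp h0
        rw [hg', this, modByMonic_one]
        simp
      · have : (g %ₘ e).natDegree < e.natDegree := natDegree_modByMonic_lt g he (by
          rintro rfl
          rw [natDegree_one] at hpos
          exact absurd hpos (by norm_num))
        rw [hg']
        omega
    refine ⟨fun i => g'.coeff ((i : ℕ) + 1), ?_⟩
    rw [hL, Submodule.mkQ_apply, Submodule.mkQ_apply, Submodule.Quotient.eq, mem_NSub]
    refine ⟨-r - algebraMap K (RV E) (g'.coeff 0), -(g /ₘ e), ?_⟩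
    have h1 : pieceMap n (fun i => g'.coeff ((i : ℕ) + 1)) = g' - C (g'.coeff 0) := by
      have h0 := as_sum_range_C_mul_X_pow' g' (Nat.lt_succ_of_le hdeg)
      rw [Finset.sum_range_succ', pow_zero, mul_one, Finset.sum_range] at h0
      rw [pieceMap_apply]
      exact eq_sub_of_add_eq h0.symm
    have h2 := modByMonic_add_div g e
    have h3 : algebraMap K[X] (RW E) (C (g'.coeff 0)) = algebraMap K (RW E) (g'.coeff 0) :=
      (IsScalarTower.algebraMap_apply K K[X] (RW E) _).symm
    rw [h1, map_sub, map_sub, map_neg, AlgHom.commutes, h3]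
    have h4 := congrArg (algebraMap K[X] (RW E)) h2
    rw [map_add, map_mul] at h4
    rw [map_mul, map_neg]
    linear_combination h4
  have := (LinearEquiv.ofBijective L ⟨hinj, hsurj⟩).rank_eq
  rw [← this, rank_fin_fun]

end Piece

/-! ### A general lemma -/

section General

variable {K : Type u} [Field K] {ι : Type} [Fintype ι] {W A : Type u} [AddCommGroup W] [Module K W]
  [AddCommGroup A] [Module K A]

theorem rank_quotient_of_equiv (φ : A ≃ₗ[K] (ι → W)) (S : Submodule K A) (N : ι → Submodule K W)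
    (h : ∀ x, x ∈ S ↔ ∀ i, φ x i ∈ N i) (n : ι → ℕ)
    (hn : ∀ i, Module.rank K (W ⧸ N i) = (n i : Cardinal.{u})) :
    Module.rank K (A ⧸ S) = ((∑ i, n i : ℕ) : Cardinal.{u}) := by
  classical
  have h1 : S.map (φ : A →ₗ[K] (ι → W)) = Submodule.pi Set.univ N := by
    ext z
    rw [Submodule.mem_map, Submodule.mem_pi]
    constructor
    · rintro ⟨x, hx, rfl⟩ i _
      exact (h x).mp hx i
    · intro hz
      refine ⟨φ.symm z, (h _).mpr fun i => ?_, φ.apply_symm_apply z⟩
      rw [φ.apply_symm_apply]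
      exact hz i (Set.mem_univ i)
  have e : (A ⧸ S) ≃ₗ[K] ∀ i, W ⧸ N i :=
    (Submodule.Quotient.equiv S (Submodule.pi Set.univ N) φ h1).trans (Submodule.quotientPi N)
  have hfin : ∀ i, Module.Finite K (W ⧸ N i) := fun i => by
    rw [← Module.rank_lt_aleph0_iff, hn]
    exact Cardinal.natCast_lt_aleph0
  have hfr : ∀ i, Module.finrank K (W ⧸ N i) = n i := fun i =>
    Module.finrank_eq_of_rank_eq (hn i)
  rw [e.rank_eq, ← Module.finrank_eq_rank, Module.finrank_pi_fintype]
  simp_rw [hfr]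

end General

/-! ### Bases of Artin–Schreier algebras -/

section Bases

variable {p : ℕ} [hp : Fact p.Prime] {R : Type u} [CommRing R] [Nontrivial R]

/-- The basis `y^i` -/
noncomputable def finBasis (f : R) : Module.Basis (Fin p) R (FinAlg p f) :=
  (AdjoinRoot.powerBasis' (finPoly_monic p f)).basis.reindex
    (finCongr (finPoly_natDegree p f))

theorem finBasis_apply (f : R) (i : Fin p) :
    finBasis f i = AdjoinRoot.root (finPoly p f) ^ (i : ℕ) := by
  rw [finBasis, Module.Basis.reindex_apply, PowerBasis.basis_eq_pow]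
  rfl

/-- The basis `w^i` -/
noncomputable def infBasis (D : R) : Module.Basis (Fin p) R (InfAlg p D) :=
  (AdjoinRoot.powerBasis' (infPoly_monic p D)).basis.reindex
    (finCongr (infPoly_natDegree p D))

theorem infBasis_apply (D : R) (i : Fin p) :
    infBasis D i = AdjoinRoot.root (infPoly p D) ^ (i : ℕ) := by
  rw [infBasis, Module.Basis.reindex_apply, PowerBasis.basis_eq_pow]
  rfl

end Bases

section Range

variable {p : ℕ} [hp : Fact p.Prime] {R R' : Type u} [CommRing R] [CommRing R'] [Algebra R R']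
  [Nontrivial R] [Nontrivial R']

/-- the coefficient of `y^i` -/
noncomputable def eC (D : R) (i : Fin p) : R := if (i : ℕ) = 0 then 1 else D

theorem range_finMap (f : R) (f' : R') (h : algebraMap R R' f = f') :
    LinearMap.range (finMap (p := p) f f' h).toLinearMap =
      Submodule.span R (Set.range fun i : Fin p => finBasis f' i) := by
  rw [LinearMap.range_eq_map, ← (finBasis (p := p) f).span_eq, Submodule.map_span,
    ← Set.range_comp]
  congr 2
  ext i
  rw [Function.comp_apply, AlgHom.toLinearMap_apply, finBasis_apply, finBasis_apply, map_pow,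
    finMap_root]

theorem range_infToFin (D : R) (f : R') (h : algebraMap R R' D * f = 1) :
    LinearMap.range (infToFin (p := p) D f h).toLinearMap =
      Submodule.span R (Set.range fun i : Fin p => eC D i • finBasis f i) := by
  set y := AdjoinRoot.root (finPoly p f) with hy
  set w := infToFin D f h (AdjoinRoot.root (infPoly p D)) with hw
  have hwy : w * y = 1 := infToFin_root_mul D f h
  have hp2 := hp.out.two_le
  have hwD : D • y ^ (p - 1) = w + algebraMap R _ D := by
    rw [hw, infToFin_root, Algebra.smul_def, ← hy, ← IsScalarTower.algebraMap_apply]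
    ring
  have hkey : ∀ i, i + 1 ≤ p → D • y ^ (p - 1 - i) = w ^ (i + 1) + D • w ^ i := by
    intro i hi
    have h1 : y ^ (p - 1) = y ^ (p - 1 - i) * y ^ i := by
      rw [← pow_add]
      congr 1
      omega
    have h2 : w ^ i * y ^ i = 1 := by rw [← mul_pow, hwy, one_pow]
    rw [Algebra.smul_def] at hwD ⊢
    rw [Algebra.smul_def]
    calc algebraMap R _ D * y ^ (p - 1 - i) =
        (w ^ i * y ^ i) * (algebraMap R _ D * y ^ (p - 1 - i)) := by rw [h2, one_mul]
      _ = w ^ i * (algebraMap R _ D * y ^ (p - 1)) := by rw [h1]; ring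
      _ = w ^ (i + 1) + algebraMap R _ D * w ^ i := by rw [hwD]; ring
  have hrange : LinearMap.range (infToFin (p := p) D f h).toLinearMap =
      Submodule.span R (Set.range fun i : Fin p => w ^ (i : ℕ)) := by
    rw [LinearMap.range_eq_map, ← (infBasis (p := p) D).span_eq, Submodule.map_span,
      ← Set.range_comp]
    congr 2
    ext i
    rw [Function.comp_apply, AlgHom.toLinearMap_apply, infBasis_apply, map_pow]
  rw [hrange]
  have hp0 : 0 < p := by omega
  apply le_antisymm
  · rw [Submodule.span_le]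
    have h1 : ∀ i : ℕ, i < p → w ^ i ∈ Submodule.span R
        (Set.range fun i : Fin p => eC D i • finBasis f i) := by
      intro i
      induction i with
      | zero =>
        intro _
        refine Submodule.subset_span ⟨⟨0, hp0⟩, ?_⟩
        change eC D (⟨0, hp0⟩ : Fin p) • finBasis f ⟨0, hp0⟩ = _
        rw [eC, if_pos rfl, one_smul, finBasis_apply, pow_zero, pow_zero]
      | succ i ih =>
        intro hi
        have h2 := hkey i (by omega)
        have h3 : w ^ (i + 1) = D • y ^ (p - 1 - i) - D • w ^ i := by rw [h2]; ring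
        rw [h3]
        refine Submodule.sub_mem _ ?_ (Submodule.smul_mem _ _ (ih (by omega)))
        refine Submodule.subset_span ⟨⟨p - 1 - i, by omega⟩, ?_⟩
        change eC D (⟨p - 1 - i, _⟩ : Fin p) • finBasis f ⟨p - 1 - i, _⟩ = _
        rw [eC, if_neg (by change ¬ (p - 1 - i = 0); omega), finBasis_apply]
    rintro _ ⟨i, rfl⟩
    exact h1 i i.2
  · rw [Submodule.span_le]
    rintro _ ⟨i, rfl⟩
    change eC D i • finBasis f i ∈ _
    rw [eC]
    split_ifs with h0
    · rw [one_smul, finBasis_apply, h0]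
      exact Submodule.subset_span ⟨⟨0, hp0⟩, by
        change w ^ 0 = _
        rw [pow_zero, pow_zero]⟩
    · have h1 := hkey (p - 1 - i) (by have := i.2; omega)
      have h2 : p - 1 - (p - 1 - i) = i := by have := i.2; omega
      rw [h2] at h1
      rw [finBasis_apply]
      change D • y ^ (i : ℕ) ∈ _
      rw [h1]
      have := i.2
      refine Submodule.add_mem _ (Submodule.subset_span ⟨⟨p - 1 - i + 1, by omega⟩, rfl⟩)
        (Submodule.smul_mem _ _ (Submodule.subset_span ⟨⟨p - 1 - i, by omega⟩, rfl⟩))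

theorem range_tmap {A A' B B' : Type u} [CommRing A] [CommRing A'] [CommRing B] [CommRing B']
    [Algebra R A] [Algebra R' A'] [Algebra R A'] [IsScalarTower R R' A'] [Algebra R B]
    [Algebra R' B'] [Algebra R B'] [IsScalarTower R R' B'] (m : A →ₐ[R] A') (n : B →ₐ[R] B')
    {ι κ : Type} (v : ι → A') (u : κ → B')
    (hm : LinearMap.range m.toLinearMap = Submodule.span R (Set.range v))
    (hn : LinearMap.range n.toLinearMap = Submodule.span R (Set.range u)) :
    LinearMap.range (tmap (R' := R') m n).toLinearMap =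
      Submodule.span R (Set.range fun ij : ι × κ => v ij.1 ⊗ₜ[R'] u ij.2) := by
  let F : A' →ₗ[R] B' →ₗ[R] (A' ⊗[R'] B') :=
    LinearMap.mk₂ R (fun a b => a ⊗ₜ[R'] b) (fun a a' b => TensorProduct.add_tmul a a' b)
      (fun c a b => rfl) (fun a b b' => TensorProduct.tmul_add a b b')
      (fun c a b => by
        rw [← IsScalarTower.algebraMap_smul R' c b, TensorProduct.tmul_smul,
          IsScalarTower.algebraMap_smul])
  have h1 : LinearMap.range (tmap (R' := R') m n).toLinearMap =
      Submodule.map₂ F (LinearMap.range m.toLinearMap) (LinearMap.range n.toLinearMap) := by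
    apply le_antisymm
    · rintro _ ⟨x, rfl⟩
      induction x with
      | zero => rw [map_zero]; exact Submodule.zero_mem _
      | add x y hx hy => rw [map_add]; exact Submodule.add_mem _ hx hy
      | tmul a b =>
        rw [AlgHom.toLinearMap_apply, tmap_tmul]
        exact Submodule.apply_mem_map₂ F ⟨a, rfl⟩ ⟨b, rfl⟩
    · rw [Submodule.map₂_le]
      rintro _ ⟨a, rfl⟩ _ ⟨b, rfl⟩
      exact ⟨a ⊗ₜ b, tmap_tmul m n a b⟩
  rw [h1, hm, hn, Submodule.map₂_span_span]
  congr 1
  ext x
  constructor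
  · rintro ⟨_, ⟨i, rfl⟩, _, ⟨j, rfl⟩, rfl⟩
    exact ⟨(i, j), rfl⟩
  · rintro ⟨⟨i, j⟩, rfl⟩
    exact ⟨_, ⟨i, rfl⟩, _, ⟨j, rfl⟩, rfl⟩

end Range

/-! ### The genus of the covering curve -/

section Genus

variable {K : Type u} [Field K] (p : ℕ) [hp : Fact p.Prime] {D₁ D₂ : K[X]}
  [hE : Good (D₁ * D₂)]

instance nontrivial_RW {E : K[X]} [hE : Good E] : Nontrivial (RW E) :=
  (algebraMap_RW_injective hE).nontrivial

instance nontrivial_RV {E : K[X]} [hE : Good E] : Nontrivial (RV E) :=
  (algebraMap_RV_injective hE).nontrivial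

/-- The basis `y^i ⊗ z^j` of the coordinate ring of the intersection. -/
noncomputable def wBasis : Module.Basis (Fin p × Fin p) (RW (D₁ * D₂)) (AW p D₁ D₂) :=
  (finBasis _).tensorProduct (finBasis _)

theorem mem_range_aA (x : AW p D₁ D₂) : x ∈ Set.range (aA p D₁ D₂) ↔
    ∀ ij, ∃ g : K[X], (wBasis p).repr x ij =
      algebraMap K[X] (RW (D₁ * D₂)) (eC D₁ ij.1 * eC D₂ ij.2 * g) := by
  have h1 := range_tmap (R := K[X]) (R' := RW (D₁ * D₂)) (infToFin (p := p) D₁ _ (mul_fW (dvd_mul_right D₁ D₂)))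
    (infToFin (p := p) D₂ _ (mul_fW (dvd_mul_left D₂ D₁))) _ _ (range_infToFin _ _ _)
    (range_infToFin _ _ _)
  have h2 : x ∈ Set.range (aA p D₁ D₂) ↔ x ∈ LinearMap.range (aA p D₁ D₂).toLinearMap := Iff.rfl
  rw [h2, aA, h1, Submodule.mem_span_range_iff_exists_fun]
  have h3 : ∀ ij : Fin p × Fin p, (eC D₁ ij.1 • finBasis (fW (D₁ * D₂) D₁) ij.1) ⊗ₜ[RW (D₁ * D₂)]
      (eC D₂ ij.2 • finBasis (fW (D₁ * D₂) D₂) ij.2) =
      algebraMap K[X] (RW (D₁ * D₂)) (eC D₁ ij.1 * eC D₂ ij.2) • wBasis p ij := by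
    intro ij
    rw [wBasis, Module.Basis.tensorProduct_apply', map_mul, mul_smul,
      ← IsScalarTower.algebraMap_smul (RW (D₁ * D₂)) (eC D₁ ij.1),
      ← IsScalarTower.algebraMap_smul (RW (D₁ * D₂)) (eC D₂ ij.2), TensorProduct.smul_tmul_smul,
      mul_smul]
  constructor
  · rintro ⟨c, rfl⟩ ij
    refine ⟨c ij, ?_⟩
    simp_rw [h3, ← IsScalarTower.algebraMap_smul (RW (D₁ * D₂)) (c _), ← mul_smul, ← map_mul]
    rw [Module.Basis.repr_sum_self, mul_comm (c ij)]
  · intro h
    choose g hg using h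
    refine ⟨g, ?_⟩
    simp_rw [h3, ← IsScalarTower.algebraMap_smul (RW (D₁ * D₂)) (g _), ← mul_smul, ← map_mul]
    conv_rhs => rw [← (wBasis p).sum_repr x]
    refine Finset.sum_congr rfl fun ij _ => ?_
    rw [hg, mul_comm (g ij)]

theorem mem_range_bA (x : AW p D₁ D₂) : x ∈ Set.range (bA p D₁ D₂) ↔
    ∀ ij, ∃ r : RV (D₁ * D₂), (wBasis p).repr x ij = bMap hE r := by
  have h1 := range_tmap (R := RV (D₁ * D₂)) (R' := RW (D₁ * D₂)) (finMap (p := p) _ _ (algebraMap_fV (dvd_mul_right D₁ D₂)))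
    (finMap (p := p) _ _ (algebraMap_fV (dvd_mul_left D₂ D₁))) _ _ (range_finMap _ _ _)
    (range_finMap _ _ _)
  have h2 : x ∈ Set.range (bA p D₁ D₂) ↔ x ∈ LinearMap.range (bA p D₁ D₂).toLinearMap := Iff.rfl
  rw [h2, bA, h1, Submodule.mem_span_range_iff_exists_fun]
  have h3 : ∀ ij : Fin p × Fin p, (finBasis (fW (D₁ * D₂) D₁) ij.1) ⊗ₜ[RW (D₁ * D₂)]
      (finBasis (fW (D₁ * D₂) D₂) ij.2) = wBasis p ij := by
    intro ij
    rw [wBasis, Module.Basis.tensorProduct_apply']
  constructor
  · rintro ⟨c, rfl⟩ ij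
    refine ⟨c ij, ?_⟩
    simp_rw [h3, ← IsScalarTower.algebraMap_smul (RW (D₁ * D₂)) (c _)]
    rw [Module.Basis.repr_sum_self]
    rfl
  · intro h
    choose g hg using h
    refine ⟨g, ?_⟩
    simp_rw [h3, ← IsScalarTower.algebraMap_smul (RW (D₁ * D₂)) (g _)]
    conv_rhs => rw [← (wBasis p).sum_repr x]
    refine Finset.sum_congr rfl fun ij _ => ?_
    rw [hg]
    rfl

theorem mem_span_ranges (x : AW p D₁ D₂) :
    x ∈ Submodule.span K (Set.range (aA p D₁ D₂) ∪ Set.range (bA p D₁ D₂)) ↔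
      ∀ ij, (wBasis p).repr x ij ∈ NSub hE (eC D₁ ij.1 * eC D₂ ij.2) := by
  constructor
  · intro hx ij
    let φ : AW p D₁ D₂ →ₗ[K] RW (D₁ * D₂) :=
      ((wBasis p).coord ij).restrictScalars K
    have h1 : Submodule.span K (Set.range (aA p D₁ D₂) ∪ Set.range (bA p D₁ D₂)) ≤
        (NSub hE (eC D₁ ij.1 * eC D₂ ij.2)).comap φ := by
      rw [Submodule.span_le]
      rintro y (hy | hy)
      · obtain ⟨g, hg⟩ := (mem_range_aA p y).mp hy ij
        change (wBasis p).repr y ij ∈ NSub hE (eC D₁ ij.1 * eC D₂ ij.2)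
        rw [hg, mem_NSub]
        exact ⟨0, g, by rw [map_zero, zero_add]⟩
      · obtain ⟨r, hr⟩ := (mem_range_bA p y).mp hy ij
        change (wBasis p).repr y ij ∈ NSub hE (eC D₁ ij.1 * eC D₂ ij.2)
        rw [hr, mem_NSub]
        exact ⟨r, 0, by rw [mul_zero, map_zero, add_zero]⟩
    exact h1 hx
  · intro h
    simp_rw [mem_NSub] at h
    choose r g h using h
    have h1 : x = (∑ ij, algebraMap K[X] (RW (D₁ * D₂)) (eC D₁ ij.1 * eC D₂ ij.2 * g ij) •
        wBasis p ij) + ∑ ij, bMap hE (r ij) • wBasis p ij := by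
      rw [← Finset.sum_add_distrib]
      conv_lhs => rw [← (wBasis p).sum_repr x]
      refine Finset.sum_congr rfl fun ij _ => ?_
      rw [h, add_smul, add_comm]
    rw [h1]
    refine Submodule.add_mem _ (Submodule.subset_span (Or.inl ?_))
      (Submodule.subset_span (Or.inr ?_))
    · rw [mem_range_aA]
      intro ij
      exact ⟨g ij, by rw [Module.Basis.repr_sum_self]⟩
    · rw [mem_range_bA]
      intro ij
      exact ⟨r ij, by rw [Module.Basis.repr_sum_self]⟩

theorem eC_monic {D : K[X]} (hD : D.Monic) (i : Fin p) : (eC D i).Monic := by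
  rw [eC]
  split_ifs
  · exact monic_one
  · exact hD

theorem eC_natDegree {D : K[X]} (i : Fin p) :
    (eC D i).natDegree = if (i : ℕ) = 0 then 0 else D.natDegree := by
  rw [eC]
  split_ifs
  · exact natDegree_one
  · rfl

theorem sum_degrees {m₁ m₂ : ℕ} (h1 : 0 < m₁) (h2 : 0 < m₂) (h : m₁ + m₂ = 4) :
    ∑ ij : Fin p × Fin p, ((if (ij.1 : ℕ) = 0 then 0 else m₁) +
      (if (ij.2 : ℕ) = 0 then 0 else m₂) - 1) = (p - 1) * (3 * p - 1) := by
  obtain ⟨q, rfl⟩ : ∃ q, p = q + 1 := ⟨p - 1, by have := hp.out.pos; omega⟩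
  rw [Fintype.sum_prod_type]
  simp only [Fin.sum_univ_succ, Fin.val_zero, Fin.val_succ, if_true, Nat.succ_ne_zero, if_false,
    Finset.sum_const, Finset.card_univ, Fintype.card_fin, smul_eq_mul]
  obtain ⟨a, rfl⟩ : ∃ a, m₁ = a + 1 := ⟨m₁ - 1, by omega⟩
  obtain ⟨b, rfl⟩ : ∃ b, m₂ = b + 1 := ⟨m₂ - 1, by omega⟩
  have e1 : 0 + 0 - 1 = 0 := rfl
  have e2 : 0 + (b + 1) - 1 = b := by omega
  have e3 : a + 1 + 0 - 1 = a := by omega
  have e4 : a + 1 + (b + 1) - 1 = 3 := by omega
  have e5 : 3 * (q + 1) - 1 = 3 * q + 2 := by omega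
  have e6 : q + 1 - 1 = q := by omega
  rw [e1, e2, e3, e4, e5, e6]
  have hab : a = 2 - b := by omega
  have hb : b ≤ 2 := by omega
  interval_cases b <;> subst hab <;> ring

theorem rank_cech_Y (h1 : D₁.Monic) (h2 : D₂.Monic) (hd1 : 0 < D₁.natDegree)
    (hd2 : 0 < D₂.natDegree) (hd : D₁.natDegree + D₂.natDegree = 4) :
    Module.rank K (AW p D₁ D₂ ⧸
      Submodule.span K (Set.range (aA p D₁ D₂) ∪ Set.range (bA p D₁ D₂))) =
      (((p - 1) * (3 * p - 1) : ℕ) : Cardinal.{u}) := by
  let φ : AW p D₁ D₂ ≃ₗ[K] (Fin p × Fin p → RW (D₁ * D₂)) :=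
    (wBasis p).equivFun.restrictScalars K
  have := rank_quotient_of_equiv φ _ _ (mem_span_ranges p)
    (fun ij => ((if (ij.1 : ℕ) = 0 then 0 else D₁.natDegree) +
      (if (ij.2 : ℕ) = 0 then 0 else D₂.natDegree) - 1)) (fun ij => by
        rw [rank_piece hE ((eC_monic p h1 ij.1).mul (eC_monic p h2 ij.2)),
          (eC_monic p h1 ij.1).natDegree_mul (eC_monic p h2 ij.2), eC_natDegree, eC_natDegree])
  rw [this, sum_degrees p hd1 hd2 hd]

theorem rank_cech_X {E : K[X]} [hE : Good E] :
    Module.rank K (RW E ⧸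
      Submodule.span K (Set.range (algebraMap K[X] (RW E)) ∪ Set.range (bMap hE))) = 0 := by
  have h : Submodule.span K (Set.range (algebraMap K[X] (RW E)) ∪ Set.range (bMap hE)) = ⊤ := by
    rw [eq_top_iff]
    rintro z -
    obtain ⟨g, r, rfl⟩ := exists_sum hE z
    exact Submodule.add_mem _ (Submodule.subset_span (Or.inl ⟨g, rfl⟩))
      (Submodule.subset_span (Or.inr ⟨r, rfl⟩))
  have : Subsingleton (RW E ⧸
      Submodule.span K (Set.range (algebraMap K[X] (RW E)) ∪ Set.range (bMap hE))) := by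
    rw [h]
    infer_instance
  exact rank_subsingleton' K _

end Genus

end Pool.Agent.Lib.MP_76d46b_ag
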