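import Mathlib

/-!
# Schemes covered by two open subschemes
-/

open CategoryTheory CategoryTheory.Limits AlgebraicGeometry

universe u

namespace Pool.Agent.Lib.MP_76d46b_ag

/-- `X` is covered by the two open subschemes `i : U ⟶ X` and `j : V ⟶ X` with intersection `W`. -/
structure TwoCover {W U V X : Scheme.{u}} (a : W ⟶ U) (b : W ⟶ V) (i : U ⟶ X) (j : V ⟶ X) :
    Prop where
  open_i : IsOpenImmersion i
  open_j : IsOpenImmersion j
  cover : ∀ x : X, x ∈ Set.range i ∨ x ∈ Set.range j
  isPullback : IsPullback a b i j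

section

variable {W U V X : Scheme.{u}} {a : W ⟶ U} {b : W ⟶ V} {i : U ⟶ X} {j : V ⟶ X}

theorem TwoCover.open_a (h : TwoCover a b i j) : IsOpenImmersion a := by
  have := h.open_j
  exact MorphismProperty.of_isPullback h.isPullback.flip inferInstance

theorem TwoCover.open_b (h : TwoCover a b i j) : IsOpenImmersion b := by
  have := h.open_i
  exact MorphismProperty.of_isPullback h.isPullback inferInstance

/-- The open cover with two members. -/
noncomputable def TwoCover.openCover (h : TwoCover a b i j) : X.OpenCover :=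
  Scheme.Cover.mkOfCovers Bool (fun c => cond c U V)
    (fun c => Bool.rec (motive := fun c => (cond c U V) ⟶ X) j i c)
    (fun x => by
      rcases h.cover x with ⟨y, hy⟩ | ⟨y, hy⟩
      · exact ⟨true, y, hy⟩
      · exact ⟨false, y, hy⟩)
    (fun c => by
      cases c
      · exact h.open_j
      · exact h.open_i)

theorem TwoCover.of_source (h : TwoCover a b i j) {Z : Scheme.{u}} {f : X ⟶ Z}
    (Q : MorphismProperty Scheme.{u}) [IsZariskiLocalAtSource Q] (h1 : Q (i ≫ f))
    (h2 : Q (j ≫ f)) : Q f := by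
  rw [IsZariskiLocalAtSource.iff_of_openCover (P := Q) h.openCover]
  rintro (_ | _)
  · exact h2
  · exact h1

theorem TwoCover.of_target (h : TwoCover a b i j) {Y YU YV : Scheme.{u}} {f : Y ⟶ X}
    {i' : YU ⟶ Y} {j' : YV ⟶ Y} {fU : YU ⟶ U} {fV : YV ⟶ V} (hU : IsPullback i' fU f i)
    (hV : IsPullback j' fV f j)
    (Q : MorphismProperty Scheme.{u}) [IsZariskiLocalAtTarget Q] (h1 : Q fU) (h2 : Q fV) :
    Q f := by
  rw [IsZariskiLocalAtTarget.iff_of_openCover (P := Q) h.openCover]
  rintro (_ | _)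
  · change Q (pullback.snd f j)
    rw [← hV.isoPullback_inv_snd]
    exact (MorphismProperty.cancel_left_of_respectsIso Q _ _).mpr h2
  · change Q (pullback.snd f i)
    rw [← hU.isoPullback_inv_snd]
    exact (MorphismProperty.cancel_left_of_respectsIso Q _ _).mpr h1

theorem TwoCover.hom_ext (h : TwoCover a b i j) {Z : Scheme.{u}} {f g : X ⟶ Z}
    (h1 : i ≫ f = i ≫ g) (h2 : j ≫ f = j ≫ g) : f = g := by
  refine Scheme.Cover.hom_ext h.openCover _ _ ?_
  rintro (_ | _)
  · exact h2
  · exact h1

/-- Base change of a cover by two open subschemes. -/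
theorem TwoCover.of_isPullback (h : TwoCover a b i j) {W' U' V' X' : Scheme.{u}} {a' : W' ⟶ U'}
    {b' : W' ⟶ V'} {i' : U' ⟶ X'} {j' : V' ⟶ X'} {w : W' ⟶ W} {s : U' ⟶ U} {t : V' ⟶ V}
    {x : X' ⟶ X} (hU : IsPullback s i' i x) (hV : IsPullback t j' j x)
    (hW : IsPullback w a' a s) (hcomm : a' ≫ i' = b' ≫ j') (hb : w ≫ b = b' ≫ t) :
    TwoCover a' b' i' j' where
  open_i := by
    have := h.open_i
    exact MorphismProperty.of_isPullback hU inferInstance
  open_j := by
    have := h.open_j
    exact MorphismProperty.of_isPullback hV inferInstance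
  cover x' := by
    rcases h.cover (x x') with ⟨y, hy⟩ | ⟨y, hy⟩
    · obtain ⟨z, -, hz⟩ := Scheme.exists_preimage_of_isPullback hU y x' hy
      exact Or.inl ⟨z, hz⟩
    · obtain ⟨z, -, hz⟩ := Scheme.exists_preimage_of_isPullback hV y x' hy
      exact Or.inr ⟨z, hz⟩
  isPullback := by
    have h1 := hW.paste_horiz h.isPullback.flip
    rw [hU.w, hb] at h1
    exact (IsPullback.of_right h1 hcomm.symm hV).flip

end

/-! ### Gluing two schemes along an open subscheme -/

section Glue

variable {W U V : Scheme.{u}} (a : W ⟶ U) (b : W ⟶ V) [IsOpenImmersion a] [IsOpenImmersion b]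

instance spanOpen {x y : WalkingSpan} (f : x ⟶ y) : IsOpenImmersion ((span a b).map f) := by
  rcases f with (_ | (_ | _))
  · change IsOpenImmersion ((span a b).map (𝟙 _))
    rw [CategoryTheory.Functor.map_id]
    infer_instance
  · exact inferInstanceAs (IsOpenImmersion a)
  · exact inferInstanceAs (IsOpenImmersion b)

instance : HasPushout a b := inferInstanceAs (HasColimit (span a b))

instance : IsOpenImmersion (pushout.inl a b) :=
  inferInstanceAs (IsOpenImmersion (colimit.ι (span a b) WalkingSpan.left))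

instance : IsOpenImmersion (pushout.inr a b) :=
  inferInstanceAs (IsOpenImmersion (colimit.ι (span a b) WalkingSpan.right))

theorem glue_cover (x : (pushout a b : Scheme.{u})) :
    x ∈ Set.range (pushout.inl a b) ∨ x ∈ Set.range (pushout.inr a b) := by
  obtain ⟨i, xi, rfl⟩ := Scheme.IsLocallyDirected.ι_jointly_surjective (span a b) x
  rcases i with (_ | (_ | _))
  · left
    have := colimit.w (span a b) WalkingSpan.Hom.fst
    exact ⟨a xi, congrArg (fun f => f xi) this⟩
  · exact Or.inl ⟨xi, rfl⟩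
  · exact Or.inr ⟨xi, rfl⟩

theorem glue_inl_eq_inr {u : U} {v : V} (h : pushout.inl a b u = pushout.inr a b v) :
    ∃ w, a w = u ∧ b w = v := by
  obtain ⟨k, fi, fj, x, hi, hj⟩ := (Scheme.IsLocallyDirected.ι_eq_ι_iff (span a b)
    (i := WalkingSpan.left) (j := WalkingSpan.right) (xi := u) (xj := v)).mp h
  rcases k with (_ | (_ | _))
  · obtain rfl : fi = WalkingSpan.Hom.fst := Subsingleton.elim _ _
    obtain rfl : fj = WalkingSpan.Hom.snd := Subsingleton.elim _ _
    exact ⟨x, hi, hj⟩
  · exact (nomatch fj)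
  · exact (nomatch fi)

theorem glue_isPullback : IsPullback a b (pushout.inl a b) (pushout.inr a b) := by
  refine (IsOpenImmersion.isPullback b a (pushout.inr a b) (pushout.inl a b)
    pushout.condition ?_).flip
  apply TopologicalSpace.Opens.ext
  ext u
  constructor
  · rintro ⟨v, hv⟩
    obtain ⟨w, hw, -⟩ := glue_inl_eq_inr a b hv.symm
    exact ⟨w, hw⟩
  · rintro ⟨w, rfl⟩
    refine ⟨b w, ?_⟩
    exact (congrArg (fun f => f w) (pushout.condition (f := a) (g := b))).symm

theorem twoCover_glue : TwoCover a b (pushout.inl a b) (pushout.inr a b) where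
  open_i := inferInstance
  open_j := inferInstance
  cover := glue_cover a b
  isPullback := glue_isPullback a b

end Glue

section GlueMap

variable {W U V W' U' V' : Scheme.{u}} {a : W ⟶ U} {b : W ⟶ V} [IsOpenImmersion a]
    [IsOpenImmersion b] {a' : W' ⟶ U'} {b' : W' ⟶ V'} [IsOpenImmersion a'] [IsOpenImmersion b']
    {fW : W' ⟶ W} {fU : U' ⟶ U} {fV : V' ⟶ V}

/-- The morphism of glued schemes. -/
noncomputable def glueMap (hU : a' ≫ fU = fW ≫ a) (hV : b' ≫ fV = fW ≫ b) :
    pushout a' b' ⟶ pushout a b :=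
  pushout.desc (fU ≫ pushout.inl a b) (fV ≫ pushout.inr a b) (by
    rw [← Category.assoc, hU, Category.assoc, pushout.condition, ← Category.assoc, ← hV,
      Category.assoc])

@[reassoc]
theorem inl_glueMap (hU : a' ≫ fU = fW ≫ a) (hV : b' ≫ fV = fW ≫ b) :
    pushout.inl a' b' ≫ glueMap hU hV = fU ≫ pushout.inl a b := pushout.inl_desc _ _ _

@[reassoc]
theorem inr_glueMap (hU : a' ≫ fU = fW ≫ a) (hV : b' ≫ fV = fW ≫ b) :
    pushout.inr a' b' ≫ glueMap hU hV = fV ≫ pushout.inr a b := pushout.inr_desc _ _ _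

theorem glueMap_isPullback_inl (hU : IsPullback a' fW fU a) (hV : IsPullback b' fW fV b) :
    IsPullback (pushout.inl a' b') fU (glueMap hU.w hV.w) (pushout.inl a b) := by
  refine (IsOpenImmersion.isPullback _ _ _ _ (inl_glueMap hU.w hV.w) ?_).flip
  apply TopologicalSpace.Opens.ext
  ext y
  constructor
  · rintro ⟨u, hu⟩
    rcases glue_cover a' b' y with ⟨u', rfl⟩ | ⟨v', rfl⟩
    · exact ⟨u', rfl⟩
    · have h1 : glueMap hU.w hV.w (pushout.inr a' b' v') = pushout.inr a b (fV v') :=
        congrArg (fun f => f v') (inr_glueMap hU.w hV.w)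
      obtain ⟨w, -, hw⟩ := glue_inl_eq_inr a b (hu.trans h1)
      obtain ⟨w', hw', -⟩ := Scheme.exists_preimage_of_isPullback hV v' w hw.symm
      refine ⟨a' w', ?_⟩
      have h2 : pushout.inl a' b' (a' w') = pushout.inr a' b' (b' w') :=
        congrArg (fun f => f w') (pushout.condition (f := a') (g := b'))
      have h3 : b' w' = v' := hw'
      rw [h3] at h2
      exact h2
  · rintro ⟨u', rfl⟩
    exact ⟨fU u', (congrArg (fun f => f u') (inl_glueMap hU.w hV.w)).symm⟩

theorem glueMap_isPullback_inr (hU : IsPullback a' fW fU a) (hV : IsPullback b' fW fV b) :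
    IsPullback (pushout.inr a' b') fV (glueMap hU.w hV.w) (pushout.inr a b) := by
  refine (IsOpenImmersion.isPullback _ _ _ _ (inr_glueMap hU.w hV.w) ?_).flip
  apply TopologicalSpace.Opens.ext
  ext y
  constructor
  · rintro ⟨u, hu⟩
    rcases glue_cover a' b' y with ⟨v', rfl⟩ | ⟨u', rfl⟩
    · have h1 : glueMap hU.w hV.w (pushout.inl a' b' v') = pushout.inl a b (fU v') :=
        congrArg (fun f => f v') (inl_glueMap hU.w hV.w)
      obtain ⟨w, hw, -⟩ := glue_inl_eq_inr a b (h1.symm.trans hu.symm)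
      obtain ⟨w', hw', -⟩ := Scheme.exists_preimage_of_isPullback hU v' w hw.symm
      refine ⟨b' w', ?_⟩
      have h2 : pushout.inl a' b' (a' w') = pushout.inr a' b' (b' w') :=
        congrArg (fun f => f w') (pushout.condition (f := a') (g := b'))
      have h3 : a' w' = v' := hw'
      rw [h3] at h2
      exact h2.symm
    · exact ⟨u', rfl⟩
  · rintro ⟨u', rfl⟩
    exact ⟨fV u', (congrArg (fun f => f u') (inr_glueMap hU.w hV.w)).symm⟩

end GlueMap

end Pool.Agent.Lib.MP_76d46b_ag
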