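import Pool.Agent.Lib.MP_76d46b_ag.Action
import Pool.Agent.Lib.MP_76d46b_ag.EtaleAlg

/-!
# Differentials of `R[w]/(f)` and of étale algebras over it
-/

open Polynomial TensorProduct

universe u

set_option linter.unusedSectionVars false

namespace Pool.Agent.Lib.MP_76d46b_ag

section Kaehler

variable {R : Type u} [CommRing R] (f : R[X])

theorem exists_derivation_adjoinRoot :
    ∃ D : Derivation R (AdjoinRoot f)
      (AdjoinRoot f ⧸ Ideal.span {aeval (AdjoinRoot.root f) (derivative f)}),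
      D (AdjoinRoot.root f) = 1 := by
  classical
  set I : Ideal (AdjoinRoot f) := Ideal.span {aeval (AdjoinRoot.root f) (derivative f)}
  have haev : ∀ g : R[X], aeval (AdjoinRoot.root f) g = AdjoinRoot.mk f g := fun g =>
    AdjoinRoot.aeval_eq g
  -- the map on polynomials
  let L0 : R[X] →ₗ[R] (AdjoinRoot f ⧸ I) :=
    ((Ideal.Quotient.mkₐ R I).toLinearMap.comp (aeval (AdjoinRoot.root f)).toLinearMap).comp
      derivative
  have hL0 : ∀ g, L0 g = Ideal.Quotient.mk I (AdjoinRoot.mk f (derivative g)) := by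
    intro g
    change Ideal.Quotient.mk I (aeval (AdjoinRoot.root f) (derivative g)) = _
    rw [haev]
  have key : ∀ g h : R[X], AdjoinRoot.mk f g = AdjoinRoot.mk f h → L0 g = L0 h := by
    intro g h e
    rw [AdjoinRoot.mk_eq_mk] at e
    obtain ⟨c, hc⟩ := e
    have h1 : g = h + f * c := by rw [← hc]; ring
    rw [hL0, hL0, h1]
    rw [derivative_add, derivative_mul]
    simp only [map_add, map_mul, AdjoinRoot.mk_self, zero_mul, add_zero]
    have h2 : Ideal.Quotient.mk I (AdjoinRoot.mk f (derivative f)) = 0 := by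
      rw [Ideal.Quotient.eq_zero_iff_mem, ← haev]
      exact Ideal.mem_span_singleton_self _
    rw [h2, zero_mul, add_zero]
  let s : AdjoinRoot f → R[X] := Function.surjInv AdjoinRoot.mk_surjective
  have hs : ∀ b, AdjoinRoot.mk f (s b) = b := Function.surjInv_eq AdjoinRoot.mk_surjective
  let L : AdjoinRoot f →ₗ[R] (AdjoinRoot f ⧸ I) :=
    { toFun := fun b => L0 (s b)
      map_add' := by
        intro a b
        rw [key (s (a + b)) (s a + s b) (by rw [hs, map_add, hs, hs]), map_add]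
      map_smul' := by
        intro r b
        rw [key (s (r • b)) (r • s b) (by rw [hs, ← AdjoinRoot.smul_mk, hs]), map_smul]
        rfl }
  refine ⟨Derivation.mk' L ?_, ?_⟩
  · intro a b
    change L0 (s (a * b)) = a • L0 (s b) + b • L0 (s a)
    rw [key (s (a * b)) (s a * s b) (by rw [hs, map_mul, hs, hs]), hL0, hL0, hL0, derivative_mul,
      map_add, map_mul, map_mul, hs, hs, Algebra.smul_def, Algebra.smul_def]
    simp only [Ideal.Quotient.algebraMap_eq, map_add, map_mul]
    ring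
  · change L0 (s (AdjoinRoot.root f)) = 1
    rw [key (s (AdjoinRoot.root f)) X (by rw [hs, AdjoinRoot.mk_X]), hL0, derivative_X, map_one,
      map_one]

/-- The module of differentials of `R[w]/(f)`. -/
theorem exists_kaehler_adjoinRoot :
    Nonempty (Ω[AdjoinRoot f⁄R] ≃ₗ[AdjoinRoot f]
      (AdjoinRoot f ⧸ Ideal.span {aeval (AdjoinRoot.root f) (derivative f)})) := by
  let w := AdjoinRoot.root f
  let I : Ideal (AdjoinRoot f) := Ideal.span {aeval w (derivative f)}
  obtain ⟨D, hD⟩ : ∃ D : Derivation R (AdjoinRoot f) (AdjoinRoot f ⧸ I), D w = 1 :=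
    exists_derivation_adjoinRoot f
  let δ : Ω[AdjoinRoot f⁄R] →ₗ[AdjoinRoot f] (AdjoinRoot f ⧸ I) := D.liftKaehlerDifferential
  have hδ : δ (KaehlerDifferential.D R (AdjoinRoot f) w) = 1 := by
    change D.liftKaehlerDifferential _ = 1
    rw [Derivation.liftKaehlerDifferential_comp_D, hD]
  have hgen : ∀ z : Ω[AdjoinRoot f⁄R], ∃ b : AdjoinRoot f,
      z = b • KaehlerDifferential.D R (AdjoinRoot f) w := by
    intro z
    have hz : z ∈ Submodule.span (AdjoinRoot f)
        (Set.range (KaehlerDifferential.D R (AdjoinRoot f))) := by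
      rw [KaehlerDifferential.span_range_derivation]; exact Submodule.mem_top
    induction hz using Submodule.span_induction with
    | mem x hx =>
      obtain ⟨a, rfl⟩ := hx
      obtain ⟨g, rfl⟩ := AdjoinRoot.mk_surjective a
      refine ⟨aeval w (derivative g), ?_⟩
      rw [← AdjoinRoot.aeval_eq, Derivation.map_aeval]
    | zero => exact ⟨0, by rw [zero_smul]⟩
    | add x y _ _ hx hy =>
      obtain ⟨a, rfl⟩ := hx
      obtain ⟨b, rfl⟩ := hy
      exact ⟨a + b, by rw [add_smul]⟩
    | smul c x _ hx =>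
      obtain ⟨a, rfl⟩ := hx
      exact ⟨c * a, by rw [mul_smul]⟩
  refine ⟨LinearEquiv.ofBijective δ ⟨?_, ?_⟩⟩
  · rw [injective_iff_map_eq_zero]
    intro z hz
    obtain ⟨b, rfl⟩ := hgen z
    rw [map_smul, hδ, Algebra.smul_def, mul_one, Ideal.Quotient.algebraMap_eq,
      Ideal.Quotient.eq_zero_iff_mem, Ideal.mem_span_singleton] at hz
    obtain ⟨c, rfl⟩ := hz
    have h1 : aeval w (derivative f) • KaehlerDifferential.D R (AdjoinRoot f) w = 0 := by
      have h2 := Derivation.map_aeval (D := KaehlerDifferential.D R (AdjoinRoot f)) f w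
      rw [← h2, AdjoinRoot.aeval_eq, AdjoinRoot.mk_self, map_zero]
    rw [mul_comm, mul_smul, h1, smul_zero]
  · intro x
    obtain ⟨b, rfl⟩ := Ideal.Quotient.mk_surjective x
    refine ⟨b • KaehlerDifferential.D R (AdjoinRoot f) w, ?_⟩
    rw [map_smul, hδ, Algebra.smul_def, mul_one]
    rfl

theorem length_kaehler_of_formallyEtale (B : Type u) [CommRing B] [Algebra R B]
    [Algebra (AdjoinRoot f) B] [IsScalarTower R (AdjoinRoot f) B]
    [Algebra.FormallyEtale (AdjoinRoot f) B] :
    Module.length B Ω[B⁄R] =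
      Ring.ord B (algebraMap (AdjoinRoot f) B (aeval (AdjoinRoot.root f) (derivative f))) := by
  obtain ⟨e⟩ := exists_kaehler_adjoinRoot f
  let e1 := KaehlerDifferential.tensorKaehlerEquivOfFormallyEtale R (AdjoinRoot f) B
  let e2 : B ⊗[AdjoinRoot f] Ω[AdjoinRoot f⁄R] ≃ₗ[B] B ⊗[AdjoinRoot f]
      (AdjoinRoot f ⧸ Ideal.span {aeval (AdjoinRoot.root f) (derivative f)}) :=
    TensorProduct.AlgebraTensorModule.congr (LinearEquiv.refl B B) e
  let e3 := (Algebra.TensorProduct.quotIdealMapEquivTensorQuot B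
    (Ideal.span {aeval (AdjoinRoot.root f) (derivative f)})).toLinearEquiv
  rw [← e1.length_eq, e2.length_eq, ← e3.length_eq, Ring.ord, Ideal.map_span,
    Set.image_singleton]

end Kaehler

section FormallyEtale

theorem formallyEtale_left {R A₁ A₂ : Type u} [CommRing R] [CommRing A₁] [CommRing A₂]
    [Algebra R A₁] [Algebra R A₂] (d : A₂) [hd : Algebra.Etale R (Localization.Away d)]
    (q : Ideal (A₁ ⊗[R] A₂)) [hq : q.IsPrime] (hdq : (1 : A₁) ⊗ₜ[R] d ∉ q) (B : Type u)
    [CommRing B] [Algebra (A₁ ⊗[R] A₂) B] [IsLocalization.AtPrime B q] [Algebra A₁ B]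
    [IsScalarTower A₁ (A₁ ⊗[R] A₂) B] : Algebra.FormallyEtale A₁ B := by
  let T := A₁ ⊗[R] Localization.Away d
  let m : A₁ ⊗[R] A₂ →ₐ[R] T := Algebra.TensorProduct.map (AlgHom.id R A₁)
    (IsScalarTower.toAlgHom R A₂ (Localization.Away d))
  let a1 : Algebra (A₁ ⊗[R] A₂) T := m.toRingHom.toAlgebra
  have hm : ∀ x y, algebraMap (A₁ ⊗[R] A₂) T (x ⊗ₜ y) = x ⊗ₜ algebraMap _ _ y := by
    intro x y
    change m (x ⊗ₜ y) = _
    rw [Algebra.TensorProduct.map_tmul]
    rfl
  have t1 : IsScalarTower A₁ (A₁ ⊗[R] A₂) T := .of_algebraMap_eq fun x => by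
    change x ⊗ₜ 1 = algebraMap (A₁ ⊗[R] A₂) T (x ⊗ₜ 1)
    rw [hm, map_one]
  have hT : IsLocalization ((Submonoid.powers d).map
      (Algebra.TensorProduct.includeRight (R := R) (A := A₁))) T :=
    IsLocalization.tensorProduct_tensorProduct_right R A₁ (Submonoid.powers d)
      (Localization.Away d) (by
        apply RingHom.ext
        intro x
        change algebraMap (A₁ ⊗[R] A₂) T (1 ⊗ₜ x) = 1 ⊗ₜ algebraMap _ _ x
        rw [hm])
  set M := (Submonoid.powers d).map (Algebra.TensorProduct.includeRight (R := R) (A := A₁))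
  have hle : M ≤ q.primeCompl := by
    rintro _ ⟨_, ⟨n, rfl⟩, rfl⟩ hmem
    change (1 : A₁) ⊗ₜ[R] (d ^ n) ∈ q at hmem
    have h1 : (1 : A₁) ⊗ₜ[R] (d ^ n) = ((1 : A₁) ⊗ₜ[R] d) ^ n := by
      rw [Algebra.TensorProduct.tmul_pow, one_pow]
    rw [h1] at hmem
    exact hdq (hq.mem_of_pow_mem _ hmem)
  let g : T →+* B := IsLocalization.lift (M := M) (g := algebraMap (A₁ ⊗[R] A₂) B)
    (fun y => IsLocalization.map_units B (⟨y.1, hle y.2⟩ : q.primeCompl))
  let a2 : Algebra T B := g.toAlgebra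
  have t2 : IsScalarTower (A₁ ⊗[R] A₂) T B := .of_algebraMap_eq fun x =>
    (IsLocalization.lift_eq (M := M) (g := algebraMap (A₁ ⊗[R] A₂) B) _ x).symm
  have t3 : IsScalarTower A₁ T B := by
    refine IsScalarTower.of_algebraMap_eq (R := A₁) (S := T) (A := B) fun x => ?_
    have e1 := IsScalarTower.algebraMap_apply A₁ (A₁ ⊗[R] A₂) T x
    have e2 := IsScalarTower.algebraMap_apply (A₁ ⊗[R] A₂) T B (algebraMap A₁ _ x)
    rw [e1]
    rw [← e2]
    exact IsScalarTower.algebraMap_apply A₁ (A₁ ⊗[R] A₂) B x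
  have hB : IsLocalization (q.primeCompl.map (algebraMap (A₁ ⊗[R] A₂) T)) B :=
    IsLocalization.isLocalization_of_submonoid_le T B M q.primeCompl hle
  have h1 : Algebra.FormallyEtale A₁ T := inferInstance
  have h2 : Algebra.FormallyEtale T B :=
    .of_isLocalization (q.primeCompl.map (algebraMap (A₁ ⊗[R] A₂) T))
  exact Algebra.FormallyEtale.comp A₁ T B

end FormallyEtale

end Pool.Agent.Lib.MP_76d46b_ag
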