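import Pool.Agent.Lib.MP_76d46b_ag.Fibre

/-!
# Pull-back of tuples
-/

open CategoryTheory CategoryTheory.Limits AlgebraicGeometry

universe u

namespace Pool.Agent.Lib.MP_76d46b_ag

section

variable {P : Type} [Group P] {S T : Scheme.{u}} (F : Tuple P S) (f : T ⟶ S)

/-- The action on the pull-back. -/
noncomputable def pullAct (σ : P) :
    pullback F.φ (pullback.fst F.π f) ⟶ pullback F.φ (pullback.fst F.π f) :=
  pullback.lift (pullback.fst _ _ ≫ (F.act σ).hom) (pullback.snd _ _) (by
    rw [Category.assoc, F.act_φ, pullback.condition])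

theorem pullAct_fst (σ : P) : pullAct F f σ ≫ pullback.fst _ _ =
    pullback.fst _ _ ≫ (F.act σ).hom := pullback.lift_fst _ _ _

theorem pullAct_snd (σ : P) : pullAct F f σ ≫ pullback.snd _ _ = pullback.snd _ _ :=
  pullback.lift_snd _ _ _

theorem pullAct_one : pullAct F f 1 = 𝟙 _ := by
  apply pullback.hom_ext
  · rw [pullAct_fst, F.act_one, Category.comp_id, Category.id_comp]
  · rw [pullAct_snd, Category.id_comp]

theorem pullAct_mul (σ τ : P) : pullAct F f (σ * τ) = pullAct F f τ ≫ pullAct F f σ := by
  apply pullback.hom_ext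
  · rw [pullAct_fst, Category.assoc, pullAct_fst, F.act_mul, ← Category.assoc, ← Category.assoc,
      pullAct_fst]
  · rw [pullAct_snd, Category.assoc, pullAct_snd, pullAct_snd]

/-- The pull-back of a tuple. -/
noncomputable def Tuple.pullback : Tuple P T where
  X := Limits.pullback F.π f
  B := Limits.pullback F.ι (pullback.fst F.π f)
  Y := Limits.pullback F.φ (pullback.fst F.π f)
  π := pullback.snd _ _
  ι := pullback.snd _ _
  φ := pullback.snd _ _
  act :=
    { toFun := fun σ => ⟨pullAct F f σ, pullAct F f σ⁻¹, by
        rw [← pullAct_mul, inv_mul_cancel, pullAct_one], by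
        rw [← pullAct_mul, mul_inv_cancel, pullAct_one]⟩
      map_one' := by
        apply Iso.ext
        exact pullAct_one F f
      map_mul' := fun σ τ => by
        apply Iso.ext
        exact pullAct_mul F f σ τ }
  act_φ σ := pullAct_snd F f σ

/-- The pull-back of a tuple is cartesian. -/
noncomputable def Tuple.pullbackCart : (F.pullback f).Cart F f where
  x := pullback.fst _ _
  b := pullback.fst _ _
  y := pullback.fst _ _
  isPullback_x := IsPullback.of_hasPullback _ _
  isPullback_b := IsPullback.of_hasPullback _ _
  isPullback_y := IsPullback.of_hasPullback _ _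
  equivariant σ := pullAct_fst F f σ

end

end Pool.Agent.Lib.MP_76d46b_ag
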