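import Pool.Agent.Lib.MP_76d46b_ag.Count
import Pool.Agent.Lib.MP_76d46b_ag.GluedModel
import Pool.Agent.Lib.MP_76d46b_ag.PullTuple
import Pool.Agent.Lib.MP_76d46b_ag.BranchDiv

/-!
# The two families
-/

open Polynomial TensorProduct CategoryTheory CategoryTheory.Limits AlgebraicGeometry

universe u

set_option linter.unusedSectionVars false

namespace Pool.Agent.Lib.MP_76d46b_ag

section

variable (p : ℕ) [hp : Fact p.Prime] {k : Type u} [Field k] [CharP k p]
  (D₁ D₂ : k[X]) [hE : Good (D₁ * D₂)]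

/-- the fibres of the glued family -/
theorem exists_fibre (h₁ : D₁.Monic) (h₁0 : 0 < D₁.natDegree) (h₂ : D₂.Monic)
    (h₂0 : 0 < D₂.natDegree) (hd : D₁.natDegree + D₂.natDegree = 4)
    (hs : (D₁ * D₂).Separable) (K : Type u) [Field K] [IsAlgClosed K]
    (s : Spec (.of K) ⟶ Spec (.of k)) :
    ∃ G : Tuple (PP p) (Spec (.of K)), Nonempty (G.Cart (gTuple p D₁ D₂) s) ∧
      IsGaloisCover G 0 ((p - 1) * (3 * p - 1)) (Multiset.replicate 4 (2 * p * (p - 1))) := by
  obtain ⟨χ, rfl⟩ := Spec.map_surjective s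
  let alg : Algebra k K := χ.hom.toAlgebra
  have hchar : CharP K p := charP_of_injective_algebraMap (algebraMap k K).injective p
  let G := (gTuple p D₁ D₂).pullback (Spec.map χ)
  let c : G.Cart (gTuple p D₁ D₂) (Spec.map (CommRingCat.ofHom (algebraMap k K))) :=
    (gTuple p D₁ D₂).pullbackCart (Spec.map χ)
  have hgood : Good (D₁.map (algebraMap k K) * D₂.map (algebraMap k K)) := by
    rw [← Polynomial.map_mul]
    infer_instance
  obtain ⟨M⟩ := (gModel p D₁ D₂).baseChange c (D₁' := D₁.map (algebraMap k K))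
    (D₂' := D₂.map (algebraMap k K)) rfl rfl
  refine ⟨G, ⟨c⟩, M.isGaloisCover (h₁.map _) ?_ (h₂.map _) ?_ ?_ ?_⟩
  · rwa [h₁.natDegree_map]
  · rwa [h₂.natDegree_map]
  · rwa [h₁.natDegree_map, h₂.natDegree_map]
  · rw [← Polynomial.map_mul]
    exact hs.map

theorem isFamily_gTuple (h₁ : D₁.Monic) (h₁0 : 0 < D₁.natDegree) (h₂ : D₂.Monic)
    (h₂0 : 0 < D₂.natDegree) (hd : D₁.natDegree + D₂.natDegree = 4)
    (hs : (D₁ * D₂).Separable) :
    IsFamily (gTuple p D₁ D₂) 0 ((p - 1) * (3 * p - 1))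
      (Multiset.replicate 4 (2 * p * (p - 1))) where
  smooth_X := (gModel p D₁ D₂).smooth_X
  proper_X := (gModel p D₁ D₂).proper_X
  closed_B := (gModel p D₁ D₂).closed_B
  finite_B := (gModel p D₁ D₂).finite_B
  etale_B := (gModel p D₁ D₂).etale_B hs
  degree_B s := by
    rw [(gModel p D₁ D₂).degree_B s, h₁.natDegree_mul h₂, hd, Multiset.card_replicate]
  finite_Y := (gModel p D₁ D₂).isFinite
  flat_Y := (gModel p D₁ D₂).flat
  fibre K _ _ s := exists_fibre p D₁ D₂ h₁ h₁0 h₂ h₂0 hd hs K s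

/-- The object of the moduli stack over `Spec k` given by `D₁` and `D₂`. -/
noncomputable def gObj (h₁ : D₁.Monic) (h₁0 : 0 < D₁.natDegree) (h₂ : D₂.Monic)
    (h₂0 : 0 < D₂.natDegree) (hd : D₁.natDegree + D₂.natDegree = 4)
    (hs : (D₁ * D₂).Separable) :
    Obj k (PP p) 0 ((p - 1) * (3 * p - 1)) (Multiset.replicate 4 (2 * p * (p - 1))) where
  S := Spec (.of k)
  str := 𝟙 _
  F := gTuple p D₁ D₂
  isFamily := isFamily_gTuple p D₁ D₂ h₁ h₁0 h₂ h₂0 hd hs

end

section Main

variable (p : ℕ) [hp : Fact p.Prime] (k : Type u) [Field k] [IsAlgClosed k] [CharP k p]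

theorem exists_four : ∃ a b c : k, a ≠ 0 ∧ b ≠ 0 ∧ c ≠ 0 ∧ a ≠ b ∧ a ≠ c ∧ b ≠ c := by
  classical
  obtain ⟨a, ha⟩ := Infinite.exists_notMem_finset ({0} : Finset k)
  obtain ⟨b, hb⟩ := Infinite.exists_notMem_finset ({0, a} : Finset k)
  obtain ⟨c, hc⟩ := Infinite.exists_notMem_finset ({0, a, b} : Finset k)
  simp only [Finset.mem_insert, Finset.mem_singleton, not_or] at ha hb hc
  exact ⟨a, b, c, ha, hb.1, hc.1, Ne.symm hb.2, Ne.symm hc.2.1, Ne.symm hc.2.2⟩

variable {k} in
omit [IsAlgClosed k] [CharP k p] hp in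
theorem separable_four {a b c : k} (ha : a ≠ 0) (hb : b ≠ 0) (hc : c ≠ 0) (hab : a ≠ b)
    (hac : a ≠ c) (hbc : b ≠ c) :
    (X * (X - C a) * (X - C b) * (X - C c) : k[X]).Separable := by
  have h0 : (X * (X - C a) * (X - C b) * (X - C c) : k[X]) =
      ∏ i : Fin 4, (X - C ((![0, a, b, c] : Fin 4 → k) i)) := by
    rw [Fin.prod_univ_four]
    simp
  rw [h0, separable_prod_X_sub_C_iff]
  intro i j hij
  fin_cases i <;> fin_cases j <;> simp_all [eq_comm]

/-- There are two objects of the moduli stack that are distinguished by the counting functions. -/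
theorem exists_objects : ∃ (F F' : Obj.{u} k (PP p) 0 ((p - 1) * (3 * p - 1))
    (Multiset.replicate 4 (2 * p * (p - 1)))) (s : F.S) (s' : F'.S),
    (∃ σ ≠ 1, F.F.count σ s = 3) ∧ ¬ ∃ σ ≠ 1, F'.F.count σ s' = 3 := by
  obtain ⟨a, b, c, ha, hb, hc, hab, hac, hbc⟩ := exists_four k
  have hsep := separable_four ha hb hc hab hac hbc
  have m0 : (X : k[X]).Monic := monic_X
  have ma : (X - C a : k[X]).Monic := monic_X_sub_C a
  have mb : (X - C b : k[X]).Monic := monic_X_sub_C b
  have mc : (X - C c : k[X]).Monic := monic_X_sub_C c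
  have d3 : (X * (X - C a) * (X - C b) : k[X]).natDegree = 3 := by
    rw [(m0.mul ma).natDegree_mul mb, m0.natDegree_mul ma, natDegree_X, natDegree_X_sub_C,
      natDegree_X_sub_C]
  have d1 : (X - C c : k[X]).natDegree = 1 := natDegree_X_sub_C c
  have d2 : (X * (X - C a) : k[X]).natDegree = 2 := by
    rw [m0.natDegree_mul ma, natDegree_X, natDegree_X_sub_C]
  have d2' : ((X - C b) * (X - C c) : k[X]).natDegree = 2 := by
    rw [mb.natDegree_mul mc, natDegree_X_sub_C, natDegree_X_sub_C]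
  have g1 : Good (X * (X - C a) * (X - C b) * (X - C c) : k[X]) :=
    ⟨((m0.mul ma).mul mb).mul mc, ((dvd_mul_right _ _).trans (dvd_mul_right _ _)).trans
      (dvd_mul_right _ _)⟩
  have hsep' : ((X * (X - C a)) * ((X - C b) * (X - C c)) : k[X]).Separable := by
    rw [← mul_assoc]; exact hsep
  have g2 : Good ((X * (X - C a)) * ((X - C b) * (X - C c)) : k[X]) := by
    rw [← mul_assoc]; exact g1
  -- the object of type (3, 1)
  let F := gObj p (X * (X - C a) * (X - C b) : k[X]) (X - C c) ((m0.mul ma).mul mb) (by omega) mc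
    (by omega) (by omega) hsep
  -- the object of type (2, 2)
  let F' := gObj p (X * (X - C a) : k[X]) ((X - C b) * (X - C c)) (m0.mul ma) (by omega)
    (mb.mul mc) (by omega) (by omega) hsep'
  let s : Spec (.of k) := IsLocalRing.closedPoint k
  refine ⟨F, F', s, s, ?_, ?_⟩
  · let M := gModel p (X * (X - C a) * (X - C b) : k[X]) (X - C c)
    have := M.closed_B
    have := M.finite_B
    have := M.etale_B hsep
    have hG := M.isGaloisCover ((m0.mul ma).mul mb) (by omega) mc (by omega) (by omega) hsep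
    refine ⟨Multiplicative.ofAdd (1, 0), ?_, ?_⟩
    · intro h
      have h1 := congrArg (fun x => (Multiplicative.toAdd x).1) h
      exact one_ne_zero h1
    · have h1 := M.count_left hG hsep (Multiplicative.ofAdd (1, 0)) one_ne_zero rfl s
      rw [d3] at h1
      exact h1
  · let M := gModel p (X * (X - C a) : k[X]) ((X - C b) * (X - C c))
    have := M.closed_B
    have := M.finite_B
    have := M.etale_B hsep'
    have hG := M.isGaloisCover (m0.mul ma) (by omega) (mb.mul mc) (by omega) (by omega) hsep'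
    rintro ⟨σ, hσ, h3⟩
    by_cases h1 : σ.toAdd.1 = 0
    · by_cases h2 : σ.toAdd.2 = 0
      · apply hσ
        apply Multiplicative.toAdd.injective
        exact Prod.ext h1 h2
      · have h4 := M.count_right hG hsep' σ h1 h2 s
        rw [d2'] at h4
        have h5 : (3 : ℕ) = 2 := h3.symm.trans h4
        omega
    · by_cases h2 : σ.toAdd.2 = 0
      · have h4 := M.count_left hG hsep' σ h1 h2 s
        rw [d2] at h4
        have h5 : (3 : ℕ) = 2 := h3.symm.trans h4
        omega
      · have h4 := M.count_none hG hsep' σ h1 h2 s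
        have h5 : (3 : ℕ) = 0 := h3.symm.trans h4
        omega

/-- **Main theorem.**  The moduli space is not irreducible, even after identifying covers that
differ by an automorphism of the group. -/
theorem main :
    Nonempty (Moduli.{u} k (PP p) 0 ((p - 1) * (3 * p - 1))
      (Multiset.replicate 4 (2 * p * (p - 1)))) ∧
    ¬ IrreducibleSpace (Moduli.{u} k (PP p) 0 ((p - 1) * (3 * p - 1))
      (Multiset.replicate 4 (2 * p * (p - 1)))) ∧
    DisconnectedModAut.{u} k (PP p) 0 ((p - 1) * (3 * p - 1))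
      (Multiset.replicate 4 (2 * p * (p - 1))) := by
  have hcard : Nat.card (PP p) = p ^ 2 := by
    rw [Nat.card_congr Multiplicative.toAdd, Nat.card_prod, Nat.card_zmod, sq]
  have : Finite (PP p) := inferInstanceAs (Finite (Multiplicative (ZMod p × ZMod p)))
  obtain ⟨C, hC, hmem⟩ := exists_isClopen k p (PP p) 0 ((p - 1) * (3 * p - 1)) hcard 4 3
  obtain ⟨F, F', s, s', hs, hs'⟩ := exists_objects p k
  have h1 : C.Nonempty := ⟨F.point s, (hmem F s).mpr hs⟩
  have h2 : Cᶜ.Nonempty := ⟨F'.point s', fun h => hs' ((hmem F' s').mp h)⟩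
  refine ⟨⟨F.point s⟩, ?_, C, hC, h1, h2, fun α x => ?_⟩
  · intro hirr
    obtain ⟨x, hx, hx'⟩ := nonempty_preirreducible_inter hC.2 hC.1.isOpen_compl h1 h2
    exact hx' hx
  · induction x using Quot.ind with
    | mk a =>
      obtain ⟨F, s⟩ := a
      exact (hmem (F.twist α) s).trans ((F.count_twist α s 3).trans (hmem F s).symm)

end Main

end Pool.Agent.Lib.MP_76d46b_ag
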