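import Pool.Agent.Lib.MP_76d46b_ag.CoverChange
import Pool.Agent.Lib.MP_76d46b_ag.Glue
import Pool.Agent.Lib.MP_76d46b_ag.Defs

/-!
# Models: tuples over a field with explicit affine charts
-/

open Polynomial TensorProduct CategoryTheory CategoryTheory.Limits AlgebraicGeometry

universe u

namespace Pool.Agent.Lib.MP_76d46b_ag

/-- A tuple over a field `K` with the explicit charts of the fibre product of the two
Artin–Schreier covers with equations `y^p - y = 1/D₁` and `z^p - z = 1/D₂`. -/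
structure Model {K : Type u} [Field K] (p : ℕ) [Fact p.Prime] [CharP K p] (D₁ D₂ : K[X])
    [Good (D₁ * D₂)] (G : Tuple (PP p) (Spec (.of K))) where
  iU : Spec (.of K[X]) ⟶ G.X
  iV : Spec (.of (RV (D₁ * D₂))) ⟶ G.X
  coverX : TwoCover (Spec.map (CommRingCat.ofHom (algebraMap K[X] (RW (D₁ * D₂)))))
    (Spec.map (CommRingCat.ofHom (algebraMap (RV (D₁ * D₂)) (RW (D₁ * D₂))))) iU iV
  iU_π : iU ≫ G.π = Spec.map (CommRingCat.ofHom (algebraMap K K[X]))
  iV_π : iV ≫ G.π = Spec.map (CommRingCat.ofHom (algebraMap K (RV (D₁ * D₂))))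
  jU : Spec (.of (AU p D₁ D₂)) ⟶ G.Y
  jV : Spec (.of (AV p D₁ D₂)) ⟶ G.Y
  pullU : IsPullback jU (Spec.map (CommRingCat.ofHom (algebraMap K[X] (AU p D₁ D₂)))) G.φ iU
  pullV : IsPullback jV
    (Spec.map (CommRingCat.ofHom (algebraMap (RV (D₁ * D₂)) (AV p D₁ D₂)))) G.φ iV
  glueY : Spec.map (CommRingCat.ofHom (aA p D₁ D₂ : AU p D₁ D₂ →+* AW p D₁ D₂)) ≫ jU =
    Spec.map (CommRingCat.ofHom (bA p D₁ D₂ : AV p D₁ D₂ →+* AW p D₁ D₂)) ≫ jV
  act_U : ∀ σ : PP p, jU ≫ (G.act σ).hom =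
    Spec.map (CommRingCat.ofHom (actU p D₁ D₂ σ : AU p D₁ D₂ →+* AU p D₁ D₂)) ≫ jU
  act_V : ∀ σ : PP p, jV ≫ (G.act σ).hom =
    Spec.map (CommRingCat.ofHom (actV p D₁ D₂ σ : AV p D₁ D₂ →+* AV p D₁ D₂)) ≫ jV
  eB : Spec (.of (AdjoinRoot (D₁ * D₂))) ⟶ G.B
  isIso_eB : IsIso eB
  eB_ι : eB ≫ G.ι = Spec.map (CommRingCat.ofHom (AdjoinRoot.mk (D₁ * D₂))) ≫ iU

section BaseChange

variable {K K' : Type u} [Field K] [Field K'] [Algebra K K'] (p : ℕ) [hp : Fact p.Prime]
  [CharP K p] [CharP K' p]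

/-- base change for the branch divisor -/
noncomputable def mapB (E : K[X]) (E' : K'[X]) (h : E.map (algebraMap K K') = E') :
    AdjoinRoot E →+* AdjoinRoot E' :=
  AdjoinRoot.lift ((AdjoinRoot.of E').comp (algebraMap K K')) (AdjoinRoot.root E') (by
    rw [← eval₂_map, h]
    exact AdjoinRoot.eval₂_root E')

theorem mapB_mk (E : K[X]) (E' : K'[X]) (h : E.map (algebraMap K K') = E') (f : K[X]) :
    mapB E E' h (AdjoinRoot.mk E f) = AdjoinRoot.mk E' (f.map (algebraMap K K')) := by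
  have : (mapB E E' h).comp (AdjoinRoot.mk E) =
      (AdjoinRoot.mk E').comp (mapRingHom (algebraMap K K')) := by
    apply Polynomial.ringHom_ext
    · intro a
      change mapB E E' h (AdjoinRoot.mk E (C a)) = AdjoinRoot.mk E' ((C a).map _)
      rw [AdjoinRoot.mk_C, mapB, AdjoinRoot.lift_of, map_C, AdjoinRoot.mk_C]
      rfl
    · change mapB E E' h (AdjoinRoot.mk E X) = AdjoinRoot.mk E' (X.map _)
      rw [AdjoinRoot.mk_X, mapB, AdjoinRoot.lift_root, map_X, AdjoinRoot.mk_X]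
  exact congrArg (fun g => g f) this

theorem isPushout_of_universal {R R' A A' : Type u} [CommRing R] [CommRing R'] [CommRing A]
    [CommRing A'] (f : R →+* R') (g : R →+* A) (g' : R' →+* A') (f' : A →+* A')
    (hw : g'.comp f = f'.comp g)
    (H : ∀ (C : Type u) [CommRing C] (α : R' →+* C) (β : A →+* C), α.comp f = β.comp g →
      ∃ γ : A' →+* C, γ.comp g' = α ∧ γ.comp f' = β)
    (H' : ∀ (C : Type u) [CommRing C] (γ γ' : A' →+* C), γ.comp g' = γ'.comp g' →
      γ.comp f' = γ'.comp f' → γ = γ') :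
    IsPushout (CommRingCat.ofHom f) (CommRingCat.ofHom g) (CommRingCat.ofHom g')
      (CommRingCat.ofHom f') := by
  let a1 : Algebra R R' := f.toAlgebra
  let a2 : Algebra R A := g.toAlgebra
  let a3 : Algebra R' A' := g'.toAlgebra
  let a4 : Algebra R A' := (g'.comp f).toAlgebra
  have t : IsScalarTower R R' A' := .of_algebraMap_eq' rfl
  let m : A →ₐ[R] A' := { f' with commutes' := fun r => (congrArg (fun h => h r) hw).symm }
  have : BC R R' A A' m := ⟨fun C _ α β h => H C α β h, fun C _ γ γ' h h' => H' C γ γ' h h'⟩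
  exact this.isPushout

theorem isPushout_B (E : K[X]) (E' : K'[X]) (h : E.map (algebraMap K K') = E') :
    IsPushout (CommRingCat.ofHom (mapRingHom (algebraMap K K')))
      (CommRingCat.ofHom (AdjoinRoot.mk E)) (CommRingCat.ofHom (AdjoinRoot.mk E'))
      (CommRingCat.ofHom (mapB E E' h)) := by
  apply isPushout_of_universal
  · ext1
    · ext a
      exact (mapB_mk E E' h (C a)).symm
    · exact (mapB_mk E E' h X).symm
  · intro C _ α β hαβ
    have h0 : α E' = 0 := by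
      have h1 : α (mapRingHom (algebraMap K K') E) = β (AdjoinRoot.mk E E) :=
        congrArg (fun g => g E) hαβ
      rw [AdjoinRoot.mk_self, map_zero, coe_mapRingHom, h] at h1
      exact h1
    let γ : AdjoinRoot E' →+* C := Ideal.Quotient.lift (Ideal.span {E'}) α (by
      intro a ha
      obtain ⟨b, rfl⟩ := Ideal.mem_span_singleton.mp ha
      rw [map_mul, h0, zero_mul])
    have hγ : ∀ f, γ (AdjoinRoot.mk E' f) = α f := fun f => rfl
    refine ⟨γ, RingHom.ext hγ, ?_⟩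
    apply RingHom.ext
    intro x
    obtain ⟨f, rfl⟩ := AdjoinRoot.mk_surjective x
    rw [RingHom.comp_apply, mapB_mk, hγ]
    exact congrArg (fun g => g f) hαβ
  · intro C _ γ γ' h1 _
    apply RingHom.ext
    intro x
    obtain ⟨f, rfl⟩ := AdjoinRoot.mk_surjective x
    exact congrArg (fun g => g f) h1

end BaseChange

section Model

variable {K K' : Type u} [Field K] [Field K'] [Algebra K K'] {p : ℕ} [hp : Fact p.Prime]
  [CharP K p] [CharP K' p] {D₁ D₂ : K[X]} {D₁' D₂' : K'[X]}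
  [hE : Good (D₁ * D₂)] [hE' : Good (D₁' * D₂')]

/-- The base change of a model. -/
theorem Model.baseChange {G : Tuple (PP p) (Spec (.of K))} {G' : Tuple (PP p) (Spec (.of K'))}
    (M : Model p D₁ D₂ G)
    (c : G'.Cart G (Spec.map (CommRingCat.ofHom (algebraMap K K'))))
    (h₁ : D₁.map (algebraMap K K') = D₁') (h₂ : D₂.map (algebraMap K K') = D₂') :
    Nonempty (Model p D₁' D₂' G') := by
  have h : (D₁ * D₂).map (algebraMap K K') = D₁' * D₂' := by rw [Polynomial.map_mul, h₁, h₂]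
  -- pull-back squares of affine schemes
  have sU := isPullback_SpecMap_of_isPushout _ _ _ _ (isPushout_mapU (K := K) (K' := K'))
  have sV := isPullback_SpecMap_of_isPushout _ _ _ _ (isPushout_V (D₁ * D₂) (D₁' * D₂') h)
  have sW := isPullback_SpecMap_of_isPushout _ _ _ _ (isPushout_mapW (D₁ * D₂) (D₁' * D₂') h)
  have sAU := isPullback_SpecMap_of_isPushout _ _ _ _ (isPushout_AU p D₁ D₂ D₁' D₂' h₁ h₂)
  have sAV := isPullback_SpecMap_of_isPushout _ _ _ _ (isPushout_AV p D₁ D₂ D₁' D₂' h₁ h₂ h)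
  have sB := isPullback_SpecMap_of_isPushout _ _ _ _ (isPushout_B (D₁ * D₂) (D₁' * D₂') h)
  -- the charts of `X`
  let iU' : Spec (.of K'[X]) ⟶ G'.X := c.isPullback_x.lift
    (Spec.map (CommRingCat.ofHom (mapRingHom (algebraMap K K'))) ≫ M.iU)
    (Spec.map (CommRingCat.ofHom (algebraMap K' K'[X]))) (by
      rw [Category.assoc, M.iU_π]; exact sU.flip.w)
  have hiU1 : iU' ≫ c.x = Spec.map (CommRingCat.ofHom (mapRingHom (algebraMap K K'))) ≫ M.iU :=
    c.isPullback_x.lift_fst _ _ _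
  have hiU2 : iU' ≫ G'.π = Spec.map (CommRingCat.ofHom (algebraMap K' K'[X])) :=
    c.isPullback_x.lift_snd _ _ _
  let iV' : Spec (.of (RV (D₁' * D₂'))) ⟶ G'.X := c.isPullback_x.lift
    (Spec.map (CommRingCat.ofHom (mapV _ _ h)) ≫ M.iV)
    (Spec.map (CommRingCat.ofHom (algebraMap K' (RV (D₁' * D₂'))))) (by
      rw [Category.assoc, M.iV_π]; exact sV.flip.w)
  have hiV1 : iV' ≫ c.x = Spec.map (CommRingCat.ofHom (mapV _ _ h)) ≫ M.iV :=
    c.isPullback_x.lift_fst _ _ _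
  have hiV2 : iV' ≫ G'.π = Spec.map (CommRingCat.ofHom (algebraMap K' (RV (D₁' * D₂')))) :=
    c.isPullback_x.lift_snd _ _ _
  have pU : IsPullback (Spec.map (CommRingCat.ofHom (mapRingHom (algebraMap K K')))) iU' M.iU
      c.x := by
    refine IsPullback.of_bot ?_ hiU1.symm c.isPullback_x
    rw [hiU2, M.iU_π]
    exact sU.flip
  have pV : IsPullback (Spec.map (CommRingCat.ofHom (mapV _ _ h))) iV' M.iV c.x := by
    refine IsPullback.of_bot ?_ hiV1.symm c.isPullback_x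
    rw [hiV2, M.iV_π]
    exact sV.flip
  have hWU : Spec.map (CommRingCat.ofHom (algebraMap K'[X] (RW (D₁' * D₂')))) ≫
      Spec.map (CommRingCat.ofHom (mapRingHom (algebraMap K K'))) =
      Spec.map (CommRingCat.ofHom (mapW _ _ h)) ≫
      Spec.map (CommRingCat.ofHom (algebraMap K[X] (RW (D₁ * D₂)))) := sW.w
  have hWV : Spec.map (CommRingCat.ofHom (algebraMap (RV (D₁' * D₂')) (RW (D₁' * D₂')))) ≫
      Spec.map (CommRingCat.ofHom (mapV _ _ h)) =
      Spec.map (CommRingCat.ofHom (mapW _ _ h)) ≫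
      Spec.map (CommRingCat.ofHom (algebraMap (RV (D₁ * D₂)) (RW (D₁ * D₂)))) := by
    rw [← Spec.map_comp, ← Spec.map_comp]
    congr 1
    ext r
    exact (mapW_VW _ _ h r).symm
  have hcomm : Spec.map (CommRingCat.ofHom (algebraMap K'[X] (RW (D₁' * D₂')))) ≫ iU' =
      Spec.map (CommRingCat.ofHom (algebraMap (RV (D₁' * D₂')) (RW (D₁' * D₂')))) ≫ iV' := by
    apply c.isPullback_x.hom_ext
    · rw [Category.assoc, Category.assoc, hiU1, hiV1, ← Category.assoc, ← Category.assoc, hWU,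
        hWV, Category.assoc, Category.assoc, M.coverX.isPullback.w]
    · rw [Category.assoc, Category.assoc, hiU2, hiV2, ← Spec.map_comp, ← Spec.map_comp]
      congr 1
      ext r
      change algebraMap K'[X] (RW (D₁' * D₂')) (algebraMap K' K'[X] r) =
        algebraMap (RV (D₁' * D₂')) (RW (D₁' * D₂')) (algebraMap K' (RV (D₁' * D₂')) r)
      rw [← IsScalarTower.algebraMap_apply, ← IsScalarTower.algebraMap_apply]
  have hcover : TwoCover (Spec.map (CommRingCat.ofHom (algebraMap K'[X] (RW (D₁' * D₂')))))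
      (Spec.map (CommRingCat.ofHom (algebraMap (RV (D₁' * D₂')) (RW (D₁' * D₂'))))) iU' iV' :=
    M.coverX.of_isPullback pU pV sW.flip hcomm hWV.symm
  -- the charts of `Y`
  let jU' : Spec (.of (AU p D₁' D₂')) ⟶ G'.Y := c.isPullback_y.lift
    (Spec.map (CommRingCat.ofHom (mapAU p D₁ D₂ D₁' D₂' h₁ h₂)) ≫ M.jU)
    (Spec.map (CommRingCat.ofHom (algebraMap K'[X] (AU p D₁' D₂'))) ≫ iU') (by
      rw [Category.assoc, Category.assoc, M.pullU.w, hiU1, ← Category.assoc, ← Category.assoc,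
        sAU.w])
  have hjU1 : jU' ≫ c.y = Spec.map (CommRingCat.ofHom (mapAU p D₁ D₂ D₁' D₂' h₁ h₂)) ≫ M.jU :=
    c.isPullback_y.lift_fst _ _ _
  have hjU2 : jU' ≫ G'.φ = Spec.map (CommRingCat.ofHom (algebraMap K'[X] (AU p D₁' D₂'))) ≫ iU' :=
    c.isPullback_y.lift_snd _ _ _
  let jV' : Spec (.of (AV p D₁' D₂')) ⟶ G'.Y := c.isPullback_y.lift
    (Spec.map (CommRingCat.ofHom (mapAV p D₁ D₂ D₁' D₂' h₁ h₂ h)) ≫ M.jV)
    (Spec.map (CommRingCat.ofHom (algebraMap (RV (D₁' * D₂')) (AV p D₁' D₂'))) ≫ iV') (by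
      rw [Category.assoc, Category.assoc, M.pullV.w, hiV1, ← Category.assoc, ← Category.assoc,
        sAV.w])
  have hjV1 : jV' ≫ c.y = Spec.map (CommRingCat.ofHom (mapAV p D₁ D₂ D₁' D₂' h₁ h₂ h)) ≫ M.jV :=
    c.isPullback_y.lift_fst _ _ _
  have hjV2 : jV' ≫ G'.φ =
      Spec.map (CommRingCat.ofHom (algebraMap (RV (D₁' * D₂')) (AV p D₁' D₂'))) ≫ iV' :=
    c.isPullback_y.lift_snd _ _ _
  have pAU : IsPullback jU' (Spec.map (CommRingCat.ofHom (algebraMap K'[X] (AU p D₁' D₂'))))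
      G'.φ iU' := by
    have h1 := sAU.flip.paste_horiz M.pullU
    rw [← hiU1, ← hjU1] at h1
    exact IsPullback.of_right h1 hjU2 c.isPullback_y
  have pAV : IsPullback jV'
      (Spec.map (CommRingCat.ofHom (algebraMap (RV (D₁' * D₂')) (AV p D₁' D₂')))) G'.φ iV' := by
    have h1 := sAV.flip.paste_horiz M.pullV
    rw [← hiV1, ← hjV1] at h1
    exact IsPullback.of_right h1 hjV2 c.isPullback_y
  have hglue : Spec.map (CommRingCat.ofHom (aA p D₁' D₂' : AU p D₁' D₂' →+* AW p D₁' D₂')) ≫ jU' =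
      Spec.map (CommRingCat.ofHom (bA p D₁' D₂' : AV p D₁' D₂' →+* AW p D₁' D₂')) ≫ jV' := by
    apply c.isPullback_y.hom_ext
    · have e1 : Spec.map (CommRingCat.ofHom (aA p D₁' D₂' : AU p D₁' D₂' →+* AW p D₁' D₂')) ≫
          Spec.map (CommRingCat.ofHom (mapAU p D₁ D₂ D₁' D₂' h₁ h₂)) =
          Spec.map (CommRingCat.ofHom (mapAW p D₁ D₂ D₁' D₂' h₁ h₂ h)) ≫
          Spec.map (CommRingCat.ofHom (aA p D₁ D₂ : AU p D₁ D₂ →+* AW p D₁ D₂)) := by
        rw [← Spec.map_comp, ← Spec.map_comp]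
        congr 1
        apply CommRingCat.hom_ext
        exact RingHom.ext fun x => (mapAW_aA p D₁ D₂ D₁' D₂' h₁ h₂ h x).symm
      have e2 : Spec.map (CommRingCat.ofHom (bA p D₁' D₂' : AV p D₁' D₂' →+* AW p D₁' D₂')) ≫
          Spec.map (CommRingCat.ofHom (mapAV p D₁ D₂ D₁' D₂' h₁ h₂ h)) =
          Spec.map (CommRingCat.ofHom (mapAW p D₁ D₂ D₁' D₂' h₁ h₂ h)) ≫
          Spec.map (CommRingCat.ofHom (bA p D₁ D₂ : AV p D₁ D₂ →+* AW p D₁ D₂)) := by
        rw [← Spec.map_comp, ← Spec.map_comp]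
        congr 1
        apply CommRingCat.hom_ext
        exact RingHom.ext fun x => (mapAW_bA p D₁ D₂ D₁' D₂' h₁ h₂ h x).symm
      rw [Category.assoc, Category.assoc, hjU1, hjV1, ← Category.assoc, ← Category.assoc, e1,
        e2, Category.assoc, Category.assoc, M.glueY]
    · have e1 : Spec.map (CommRingCat.ofHom (aA p D₁' D₂' : AU p D₁' D₂' →+* AW p D₁' D₂')) ≫
          Spec.map (CommRingCat.ofHom (algebraMap K'[X] (AU p D₁' D₂'))) =
          Spec.map (CommRingCat.ofHom (algebraMap (RW (D₁' * D₂')) (AW p D₁' D₂'))) ≫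
          Spec.map (CommRingCat.ofHom (algebraMap K'[X] (RW (D₁' * D₂')))) := by
        rw [← Spec.map_comp, ← Spec.map_comp]
        congr 1
        apply CommRingCat.hom_ext
        apply RingHom.ext
        intro x
        change aA p D₁' D₂' (algebraMap _ _ x) = algebraMap _ _ (algebraMap _ _ x)
        rw [AlgHom.commutes, ← IsScalarTower.algebraMap_apply]
      have e2 : Spec.map (CommRingCat.ofHom (bA p D₁' D₂' : AV p D₁' D₂' →+* AW p D₁' D₂')) ≫
          Spec.map (CommRingCat.ofHom (algebraMap (RV (D₁' * D₂')) (AV p D₁' D₂'))) =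
          Spec.map (CommRingCat.ofHom (algebraMap (RW (D₁' * D₂')) (AW p D₁' D₂'))) ≫
          Spec.map (CommRingCat.ofHom (algebraMap (RV (D₁' * D₂')) (RW (D₁' * D₂')))) := by
        rw [← Spec.map_comp, ← Spec.map_comp]
        congr 1
        apply CommRingCat.hom_ext
        apply RingHom.ext
        intro x
        change bA p D₁' D₂' (algebraMap _ _ x) = algebraMap _ _ (algebraMap _ _ x)
        rw [AlgHom.commutes, ← IsScalarTower.algebraMap_apply]
      rw [Category.assoc, Category.assoc, hjU2, hjV2, ← Category.assoc, ← Category.assoc, e1,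
        e2, Category.assoc, Category.assoc, hcomm]
  have hactU : ∀ σ : PP p, jU' ≫ (G'.act σ).hom =
      Spec.map (CommRingCat.ofHom (actU p D₁' D₂' σ : AU p D₁' D₂' →+* AU p D₁' D₂')) ≫ jU' := by
    intro σ
    apply c.isPullback_y.hom_ext
    · have e1 : Spec.map (CommRingCat.ofHom (mapAU p D₁ D₂ D₁' D₂' h₁ h₂)) ≫
          Spec.map (CommRingCat.ofHom (actU p D₁ D₂ σ : AU p D₁ D₂ →+* AU p D₁ D₂)) =
          Spec.map (CommRingCat.ofHom (actU p D₁' D₂' σ : AU p D₁' D₂' →+* AU p D₁' D₂')) ≫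
          Spec.map (CommRingCat.ofHom (mapAU p D₁ D₂ D₁' D₂' h₁ h₂)) := by
        rw [← Spec.map_comp, ← Spec.map_comp]
        congr 1
        apply CommRingCat.hom_ext
        exact RingHom.ext fun x => mapAU_actU p D₁ D₂ D₁' D₂' h₁ h₂ σ x
      rw [Category.assoc, c.equivariant, ← Category.assoc, hjU1, Category.assoc, M.act_U,
        Category.assoc, hjU1, ← Category.assoc, ← Category.assoc, e1]
    · have e1 : Spec.map (CommRingCat.ofHom (actU p D₁' D₂' σ : AU p D₁' D₂' →+* AU p D₁' D₂')) ≫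
          Spec.map (CommRingCat.ofHom (algebraMap K'[X] (AU p D₁' D₂'))) =
          Spec.map (CommRingCat.ofHom (algebraMap K'[X] (AU p D₁' D₂'))) := by
        rw [← Spec.map_comp]
        congr 1
        apply CommRingCat.hom_ext
        exact RingHom.ext fun x => AlgHom.commutes (actU p D₁' D₂' σ) x
      rw [Category.assoc, G'.act_φ, Category.assoc, hjU2, ← Category.assoc, e1]
  have hactV : ∀ σ : PP p, jV' ≫ (G'.act σ).hom =
      Spec.map (CommRingCat.ofHom (actV p D₁' D₂' σ : AV p D₁' D₂' →+* AV p D₁' D₂')) ≫ jV' := by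
    intro σ
    apply c.isPullback_y.hom_ext
    · have e1 : Spec.map (CommRingCat.ofHom (mapAV p D₁ D₂ D₁' D₂' h₁ h₂ h)) ≫
          Spec.map (CommRingCat.ofHom (actV p D₁ D₂ σ : AV p D₁ D₂ →+* AV p D₁ D₂)) =
          Spec.map (CommRingCat.ofHom (actV p D₁' D₂' σ : AV p D₁' D₂' →+* AV p D₁' D₂')) ≫
          Spec.map (CommRingCat.ofHom (mapAV p D₁ D₂ D₁' D₂' h₁ h₂ h)) := by
        rw [← Spec.map_comp, ← Spec.map_comp]
        congr 1
        apply CommRingCat.hom_ext
        exact RingHom.ext fun x => mapAV_actV p D₁ D₂ D₁' D₂' h₁ h₂ h σ x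
      rw [Category.assoc, c.equivariant, ← Category.assoc, hjV1, Category.assoc, M.act_V,
        Category.assoc, hjV1, ← Category.assoc, ← Category.assoc, e1]
    · have e1 : Spec.map (CommRingCat.ofHom (actV p D₁' D₂' σ : AV p D₁' D₂' →+* AV p D₁' D₂')) ≫
          Spec.map (CommRingCat.ofHom (algebraMap (RV (D₁' * D₂')) (AV p D₁' D₂'))) =
          Spec.map (CommRingCat.ofHom (algebraMap (RV (D₁' * D₂')) (AV p D₁' D₂'))) := by
        rw [← Spec.map_comp]
        congr 1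
        apply CommRingCat.hom_ext
        exact RingHom.ext fun x => AlgHom.commutes (actV p D₁' D₂' σ) x
      rw [Category.assoc, G'.act_φ, Category.assoc, hjV2, ← Category.assoc, e1]
  -- the branch divisor
  have hBw : (Spec.map (CommRingCat.ofHom (mapB (D₁ * D₂) (D₁' * D₂') h)) ≫ M.eB) ≫ G.ι =
      (Spec.map (CommRingCat.ofHom (AdjoinRoot.mk (D₁' * D₂'))) ≫ iU') ≫ c.x := by
    rw [Category.assoc, Category.assoc, M.eB_ι, hiU1, ← Category.assoc, ← Category.assoc, sB.w]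
  let eB' : Spec (.of (AdjoinRoot (D₁' * D₂'))) ⟶ G'.B := c.isPullback_b.lift
    (Spec.map (CommRingCat.ofHom (mapB (D₁ * D₂) (D₁' * D₂') h)) ≫ M.eB)
    (Spec.map (CommRingCat.ofHom (AdjoinRoot.mk (D₁' * D₂'))) ≫ iU') hBw
  have heB1 : eB' ≫ c.b = Spec.map (CommRingCat.ofHom (mapB (D₁ * D₂) (D₁' * D₂') h)) ≫ M.eB :=
    c.isPullback_b.lift_fst _ _ _
  have heB2 : eB' ≫ G'.ι = Spec.map (CommRingCat.ofHom (AdjoinRoot.mk (D₁' * D₂'))) ≫ iU' :=
    c.isPullback_b.lift_snd _ _ _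
  have hiso : IsIso eB' := by
    have := M.isIso_eB
    have h1 : IsPullback (Spec.map (CommRingCat.ofHom (mapB (D₁ * D₂) (D₁' * D₂') h))) eB' M.eB
        c.b := by
      refine IsPullback.of_bot ?_ heB1.symm c.isPullback_b
      rw [heB2, M.eB_ι]
      exact sB.flip.paste_vert pU
    exact h1.isIso_snd_of_isIso
  exact ⟨⟨iU', iV', hcover, hiU2, hiV2, jU', jV', pAU, pAV, hglue, hactU, hactV, eB', hiso, heB2⟩⟩

end Model

end Pool.Agent.Lib.MP_76d46b_ag
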