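import Mathlib

/-!
# The coordinate rings of the two charts of the projective line

`K[x]` and `RV E = K[s][1/E~(s)]`, where `s = 1/x` and `E~` is the reverse of `E`, with the
intersection `RW E = K[x][1/E]`; here `E` is a monic polynomial divisible by `x`.
-/

open Polynomial

universe u

set_option linter.unusedSectionVars false

namespace Pool.Agent.Lib.MP_76d46b_ag

variable {K : Type u} [Field K] (E : K[X])

/-- The coordinate ring of the complement of the zeros of `E` in the projective line. -/
abbrev RV : Type u := Localization.Away E.reverse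

/-- The coordinate ring of the complement of the zeros of `E` in the affine line. -/
abbrev RW : Type u := Localization.Away E

/-- The conditions on `E`. -/
class Good : Prop where
  monic : E.Monic
  dvd : X ∣ E

/-- `x` in `RW E` -/
noncomputable def xW : RW E := algebraMap K[X] _ X

/-- `s = 1/x` in `RW E` -/
noncomputable def sW : RW E := Ring.inverse (xW E)

variable {E} (hE : Good E)

include hE

theorem isUnit_E : IsUnit (algebraMap K[X] (RW E) E) :=
  IsLocalization.Away.algebraMap_isUnit E

theorem isUnit_xW : IsUnit (xW E) :=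
  isUnit_of_dvd_unit (map_dvd (algebraMap K[X] (RW E)) hE.dvd) (isUnit_E hE)

theorem xW_mul_sW : xW E * sW E = 1 := Ring.mul_inverse_cancel _ (isUnit_xW hE)

theorem sW_mul_xW : sW E * xW E = 1 := Ring.inverse_mul_cancel _ (isUnit_xW hE)

theorem E_ne_zero : E ≠ 0 := hE.monic.ne_zero

theorem reverse_ne_zero : E.reverse ≠ 0 := by
  rw [Ne, reverse_eq_zero]
  exact E_ne_zero hE

/-- `f(1/x)` times a power of `x` -/
theorem aeval_reverse_mul (f : K[X]) :
    aeval (sW E) f.reverse * xW E ^ f.natDegree = algebraMap K[X] (RW E) f := by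
  let inv : Invertible (xW E) := ⟨sW E, sW_mul_xW hE, xW_mul_sW hE⟩
  have h := eval₂_reverse_mul_pow (algebraMap K (RW E)) (xW E) f
  have h1 : eval₂ (algebraMap K (RW E)) (xW E) f = algebraMap K[X] (RW E) f := by
    have : aeval (xW E) f = algebraMap K[X] (RW E) f := by
      have h2 : aeval (xW E) = (IsScalarTower.toAlgHom K K[X] (RW E)) := by
        apply algHom_ext
        rw [aeval_X]; rfl
      rw [h2]; rfl
    exact this
  rw [h1] at h
  exact h

theorem aeval_mul_pow (f : K[X]) :
    algebraMap K[X] (RW E) f.reverse * sW E ^ f.natDegree = aeval (sW E) f := by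
  let inv : Invertible (sW E) := ⟨xW E, xW_mul_sW hE, sW_mul_xW hE⟩
  have h := eval₂_reverse_mul_pow (algebraMap K (RW E)) (sW E) f
  have h1 : eval₂ (algebraMap K (RW E)) (xW E) f.reverse = algebraMap K[X] (RW E) f.reverse := by
    have : aeval (xW E) f.reverse = algebraMap K[X] (RW E) f.reverse := by
      have h2 : aeval (xW E) = (IsScalarTower.toAlgHom K K[X] (RW E)) := by
        apply algHom_ext
        rw [aeval_X]; rfl
      rw [h2]; rfl
    exact this
  exact h1 ▸ h

theorem algebraMap_RW_injective : Function.Injective (algebraMap K[X] (RW E)) :=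
  IsLocalization.injective (RW E) (powers_le_nonZeroDivisors_of_noZeroDivisors (E_ne_zero hE))

theorem algebraMap_RV_injective : Function.Injective (algebraMap K[X] (RV E)) :=
  IsLocalization.injective (RV E) (powers_le_nonZeroDivisors_of_noZeroDivisors
    (reverse_ne_zero hE))

theorem aeval_sW_injective : Function.Injective (aeval (R := K) (sW E)) := by
  rw [injective_iff_map_eq_zero]
  intro f hf
  rw [← aeval_mul_pow hE] at hf
  have h1 : IsUnit (sW E ^ f.natDegree) :=
    (IsUnit.of_mul_eq_one _ (sW_mul_xW hE)).pow _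
  rw [h1.mul_left_eq_zero] at hf
  have h2 := (injective_iff_map_eq_zero _).mp (algebraMap_RW_injective hE) _ hf
  rwa [reverse_eq_zero] at h2

theorem isUnit_aeval_reverse (y : Submonoid.powers E.reverse) :
    IsUnit (aeval (R := K) (sW E) (y : K[X])) := by
  obtain ⟨_, n, rfl⟩ := y
  rw [map_pow]
  refine IsUnit.pow _ ?_
  have h := aeval_reverse_mul hE E
  have h1 : IsUnit (aeval (sW E) E.reverse * xW E ^ E.natDegree) := h ▸ isUnit_E hE
  exact isUnit_of_mul_isUnit_left h1

/-- The inclusion of the coordinate ring of the chart at infinity. -/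
noncomputable def bMap : RV E →ₐ[K] RW E :=
  IsLocalization.liftAlgHom (M := Submonoid.powers E.reverse) (f := aeval (R := K) (sW E))
    (isUnit_aeval_reverse hE)

theorem bMap_algebraMap (f : K[X]) : bMap hE (algebraMap K[X] (RV E) f) = aeval (sW E) f :=
  IsLocalization.lift_eq _ _

theorem bMap_X : bMap hE (algebraMap K[X] (RV E) X) = sW E := by
  rw [bMap_algebraMap, aeval_X]

theorem bMap_injective : Function.Injective (bMap hE) := by
  rw [injective_iff_map_eq_zero]
  intro r hr
  obtain ⟨g, s, rfl⟩ := IsLocalization.exists_mk'_eq (Submonoid.powers E.reverse) r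
  have h1 : bMap hE (IsLocalization.mk' _ g s * algebraMap K[X] (RV E) s) = 0 := by
    rw [map_mul, hr, zero_mul]
  rw [IsLocalization.mk'_spec, bMap_algebraMap] at h1
  have h2 := (injective_iff_map_eq_zero _).mp (aeval_sW_injective hE) _ h1
  rw [h2, IsLocalization.mk'_zero]

/-- the inverse of `E` in `RW E` comes from the chart at infinity -/
theorem exists_bMap_mul_E : ∃ r, bMap hE r * algebraMap K[X] (RW E) E = 1 := by
  obtain ⟨u, hu⟩ := (IsLocalization.Away.algebraMap_isUnit (S := RV E) E.reverse)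
  refine ⟨((u⁻¹ : (RV E)ˣ) : RV E) * (algebraMap K[X] (RV E) X) ^ E.natDegree, ?_⟩
  rw [map_mul, map_pow, bMap_X, ← aeval_reverse_mul hE E, ← bMap_algebraMap hE, ← hu]
  have h1 : bMap hE (u⁻¹ : (RV E)ˣ) * bMap hE (u : RV E) = 1 := by
    rw [← map_mul, Units.inv_mul, map_one]
  have h2 : sW E ^ E.natDegree * xW E ^ E.natDegree = 1 := by
    rw [← mul_pow, sW_mul_xW hE, one_pow]
  linear_combination (sW E ^ E.natDegree * xW E ^ E.natDegree) * h1 + h2

theorem isLocalization_bMap :
    letI := (bMap hE : RV E →+* RW E).toAlgebra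
    IsLocalization.Away (algebraMap K[X] (RV E) X) (RW E) := by
  let alg : Algebra (RV E) (RW E) := (bMap hE : RV E →+* RW E).toAlgebra
  have halg : ∀ r, algebraMap (RV E) (RW E) r = bMap hE r := fun _ => rfl
  refine (isLocalization_iff _ _).mpr ⟨?_, ?_, ?_⟩
  · rintro ⟨_, n, rfl⟩
    rw [map_pow]
    refine IsUnit.pow _ ?_
    rw [halg, bMap_X]
    exact IsUnit.of_mul_eq_one _ (sW_mul_xW hE)
  · intro z
    obtain ⟨g, ⟨_, m, rfl⟩, rfl⟩ := IsLocalization.exists_mk'_eq (Submonoid.powers E) z
    obtain ⟨r, hr⟩ := exists_bMap_mul_E hE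
    refine ⟨(r ^ m * algebraMap K[X] (RV E) g.reverse, ⟨_, g.natDegree, rfl⟩), ?_⟩
    change _ * algebraMap (RV E) (RW E) ((algebraMap K[X] (RV E) X) ^ g.natDegree) =
      algebraMap (RV E) (RW E) (r ^ m * algebraMap K[X] (RV E) g.reverse)
    rw [halg, halg, map_pow, bMap_X, map_mul, map_pow, bMap_algebraMap]
    have h1 := IsLocalization.mk'_spec (RW E) g (⟨E ^ m, m, rfl⟩ : Submonoid.powers E)
    set z := IsLocalization.mk' (RW E) g (⟨E ^ m, m, rfl⟩ : Submonoid.powers E)
    change z * algebraMap K[X] (RW E) (E ^ m) = algebraMap K[X] (RW E) g at h1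
    rw [map_pow, ← aeval_reverse_mul hE g] at h1
    have h2 : bMap hE r ^ m * algebraMap K[X] (RW E) E ^ m = 1 := by
      rw [← mul_pow, hr, one_pow]
    have h3 : xW E ^ g.natDegree * sW E ^ g.natDegree = 1 := by
      rw [← mul_pow, xW_mul_sW hE, one_pow]
    change z * sW E ^ g.natDegree = bMap hE r ^ m * aeval (sW E) g.reverse
    linear_combination (bMap hE r ^ m * sW E ^ g.natDegree) * h1 - z * sW E ^ g.natDegree * h2 +
      (bMap hE r ^ m * aeval (sW E) g.reverse) * h3
  · intro x y hxy
    refine ⟨1, ?_⟩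
    rw [halg, halg] at hxy
    rw [bMap_injective hE hxy]

/-- Every function on the intersection is a sum of functions on the two charts. -/
theorem exists_sum (z : RW E) : ∃ (g : K[X]) (r : RV E),
    z = algebraMap K[X] (RW E) g + bMap hE r := by
  obtain ⟨f, ⟨_, m, rfl⟩, rfl⟩ := IsLocalization.exists_mk'_eq (Submonoid.powers E) z
  have hm : (E ^ m).Monic := hE.monic.pow m
  obtain ⟨r, hr⟩ := exists_bMap_mul_E hE
  have hrm : bMap hE (r ^ m) * algebraMap K[X] (RW E) (E ^ m) = 1 := by
    rw [map_pow, map_pow, ← mul_pow, hr, one_pow]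
  have h1 := IsLocalization.mk'_spec (RW E) f (⟨E ^ m, m, rfl⟩ : Submonoid.powers E)
  set z := IsLocalization.mk' (RW E) f (⟨E ^ m, m, rfl⟩ : Submonoid.powers E)
  change z * algebraMap K[X] (RW E) (E ^ m) = algebraMap K[X] (RW E) f at h1
  have hz : z = bMap hE (r ^ m) * algebraMap K[X] (RW E) f := by
    linear_combination bMap hE (r ^ m) * h1 - z * hrm
  -- the remainder part lies in the chart at infinity
  have key : ∀ k : ℕ, k ≤ (E ^ m).natDegree → ∃ q : RV E,
      bMap hE q = bMap hE (r ^ m) * xW E ^ k := by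
    intro k hk
    obtain ⟨u, hu⟩ := (IsLocalization.Away.algebraMap_isUnit (S := RV E) E.reverse)
    have hr' : bMap hE r = bMap hE (u⁻¹ : (RV E)ˣ) * sW E ^ E.natDegree := by
      have h2 := aeval_reverse_mul hE E
      rw [← bMap_algebraMap hE, ← hu] at h2
      have h3 : bMap hE (u⁻¹ : (RV E)ˣ) * bMap hE (u : RV E) = 1 := by
        rw [← map_mul, Units.inv_mul, map_one]
      have h4 : sW E ^ E.natDegree * xW E ^ E.natDegree = 1 := by
        rw [← mul_pow, sW_mul_xW hE, one_pow]
      have h5 : (bMap hE (u⁻¹ : (RV E)ˣ) * sW E ^ E.natDegree) * algebraMap K[X] (RW E) E = 1 := by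
        rw [← h2]
        linear_combination (sW E ^ E.natDegree * xW E ^ E.natDegree) * h3 + h4
      exact (isUnit_E hE).mul_left_injective (hr.trans h5.symm)
    have hr'' : bMap hE (r ^ m) = bMap hE ((u⁻¹ : (RV E)ˣ) : RV E) ^ m *
        sW E ^ (E ^ m).natDegree := by
      rw [map_pow, hr', mul_pow, ← pow_mul, hE.monic.natDegree_pow, mul_comm m]
    refine ⟨(((u⁻¹ : (RV E)ˣ) : RV E)) ^ m *
      (algebraMap K[X] (RV E) X) ^ ((E ^ m).natDegree - k), ?_⟩
    rw [map_mul, map_pow, map_pow, bMap_X, hr'']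
    have h6 : sW E ^ (E ^ m).natDegree = sW E ^ ((E ^ m).natDegree - k) * sW E ^ k := by
      rw [← pow_add, Nat.sub_add_cancel hk]
    have h7 : sW E ^ k * xW E ^ k = 1 := by rw [← mul_pow, sW_mul_xW hE, one_pow]
    rw [h6]
    linear_combination (-(bMap hE ((u⁻¹ : (RV E)ˣ) : RV E) ^ m *
      sW E ^ ((E ^ m).natDegree - k))) * h7
  have key2 : ∀ g : K[X], g.degree < (E ^ m).degree → ∃ q : RV E,
      bMap hE q = bMap hE (r ^ m) * algebraMap K[X] (RW E) g := by
    intro g hg
    rcases eq_or_ne g 0 with rfl | hg0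
    · exact ⟨0, by rw [map_zero, map_zero, mul_zero]⟩
    have hg' : g.natDegree < (E ^ m).natDegree := natDegree_lt_natDegree hg0 hg
    choose q hq using key
    refine ⟨∑ i : Fin (g.natDegree + 1), algebraMap K (RV E) (g.coeff i) *
      q i (by have := i.2; omega), ?_⟩
    rw [map_sum]
    conv_rhs => rw [as_sum_range g, Finset.sum_range, map_sum, Finset.mul_sum]
    refine Finset.sum_congr rfl fun i _ => ?_
    rw [map_mul, AlgHom.commutes, hq, ← C_mul_X_pow_eq_monomial, map_mul,
      map_pow (algebraMap K[X] (RW E)) X]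
    have h8 : algebraMap K[X] (RW E) (C (g.coeff i)) = algebraMap K (RW E) (g.coeff i) :=
      (IsScalarTower.algebraMap_apply K K[X] (RW E) _).symm
    rw [h8, xW]
    ring
  obtain ⟨q, hq⟩ := key2 (f %ₘ (E ^ m)) (degree_modByMonic_lt _ hm)
  refine ⟨f /ₘ (E ^ m), q, ?_⟩
  rw [hz, hq]
  have h9 := congrArg (algebraMap K[X] (RW E)) (modByMonic_add_div f (E ^ m))
  rw [map_add, map_mul] at h9
  linear_combination (-(bMap hE (r ^ m))) * h9 +
    (algebraMap K[X] (RW E) (f /ₘ (E ^ m))) * hrm

/-- A polynomial that is regular at infinity is constant. -/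
theorem eq_C_of_mem (g : K[X]) (r : RV E) (h : algebraMap K[X] (RW E) g = bMap hE r) :
    ∃ c, g = C c := by
  obtain ⟨f, ⟨_, m, rfl⟩, rfl⟩ := IsLocalization.exists_mk'_eq (Submonoid.powers E.reverse) r
  have h1 := congrArg (bMap hE) (IsLocalization.mk'_spec (RV E) f
    (⟨E.reverse ^ m, m, rfl⟩ : Submonoid.powers E.reverse))
  rw [map_mul, ← h, bMap_algebraMap, bMap_algebraMap] at h1
  change _ * aeval (sW E) (E.reverse ^ m) = _ at h1
  have h2 : aeval (sW E) g.reverse * aeval (sW E) (E.reverse ^ m) =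
      aeval (sW E) f * sW E ^ g.natDegree := by
    rw [← h1, ← aeval_reverse_mul hE g]
    have h3 : xW E ^ g.natDegree * sW E ^ g.natDegree = 1 := by
      rw [← mul_pow, xW_mul_sW hE, one_pow]
    linear_combination (-(aeval (sW E) g.reverse * aeval (sW E) (E.reverse ^ m))) * h3
  have h4 : g.reverse * E.reverse ^ m = f * X ^ g.natDegree := by
    apply aeval_sW_injective hE
    rw [map_mul, map_mul, map_pow (aeval (sW E)) X, aeval_X]
    exact h2
  by_cases hg : g.natDegree = 0
  · exact ⟨g.coeff 0, eq_C_of_natDegree_eq_zero hg⟩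
  · exfalso
    have h5 := congrArg (eval 0) h4
    rw [eval_mul, eval_mul, eval_pow, eval_pow, eval_X, zero_pow hg, mul_zero,
      ← coeff_zero_eq_eval_zero, ← coeff_zero_eq_eval_zero, coeff_zero_reverse,
      coeff_zero_reverse, hE.monic.leadingCoeff, one_pow, mul_one, leadingCoeff_eq_zero] at h5
    rw [h5] at hg
    exact hg natDegree_zero

end Pool.Agent.Lib.MP_76d46b_ag
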