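import Pool.Agent.Lib.MP_76d46b_ag.Action

/-!
# Points above the zeros of `D₁` and `D₂`
-/

open Polynomial TensorProduct

universe u

set_option linter.unusedSectionVars false

namespace Pool.Agent.Lib.MP_76d46b_ag

theorem exists_root_mem {K : Type*} [Field K] [IsAlgClosed K] {A : Type*} [CommRing A] [Algebra K A]
    (q : Ideal A) [hq : q.IsPrime] (P : K[X]) (hP : P ≠ 0) (a : A) (h : aeval a P ∈ q) :
    ∃ e, P.IsRoot e ∧ a - algebraMap K A e ∈ q := by
  have h1 := (IsAlgClosed.splits P).eq_prod_roots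
  rw [h1, map_mul, aeval_C] at h
  have h2 : algebraMap K A P.leadingCoeff ∉ q := by
    intro hmem
    apply hq.ne_top
    exact Ideal.eq_top_of_isUnit_mem _ hmem
      ((isUnit_iff_ne_zero.mpr (leadingCoeff_ne_zero.mpr hP)).map (algebraMap K A))
  have h3 := (hq.mem_or_mem h).resolve_left h2
  rw [map_multiset_prod, hq.multiset_prod_mem_iff_exists_mem] at h3
  obtain ⟨b, hb, hbq⟩ := h3
  simp only [Multiset.map_map, Multiset.mem_map, Function.comp_apply] at hb
  obtain ⟨e, he, rfl⟩ := hb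
  refine ⟨e, isRoot_of_mem_roots he, ?_⟩
  rw [map_sub, aeval_X, aeval_C] at hbq
  exact hbq

/-- `w₁`, `w₂` generate the `K[x]`-algebra `A` and satisfy the equations of the cover. -/
structure Pt (p : ℕ) {K : Type u} [Field K] (D₁ D₂ : K[X]) (A : Type u) [CommRing A]
    [Algebra K[X] A] (w₁ w₂ : A) : Prop where
  eq₁ : w₁ ^ p + algebraMap K[X] A D₁ * w₁ ^ (p - 1) = algebraMap K[X] A D₁
  eq₂ : w₂ ^ p + algebraMap K[X] A D₂ * w₂ ^ (p - 1) = algebraMap K[X] A D₂
  gen : Algebra.adjoin K[X] {w₁, w₂} = ⊤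

section

variable {p : ℕ} [hp : Fact p.Prime] {K : Type u} [Field K] {D₁ D₂ : K[X]} {A : Type u}
  [CommRing A] [Algebra K[X] A] {w₁ w₂ : A}

theorem Pt.symm (h : Pt p D₁ D₂ A w₁ w₂) : Pt p D₂ D₁ A w₂ w₁ :=
  ⟨h.eq₂, h.eq₁, by rw [Set.pair_comm]; exact h.gen⟩

/-- the coordinate ring satisfies the conditions -/
theorem pt_AU (D₁ D₂ : K[X]) : Pt p D₁ D₂ (AU p D₁ D₂)
    (AdjoinRoot.root (infPoly p D₁) ⊗ₜ[K[X]] 1) (1 ⊗ₜ[K[X]] AdjoinRoot.root (infPoly p D₂)) where
  eq₁ := by
    have h := congrArg (Algebra.TensorProduct.includeLeft : InfAlg p D₁ →ₐ[K[X]] AU p D₁ D₂)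
      (inf_root (p := p) D₁)
    rwa [map_add, map_mul, map_pow, map_pow, AlgHom.commutes,
      Algebra.TensorProduct.includeLeft_apply] at h
  eq₂ := by
    have h := congrArg (Algebra.TensorProduct.includeRight : InfAlg p D₂ →ₐ[K[X]] AU p D₁ D₂)
      (inf_root (p := p) D₂)
    rwa [map_add, map_mul, map_pow, map_pow, AlgHom.commutes,
      Algebra.TensorProduct.includeRight_apply] at h
  gen := by
    rw [Algebra.eq_top_iff]
    intro z
    have h1 : ∀ x : InfAlg p D₁, x ⊗ₜ[K[X]] (1 : InfAlg p D₂) ∈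
        Algebra.adjoin K[X] {AdjoinRoot.root (infPoly p D₁) ⊗ₜ[K[X]] (1 : InfAlg p D₂),
          (1 : InfAlg p D₁) ⊗ₜ[K[X]] AdjoinRoot.root (infPoly p D₂)} := by
      intro x
      have hx : x ∈ Algebra.adjoin K[X] {AdjoinRoot.root (infPoly p D₁)} := by
        rw [AdjoinRoot.adjoinRoot_eq_top]; exact Algebra.mem_top
      have h2 := Subalgebra.mem_map.mpr ⟨x, hx, rfl⟩ |> fun h :
        (Algebra.TensorProduct.includeLeft : InfAlg p D₁ →ₐ[K[X]] AU p D₁ D₂) x ∈
          (Algebra.adjoin K[X] {AdjoinRoot.root (infPoly p D₁)}).map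
            (Algebra.TensorProduct.includeLeft : InfAlg p D₁ →ₐ[K[X]] AU p D₁ D₂) => h
      rw [AlgHom.map_adjoin, Set.image_singleton] at h2
      exact Algebra.adjoin_mono (Set.singleton_subset_iff.mpr (Set.mem_insert _ _)) h2
    have h1' : ∀ x : InfAlg p D₂, (1 : InfAlg p D₁) ⊗ₜ[K[X]] x ∈
        Algebra.adjoin K[X] {AdjoinRoot.root (infPoly p D₁) ⊗ₜ[K[X]] (1 : InfAlg p D₂),
          (1 : InfAlg p D₁) ⊗ₜ[K[X]] AdjoinRoot.root (infPoly p D₂)} := by
      intro x
      have hx : x ∈ Algebra.adjoin K[X] {AdjoinRoot.root (infPoly p D₂)} := by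
        rw [AdjoinRoot.adjoinRoot_eq_top]; exact Algebra.mem_top
      have h2 := Subalgebra.mem_map.mpr ⟨x, hx, rfl⟩ |> fun h :
        (Algebra.TensorProduct.includeRight : InfAlg p D₂ →ₐ[K[X]] AU p D₁ D₂) x ∈
          (Algebra.adjoin K[X] {AdjoinRoot.root (infPoly p D₂)}).map
            (Algebra.TensorProduct.includeRight : InfAlg p D₂ →ₐ[K[X]] AU p D₁ D₂) => h
      rw [AlgHom.map_adjoin, Set.image_singleton] at h2
      exact Algebra.adjoin_mono (Set.singleton_subset_iff.mpr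
        (Set.mem_insert_of_mem _ (Set.mem_singleton _))) h2
    induction z using TensorProduct.induction_on with
    | zero => exact Subalgebra.zero_mem _
    | tmul x y =>
      have : x ⊗ₜ[K[X]] y = (x ⊗ₜ 1) * (1 ⊗ₜ y) := by
        rw [Algebra.TensorProduct.tmul_mul_tmul, mul_one, one_mul]
      rw [this]
      exact Subalgebra.mul_mem _ (h1 x) (h1' y)
    | add x y hx hy => exact Subalgebra.add_mem _ hx hy

variable (h : Pt p D₁ D₂ A w₁ w₂) (q : Ideal A) [hq : q.IsPrime]

include h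

theorem Pt.mem_of_mem (hD : algebraMap K[X] A D₁ ∈ q) : w₁ ∈ q := by
  have h1 : w₁ ^ p ∈ q := by
    have : w₁ ^ p = algebraMap K[X] A D₁ * (1 - w₁ ^ (p - 1)) := by linear_combination h.eq₁
    rw [this]
    exact q.mul_mem_right _ hD
  exact hq.mem_of_pow_mem _ h1

/-- An automorphism that fixes `w₂` fixes the primes that contain `D₁`. -/
theorem Pt.sub_mem (hD : algebraMap K[X] A D₁ ∈ q) (ρ : A →ₐ[K[X]] A) (a : A)
    (h₁ : ρ w₁ * (1 + a * w₁) = w₁) (h₂ : ρ w₂ = w₂) (z : A) : ρ z - z ∈ q := by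
  have hw := h.mem_of_mem q hD
  have hz : z ∈ Algebra.adjoin K[X] {w₁, w₂} := by rw [h.gen]; exact Algebra.mem_top
  induction hz using Algebra.adjoin_induction with
  | mem x hx =>
    rcases hx with rfl | hx
    · have h3 : ρ x ∈ q := by
        have h4 : ρ x * (1 + a * x) ∈ q := by rw [h₁]; exact hw
        refine (hq.mem_or_mem h4).resolve_right fun h5 => hq.ne_top ?_
        rw [Ideal.eq_top_iff_one]
        have : (1 : A) = (1 + a * x) - a * x := by ring
        rw [this]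
        exact q.sub_mem h5 (q.mul_mem_left _ hw)
      exact q.sub_mem h3 hw
    · rw [Set.mem_singleton_iff] at hx
      subst hx
      rw [h₂, sub_self]
      exact q.zero_mem
  | algebraMap r => rw [AlgHom.commutes, sub_self]; exact q.zero_mem
  | add x y _ _ hx hy =>
    rw [map_add]
    have : ρ x + ρ y - (x + y) = (ρ x - x) + (ρ y - y) := by ring
    rw [this]
    exact q.add_mem hx hy
  | mul x y _ _ hx hy =>
    rw [map_mul]
    have : ρ x * ρ y - x * y = ρ x * (ρ y - y) + y * (ρ x - x) := by ring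
    rw [this]
    exact q.add_mem (q.mul_mem_left _ hy) (q.mul_mem_left _ hx)

theorem Pt.comap_eq (hD : algebraMap K[X] A D₁ ∈ q) (ρ : A →ₐ[K[X]] A) (a : A)
    (h₁ : ρ w₁ * (1 + a * w₁) = w₁) (h₂ : ρ w₂ = w₂) : q.comap (ρ : A →+* A) = q := by
  ext z
  rw [Ideal.mem_comap]
  have h3 := h.sub_mem q hD ρ a h₁ h₂ z
  constructor
  · intro h4
    have : z = ρ z - (ρ z - z) := by ring
    rw [this]
    exact q.sub_mem h4 h3
  · intro h4
    have : ρ z = (ρ z - z) + z := by ring
    change ρ z ∈ q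
    rw [this]
    exact q.add_mem h3 h4

section AlgClosed

variable [IsAlgClosed K] [Algebra K A] [IsScalarTower K K[X] A]

/-- the value of `w₂` -/
theorem Pt.exists_value (hD₂ : algebraMap K[X] A D₂ ∉ q) (r : K)
    (hr : algebraMap K[X] A (X - C r) ∈ q) :
    ∃ e : K, e ≠ 0 ∧ e ^ p + D₂.eval r * e ^ (p - 1) = D₂.eval r ∧
      w₂ - algebraMap K A e ∈ q := by
  have hsub : algebraMap K[X] A D₂ - algebraMap K A (D₂.eval r) ∈ q := by
    have h1 : X - C r ∣ D₂ - C (D₂.eval r) := dvd_iff_isRoot.mpr (by simp)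
    obtain ⟨g, hg⟩ := h1
    have h2 : algebraMap K[X] A D₂ - algebraMap K A (D₂.eval r) =
        algebraMap K[X] A (X - C r) * algebraMap K[X] A g := by
      rw [← map_mul, ← hg, map_sub, IsScalarTower.algebraMap_apply K K[X] A]
      rfl
    rw [h2]
    exact q.mul_mem_right _ hr
  have hne : D₂.eval r ≠ 0 := by
    intro h0
    apply hD₂
    rwa [h0, map_zero, sub_zero] at hsub
  obtain ⟨e, he, heq⟩ := exists_root_mem q (infPoly p (D₂.eval r))
    (infPoly_monic p _).ne_zero w₂ (by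
      rw [infPoly, map_sub, map_add, map_mul, map_pow, map_pow, aeval_X, aeval_C]
      have : w₂ ^ p + algebraMap K A (D₂.eval r) * w₂ ^ (p - 1) - algebraMap K A (D₂.eval r) =
          (algebraMap K[X] A D₂ - algebraMap K A (D₂.eval r)) * (1 - w₂ ^ (p - 1)) := by
        linear_combination h.eq₂
      rw [this]
      exact q.mul_mem_right _ hsub)
  rw [IsRoot.def, infPoly, eval_sub, eval_add, eval_mul, eval_pow, eval_pow, eval_X, eval_C,
    sub_eq_zero] at he
  refine ⟨e, ?_, he, heq⟩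
  rintro rfl
  rw [zero_pow hp.out.ne_zero, zero_pow (by have := hp.out.two_le; omega), mul_zero,
    add_zero] at he
  exact hne he.symm

/-- An automorphism that moves `w₂` moves the primes that do not contain `D₂`. -/
theorem Pt.eq_zero_of_comap (hD₂ : algebraMap K[X] A D₂ ∉ q) (r : K)
    (hr : algebraMap K[X] A (X - C r) ∈ q) (ρ : A →ₐ[K[X]] A) (b : K)
    (h₂ : ρ w₂ * (1 + algebraMap K A b * w₂) = w₂) (hfix : q.comap (ρ : A →+* A) = q) :
    b = 0 := by
  obtain ⟨e, he0, -, heq⟩ := h.exists_value q hD₂ r hr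
  have h1 : ρ w₂ - algebraMap K A e ∈ q := by
    have h2 : w₂ - algebraMap K A e ∈ q.comap (ρ : A →+* A) := hfix.symm ▸ heq
    rw [Ideal.mem_comap] at h2
    change ρ (w₂ - algebraMap K A e) ∈ q at h2
    rwa [map_sub, IsScalarTower.algebraMap_apply K K[X] A, AlgHom.commutes,
      ← IsScalarTower.algebraMap_apply] at h2
  have h3 : algebraMap K A (e * e * b) ∈ q := by
    have : algebraMap K A (e * e * b) = (w₂ - algebraMap K A e) -
        (ρ w₂ - algebraMap K A e) * (1 + algebraMap K A b * w₂) -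
        algebraMap K A e * algebraMap K A b * (w₂ - algebraMap K A e) := by
      rw [map_mul, map_mul]
      linear_combination h₂
    rw [this]
    exact q.sub_mem (q.sub_mem heq (q.mul_mem_right _ h1)) (q.mul_mem_left _ heq)
  by_contra hb
  apply hq.ne_top
  exact Ideal.eq_top_of_isUnit_mem _ h3
    ((isUnit_iff_ne_zero.mpr (mul_ne_zero (mul_ne_zero he0 he0) hb)).map (algebraMap K A))

theorem exists_root_of_mem {D : K[X]} (hD0 : D ≠ 0) (hD : algebraMap K[X] A D ∈ q) :
    ∃ r, D.IsRoot r ∧ algebraMap K[X] A (X - C r) ∈ q := by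
  have h1 : aeval (algebraMap K[X] A X) D = algebraMap K[X] A D := by
    have : aeval (algebraMap K[X] A X) = (IsScalarTower.toAlgHom K K[X] A) := by
      apply algHom_ext
      rw [aeval_X]; rfl
    rw [this]; rfl
  obtain ⟨r, hr, hr'⟩ := exists_root_mem q D hD0 (algebraMap K[X] A X) (by rw [h1]; exact hD)
  refine ⟨r, hr, ?_⟩
  rw [map_sub, ← algebraMap_eq, ← IsScalarTower.algebraMap_apply]
  exact hr'

end AlgClosed

end

end Pool.Agent.Lib.MP_76d46b_ag
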