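import Pool.Agent.Lib.MP_76d46b_ag.Stab

/-!
# Torsors on geometric fibres: transitivity, counting, connectedness
-/

open CategoryTheory CategoryTheory.Limits AlgebraicGeometry

universe u

namespace Pool.Agent.Lib.MP_76d46b_ag

variable {P : Type} [Group P] {S : Scheme.{u}} {G : Tuple P S}

/-- `P` acts transitively on the fibres of `φ`. -/
theorem Tuple.exists_act_eq [Finite P] [IsFinite G.φ] [Flat G.φ]
    [LocallyOfFinitePresentation G.φ] {U : G.X.Opens} (hU : Dense (U : Set G.X))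
    (hgal : G.Torsor U) (y y' : G.Y) (hyy : G.φ y = G.φ y') : ∃ σ : P, (G.act σ).hom y = y' := by
  let Γ : P → (G.Y ⟶ pullback G.φ G.φ) := fun σ =>
    pullback.lift (𝟙 _) (G.act σ).hom (by rw [Category.id_comp, G.act_φ])
  have hΓ1 : ∀ σ, Γ σ ≫ pullback.fst _ _ = 𝟙 _ := fun σ => pullback.lift_fst _ _ _
  have hΓ2 : ∀ σ, Γ σ ≫ pullback.snd _ _ = (G.act σ).hom := fun σ => pullback.lift_snd _ _ _
  have hclosed : IsClosed (⋃ σ, Set.range (Γ σ)) := by
    refine isClosed_iUnion_of_finite fun σ => ?_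
    have : IsClosedImmersion (Γ σ ≫ pullback.fst _ _) := by rw [hΓ1]; infer_instance
    have : IsClosedImmersion (Γ σ) := IsClosedImmersion.of_comp (Γ σ) (pullback.fst _ _)
    exact (Γ σ).isClosedEmbedding.isClosed_range
  let q : pullback G.φ G.φ ⟶ G.X := pullback.fst _ _ ≫ G.φ
  have hq : IsOpenMap q := q.isOpenMap
  have hdense : Dense (q ⁻¹' (U : Set G.X)) := hU.preimage hq
  have hsub : q ⁻¹' (U : Set G.X) ⊆ ⋃ σ, Set.range (Γ σ) := by
    intro z hz
    obtain ⟨Ω, _, _, w, hw⟩ := exists_geometric_point z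
    have h1 : Set.range ((w ≫ pullback.fst _ _) ≫ G.φ) ⊆ U := by
      rintro _ ⟨s, rfl⟩
      rw [Scheme.Hom.comp_apply, Scheme.Hom.comp_apply]
      have : w s ∈ ({z} : Set _) := hw ▸ ⟨s, rfl⟩
      rw [Set.mem_singleton_iff] at this
      rw [this]
      exact hz
    obtain ⟨σ, hσ, -⟩ := (hgal Ω _ h1).2 (w ≫ pullback.fst _ _) (w ≫ pullback.snd _ _) rfl
      (by rw [Category.assoc, Category.assoc, pullback.condition])
    have h2 : w = (w ≫ pullback.fst _ _) ≫ Γ σ := by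
      apply pullback.hom_ext
      · rw [Category.assoc, Category.assoc, hΓ1, Category.comp_id]
      · rw [Category.assoc _ (Γ σ), hΓ2, hσ]
    refine Set.mem_iUnion.mpr ⟨σ, ?_⟩
    have h3 : z ∈ Set.range w := hw ▸ Set.mem_singleton z
    obtain ⟨s, rfl⟩ := h3
    rw [h2]
    exact ⟨(w ≫ pullback.fst _ _) s, by rw [Scheme.Hom.comp_apply, Scheme.Hom.comp_apply, Scheme.Hom.comp_apply]⟩
  have huniv : (⋃ σ, Set.range (Γ σ)) = Set.univ := by
    apply Set.eq_univ_of_univ_subset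
    rw [← hdense.closure_eq]
    exact hclosed.closure_subset_iff.mpr hsub
  obtain ⟨z, hz1, hz2⟩ := Scheme.Pullback.exists_preimage_pullback y y' hyy
  obtain ⟨σ, w, rfl⟩ := Set.mem_iUnion.mp (huniv ▸ Set.mem_univ z)
  refine ⟨σ, ?_⟩
  rw [← Scheme.Hom.comp_apply, hΓ1] at hz1
  rw [← Scheme.Hom.comp_apply, hΓ2] at hz2
  rw [← hz1, ← hz2]
  rfl

/-- orbit-stabilizer for the fibres of `φ` -/
theorem Tuple.card_fibre [Finite P]
    (htr : ∀ y y' : G.Y, G.φ y = G.φ y' → ∃ σ : P, (G.act σ).hom y = y')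
    (y : G.Y) : Nat.card (G.φ ⁻¹' {G.φ y}) = (G.stab y).index := by
  let e : P → (G.φ ⁻¹' {G.φ y}) := fun σ => ⟨(G.act σ).hom y, G.φ_act σ y⟩
  rw [Subgroup.index]
  symm
  refine Nat.card_congr (Equiv.ofBijective (fun q : P ⧸ G.stab y => Quotient.liftOn' q e ?_) ?_)
  · intro σ τ hστ
    rw [QuotientGroup.leftRel_apply] at hστ
    apply Subtype.ext
    change (G.act σ).hom y = (G.act τ).hom y
    have h1 : (G.act (σ⁻¹ * τ)).hom y = y := hστ
    conv_lhs => rw [← h1]
    rw [← G.act_mul_apply, mul_inv_cancel_left]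
  · constructor
    · rintro ⟨σ⟩ ⟨τ⟩ hστ
      have h1 : (G.act σ).hom y = (G.act τ).hom y := congrArg Subtype.val hστ
      apply Quotient.sound'
      rw [QuotientGroup.leftRel_apply, G.mem_stab, G.act_mul_apply, ← h1, ← G.act_mul_apply,
        inv_mul_cancel, G.act_one_apply]
    · rintro ⟨y', hy'⟩
      obtain ⟨σ, hσ⟩ := htr y y' (Eq.symm hy')
      exact ⟨Quotient.mk'' σ, Subtype.ext hσ⟩

/-- A criterion for the connectedness of `Y`. -/
theorem Tuple.connectedSpace_Y [IsFinite G.φ] [Flat G.φ]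
    [LocallyOfFinitePresentation G.φ] [ConnectedSpace G.X] (hne : Nonempty G.Y)
    (htr : ∀ y y' : G.Y, G.φ y = G.φ y' → ∃ σ : P, (G.act σ).hom y = y')
    (hgen : Subgroup.closure {σ : P | ∃ x : G.X, ∀ y, G.φ y = x → (G.act σ).hom y = y} = ⊤) :
    ConnectedSpace G.Y := by
  have hopen : IsOpenMap G.φ := G.φ.isOpenMap
  have hclosed : IsClosedMap G.φ := G.φ.isClosedMap
  have himage : ∀ Z : Set G.Y, IsClopen Z → Z.Nonempty → G.φ '' Z = Set.univ := by
    intro Z hZ hne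
    exact IsClopen.eq_univ ⟨hclosed _ hZ.1, hopen _ hZ.2⟩ (hne.image _)
  have hpre : ∀ (σ : P) (Z : Set G.Y), IsClopen Z → IsClopen ((G.act σ).hom ⁻¹' Z) :=
    fun σ Z hZ => hZ.preimage (G.act σ).hom.continuous
  have hstab : ∀ (Z : Set G.Y), IsClopen Z → ∀ σ : P, ∀ y, (G.act σ).hom y ∈ Z ↔ y ∈ Z := by
    intro Z hZ σ
    have hmem : σ ∈ Subgroup.closure
        {σ : P | ∃ x : G.X, ∀ y, G.φ y = x → (G.act σ).hom y = y} := by
      rw [hgen]; exact Subgroup.mem_top _
    induction hmem using Subgroup.closure_induction with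
    | mem σ hσ =>
      obtain ⟨x, hx⟩ := hσ
      intro y
      by_contra hcon
      have h1 : IsClopen (Z \ ((G.act σ).hom ⁻¹' Z)) := hZ.diff (hpre σ Z hZ)
      have h2 : IsClopen (((G.act σ).hom ⁻¹' Z) \ Z) := (hpre σ Z hZ).diff hZ
      have h3 : ¬ (Z \ ((G.act σ).hom ⁻¹' Z)).Nonempty := by
        intro hne
        have h4 : x ∈ G.φ '' (Z \ ((G.act σ).hom ⁻¹' Z)) := himage _ h1 hne ▸ Set.mem_univ x
        obtain ⟨y', ⟨h5, h6⟩, h7⟩ := h4
        apply h6
        rw [Set.mem_preimage, hx y' h7]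
        exact h5
      have h4 : ¬ (((G.act σ).hom ⁻¹' Z) \ Z).Nonempty := by
        intro hne
        have h4 : x ∈ G.φ '' (((G.act σ).hom ⁻¹' Z) \ Z) := himage _ h2 hne ▸ Set.mem_univ x
        obtain ⟨y', ⟨h5, h6⟩, h7⟩ := h4
        apply h6
        rw [Set.mem_preimage, hx y' h7] at h5
        exact h5
      apply hcon
      constructor
      · intro h5
        by_contra h6
        exact h4 ⟨y, h5, h6⟩
      · intro h5
        by_contra h6
        exact h3 ⟨y, h5, h6⟩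
    | one =>
      intro y
      rw [G.act_one_apply]
    | mul σ τ _ _ h1 h2 =>
      intro y
      rw [G.act_mul_apply, h1, h2]
    | inv σ _ h1 =>
      intro y
      rw [← h1, ← G.act_mul_apply, mul_inv_cancel, G.act_one_apply]
  have hpc : PreconnectedSpace G.Y := by
    rw [preconnectedSpace_iff_clopen]
    intro Z hZ
    by_contra hcon
    push Not at hcon
    obtain ⟨y, hy⟩ := hcon.1
    have h1 : (Zᶜ).Nonempty := Set.nonempty_compl.mpr hcon.2
    have h2 : G.φ y ∈ G.φ '' Zᶜ := himage _ hZ.compl h1 ▸ Set.mem_univ _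
    obtain ⟨y', hy', hyy⟩ := h2
    obtain ⟨σ, hσ⟩ := htr y y' hyy.symm
    apply hy'
    rw [← hσ, hstab Z hZ]
    exact hy
  exact { toPreconnectedSpace := hpc, toNonempty := hne }

end Pool.Agent.Lib.MP_76d46b_ag
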