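import Pool.Agent.Lib.MP_76d46b_ag.Smooth
import Pool.Agent.Lib.MP_76d46b_ag.Transitive

/-!
# The torsor property and irreducibility for models
-/

open Polynomial TensorProduct CategoryTheory CategoryTheory.Limits AlgebraicGeometry

universe u

set_option linter.unusedSectionVars false

namespace Pool.Agent.Lib.MP_76d46b_ag

section Field

variable {p : ℕ} [hp : Fact p.Prime] {K : Type*} [Field K] [CharP K p]
variable {Ω : Type*} [Field Ω] [Algebra K Ω]

theorem cst_eq_castHom (h : CharP Ω p) (a : ZMod p) :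
    cst K Ω a = ZMod.castHom (dvd_refl p) Ω a := by
  rw [cst, ← RingHom.comp_apply]
  congr 1
  exact Subsingleton.elim _ _

theorem exists_cst_eq (t : Ω) (ht : t ^ p = t) : ∃ a : ZMod p, t = cst K Ω a := by
  have hΩ : CharP Ω p := charP_of_injective_algebraMap (algebraMap K Ω).injective p
  have h1 := (Subfield.mem_bot_iff_pow_eq_self Ω p).mpr ht
  rw [← ZMod.fieldRange_castHom_eq_bot p] at h1
  obtain ⟨a, ha⟩ := h1
  exact ⟨a, by rw [← ha, cst_eq_castHom hΩ]⟩

theorem cst_injective : Function.Injective (cst K Ω : ZMod p → Ω) := by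
  intro a b h
  rw [cst, cst] at h
  exact (ZMod.castHom_injective K) ((algebraMap K Ω).injective h)

theorem exists_AS_root [IsAlgClosed Ω] (c : Ω) : ∃ y : Ω, y ^ p - y = c := by
  obtain ⟨y, hy⟩ := IsAlgClosed.exists_root (finPoly p c) (by
    rw [degree_eq_natDegree (finPoly_monic p c).ne_zero, finPoly_natDegree]
    exact_mod_cast hp.out.ne_zero)
  refine ⟨y, ?_⟩
  rw [IsRoot.def, finPoly, eval_sub, eval_sub, eval_pow, eval_X, eval_C, sub_eq_zero] at hy
  exact hy

end Field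

section TorsorAlg

variable {p : ℕ} [hp : Fact p.Prime] {K : Type u} [Field K] [CharP K p]
variable {R : Type u} [CommRing R] [Algebra K R]
variable {Ω : Type u} [Field Ω] [Algebra K Ω] [Algebra R Ω] [IsScalarTower K R Ω]

theorem exists_fin_act (f : R) (θ θ' : FinAlg p f →ₐ[R] Ω) :
    ∃! a : ZMod p, θ.comp (finAct K f a) = θ' := by
  have h1 := finAlg_map_root f θ
  have h2 := finAlg_map_root f θ'
  obtain ⟨a, ha⟩ := exists_cst_eq (K := K) (p := p)
    (θ' (AdjoinRoot.root _) - θ (AdjoinRoot.root _)) (by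
      have := charP_of_injective_algebraMap (algebraMap K Ω).injective p
      rw [sub_pow_char]
      linear_combination h2 - h1)
  refine ⟨a, ?_, ?_⟩
  · apply AdjoinRoot.algHom_ext
    rw [AlgHom.comp_apply, finAct_root, map_add, map_cst', ← ha]
    ring
  · intro b hb
    apply cst_injective (K := K) (Ω := Ω)
    have h3 := congrArg (fun g => g (AdjoinRoot.root _)) hb
    simp only [AlgHom.comp_apply, finAct_root, map_add, map_cst'] at h3
    rw [← ha, ← h3]
    ring

theorem exists_fin_point [IsAlgClosed Ω] (f : R) : Nonempty (FinAlg p f →ₐ[R] Ω) := by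
  obtain ⟨y, hy⟩ := exists_AS_root (p := p) (algebraMap R Ω f)
  exact ⟨finLift f y hy⟩

variable (f₁ f₂ : R)

theorem torsor_tensor (θ θ' : FinAlg p f₁ ⊗[R] FinAlg p f₂ →ₐ[R] Ω)
    (act : PP p →* (FinAlg p f₁ ⊗[R] FinAlg p f₂ →ₐ[R] FinAlg p f₁ ⊗[R] FinAlg p f₂))
    (hact : ∀ (σ : PP p) (x : FinAlg p f₁) (y : FinAlg p f₂),
      act σ (x ⊗ₜ y) = finAct K f₁ σ.toAdd.1 x ⊗ₜ finAct K f₂ σ.toAdd.2 y) :
    ∃! σ : PP p, θ.comp (act σ) = θ' := by
  obtain ⟨a, ha, ha'⟩ := exists_fin_act (K := K) f₁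
    (θ.comp Algebra.TensorProduct.includeLeft) (θ'.comp Algebra.TensorProduct.includeLeft)
  obtain ⟨b, hb, hb'⟩ := exists_fin_act (K := K) f₂
    (θ.comp Algebra.TensorProduct.includeRight) (θ'.comp Algebra.TensorProduct.includeRight)
  refine ⟨Multiplicative.ofAdd (a, b), ?_, ?_⟩
  · apply algHom_ext_tensor
    · intro x
      rw [AlgHom.comp_apply, hact, map_one]
      exact congrArg (fun g => g x) ha
    · intro x
      rw [AlgHom.comp_apply, hact, map_one]
      exact congrArg (fun g => g x) hb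
  · intro σ hσ
    have h1 : σ.toAdd.1 = a := by
      apply ha'
      apply AlgHom.ext
      intro x
      have := congrArg (fun g => g (x ⊗ₜ 1)) hσ
      simp only [AlgHom.comp_apply, hact, map_one] at this
      exact this
    have h2 : σ.toAdd.2 = b := by
      apply hb'
      apply AlgHom.ext
      intro x
      have := congrArg (fun g => g (1 ⊗ₜ x)) hσ
      simp only [AlgHom.comp_apply, hact, map_one] at this
      exact this
    apply Multiplicative.toAdd.injective
    rw [toAdd_ofAdd, ← h1, ← h2]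

theorem torsor_point [IsAlgClosed Ω] : Nonempty (FinAlg p f₁ ⊗[R] FinAlg p f₂ →ₐ[R] Ω) := by
  obtain ⟨θ₁⟩ := exists_fin_point (Ω := Ω) (p := p) f₁
  obtain ⟨θ₂⟩ := exists_fin_point (Ω := Ω) (p := p) f₂
  exact ⟨Algebra.TensorProduct.lift θ₁ θ₂ fun _ _ => Commute.all _ _⟩

end TorsorAlg

section Irreducible

theorem TwoCover.irreducibleSpace {W U V X : Scheme.{u}} {a : W ⟶ U} {b : W ⟶ V} {i : U ⟶ X}
    {j : V ⟶ X} (h : TwoCover a b i j) [IrreducibleSpace W] [IrreducibleSpace U]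
    [IrreducibleSpace V] : IrreducibleSpace X := by
  have := h.open_i
  have := h.open_j
  have := h.open_a
  have := h.open_b
  have key : ∀ O : Set X, IsOpen O → O.Nonempty → ((a ≫ i) ⁻¹' O).Nonempty := by
    intro O hO hne
    obtain ⟨x, hx⟩ := hne
    rcases h.cover x with ⟨u, rfl⟩ | ⟨v, rfl⟩
    · have h1 : IsOpen (i ⁻¹' O) := hO.preimage i.continuous
      have h2 : IsOpen (Set.range a) := a.isOpenEmbedding.isOpen_range
      obtain ⟨_, hz1, w, rfl⟩ := nonempty_preirreducible_inter h1 h2 ⟨u, hx⟩ (Set.range_nonempty a)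
      exact ⟨w, by rw [Set.mem_preimage, Scheme.Hom.comp_apply]; exact hz1⟩
    · have h1 : IsOpen (j ⁻¹' O) := hO.preimage j.continuous
      have h2 : IsOpen (Set.range b) := b.isOpenEmbedding.isOpen_range
      obtain ⟨_, hz1, w, rfl⟩ := nonempty_preirreducible_inter h1 h2 ⟨v, hx⟩ (Set.range_nonempty b)
      exact ⟨w, by rw [Set.mem_preimage, h.isPullback.w, Scheme.Hom.comp_apply]; exact hz1⟩
  have hne : Nonempty X := ⟨(a ≫ i) (Classical.arbitrary W)⟩
  refine { isPreirreducible_univ := ?_, toNonempty := hne }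
  intro O O' hO hO' h1 h2
  rw [Set.univ_inter] at h1 h2
  obtain ⟨w, hw1, hw2⟩ := nonempty_preirreducible_inter (hO.preimage (a ≫ i).continuous)
    (hO'.preimage (a ≫ i).continuous) (key O hO h1) (key O' hO' h2)
  exact ⟨(a ≫ i) w, Set.mem_univ _, hw1, hw2⟩

end Irreducible

section Model

variable {p : ℕ} [hp : Fact p.Prime] {K : Type u} [Field K] [CharP K p] {D₁ D₂ : K[X]}
variable [hE : Good (D₁ * D₂)] {G : Tuple (PP p) (Spec (.of K))} (M : Model p D₁ D₂ G)

include M

theorem Model.irreducibleSpace_X : IrreducibleSpace G.X := by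
  have h1 : IsDomain (RV (D₁ * D₂)) :=
    IsLocalization.isDomain_localization (powers_le_nonZeroDivisors_of_noZeroDivisors
      (reverse_ne_zero hE))
  have h2 : IsDomain (RW (D₁ * D₂)) :=
    IsLocalization.isDomain_localization (powers_le_nonZeroDivisors_of_noZeroDivisors
      (E_ne_zero hE))
  have h3 : IrreducibleSpace (Spec (.of K[X])) := PrimeSpectrum.irreducibleSpace
  have h4 : IrreducibleSpace (Spec (.of (RV (D₁ * D₂)))) := PrimeSpectrum.irreducibleSpace
  have h5 : IrreducibleSpace (Spec (.of (RW (D₁ * D₂)))) := PrimeSpectrum.irreducibleSpace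
  exact M.coverX.irreducibleSpace

theorem Model.dense_V : Dense (Set.range M.iV) := by
  have := M.irreducibleSpace_X
  have := M.open_iV
  have h2 : IsDomain (RV (D₁ * D₂)) :=
    IsLocalization.isDomain_localization (powers_le_nonZeroDivisors_of_noZeroDivisors
      (reverse_ne_zero hE))
  have h4 : Nonempty (Spec (.of (RV (D₁ * D₂)))) :=
    inferInstanceAs (Nonempty (PrimeSpectrum (RV (D₁ * D₂))))
  exact M.iV.isOpenEmbedding.isOpen_range.dense (Set.range_nonempty M.iV)

/-- The open subset of `X` over which the cover is étale. -/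
noncomputable def Model.V : G.X.Opens :=
  haveI := M.open_iV
  M.iV.opensRange

theorem Model.coe_V : (M.V : Set G.X) = Set.range M.iV := by
  have := M.open_iV
  exact M.iV.coe_opensRange

theorem Model.torsor : G.Torsor M.V := by
  intro Ω _ _ x hx
  have oV := M.open_iV
  have ojV := M.open_jV
  rw [M.coe_V] at hx
  let x' : Spec (.of Ω) ⟶ Spec (.of (RV (D₁ * D₂))) := IsOpenImmersion.lift M.iV x hx
  have hx' : x' ≫ M.iV = x := IsOpenImmersion.lift_fac M.iV x hx
  obtain ⟨χ, hχ⟩ := Spec.map_surjective x'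
  let alg : Algebra (RV (D₁ * D₂)) Ω := χ.hom.toAlgebra
  let algK : Algebra K Ω := (χ.hom.comp (algebraMap K (RV (D₁ * D₂)))).toAlgebra
  have tower : IsScalarTower K (RV (D₁ * D₂)) Ω := .of_algebraMap_eq' rfl
  have hlift : ∀ y : Spec (.of Ω) ⟶ G.Y, y ≫ G.φ = x →
      ∃ θ : AV p D₁ D₂ →ₐ[RV (D₁ * D₂)] Ω,
        Spec.map (CommRingCat.ofHom (θ : AV p D₁ D₂ →+* Ω)) ≫ M.jV = y := by
    intro y hy
    let y' := M.pullV.lift y x' (by rw [hy, hx'])
    obtain ⟨ψ, hψ⟩ := Spec.map_surjective y'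
    have h1 : y' ≫ M.jV = y := M.pullV.lift_fst _ _ _
    have h2 : y' ≫ Spec.map (CommRingCat.ofHom (algebraMap (RV (D₁ * D₂)) (AV p D₁ D₂))) = x' :=
      M.pullV.lift_snd _ _ _
    rw [← hψ, ← hχ, ← Spec.map_comp] at h2
    have h3 := Spec.map_injective h2
    refine ⟨{ ψ.hom with commutes' := fun r => ?_ }, ?_⟩
    · exact congrArg (fun g => g.hom r) h3
    · rw [← h1, ← hψ]
      rfl
  constructor
  · obtain ⟨θ⟩ := torsor_point (Ω := Ω) (p := p) (fV (D₁ * D₂) D₁) (fV (D₁ * D₂) D₂)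
    refine ⟨Spec.map (CommRingCat.ofHom (θ : AV p D₁ D₂ →+* Ω)) ≫ M.jV, ?_⟩
    rw [Category.assoc, M.pullV.w, ← Category.assoc, ← Spec.map_comp, ← CommRingCat.ofHom_comp,
      AlgHom.comp_algebraMap, ← hx', ← hχ]
    rfl
  · intro y y' hy hy'
    obtain ⟨θ, rfl⟩ := hlift y hy
    obtain ⟨θ', rfl⟩ := hlift y' hy'
    obtain ⟨σ, hσ, hσ'⟩ := torsor_tensor (K := K) _ _ θ θ' (actV p D₁ D₂) actV_tmul
    have hact : ∀ τ : PP p, (Spec.map (CommRingCat.ofHom (θ : AV p D₁ D₂ →+* Ω)) ≫ M.jV) ≫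
        (G.act τ).hom =
        Spec.map (CommRingCat.ofHom ((θ.comp (actV p D₁ D₂ τ)) : AV p D₁ D₂ →+* Ω)) ≫ M.jV := by
      intro τ
      rw [Category.assoc, M.act_V, ← Category.assoc, ← Spec.map_comp, ← CommRingCat.ofHom_comp]
      rfl
    refine ⟨σ, ?_, ?_⟩
    · change (Spec.map (CommRingCat.ofHom (θ : AV p D₁ D₂ →+* Ω)) ≫ M.jV) ≫ (G.act σ).hom = _
      rw [hact, hσ]
    · intro τ hτ
      apply hσ'
      change (Spec.map (CommRingCat.ofHom (θ : AV p D₁ D₂ →+* Ω)) ≫ M.jV) ≫ (G.act τ).hom = _ at hτ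
      rw [hact, cancel_mono] at hτ
      have h1 := Spec.map_injective hτ
      apply AlgHom.ext
      intro z
      exact congrArg (fun g => g.hom z) h1

theorem Model.lfp : LocallyOfFinitePresentation G.φ := by
  have := M.isFinite
  have h1 := M.smooth_X
  have := SmoothOfRelativeDimension.smooth 1 G.π
  have := LocallyOfFiniteType.isLocallyNoetherian G.π
  exact LocallyOfFinitePresentation.iff_locallyOfFiniteType.mpr inferInstance

theorem Model.exists_act_eq (y y' : G.Y) (hyy : G.φ y = G.φ y') :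
    ∃ σ : PP p, (G.act σ).hom y = y' := by
  have := M.isFinite
  have := M.flat
  have := M.lfp
  have : Finite (PP p) := inferInstanceAs (Finite (Multiplicative (ZMod p × ZMod p)))
  exact G.exists_act_eq (by rw [M.coe_V]; exact M.dense_V) M.torsor y y' hyy

/-- The cover is étale over `V`. -/
theorem Model.etale_V : Etale (G.φ ∣_ M.V) := by
  have := M.open_iV
  let e : Spec (.of (RV (D₁ * D₂))) ≅ (M.V : Scheme) := M.iV.isoOpensRange
  have he : e.hom ≫ M.V.ι = M.iV := M.iV.isoOpensRange_hom_ι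
  have he' : e.inv ≫ M.iV = M.V.ι := by rw [← he, Iso.inv_hom_id_assoc]
  have h1 := isPullback_morphismRestrict G.φ M.V
  have hcomm : (G.φ ⁻¹ᵁ M.V).ι ≫ G.φ = ((G.φ ∣_ M.V) ≫ e.inv) ≫ M.iV := by
    rw [Category.assoc, he', morphismRestrict_ι]
  have h2 : IsPullback (M.pullV.lift (G.φ ⁻¹ᵁ M.V).ι ((G.φ ∣_ M.V) ≫ e.inv) hcomm) (G.φ ∣_ M.V)
      (Spec.map (CommRingCat.ofHom (algebraMap (RV (D₁ * D₂)) (AV p D₁ D₂)))) e.inv := by
    refine IsPullback.of_right (h₁₂ := M.jV) (h₂₂ := M.iV) (v₁₃ := G.φ) ?_ ?_ M.pullV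
    · rw [M.pullV.lift_fst, he']
      exact h1.flip
    · rw [M.pullV.lift_snd]
  exact MorphismProperty.of_isPullback (P := @Etale) h2 etale_SpecAV

end Model

end Pool.Agent.Lib.MP_76d46b_ag
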