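import Pool.Agent.Lib.MP_76d46b_ag.DiffLocal
import Pool.Agent.Lib.MP_76d46b_ag.TorsorModel

/-!
# Ramification of a model
-/

open Polynomial TensorProduct CategoryTheory CategoryTheory.Limits AlgebraicGeometry

universe u

set_option linter.unusedSectionVars false

namespace Pool.Agent.Lib.MP_76d46b_ag

section

variable {p : ℕ} [hp : Fact p.Prime] {K : Type u} [Field K] [CharP K p] {D₁ D₂ : K[X]}
variable [hE : Good (D₁ * D₂)] {G : Tuple (PP p) (Spec (.of K))} (M : Model p D₁ D₂ G)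

include M

theorem Model.φ_jU (q : PrimeSpectrum (AU p D₁ D₂)) :
    G.φ (M.jU q) = M.iU (q.comap (algebraMap K[X] (AU p D₁ D₂))) :=
  congrArg (fun f : Spec (.of (AU p D₁ D₂)) ⟶ G.X => f q) M.pullU.w

theorem Model.φ_jV (q : PrimeSpectrum (AV p D₁ D₂)) :
    G.φ (M.jV q) = M.iV (q.comap (algebraMap (RV (D₁ * D₂)) (AV p D₁ D₂))) :=
  congrArg (fun f : Spec (.of (AV p D₁ D₂)) ⟶ G.X => f q) M.pullV.w

theorem Model.act_jU (σ : PP p) (q : PrimeSpectrum (AU p D₁ D₂)) :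
    (G.act σ).hom (M.jU q) =
      M.jU (q.comap (actU p D₁ D₂ σ : AU p D₁ D₂ →+* AU p D₁ D₂)) :=
  congrArg (fun f : Spec (.of (AU p D₁ D₂)) ⟶ G.Y => f q) (M.act_U σ)

theorem Model.jU_injective : Function.Injective M.jU := by
  have := M.open_jU
  exact M.jU.isOpenEmbedding.injective

theorem Model.iU_injective : Function.Injective M.iU := by
  have := M.open_iU
  exact M.iU.isOpenEmbedding.injective

/-- points of the chart `U` at which `E` does not vanish lie in the chart `V` -/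
theorem Model.mem_range_iV (P : PrimeSpectrum K[X]) (hP : D₁ * D₂ ∉ P.asIdeal) :
    M.iU P ∈ Set.range M.iV := by
  obtain ⟨z, hz⟩ := mem_range_away (D₁ * D₂) P hP
  refine ⟨Spec.map (CommRingCat.ofHom (algebraMap (RV (D₁ * D₂)) (RW (D₁ * D₂)))) z, ?_⟩
  have h1 := congrArg (fun f : Spec (.of (RW (D₁ * D₂))) ⟶ G.X => f z) M.coverX.isPullback.w
  change M.iU (Spec.map _ z) = M.iV (Spec.map _ z) at h1
  rw [← h1]
  congr 1

theorem Model.mem_range_jV_of_φ (y : G.Y) (h : G.φ y ∈ Set.range M.iV) : y ∈ Set.range M.jV := by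
  obtain ⟨v, hv⟩ := h
  obtain ⟨z, hz, -⟩ := Scheme.exists_preimage_of_isPullback M.pullV y v hv.symm
  exact ⟨z, hz⟩

theorem Model.mem_range_jU_of_φ (y : G.Y) (h : G.φ y ∈ Set.range M.iU) : y ∈ Set.range M.jU := by
  obtain ⟨v, hv⟩ := h
  obtain ⟨z, hz, -⟩ := Scheme.exists_preimage_of_isPullback M.pullU y v hv.symm
  exact ⟨z, hz⟩

/-- The cover is unramified over the chart `V`. -/
theorem Model.differentMult_jV (y : G.Y) (hy : y ∈ Set.range M.jV) :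
    differentMult G.φ y = 0 := by
  obtain ⟨(q : PrimeSpectrum (AV p D₁ D₂)), rfl⟩ := hy
  have := M.open_iV
  have := M.open_jV
  refine differentMult_of_charts G.φ M.iV M.jV M.pullV.w _ q rfl 0 ?_
  intro B _ _ _ _ _
  have h1 : Algebra.FormallyUnramified (AV p D₁ D₂) B :=
    .of_isLocalization q.asIdeal.primeCompl
  have h2 : Algebra.FormallyUnramified (RV (D₁ * D₂)) B :=
    Algebra.FormallyUnramified.comp _ (AV p D₁ D₂) B
  rw [Module.length_eq_zero_iff]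
  infer_instance

theorem mem_or_mem_of_mul (q : Ideal (AU p D₁ D₂)) [hq : q.IsPrime] (hs : IsCoprime D₁ D₂)
    (h : algebraMap K[X] (AU p D₁ D₂) (D₁ * D₂) ∈ q) :
    (algebraMap K[X] (AU p D₁ D₂) D₁ ∈ q ∧ algebraMap K[X] (AU p D₁ D₂) D₂ ∉ q) ∨
    (algebraMap K[X] (AU p D₁ D₂) D₁ ∉ q ∧ algebraMap K[X] (AU p D₁ D₂) D₂ ∈ q) := by
  have hnot : ¬ (algebraMap K[X] (AU p D₁ D₂) D₁ ∈ q ∧ algebraMap K[X] (AU p D₁ D₂) D₂ ∈ q) := by
    rintro ⟨h1, h2⟩
    obtain ⟨a, b, hab⟩ := hs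
    apply hq.ne_top
    rw [Ideal.eq_top_iff_one, ← map_one (algebraMap K[X] (AU p D₁ D₂)), ← hab, map_add,
      map_mul, map_mul]
    exact q.add_mem (q.mul_mem_left _ h1) (q.mul_mem_left _ h2)
  rw [map_mul] at h
  rcases hq.mem_or_mem h with h1 | h1
  · exact Or.inl ⟨h1, fun h2 => hnot ⟨h1, h2⟩⟩
  · exact Or.inr ⟨fun h2 => hnot ⟨h2, h1⟩, h1⟩

end

section AlgClosed

variable {p : ℕ} [hp : Fact p.Prime] {K : Type u} [Field K] [CharP K p] [IsAlgClosed K]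
  {D₁ D₂ : K[X]}
variable [hE : Good (D₁ * D₂)] {G : Tuple (PP p) (Spec (.of K))} (M : Model p D₁ D₂ G)

include M

theorem Model.differentMult_jU (hs : (D₁ * D₂).Separable) (q : PrimeSpectrum (AU p D₁ D₂))
    (h : algebraMap K[X] (AU p D₁ D₂) (D₁ * D₂) ∈ q.asIdeal) :
    differentMult G.φ (M.jU q) = ((2 * (p - 1) : ℕ) : ℕ∞) := by
  have := M.open_iU
  have := M.open_jU
  refine differentMult_of_charts G.φ M.iU M.jU M.pullU.w _ q rfl _ ?_
  rcases mem_or_mem_of_mul M q.asIdeal hs.isCoprime h with ⟨h1, h2⟩ | ⟨h1, h2⟩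
  · exact kLen_AU₁ hs.of_mul_left q.asIdeal h1 h2
  · exact kLen_AU₂ hs.of_mul_right q.asIdeal h1 h2

/-! ### The action on `w₁` and `w₂` -/

omit M in
theorem actU_w₁ (σ : PP p) : actU p D₁ D₂ σ (AdjoinRoot.root (infPoly p D₁) ⊗ₜ[K[X]] 1) *
    (1 + algebraMap K (AU p D₁ D₂) (ZMod.castHom (dvd_refl p) K σ.toAdd.1) *
      (AdjoinRoot.root (infPoly p D₁) ⊗ₜ[K[X]] 1)) = AdjoinRoot.root (infPoly p D₁) ⊗ₜ[K[X]] 1 := by
  rw [actU_tmul, infAct_root, map_one]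
  have h1 := infInv_spec K D₁ σ.toAdd.1
  have h2 := congrArg (Algebra.TensorProduct.includeLeft : InfAlg p D₁ →ₐ[K[X]] AU p D₁ D₂) h1
  rw [map_mul, map_add, map_mul, map_one, map_cst', Algebra.TensorProduct.includeLeft_apply,
    Algebra.TensorProduct.includeLeft_apply] at h2
  have h3 : (AdjoinRoot.root (infPoly p D₁) * infInv K D₁ σ.toAdd.1) ⊗ₜ[K[X]]
      (1 : InfAlg p D₂) = (AdjoinRoot.root (infPoly p D₁) ⊗ₜ 1) *
        (infInv K D₁ σ.toAdd.1 ⊗ₜ 1) := by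
    rw [Algebra.TensorProduct.tmul_mul_tmul, mul_one]
  rw [h3]
  change _ * (1 + cst K (AU p D₁ D₂) σ.toAdd.1 * _) = _
  linear_combination (AdjoinRoot.root (infPoly p D₁) ⊗ₜ 1) * h2

omit M in
theorem actU_w₂ (σ : PP p) : actU p D₁ D₂ σ (1 ⊗ₜ[K[X]] AdjoinRoot.root (infPoly p D₂)) *
    (1 + algebraMap K (AU p D₁ D₂) (ZMod.castHom (dvd_refl p) K σ.toAdd.2) *
      (1 ⊗ₜ[K[X]] AdjoinRoot.root (infPoly p D₂))) = 1 ⊗ₜ[K[X]] AdjoinRoot.root (infPoly p D₂) := by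
  rw [actU_tmul, infAct_root, map_one]
  have h1 := infInv_spec K D₂ σ.toAdd.2
  have h2 := congrArg (Algebra.TensorProduct.includeRight : InfAlg p D₂ →ₐ[K[X]] AU p D₁ D₂) h1
  rw [map_mul, map_add, map_mul, map_one, map_cst', Algebra.TensorProduct.includeRight_apply,
    Algebra.TensorProduct.includeRight_apply] at h2
  have h3 : (1 : InfAlg p D₁) ⊗ₜ[K[X]]
      (AdjoinRoot.root (infPoly p D₂) * infInv K D₂ σ.toAdd.2) =
        (1 ⊗ₜ AdjoinRoot.root (infPoly p D₂)) *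
        (1 ⊗ₜ infInv K D₂ σ.toAdd.2) := by
    rw [Algebra.TensorProduct.tmul_mul_tmul, mul_one]
  rw [h3]
  change _ * (1 + cst K (AU p D₁ D₂) σ.toAdd.2 * _) = _
  linear_combination (1 ⊗ₜ AdjoinRoot.root (infPoly p D₂)) * h2

omit M in
theorem actU_fix₁ (σ : PP p) (h : σ.toAdd.1 = 0) :
    actU p D₁ D₂ σ (AdjoinRoot.root (infPoly p D₁) ⊗ₜ[K[X]] 1) =
      AdjoinRoot.root (infPoly p D₁) ⊗ₜ[K[X]] 1 := by
  rw [actU_tmul, h, infAct_zero, map_one]; rfl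

omit M in
theorem actU_fix₂ (σ : PP p) (h : σ.toAdd.2 = 0) :
    actU p D₁ D₂ σ (1 ⊗ₜ[K[X]] AdjoinRoot.root (infPoly p D₂)) =
      1 ⊗ₜ[K[X]] AdjoinRoot.root (infPoly p D₂) := by
  rw [actU_tmul, h, infAct_zero, map_one]; rfl

theorem Model.mem_stab_iff (σ : PP p) (q : PrimeSpectrum (AU p D₁ D₂)) :
    σ ∈ G.stab (M.jU q) ↔
      q.asIdeal.comap (actU p D₁ D₂ σ : AU p D₁ D₂ →+* AU p D₁ D₂) = q.asIdeal := by
  rw [G.mem_stab, M.act_jU]
  constructor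
  · intro h
    exact congrArg PrimeSpectrum.asIdeal (M.jU_injective h)
  · intro h
    exact congrArg (fun z : Spec (.of (AU p D₁ D₂)) => M.jU z) (PrimeSpectrum.ext h)

theorem Model.mem_stab₁ (hs : (D₁ * D₂).Separable) (σ : PP p) (q : PrimeSpectrum (AU p D₁ D₂))
    (h : algebraMap K[X] (AU p D₁ D₂) D₁ ∈ q.asIdeal) :
    σ ∈ G.stab (M.jU q) ↔ σ.toAdd.2 = 0 := by
  have hD₂ : algebraMap K[X] (AU p D₁ D₂) D₂ ∉ q.asIdeal := by
    rcases mem_or_mem_of_mul M q.asIdeal hs.isCoprime (by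
      rw [map_mul]; exact Ideal.mul_mem_right _ _ h) with ⟨-, h1⟩ | ⟨h1, -⟩
    · exact h1
    · exact absurd h h1
  rw [M.mem_stab_iff]
  constructor
  · intro h1
    obtain ⟨r, -, hr⟩ := exists_root_of_mem (pt_AU (p := p) D₁ D₂) q.asIdeal
      hs.of_mul_left.ne_zero h
    have h2 := (pt_AU (p := p) D₁ D₂).eq_zero_of_comap q.asIdeal hD₂ r hr (actU p D₁ D₂ σ) _
      (actU_w₂ σ) h1
    exact (map_eq_zero_iff _ (ZMod.castHom_injective K)).mp h2
  · intro h1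
    exact (pt_AU (p := p) D₁ D₂).comap_eq q.asIdeal h (actU p D₁ D₂ σ) _ (actU_w₁ σ)
      (actU_fix₂ σ h1)

theorem Model.mem_stab₂ (hs : (D₁ * D₂).Separable) (σ : PP p) (q : PrimeSpectrum (AU p D₁ D₂))
    (h : algebraMap K[X] (AU p D₁ D₂) D₂ ∈ q.asIdeal) :
    σ ∈ G.stab (M.jU q) ↔ σ.toAdd.1 = 0 := by
  have hD₁ : algebraMap K[X] (AU p D₁ D₂) D₁ ∉ q.asIdeal := by
    rcases mem_or_mem_of_mul M q.asIdeal hs.isCoprime (by
      rw [map_mul]; exact Ideal.mul_mem_left _ _ h) with ⟨-, h1⟩ | ⟨h1, -⟩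
    · exact absurd h h1
    · exact h1
  rw [M.mem_stab_iff]
  constructor
  · intro h1
    obtain ⟨r, -, hr⟩ := exists_root_of_mem (pt_AU (p := p) D₁ D₂) q.asIdeal
      hs.of_mul_right.ne_zero h
    have h2 := (pt_AU (p := p) D₁ D₂).symm.eq_zero_of_comap q.asIdeal hD₁ r hr (actU p D₁ D₂ σ) _
      (actU_w₁ σ) h1
    exact (map_eq_zero_iff _ (ZMod.castHom_injective K)).mp h2
  · intro h1
    exact (pt_AU (p := p) D₁ D₂).symm.comap_eq q.asIdeal h (actU p D₁ D₂ σ) _ (actU_w₂ σ)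
      (actU_fix₁ σ h1)

/-! ### The fibres over the branch points have `p` points -/

omit M in
theorem index_snd (H : Subgroup (PP p)) (h : ∀ σ, σ ∈ H ↔ σ.toAdd.2 = 0) : H.index = p := by
  let f : PP p →* Multiplicative (ZMod p) := AddMonoidHom.toMultiplicative
    (AddMonoidHom.snd (ZMod p) (ZMod p))
  have h1 : H = f.ker := by
    ext σ
    rw [h, MonoidHom.mem_ker]
    rfl
  have h2 : Function.Surjective f := fun a => ⟨Multiplicative.ofAdd (0, a.toAdd), rfl⟩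
  rw [h1, Subgroup.index_ker, MonoidHom.range_eq_top.mpr h2]
  rw [Subgroup.card_top, Nat.card_congr Multiplicative.toAdd, Nat.card_zmod]

omit M in
theorem index_fst (H : Subgroup (PP p)) (h : ∀ σ, σ ∈ H ↔ σ.toAdd.1 = 0) : H.index = p := by
  let f : PP p →* Multiplicative (ZMod p) := AddMonoidHom.toMultiplicative
    (AddMonoidHom.fst (ZMod p) (ZMod p))
  have h1 : H = f.ker := by
    ext σ
    rw [h, MonoidHom.mem_ker]
    rfl
  have h2 : Function.Surjective f := fun a => ⟨Multiplicative.ofAdd (a.toAdd, 0), rfl⟩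
  rw [h1, Subgroup.index_ker, MonoidHom.range_eq_top.mpr h2]
  rw [Subgroup.card_top, Nat.card_congr Multiplicative.toAdd, Nat.card_zmod]

theorem Model.card_fibre (hs : (D₁ * D₂).Separable) (q : PrimeSpectrum (AU p D₁ D₂))
    (h : algebraMap K[X] (AU p D₁ D₂) (D₁ * D₂) ∈ q.asIdeal) :
    Nat.card (G.φ ⁻¹' {G.φ (M.jU q)}) = p := by
  have : Finite (PP p) := inferInstanceAs (Finite (Multiplicative (ZMod p × ZMod p)))
  rw [G.card_fibre M.exists_act_eq]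
  rcases mem_or_mem_of_mul M q.asIdeal hs.isCoprime h with ⟨h1, h2⟩ | ⟨h1, h2⟩
  · exact index_snd _ fun σ => M.mem_stab₁ hs σ q h1
  · exact index_fst _ fun σ => M.mem_stab₂ hs σ q h2

end AlgClosed

end Pool.Agent.Lib.MP_76d46b_ag
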