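import Pool.Agent.Lib.MP_76d46b_ag.EtaleAlg
import Pool.Agent.Lib.MP_76d46b_ag.Model

/-!
# Smoothness
-/

open Polynomial TensorProduct CategoryTheory CategoryTheory.Limits AlgebraicGeometry

universe u

set_option linter.unusedSectionVars false

namespace Pool.Agent.Lib.MP_76d46b_ag

theorem standardSmooth_polynomial (K : Type u) [Field K] :
    Algebra.IsStandardSmoothOfRelativeDimension 1 K K[X] := by
  let b : Module.Basis Unit K[X] Ω[K[X]⁄K] :=
    (Module.Basis.singleton Unit K[X]).map (KaehlerDifferential.polynomialEquiv K).symm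
  have hb : Set.range b ⊆ Set.range (KaehlerDifferential.D K K[X]) := by
    rintro _ ⟨i, rfl⟩
    refine ⟨X, ?_⟩
    rw [Module.Basis.map_apply, Module.Basis.singleton_apply,
      KaehlerDifferential.polynomialEquiv_symm, one_smul]
  have h1 : Algebra.IsStandardSmooth K K[X] :=
    Algebra.IsStandardSmooth.of_basis_kaehlerDifferential b hb
  rw [Algebra.IsStandardSmoothOfRelativeDimension.iff_of_isStandardSmooth]
  rw [rank_eq_card_basis b]
  simp

theorem local_smooth (n : ℕ) : IsZariskiLocalAtSource (@SmoothOfRelativeDimension.{u} n) :=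
  HasRingHomProperty.instIsZariskiLocalAtSource

/-- the affine line is smooth of relative dimension one -/
theorem smooth_line (K : Type u) [Field K] : SmoothOfRelativeDimension 1
    (Spec.map (CommRingCat.ofHom (algebraMap K K[X]))) := by
  rw [HasRingHomProperty.Spec_iff (P := @SmoothOfRelativeDimension 1)]
  refine RingHom.locally_of RingHom.isStandardSmoothOfRelativeDimension_respectsIso _ ?_
  have := standardSmooth_polynomial K
  exact (RingHom.isStandardSmoothOfRelativeDimension_algebraMap 1).mpr this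

/-- a property which is local at the source can be checked near points -/
theorem of_source_points {X Y : Scheme.{u}} (f : X ⟶ Y) (Q : MorphismProperty Scheme.{u})
    [IsZariskiLocalAtSource Q]
    (H : ∀ x : X, ∃ (U : Scheme.{u}) (i : U ⟶ X) (_ : IsOpenImmersion i), x ∈ Set.range i ∧
      Q (i ≫ f)) : Q f := by
  choose U i hi hx hQ using H
  let 𝒰 : X.OpenCover := Scheme.Cover.mkOfCovers X U i (fun x => by
    obtain ⟨y, hy⟩ := hx x
    exact ⟨x, y, hy⟩) (fun x => hi x)
  rw [IsZariskiLocalAtSource.iff_of_openCover (P := Q) 𝒰]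
  exact hQ

/-- étale morphisms followed by smooth morphisms of relative dimension one -/
theorem smooth_of_etale {X Y Z : Scheme.{u}} (f : X ⟶ Y) (g : Y ⟶ Z) (hf : Etale f)
    (hg : SmoothOfRelativeDimension 1 g) : SmoothOfRelativeDimension 1 (f ≫ g) := by
  have h := smoothOfRelativeDimension_comp 0 1 f g
  exact h

/-- étale neighbourhoods in fibre products -/
theorem exists_etale_nhd {P X Y S V : Scheme.{u}} {p : P ⟶ X} {q : P ⟶ Y} {f : X ⟶ S} {g : Y ⟶ S}
    (sq : IsPullback p q f g) (j : V ⟶ Y) [IsOpenImmersion j] (hj : Etale (j ≫ g)) (y : P)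
    (hy : q y ∈ Set.range j) :
    ∃ (V' : Scheme.{u}) (i : V' ⟶ P) (_ : IsOpenImmersion i), y ∈ Set.range i ∧ Etale (i ≫ p) := by
  refine ⟨pullback q j, pullback.fst q j, inferInstance, ?_, ?_⟩
  · obtain ⟨v, hv⟩ := hy
    obtain ⟨z, hz, -⟩ := Scheme.exists_preimage_of_isPullback (IsPullback.of_hasPullback q j) y v
      hv.symm
    exact ⟨z, hz⟩
  · have h1 := (IsPullback.of_hasPullback q j).flip.paste_vert sq.flip
    exact MorphismProperty.of_isPullback (P := @Etale) h1 hj

/-- points of a principal open subset -/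
theorem mem_range_away {A : Type u} [CommRing A] (a : A) (q : PrimeSpectrum A)
    (hq : a ∉ q.asIdeal) : q ∈ Set.range (Spec.map (CommRingCat.ofHom
      (algebraMap A (Localization.Away a)))) := by
  have h1 : q ∈ Set.range (PrimeSpectrum.comap (algebraMap A (Localization.Away a))) := by
    rw [PrimeSpectrum.localization_away_comap_range (Localization.Away a) a]
    exact hq
  exact h1

variable {p : ℕ} [hp : Fact p.Prime] {K : Type u} [Field K] [CharP K p] {D : K[X]}

theorem cast_eq_zero : ((p : ℕ) : K[X]) = 0 := by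
  rw [← map_natCast (algebraMap K K[X]), CharP.cast_eq_zero, map_zero]

theorem etale_inf_away (D : K[X]) :
    Etale (Spec.map (CommRingCat.ofHom (algebraMap (InfAlg p D)
      (Localization.Away (algebraMap K[X] (InfAlg p D) D)))) ≫
      Spec.map (CommRingCat.ofHom (algebraMap K[X] (InfAlg p D)))) := by
  rw [← Spec.map_comp, ← CommRingCat.ofHom_comp, ← IsScalarTower.algebraMap_eq,
    HasRingHomProperty.Spec_iff (P := @Etale)]
  exact RingHom.etale_algebraMap.mpr (etale_inf cast_eq_zero D _)

theorem smooth_inf (hD : D.Monic) (hD0 : 0 < D.natDegree) (hs : D.Separable) :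
    SmoothOfRelativeDimension 1 (Spec.map (CommRingCat.ofHom (algebraMap K (InfAlg p D)))) := by
  have := local_smooth.{u} 1
  refine of_source_points _ (@SmoothOfRelativeDimension 1) ?_
  intro (q : PrimeSpectrum (InfAlg p D))
  have h : algebraMap K[X] (InfAlg p D) D ∉ q.asIdeal ∨
      algebraMap K[X] (InfAlg p D) (derivative D) ∉ q.asIdeal := by
    by_contra hcon
    push Not at hcon
    obtain ⟨a, b, hab⟩ := hs
    apply q.2.ne_top
    rw [Ideal.eq_top_iff_one, ← map_one (algebraMap K[X] (InfAlg p D)), ← hab, map_add, map_mul,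
      map_mul]
    exact Ideal.add_mem _ (Ideal.mul_mem_left _ _ hcon.1) (Ideal.mul_mem_left _ _ hcon.2)
  rcases h with h | h
  · refine ⟨_, Spec.map (CommRingCat.ofHom (algebraMap (InfAlg p D)
      (Localization.Away (algebraMap K[X] (InfAlg p D) D)))), inferInstance,
      mem_range_away _ q h, ?_⟩
    have h1 : Spec.map (CommRingCat.ofHom (algebraMap K (InfAlg p D))) =
        Spec.map (CommRingCat.ofHom (algebraMap K[X] (InfAlg p D))) ≫
          Spec.map (CommRingCat.ofHom (algebraMap K K[X])) := by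
      rw [← Spec.map_comp, ← CommRingCat.ofHom_comp, ← IsScalarTower.algebraMap_eq]
    rw [h1, ← Category.assoc]
    exact smooth_of_etale _ _ (etale_inf_away D) (smooth_line K)
  · refine ⟨_, Spec.map (CommRingCat.ofHom (algebraMap (InfAlg p D)
      (Localization.Away (algebraMap K[X] (InfAlg p D) (derivative D))))), inferInstance,
      mem_range_away _ q h, ?_⟩
    have h1 := etale_T (p := p) hD hD0
      (Localization.Away (algebraMap K[X] (InfAlg p D) (derivative D)))
    have h2 : Etale (Spec.map (CommRingCat.ofHom (aeval (R := K)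
        (algebraMap (InfAlg p D) (Localization.Away (algebraMap K[X] (InfAlg p D) (derivative D)))
          (AdjoinRoot.root _))).toRingHom)) := by
      rw [HasRingHomProperty.Spec_iff (P := @Etale)]
      exact h1
    have h3 := smooth_of_etale _ _ h2 (smooth_line K)
    rw [← Spec.map_comp, ← CommRingCat.ofHom_comp] at h3 ⊢
    convert h3 using 3
    ext x
    change algebraMap _ _ (algebraMap K (InfAlg p D) x) = aeval (R := K) _ (algebraMap K K[X] x)
    rw [AlgHom.commutes, ← IsScalarTower.algebraMap_apply]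

variable {D₁ D₂ : K[X]}

theorem smooth_AU (h₁ : D₁.Monic) (h₁0 : 0 < D₁.natDegree) (h₂ : D₂.Monic)
    (h₂0 : 0 < D₂.natDegree) (hs : (D₁ * D₂).Separable) :
    SmoothOfRelativeDimension 1 (Spec.map (CommRingCat.ofHom (algebraMap K[X] (AU p D₁ D₂))) ≫
      Spec.map (CommRingCat.ofHom (algebraMap K K[X]))) := by
  have := local_smooth.{u} 1
  have hs₁ := hs.of_mul_left
  have hs₂ := hs.of_mul_right
  obtain ⟨a, b, hab⟩ := hs.isCoprime
  have sq := isPullback_SpecMap_of_isPushout _ _ _ _
    (CommRingCat.isPushout_tensorProduct K[X] (InfAlg p D₁) (InfAlg p D₂))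
  set A₁ := InfAlg p D₁
  set A₂ := InfAlg p D₂
  let f₁ := Spec.map (CommRingCat.ofHom (algebraMap K[X] A₁))
  let f₂ := Spec.map (CommRingCat.ofHom (algebraMap K[X] A₂))
  let p₁ := Spec.map (CommRingCat.ofHom (Algebra.TensorProduct.includeLeftRingHom :
        A₁ →+* A₁ ⊗[K[X]] A₂))
  let p₂ := Spec.map (CommRingCat.ofHom (Algebra.TensorProduct.includeRight.toRingHom :
        A₂ →+* A₁ ⊗[K[X]] A₂))
  have e1 : Spec.map (CommRingCat.ofHom (algebraMap K[X] (A₁ ⊗[K[X]] A₂))) = p₁ ≫ f₁ := by
    rw [← Spec.map_comp, ← CommRingCat.ofHom_comp]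
  have e2 : p₁ ≫ f₁ = p₂ ≫ f₂ := sq.w
  have g1 : SmoothOfRelativeDimension 1
      (f₁ ≫ Spec.map (CommRingCat.ofHom (algebraMap K K[X]))) := by
    rw [← Spec.map_comp, ← CommRingCat.ofHom_comp]
    exact smooth_inf h₁ h₁0 hs₁
  have g2 : SmoothOfRelativeDimension 1
      (f₂ ≫ Spec.map (CommRingCat.ofHom (algebraMap K K[X]))) := by
    rw [← Spec.map_comp, ← CommRingCat.ofHom_comp]
    exact smooth_inf h₂ h₂0 hs₂
  refine of_source_points _ (@SmoothOfRelativeDimension 1) ?_
  intro (q : PrimeSpectrum (A₁ ⊗[K[X]] A₂))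
  have hq : algebraMap K[X] (A₁ ⊗[K[X]] A₂) D₁ ∉ q.asIdeal ∨
      algebraMap K[X] (A₁ ⊗[K[X]] A₂) D₂ ∉ q.asIdeal := by
    by_contra hcon
    push Not at hcon
    apply q.2.ne_top
    rw [Ideal.eq_top_iff_one, ← map_one (algebraMap K[X] (A₁ ⊗[K[X]] A₂)), ← hab, map_add,
      map_mul, map_mul]
    exact Ideal.add_mem _ (Ideal.mul_mem_left _ _ hcon.1) (Ideal.mul_mem_left _ _ hcon.2)
  rcases hq with hq | hq
  · obtain ⟨V, i, hi, hy, het⟩ := exists_etale_nhd sq.flip
      (Spec.map (CommRingCat.ofHom (algebraMap A₁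
        (Localization.Away (algebraMap K[X] A₁ D₁))))) (etale_inf_away D₁) q
      (mem_range_away _ (p₁ q) (fun h => hq h))
    refine ⟨V, i, hi, hy, ?_⟩
    rw [e1, e2, Category.assoc, ← Category.assoc]
    exact smooth_of_etale _ _ het g2
  · obtain ⟨V, i, hi, hy, het⟩ := exists_etale_nhd sq
      (Spec.map (CommRingCat.ofHom (algebraMap A₂
        (Localization.Away (algebraMap K[X] A₂ D₂))))) (etale_inf_away D₂) q
      (mem_range_away _ (p₂ q) (fun h => hq (by
        have h1 : algebraMap K[X] (A₁ ⊗[K[X]] A₂) D₂ =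
            (Algebra.TensorProduct.includeRight : A₂ →ₐ[K[X]] A₁ ⊗[K[X]] A₂)
              (algebraMap K[X] A₂ D₂) := (AlgHom.commutes _ _).symm
        rw [h1]
        exact h)))
    refine ⟨V, i, hi, hy, ?_⟩
    rw [e1, Category.assoc, ← Category.assoc]
    exact smooth_of_etale _ _ het g1

set_option backward.isDefEq.respectTransparency.types false in
theorem localTarget_finite : IsZariskiLocalAtTarget (@IsFinite.{u}) := inferInstance

set_option backward.isDefEq.respectTransparency.types false in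
theorem localTarget_flat : IsZariskiLocalAtTarget (@Flat.{u}) := inferInstance

theorem smooth_RV (E : K[X]) : SmoothOfRelativeDimension 1
    (Spec.map (CommRingCat.ofHom (algebraMap K (RV E)))) := by
  have h1 : Spec.map (CommRingCat.ofHom (algebraMap K (RV E))) =
      Spec.map (CommRingCat.ofHom (algebraMap K[X] (RV E))) ≫
        Spec.map (CommRingCat.ofHom (algebraMap K K[X])) := by
    rw [← Spec.map_comp, ← CommRingCat.ofHom_comp, ← IsScalarTower.algebraMap_eq]
  rw [h1]
  have h2 : IsOpenImmersion (Spec.map (CommRingCat.ofHom (algebraMap K[X] (RV E)))) :=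
    inferInstance
  exact smooth_of_etale _ _ inferInstance (smooth_line K)

theorem cast_RV_eq_zero (E : K[X]) : ((p : ℕ) : RV E) = 0 := by
  rw [← map_natCast (algebraMap K (RV E)), CharP.cast_eq_zero, map_zero]

instance etale_AV [Good (D₁ * D₂)] : Algebra.Etale (RV (D₁ * D₂)) (AV p D₁ D₂) := by
  have h1 : Algebra.Etale (RV (D₁ * D₂)) (FinAlg p (fV (D₁ * D₂) D₁)) :=
    etale_fin (cast_RV_eq_zero _) _
  have h2 : Algebra.Etale (RV (D₁ * D₂)) (FinAlg p (fV (D₁ * D₂) D₂)) :=
    etale_fin (cast_RV_eq_zero _) _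
  exact Algebra.Etale.comp _ (FinAlg p (fV (D₁ * D₂) D₁)) _

theorem etale_SpecAV [Good (D₁ * D₂)] :
    Etale (Spec.map (CommRingCat.ofHom (algebraMap (RV (D₁ * D₂)) (AV p D₁ D₂)))) := by
  rw [HasRingHomProperty.Spec_iff (P := @Etale)]
  exact RingHom.etale_algebraMap.mpr etale_AV

section

variable [hE : Good (D₁ * D₂)] {G : Tuple (PP p) (Spec (.of K))} (M : Model p D₁ D₂ G)

include M

theorem Model.open_iU : IsOpenImmersion M.iU := M.coverX.open_i
theorem Model.open_iV : IsOpenImmersion M.iV := M.coverX.open_j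

theorem Model.open_jU : IsOpenImmersion M.jU := by
  have := M.open_iU
  exact MorphismProperty.of_isPullback M.pullU.flip inferInstance

theorem Model.open_jV : IsOpenImmersion M.jV := by
  have := M.open_iV
  exact MorphismProperty.of_isPullback M.pullV.flip inferInstance

theorem Model.coverY_points (y : G.Y) : y ∈ Set.range M.jU ∨ y ∈ Set.range M.jV := by
  rcases M.coverX.cover (G.φ y) with ⟨u, hu⟩ | ⟨v, hv⟩
  · obtain ⟨z, hz, -⟩ := Scheme.exists_preimage_of_isPullback M.pullU y u hu.symm
    exact Or.inl ⟨z, hz⟩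
  · obtain ⟨z, hz, -⟩ := Scheme.exists_preimage_of_isPullback M.pullV y v hv.symm
    exact Or.inr ⟨z, hz⟩

theorem Model.smooth_X : SmoothOfRelativeDimension 1 G.π := by
  have := local_smooth.{u} 1
  refine M.coverX.of_source (@SmoothOfRelativeDimension 1) ?_ ?_
  · rw [M.iU_π]
    exact smooth_line K
  · rw [M.iV_π]
    exact smooth_RV _

theorem Model.jU_φπ : M.jU ≫ G.φ ≫ G.π =
    Spec.map (CommRingCat.ofHom (algebraMap K[X] (AU p D₁ D₂))) ≫
      Spec.map (CommRingCat.ofHom (algebraMap K K[X])) := by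
  rw [← Category.assoc, M.pullU.w, Category.assoc, M.iU_π]

theorem Model.jV_φπ : M.jV ≫ G.φ ≫ G.π =
    Spec.map (CommRingCat.ofHom (algebraMap (RV (D₁ * D₂)) (AV p D₁ D₂))) ≫
      Spec.map (CommRingCat.ofHom (algebraMap K (RV (D₁ * D₂)))) := by
  rw [← Category.assoc, M.pullV.w, Category.assoc, M.iV_π]

theorem Model.smooth_Y (h₁ : D₁.Monic) (h₁0 : 0 < D₁.natDegree) (h₂ : D₂.Monic)
    (h₂0 : 0 < D₂.natDegree) (hs : (D₁ * D₂).Separable) :
    SmoothOfRelativeDimension 1 (G.φ ≫ G.π) := by
  have := local_smooth.{u} 1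
  have := M.open_jU
  have := M.open_jV
  refine of_source_points _ (@SmoothOfRelativeDimension 1) fun y => ?_
  rcases M.coverY_points y with hy | hy
  · refine ⟨_, M.jU, inferInstance, hy, ?_⟩
    rw [M.jU_φπ]
    exact smooth_AU h₁ h₁0 h₂ h₂0 hs
  · refine ⟨_, M.jV, inferInstance, hy, ?_⟩
    rw [M.jV_φπ]
    exact smooth_of_etale _ _ etale_SpecAV (smooth_RV _)

theorem Model.isFinite : IsFinite G.φ := by
  have := localTarget_finite.{u}
  refine M.coverX.of_target M.pullU M.pullV (@IsFinite.{u}) ?_ ?_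
  · rw [IsFinite.SpecMap_iff]
    exact RingHom.finite_algebraMap.mpr inferInstance
  · rw [IsFinite.SpecMap_iff]
    exact RingHom.finite_algebraMap.mpr inferInstance

theorem Model.flat : Flat G.φ := by
  have := localTarget_flat.{u}
  refine M.coverX.of_target M.pullU M.pullV (@Flat.{u}) ?_ ?_
  · rw [Flat.SpecMap_iff]
    exact RingHom.flat_algebraMap_iff.mpr inferInstance
  · rw [Flat.SpecMap_iff]
    exact RingHom.flat_algebraMap_iff.mpr inferInstance

end

end Pool.Agent.Lib.MP_76d46b_ag
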