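import Mathlib

/-!
# Local rings of smooth curves over algebraically closed fields
-/

open Polynomial TensorProduct CategoryTheory AlgebraicGeometry

universe u

namespace Pool.Agent.Lib.MP_76d46b_ag

theorem formallyEtale_polynomial {R S : Type*} [CommRing R] [CommRing S] [Algebra R S]
    [Algebra R[X] S] [IsScalarTower R R[X] S] [Algebra.FormallySmooth R S]
    (b : Module.Basis Unit S (Ω[S⁄R]))
    (hb : b () = KaehlerDifferential.D R S (algebraMap R[X] S X)) :
    Algebra.FormallyEtale R[X] S := by
  have hform : ∀ z : S ⊗[R[X]] (Ω[R[X]⁄R]), ∃ s : S,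
      z = s ⊗ₜ KaehlerDifferential.D R R[X] X := by
    intro z
    induction z using TensorProduct.induction_on with
    | zero => exact ⟨0, by simp⟩
    | tmul s w =>
      obtain ⟨p, rfl⟩ : ∃ p : R[X], w = p • KaehlerDifferential.D R R[X] X := by
        refine ⟨KaehlerDifferential.polynomialEquiv R w, ?_⟩
        exact ((KaehlerDifferential.polynomialEquiv R).symm_apply_apply w).symm
      exact ⟨p • s, by rw [TensorProduct.tmul_smul, TensorProduct.smul_tmul']⟩
    | add z w hz hw =>
      obtain ⟨s, rfl⟩ := hz
      obtain ⟨s', rfl⟩ := hw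
      exact ⟨s + s', by rw [TensorProduct.add_tmul]⟩
  have hmap : ∀ s : S, KaehlerDifferential.mapBaseChange R R[X] S
      (s ⊗ₜ KaehlerDifferential.D R R[X] X) = s • b () := by
    intro s
    rw [KaehlerDifferential.mapBaseChange_tmul, KaehlerDifferential.map_D, hb]
  have hinj : Function.Injective (KaehlerDifferential.mapBaseChange R R[X] S) := by
    rw [injective_iff_map_eq_zero]
    intro z hz
    obtain ⟨s, rfl⟩ := hform z
    rw [hmap] at hz
    have h1 : b.repr (s • b ()) () = 0 := by rw [hz]; simp
    rw [LinearEquiv.map_smul, b.repr_self] at h1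
    have : s = 0 := by simpa using h1
    rw [this, TensorProduct.zero_tmul]
  have hsurj : Function.Surjective (KaehlerDifferential.mapBaseChange R R[X] S) := by
    intro w
    refine ⟨(b.repr w ()) ⊗ₜ KaehlerDifferential.D R R[X] X, ?_⟩
    rw [hmap]
    have := b.sum_repr w
    simpa using this
  constructor
  · refine subsingleton_of_forall_eq 0 fun w => ?_
    obtain ⟨v, rfl⟩ := KaehlerDifferential.map_surjective R R[X] S w
    obtain ⟨z, rfl⟩ := hsurj v
    exact (KaehlerDifferential.exact_mapBaseChange_map R R[X] S).apply_apply_eq_zero z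
  · refine subsingleton_of_forall_eq 0 fun w => ?_
    have h0 : Algebra.H1Cotangent.δ R R[X] S w = 0 := by
      apply hinj
      rw [map_zero]
      exact (Algebra.H1Cotangent.exact_δ_mapBaseChange R R[X] S).apply_apply_eq_zero w
    obtain ⟨v, rfl⟩ := (Algebra.H1Cotangent.exact_map_δ R R[X] S w).mp h0
    rw [Subsingleton.elim v 0, map_zero]


theorem isDomain_of_uniformizer {B : Type*} [CommRing B] [IsLocalRing B] [IsNoetherianRing B]
    (t : B) (ht : IsLocalRing.maximalIdeal B = Ideal.span {t}) (hreg : IsSMulRegular B t) :
    IsDomain B := by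
  have hpow : ∀ n : ℕ, IsSMulRegular B (t ^ n) := fun n => IsSMulRegular.pow n hreg
  have key : ∀ a : B, a ≠ 0 → ∃ (n : ℕ) (u : B), IsUnit u ∧ a = t ^ n * u := by
    classical
    intro a ha
    have h1 : ∃ n, a ∉ IsLocalRing.maximalIdeal B ^ n := by
      by_contra hcon
      push Not at hcon
      apply ha
      have h2 := Ideal.iInf_pow_eq_bot_of_isLocalRing (IsLocalRing.maximalIdeal B)
        (IsLocalRing.maximalIdeal.isMaximal B).ne_top
      have h3 : a ∈ ⨅ n : ℕ, IsLocalRing.maximalIdeal B ^ n := by
        rw [Ideal.mem_iInf]; exact hcon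
      rw [h2] at h3
      exact h3
    have hmin := Nat.find_spec h1
    obtain ⟨n, hn⟩ : ∃ n, Nat.find h1 = n + 1 := by
      refine Nat.exists_eq_succ_of_ne_zero ?_
      intro h0
      rw [h0] at hmin
      exact hmin (by simp)
    have hlt : a ∈ IsLocalRing.maximalIdeal B ^ n := by
      by_contra hcon
      have := Nat.find_min' h1 hcon
      omega
    rw [hn] at hmin
    rw [ht, Ideal.span_singleton_pow, Ideal.mem_span_singleton] at hlt hmin
    obtain ⟨u, rfl⟩ := hlt
    refine ⟨n, u, ?_, rfl⟩
    by_contra hu
    have : u ∈ IsLocalRing.maximalIdeal B := (IsLocalRing.mem_maximalIdeal u).mpr hu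
    rw [ht, Ideal.mem_span_singleton] at this
    obtain ⟨v, rfl⟩ := this
    exact hmin ⟨v, by ring⟩
  have : NoZeroDivisors B := by
    constructor
    intro a b hab
    by_contra hcon
    push Not at hcon
    obtain ⟨n, u, hu, rfl⟩ := key a hcon.1
    obtain ⟨m, v, hv, rfl⟩ := key b hcon.2
    have h1 : t ^ (n + m) • (u * v) = t ^ (n + m) • (0 : B) := by
      rw [smul_zero, smul_eq_mul, ← hab]; ring
    have h2 := hpow _ h1
    exact (hu.mul hv).ne_zero h2
  exact NoZeroDivisors.to_isDomain B

theorem uniformizer_of_standardSmooth {K S B : Type u} [Field K] [CommRing S] [CommRing B]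
    [Algebra K S] [Algebra S B] [Algebra K B] [IsScalarTower K S B]
    [hsm1 : Algebra.IsStandardSmoothOfRelativeDimension 1 K S] (q : Ideal S) [hq : q.IsPrime]
    [IsLocalization.AtPrime B q] [IsLocalRing B]
    (hres : Function.Surjective ((IsLocalRing.residue B).comp (algebraMap K B))) :
    ∃ t : B, IsSMulRegular B t ∧ IsLocalRing.maximalIdeal B = Ideal.span {t} := by
  classical
  have hsm : Algebra.IsStandardSmooth K S :=
    Algebra.IsStandardSmoothOfRelativeDimension.isStandardSmooth 1
  have hnt : Nontrivial S := ⟨⟨0, 1, fun h => hq.ne_top ((Ideal.eq_top_iff_one q).mpr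
    (h ▸ q.zero_mem))⟩⟩
  obtain ⟨ι, σ, _, _, P, hP⟩ := hsm1.out
  have := Fintype.ofFinite ι
  have := Fintype.ofFinite σ
  -- the index set of the basis of the differentials has one element
  have hcard : Fintype.card ((Set.range P.map)ᶜ : Set ι) = 1 := by
    rw [← hP]
    simp only [Fintype.card_compl_set,
    Algebra.Presentation.dimension, Nat.card_eq_fintype_card, Set.card_range_of_injective P.map_inj]
  obtain ⟨k, hk⟩ := Fintype.card_eq_one_iff.mp hcard
  let e : ((Set.range P.map)ᶜ : Set ι) ≃ Unit :=
    { toFun := fun _ => (), invFun := fun _ => k, left_inv := fun a => (hk a).symm,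
      right_inv := fun _ => rfl }
  let x : S := P.val k
  let b : Module.Basis Unit S (Ω[S⁄K]) := P.basisKaehler.reindex e
  have hb : b () = KaehlerDifferential.D K S x := by
    simp [b, e, x]
  -- the residue of `x`
  obtain ⟨a, ha⟩ := hres (IsLocalRing.residue B (algebraMap S B x))
  -- `S` as an algebra over `K[X]`
  let alg : Algebra K[X] S := (aeval (R := K) x).toAlgebra
  have hX : algebraMap K[X] S X = x := aeval_X x
  have tower : IsScalarTower K K[X] S := .of_algebraMap_eq' (by
    ext r; simp [RingHom.algebraMap_toAlgebra, alg])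
  have hfs : Algebra.FormallySmooth K S := inferInstance
  have het : Algebra.FormallyEtale K[X] S := formallyEtale_polynomial b (by rw [hb, hX])
  have hfp : Algebra.FinitePresentation K S := inferInstance
  have hfp' : Algebra.FinitePresentation K[X] S :=
    .of_restrict_scalars_finitePresentation K K[X] S
  have hsmo : Algebra.Smooth K[X] S := ⟨inferInstance, hfp'⟩
  have hfl : Module.Flat K[X] S := inferInstance
  let algB : Algebra K[X] B := ((algebraMap S B).comp (algebraMap K[X] S)).toAlgebra
  have tower2 : IsScalarTower K[X] S B := .of_algebraMap_eq' rfl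
  have tower3 : IsScalarTower K K[X] B := .of_algebraMap_eq' (by
    rw [IsScalarTower.algebraMap_eq K S B, IsScalarTower.algebraMap_eq K K[X] S]; rfl)
  have hflS : Module.Flat S B := IsLocalization.flat B q.primeCompl
  have hflB : Module.Flat K[X] B := Module.Flat.trans K[X] S B
  refine ⟨algebraMap K[X] B (X - C a), ?_, ?_⟩
  · have h1 : IsSMulRegular B (X - C a) :=
      Module.Flat.isSMulRegular_of_nonZeroDivisors
        (mem_nonZeroDivisors_of_ne_zero (X_sub_C_ne_zero a))
    intro u v huv
    apply h1
    simpa [Algebra.smul_def] using huv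
  · have hres0 : IsLocalRing.residue B (algebraMap K[X] B (X - C a)) = 0 := by
      have h1 : algebraMap K[X] B (C a) = algebraMap K B a := by
        rw [IsScalarTower.algebraMap_apply K K[X] B]; rfl
      have h2 : algebraMap K[X] B X = algebraMap S B x := by
        rw [IsScalarTower.algebraMap_apply K[X] S B, hX]
      rw [map_sub, map_sub, h1, h2, ← ha]
      exact sub_self _
    let p : Ideal K[X] := (IsLocalRing.maximalIdeal B).comap (algebraMap K[X] B)
    have hpp : p.IsPrime := Ideal.comap_isPrime _ _
    have hmax : (Ideal.span {(X - C a : K[X])}).IsMaximal :=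
      PrincipalIdealRing.isMaximal_of_irreducible (irreducible_X_sub_C a)
    have hp : Ideal.span {(X - C a : K[X])} = p := by
      refine hmax.eq_of_le hpp.ne_top ?_
      rw [Ideal.span_singleton_le_iff_mem, Ideal.mem_comap]
      exact (IsLocalRing.residue_eq_zero_iff _).mp hres0
    have hunit : ∀ y : p.primeCompl, IsUnit (algebraMap K[X] B y) := by
      rintro ⟨y, hy⟩
      by_contra hcon
      exact hy ((IsLocalRing.mem_maximalIdeal _).mpr hcon)
    let A := Localization.AtPrime p
    let algA : Algebra A B := (IsLocalization.lift (M := p.primeCompl) hunit).toAlgebra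
    have towerA : IsScalarTower K[X] A B := .of_algebraMap_eq' (by
      ext z <;> simp [RingHom.algebraMap_toAlgebra, A, algA])
    have hur : Algebra.FormallyUnramified K[X] B := by
      have : Algebra.FormallyUnramified S B :=
        Algebra.FormallyUnramified.of_isLocalization q.primeCompl
      exact Algebra.FormallyUnramified.comp K[X] S B
    have hurA : Algebra.FormallyUnramified A B :=
      Algebra.FormallyUnramified.of_restrictScalars K[X] A B
    have hess : Algebra.EssFiniteType K[X] B := by
      have : Algebra.EssFiniteType S B := Algebra.EssFiniteType.of_isLocalization B q.primeCompl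
      exact Algebra.EssFiniteType.comp K[X] S B
    have hessA : Algebra.EssFiniteType A B := Algebra.EssFiniteType.of_comp K[X] A B
    have hloc : IsLocalHom (algebraMap A B) := by
      constructor
      intro z hz
      obtain ⟨⟨y, s⟩, hys⟩ := IsLocalization.surj p.primeCompl z
      have h3 : algebraMap A B z * algebraMap K[X] B s = algebraMap K[X] B y := by
        rw [IsScalarTower.algebraMap_apply K[X] A B, IsScalarTower.algebraMap_apply K[X] A B,
          ← map_mul]
        exact congrArg _ hys
      have h4 : IsUnit (algebraMap K[X] B y) := by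
        rw [← h3]; exact hz.mul (hunit s)
      have h5 : y ∈ p.primeCompl := fun hy => (IsLocalRing.mem_maximalIdeal _).mp hy h4
      have h6 : IsUnit (algebraMap K[X] A y) := IsLocalization.map_units A ⟨y, h5⟩
      rw [← hys] at h6
      exact isUnit_of_mul_isUnit_left h6
    have key := Algebra.FormallyUnramified.map_maximalIdeal (R := A) (S := B)
    rw [← key, ← Localization.AtPrime.map_eq_maximalIdeal, Ideal.map_map,
      ← IsScalarTower.algebraMap_eq K[X] A B, ← hp, Ideal.map_span, Set.image_singleton]

end Pool.Agent.Lib.MP_76d46b_ag
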