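import Pool.Agent.Lib.MP_76d46b_ag.Charts
import Pool.Agent.Lib.MP_76d46b_ag.Fibre

/-!
# Stabilizers and ramification
-/

open CategoryTheory CategoryTheory.Limits AlgebraicGeometry
universe u
namespace Pool.Agent.Lib.MP_76d46b_ag

theorem perfectField_residueField {K : Type u} [Field K] [IsAlgClosed K] {X : Scheme.{u}}
    (f : X ⟶ Spec (.of K)) [LocallyOfFiniteType f] (x : X) (hx : IsClosed {x})
    {R : Type u} [CommRing R] (i : Spec (.of R) ⟶ X) [IsOpenImmersion i]
    (p : PrimeSpectrum R) (hp : i p = x) : PerfectField p.asIdeal.ResidueField := by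
  obtain ⟨g, -, hg⟩ := exists_chart_stalk i x p hp
  let alg : Algebra R (X.presheaf.stalk x) := g.hom.toAlgebra
  have hg' : IsLocalization.AtPrime (X.presheaf.stalk x) p.asIdeal := hg
  let e : X.presheaf.stalk x ≃ₐ[R] Localization.AtPrime p.asIdeal :=
    IsLocalization.algEquiv p.asIdeal.primeCompl _ _
  let e' : IsLocalRing.ResidueField (X.presheaf.stalk x) ≃+* p.asIdeal.ResidueField :=
    IsLocalRing.ResidueField.mapEquiv e.toRingEquiv
  have hres := residue_fieldToStalk_surjective f x hx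
  let e'' := RingEquiv.ofBijective _ ⟨RingHom.injective _, hres⟩
  exact PerfectField.of_ringEquiv (e''.trans e')

section

variable {P : Type} [Group P] {K : Type u} [Field K]
variable {G : Tuple P (Spec (.of K))} {gX gY : ℕ} {η : Multiset ℕ}

theorem Tuple.act_mul_apply {S : Scheme.{u}} (G : Tuple P S) (σ τ : P) (y : G.Y) :
    (G.act (σ * τ)).hom y = (G.act σ).hom ((G.act τ).hom y) := by
  rw [G.act_mul, Scheme.Hom.comp_apply]

theorem Tuple.act_one_apply {S : Scheme.{u}} (G : Tuple P S) (y : G.Y) :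
    (G.act 1).hom y = y := by
  rw [G.act_one]; rfl

/-- The stabilizer of a point of `Y`. -/
def Tuple.stab {S : Scheme.{u}} (G : Tuple P S) (y : G.Y) : Subgroup P where
  carrier := {σ | (G.act σ).hom y = y}
  mul_mem' {σ τ} hσ hτ := by
    change (G.act (σ * τ)).hom y = y
    rw [G.act_mul_apply, show (G.act τ).hom y = y from hτ, show (G.act σ).hom y = y from hσ]
  one_mem' := G.act_one_apply y
  inv_mem' {σ} hσ := by
    change (G.act σ⁻¹).hom y = y
    have h1 : (G.act σ).hom y = y := hσ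
    conv_lhs => rw [← h1]
    rw [← G.act_mul_apply, inv_mul_cancel, G.act_one_apply]

theorem Tuple.mem_stab {S : Scheme.{u}} (G : Tuple P S) (y : G.Y) (σ : P) :
    σ ∈ G.stab y ↔ (G.act σ).hom y = y := Iff.rfl

theorem Tuple.φ_act {S : Scheme.{u}} (G : Tuple P S) (σ : P) (y : G.Y) :
    G.φ ((G.act σ).hom y) = G.φ y := by
  rw [← Scheme.Hom.comp_apply, G.act_φ]

/-- orbit-stabilizer for the fibres of `φ` -/
theorem IsGaloisCover.card_fibre [Finite P] (h : IsGaloisCover G gX gY η) [Flat G.φ]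
    (y : G.Y) : Nat.card (G.φ ⁻¹' {G.φ y}) = (G.stab y).index := by
  let e : P → (G.φ ⁻¹' {G.φ y}) := fun σ => ⟨(G.act σ).hom y, G.φ_act σ y⟩
  rw [Subgroup.index]
  symm
  refine Nat.card_congr (Equiv.ofBijective (fun q : P ⧸ G.stab y => Quotient.liftOn' q e ?_) ?_)
  · intro σ τ hστ
    rw [QuotientGroup.leftRel_apply] at hστ
    apply Subtype.ext
    change (G.act σ).hom y = (G.act τ).hom y
    have h1 : (G.act (σ⁻¹ * τ)).hom y = y := hστ
    conv_lhs => rw [← h1]
    rw [← G.act_mul_apply, mul_inv_cancel_left]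
  · constructor
    · rintro ⟨σ⟩ ⟨τ⟩ hστ
      have h1 : (G.act σ).hom y = (G.act τ).hom y := congrArg Subtype.val hστ
      apply Quotient.sound'
      rw [QuotientGroup.leftRel_apply, G.mem_stab, G.act_mul_apply, ← h1, ← G.act_mul_apply,
        inv_mul_cancel, G.act_one_apply]
    · rintro ⟨y', hy'⟩
      obtain ⟨σ, hσ⟩ := h.exists_act_eq y y' (Eq.symm hy')
      exact ⟨Quotient.mk'' σ, Subtype.ext hσ⟩

theorem IsGaloisCover.differentMult_eq_zero [Finite P] [IsAlgClosed K]
    (h : IsGaloisCover G gX gY η) [Flat G.φ] (y : G.Y) (hy : IsClosed {y})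
    (hs : G.stab y = ⊥) : differentMult G.φ y = 0 := by
  have := h.finite
  have := h.curve_X.smooth
  have := SmoothOfRelativeDimension.smooth 1 G.π
  have hx : IsClosed {G.φ y} := by
    have := G.φ.isClosedMap _ hy
    rwa [Set.image_singleton] at this
  obtain ⟨_, ⟨U, hU, rfl⟩, hxU, -⟩ := G.X.isBasis_affineOpens.exists_subset_of_mem_open
    (Set.mem_univ (G.φ y)) isOpen_univ
  have hV : IsAffineOpen (G.φ ⁻¹ᵁ U) := hU.preimage G.φ
  let alg : Algebra Γ(G.X, U) Γ(G.Y, G.φ ⁻¹ᵁ U) := (G.φ.app U).hom.toAlgebra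
  let i : Spec (.of Γ(G.X, U)) ⟶ G.X := hU.fromSpec
  let j : Spec (.of Γ(G.Y, G.φ ⁻¹ᵁ U)) ⟶ G.Y := hV.fromSpec
  have hi : IsOpenImmersion i := hU.isOpenImmersion_fromSpec
  have hpb : IsPullback j (Spec.map (CommRingCat.ofHom
      (algebraMap Γ(G.X, U) Γ(G.Y, G.φ ⁻¹ᵁ U)))) G.φ i := isPullback_fromSpec G.φ hU hV
  let p : PrimeSpectrum Γ(G.X, U) := hU.primeIdealOf ⟨_, hxU⟩
  have hp : i p = G.φ y := hU.fromSpec_primeIdealOf ⟨_, hxU⟩
  have hperf := perfectField_residueField G.π (G.φ y) hx i p hp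
  refine differentMult_eq_zero_of_card G.φ i j hpb (G.φ y) ?_ p hp y rfl
  rw [h.card_fibre, hs, Subgroup.index_bot, h.finrank_eq]

end

end Pool.Agent.Lib.MP_76d46b_ag
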