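import Pool.Agent.Lib.MP_76d46b_ag.Stab

/-!
# The action of the stabilizer on the stalk, and lower bounds for the different
-/

open CategoryTheory CategoryTheory.Limits AlgebraicGeometry
universe u
namespace Pool.Agent.Lib.MP_76d46b_ag

theorem exists_stalk_hom {Y Z : Scheme.{u}} (f : Y ⟶ Z) (y : Y) (z : Z) (h : f y = z) :
    ∃ ρ : Z.presheaf.stalk z ⟶ Y.presheaf.stalk y,
      Spec.map ρ ≫ Z.fromSpecStalk z = Y.fromSpecStalk y ≫ f ∧ IsLocalHom ρ.hom := by
  subst h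
  exact ⟨f.stalkMap y, Scheme.SpecMap_stalkMap_fromSpecStalk f, inferInstance⟩

section

variable {P : Type} [Group P] {K : Type u} [Field K]

/-- The endomorphism of the stalk at a fixed point induced by an element of the stabilizer. -/
noncomputable def Tuple.ρ {S : Scheme.{u}} (G : Tuple P S) (y : G.Y) (σ : G.stab y) :
    G.Y.presheaf.stalk y ⟶ G.Y.presheaf.stalk y :=
  (exists_stalk_hom (G.act σ).hom y y σ.2).choose

theorem Tuple.ρ_spec {S : Scheme.{u}} (G : Tuple P S) (y : G.Y) (σ : G.stab y) :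
    Spec.map (G.ρ y σ) ≫ G.Y.fromSpecStalk y = G.Y.fromSpecStalk y ≫ (G.act σ).hom :=
  (exists_stalk_hom (G.act σ).hom y y σ.2).choose_spec.1

theorem Tuple.ρ_local {S : Scheme.{u}} (G : Tuple P S) (y : G.Y) (σ : G.stab y) :
    IsLocalHom (G.ρ y σ).hom :=
  (exists_stalk_hom (G.act σ).hom y y σ.2).choose_spec.2

theorem Tuple.ρ_one {S : Scheme.{u}} (G : Tuple P S) (y : G.Y) : G.ρ y 1 = 𝟙 _ := by
  apply Spec.map_injective
  rw [← cancel_mono (G.Y.fromSpecStalk y), G.ρ_spec, Spec.map_id, Category.id_comp]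
  have h1 : (G.act ((1 : G.stab y) : P)).hom = 𝟙 _ := G.act_one
  rw [h1, Category.comp_id]

theorem Tuple.ρ_mul {S : Scheme.{u}} (G : Tuple P S) (y : G.Y) (σ τ : G.stab y) :
    G.ρ y (σ * τ) = G.ρ y σ ≫ G.ρ y τ := by
  apply Spec.map_injective
  rw [← cancel_mono (G.Y.fromSpecStalk y), G.ρ_spec, Spec.map_comp, Category.assoc, G.ρ_spec]
  have h1 : (G.act ((σ * τ : G.stab y) : P)).hom = (G.act τ).hom ≫ (G.act σ).hom :=
    G.act_mul σ τ
  rw [h1, ← Category.assoc, ← G.ρ_spec, Category.assoc]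

theorem Tuple.stalkMap_ρ {S : Scheme.{u}} (G : Tuple P S) (y : G.Y) (σ : G.stab y) :
    G.φ.stalkMap y ≫ G.ρ y σ = G.φ.stalkMap y := by
  apply Spec.map_injective
  rw [← cancel_mono (G.X.fromSpecStalk _), Spec.map_comp, Category.assoc,
    Scheme.SpecMap_stalkMap_fromSpecStalk, ← Category.assoc, G.ρ_spec, Category.assoc, G.act_φ]

theorem Tuple.ρ_pow {S : Scheme.{u}} (G : Tuple P S) (y : G.Y) (σ : G.stab y) (n : ℕ) (b) :
    (G.ρ y (σ ^ n)).hom b = (G.ρ y σ).hom^[n] b := by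
  induction n generalizing b with
  | zero => rw [pow_zero, G.ρ_one]; rfl
  | succ n ih =>
    rw [pow_succ', G.ρ_mul, Function.iterate_succ_apply, ← ih]
    rfl

variable {G : Tuple P (Spec (.of K))} {gX gY : ℕ} {η : Multiset ℕ}

theorem IsGaloisCover.eq_one_of_ρ (h : IsGaloisCover G gX gY η) [Flat G.φ] (y : G.Y)
    (σ : G.stab y) (hσ : G.ρ y σ = 𝟙 _) : σ = 1 := by
  have h1 := G.ρ_spec y σ
  rw [hσ, Spec.map_id, Category.id_comp] at h1
  have := h.noetherian_Y
  obtain ⟨U, hyU, hU⟩ := spread_out_unique_of_isGermInjective' (x := y) (𝟙 _) (G.act σ).hom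
    (by rw [Category.comp_id]; exact h1)
  rw [Category.comp_id] at hU
  exact Subtype.ext (h.eq_one_of_fixes_open σ U y hyU hU.symm)

theorem IsGaloisCover.residue_surjective [IsAlgClosed K] (h : IsGaloisCover G gX gY η) (y : G.Y)
    (hy : IsClosed {y}) : Function.Surjective
      ((IsLocalRing.residue (G.Y.presheaf.stalk y)).comp (G.φ.stalkMap y).hom) := by
  have := h.curve_Y.smooth
  have := SmoothOfRelativeDimension.smooth 1 (G.φ ≫ G.π)
  have h1 := residue_fieldToStalk_surjective (G.φ ≫ G.π) y hy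
  rw [fieldToStalk_comp] at h1
  intro b
  obtain ⟨a, ha⟩ := h1 b
  exact ⟨_, ha⟩

theorem IsGaloisCover.differentMult_ne_zero [IsAlgClosed K]
    (h : IsGaloisCover G gX gY η) [Flat G.φ] (y : G.Y) (hy : IsClosed {y})
    (hs : G.stab y ≠ ⊥) : differentMult G.φ y ≠ 0 := by
  intro h0
  obtain ⟨σ, hσ, hσ1⟩ := (G.stab y).ne_bot_iff_exists_ne_one.mp hs |> fun ⟨σ, hσ⟩ =>
    (⟨σ.1, σ.2, fun h => hσ (Subtype.ext h)⟩ : ∃ σ : P, ∃ _ : σ ∈ G.stab y, σ ≠ 1)
  have := h.curve_Y.smooth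
  obtain ⟨hnoe, hdom, -⟩ := stalk_smooth_curve (G.φ ≫ G.π) y hy
  let alg : Algebra (G.X.presheaf.stalk (G.φ y)) (G.Y.presheaf.stalk y) :=
    (G.φ.stalkMap y).hom.toAlgebra
  have h1 : Module.length (G.Y.presheaf.stalk y)
    Ω[G.Y.presheaf.stalk y⁄G.X.presheaf.stalk (G.φ y)] = 0 := h0
  rw [Module.length_eq_zero_iff] at h1
  have h2 : Algebra.FormallyUnramified (G.X.presheaf.stalk (G.φ y)) (G.Y.presheaf.stalk y) := ⟨h1⟩
  let g : G.Y.presheaf.stalk y →ₐ[G.X.presheaf.stalk (G.φ y)] G.Y.presheaf.stalk y :=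
    { (G.ρ y ⟨σ, hσ⟩).hom with
      commutes' := fun r => by
        have := congrArg (fun f => f.hom r) (G.stalkMap_ρ y ⟨σ, hσ⟩)
        exact this }
  have hloc := G.ρ_local y ⟨σ, hσ⟩
  have h3 : g = AlgHom.id _ _ := by
    refine Algebra.FormallyUnramified.ext_of_iInf
      (I := IsLocalRing.maximalIdeal (G.Y.presheaf.stalk y)) ?_ ?_
    · exact Ideal.iInf_pow_eq_bot_of_isLocalRing _ (Ideal.IsPrime.ne_top inferInstance)
    · intro b
      rw [Ideal.Quotient.eq]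
      obtain ⟨a, ha⟩ := h.residue_surjective y hy (IsLocalRing.residue _ b)
      have h4 : b - algebraMap (G.X.presheaf.stalk (G.φ y)) _ a ∈
          IsLocalRing.maximalIdeal (G.Y.presheaf.stalk y) := by
        rw [← Ideal.Quotient.eq]
        exact ha.symm
      have h5 : g (b - algebraMap (G.X.presheaf.stalk (G.φ y)) _ a) ∈
          IsLocalRing.maximalIdeal (G.Y.presheaf.stalk y) := by
        rw [IsLocalRing.mem_maximalIdeal, mem_nonunits_iff]
        intro hu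
        exact (IsLocalRing.mem_maximalIdeal _).mp h4 (hloc.map_nonunit _ hu)
      have h6 := Ideal.sub_mem _ h5 h4
      rw [map_sub, AlgHom.commutes] at h6
      simpa using h6
  have h7 : G.ρ y ⟨σ, hσ⟩ = 𝟙 _ := by
    ext b
    exact congrArg (fun f => f b) h3
  exact hσ1 (congrArg Subtype.val (h.eq_one_of_ρ y ⟨σ, hσ⟩ h7))

end

end Pool.Agent.Lib.MP_76d46b_ag
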