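import Pool.Agent.Lib.MP_76d46b_ag.StalkAction

/-!
# Totally ramified points
-/

open CategoryTheory CategoryTheory.Limits AlgebraicGeometry
universe u
namespace Pool.Agent.Lib.MP_76d46b_ag

theorem finite_localization_of_primesOver {R S : Type*} [CommRing R] [CommRing S] [Algebra R S]
    {p : Ideal R} [p.IsPrime] {q : Ideal S} [q.IsPrime] (hq : p.primesOver S = {q})
    [Module.Finite R S] (Rp Sq : Type*) [CommRing Rp] [CommRing Sq] [Algebra R Rp] [Algebra S Sq]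
    [IsLocalization.AtPrime Rp p] [IsLocalization.AtPrime Sq q] [Algebra R Sq]
    [IsScalarTower R S Sq] [Algebra Rp Sq] [IsScalarTower R Rp Sq] : Module.Finite Rp Sq := by
  classical
  obtain ⟨s, hs⟩ := Module.Finite.fg_top (R := R) (M := S)
  refine ⟨s.image (IsScalarTower.toAlgHom R S Sq).toLinearMap, ?_⟩
  rw [Finset.coe_image, ← Submodule.span_span_of_tower R, ← Submodule.map_span, hs,
    Submodule.map_top, LinearMap.coe_range, AlgHom.coe_toLinearMap, IsScalarTower.coe_toAlgHom',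
    ← top_le_iff]
  rintro x -
  obtain ⟨x, ⟨s, hsq⟩, rfl⟩ := IsLocalization.exists_mk'_eq q.primeCompl x
  obtain ⟨r, hr, t, e'⟩ := Ideal.exists_notMem_dvd_algebraMap_of_primesOver_eq_singleton hq _ hsq
  rw [← Submodule.smul_mem_iff_of_isUnit _ (IsLocalization.map_units (M := p.primeCompl) _ ⟨r, hr⟩),
    Algebra.smul_def, ← IsScalarTower.algebraMap_apply, IsScalarTower.algebraMap_apply _ S, e',
      map_mul, mul_assoc, mul_left_comm, IsLocalization.mk'_spec'_mk, ← map_mul]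
  exact Submodule.subset_span ⟨_, rfl⟩

theorem finite_stalkMap {X Y : Scheme.{u}} (φ : Y ⟶ X) [IsFinite φ] (y : Y)
    (hy : ∀ y', φ y' = φ y → y' = y) : (φ.stalkMap y).hom.Finite := by
  obtain ⟨_, ⟨U, hU, rfl⟩, hxU, -⟩ := X.isBasis_affineOpens.exists_subset_of_mem_open
    (Set.mem_univ (φ y)) isOpen_univ
  have hV : IsAffineOpen (φ ⁻¹ᵁ U) := hU.preimage φ
  let alg : Algebra Γ(X, U) Γ(Y, φ ⁻¹ᵁ U) := (φ.app U).hom.toAlgebra
  have hfin : Module.Finite Γ(X, U) Γ(Y, φ ⁻¹ᵁ U) := φ.finite_app U hU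
  let p : PrimeSpectrum Γ(X, U) := hU.primeIdealOf ⟨_, hxU⟩
  let q : PrimeSpectrum Γ(Y, φ ⁻¹ᵁ U) := hV.primeIdealOf ⟨y, hxU⟩
  let a1 : Algebra Γ(X, U) (X.presheaf.stalk (φ y)) := (X.presheaf.germ U (φ y) hxU).hom.toAlgebra
  let a2 : Algebra Γ(Y, φ ⁻¹ᵁ U) (Y.presheaf.stalk y) :=
    (Y.presheaf.germ (φ ⁻¹ᵁ U) y hxU).hom.toAlgebra
  have h1 : IsLocalization.AtPrime (X.presheaf.stalk (φ y)) p.asIdeal :=
    hU.isLocalization_stalk ⟨_, hxU⟩
  have h2 : IsLocalization.AtPrime (Y.presheaf.stalk y) q.asIdeal :=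
    hV.isLocalization_stalk ⟨y, hxU⟩
  let a3 : Algebra (X.presheaf.stalk (φ y)) (Y.presheaf.stalk y) := (φ.stalkMap y).hom.toAlgebra
  let a4 : Algebra Γ(X, U) (Y.presheaf.stalk y) :=
    ((algebraMap Γ(Y, φ ⁻¹ᵁ U) (Y.presheaf.stalk y)).comp (algebraMap Γ(X, U) _)).toAlgebra
  have t1 : IsScalarTower Γ(X, U) Γ(Y, φ ⁻¹ᵁ U) (Y.presheaf.stalk y) := .of_algebraMap_eq' rfl
  have t2 : IsScalarTower Γ(X, U) (X.presheaf.stalk (φ y)) (Y.presheaf.stalk y) :=
    .of_algebraMap_eq' (by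
      have := Scheme.Hom.germ_stalkMap φ U y hxU
      exact congrArg CommRingCat.Hom.hom this.symm)
  have hcomap : ∀ q' : PrimeSpectrum Γ(Y, φ ⁻¹ᵁ U), φ (hV.fromSpec q') =
      hU.fromSpec (Spec.map (φ.app U) q') := fun q' =>
    congrArg (fun f => f q') (isPullback_fromSpec φ hU hV).w
  have hq : p.asIdeal.primesOver Γ(Y, φ ⁻¹ᵁ U) = {q.asIdeal} := by
    have hqp : Spec.map (φ.app U) q = p := by
      have hi := hU.isOpenImmersion_fromSpec
      apply hU.fromSpec.isOpenEmbedding.injective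
      rw [← hcomap]
      change φ (hV.fromSpec (hV.primeIdealOf ⟨y, hxU⟩)) = hU.fromSpec (hU.primeIdealOf ⟨_, hxU⟩)
      rw [hV.fromSpec_primeIdealOf, hU.fromSpec_primeIdealOf]
    apply Set.eq_singleton_iff_unique_mem.mpr
    refine ⟨⟨q.2, ⟨(congrArg PrimeSpectrum.asIdeal hqp).symm⟩⟩, ?_⟩
    rintro Q ⟨hQ, hQp⟩
    let q' : PrimeSpectrum Γ(Y, φ ⁻¹ᵁ U) := ⟨Q, hQ⟩
    have hq'p : Spec.map (φ.app U) q' = p := PrimeSpectrum.ext hQp.over.symm
    have h3 : hV.fromSpec q' = y := by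
      apply hy
      rw [hcomap, hq'p]
      exact hU.fromSpec_primeIdealOf ⟨_, hxU⟩
    have h4 : hV.fromSpec q' = hV.fromSpec q := by
      rw [h3]
      exact (hV.fromSpec_primeIdealOf ⟨y, hxU⟩).symm
    have hj := hV.isOpenImmersion_fromSpec
    exact congrArg PrimeSpectrum.asIdeal (hV.fromSpec.isOpenEmbedding.injective h4)
  exact finite_localization_of_primesOver hq (X.presheaf.stalk (φ y)) (Y.presheaf.stalk y)

section

variable {P : Type} [Group P] {K : Type u} [Field K]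
variable {G : Tuple P (Spec (.of K))} {gX gY : ℕ} {η : Multiset ℕ}

theorem IsGaloisCover.le_differentMult [Finite P] [IsAlgClosed K] (p : ℕ) [Fact p.Prime]
    [CharP K p] (hP : IsPGroup p P)
    (h : IsGaloisCover G gX gY η) [Flat G.φ] (y : G.Y) (hy : IsClosed {y})
    (hs : G.stab y = ⊤) : ((2 * (Nat.card P - 1) : ℕ) : ℕ∞) ≤ differentMult G.φ y := by
  have := h.curve_Y.smooth
  have := h.finite
  obtain ⟨hnoe, hdom, t, ht0, ht⟩ := stalk_smooth_curve (G.φ ≫ G.π) y hy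
  let alg : Algebra (G.X.presheaf.stalk (G.φ y)) (G.Y.presheaf.stalk y) :=
    (G.φ.stalkMap y).hom.toAlgebra
  have hlocal : IsLocalHom (algebraMap (G.X.presheaf.stalk (G.φ y)) (G.Y.presheaf.stalk y)) :=
    inferInstanceAs (IsLocalHom (G.φ.stalkMap y).hom)
  have hmem : ∀ σ : P, σ ∈ G.stab y := fun σ => hs ▸ Subgroup.mem_top σ
  have hfin : Module.Finite (G.X.presheaf.stalk (G.φ y)) (G.Y.presheaf.stalk y) := by
    refine finite_stalkMap G.φ y fun y' hy' => ?_
    obtain ⟨σ, hσ⟩ := h.exists_act_eq y y' hy'.symm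
    rw [← hσ]
    exact hmem σ
  let g : P → (G.Y.presheaf.stalk y →ₐ[G.X.presheaf.stalk (G.φ y)] G.Y.presheaf.stalk y) := fun σ =>
    { (G.ρ y ⟨σ, hmem σ⟩).hom with
      commutes' := fun r => by
        have := congrArg (fun f => f.hom r) (G.stalkMap_ρ y ⟨σ, hmem σ⟩)
        exact this }
  have hsurj := aeval_surjective_of_local t ht (h.residue_surjective y hy)
  have hone : g 1 = AlgHom.id _ _ := by
    ext b
    exact congrArg (fun f => f.hom b) (G.ρ_one y)
  have hmul : ∀ σ τ b, g (σ * τ) b = g τ (g σ b) := fun σ τ b =>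
    congrArg (fun f => f.hom b) (G.ρ_mul y ⟨σ, hmem σ⟩ ⟨τ, hmem τ⟩)
  have hloc : ∀ σ, IsLocalHom (g σ).toRingHom := fun σ => G.ρ_local y ⟨σ, hmem σ⟩
  have hres : ∀ σ b, g σ b - b ∈ IsLocalRing.maximalIdeal (G.Y.presheaf.stalk y) := by
    intro σ b
    obtain ⟨a, ha⟩ := h.residue_surjective y hy (IsLocalRing.residue _ b)
    have h4 : b - algebraMap (G.X.presheaf.stalk (G.φ y)) _ a ∈
        IsLocalRing.maximalIdeal (G.Y.presheaf.stalk y) := by
      rw [← Ideal.Quotient.eq]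
      exact ha.symm
    have h5 : g σ (b - algebraMap (G.X.presheaf.stalk (G.φ y)) _ a) ∈
        IsLocalRing.maximalIdeal (G.Y.presheaf.stalk y) := by
      rw [IsLocalRing.mem_maximalIdeal, mem_nonunits_iff]
      intro hu
      exact (IsLocalRing.mem_maximalIdeal _).mp h4 ((hloc σ).map_nonunit _ hu)
    have h6 := Ideal.sub_mem _ h5 h4
    rw [map_sub, AlgHom.commutes] at h6
    simpa using h6
  have hinj : Function.Injective (fun σ => g σ t) := by
    intro σ τ hστ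
    have h1 : g σ = g τ := by
      apply AlgHom.ext
      intro b
      obtain ⟨F, rfl⟩ := hsurj b
      rw [← Polynomial.aeval_algHom_apply, ← Polynomial.aeval_algHom_apply]
      congr 2
    have h2 : g (σ * τ⁻¹) = AlgHom.id _ _ := by
      apply AlgHom.ext
      intro b
      rw [hmul, h1, ← hmul, mul_inv_cancel, hone]
    have h3 : G.ρ y ⟨σ * τ⁻¹, hmem _⟩ = 𝟙 _ := by
      ext b
      exact congrArg (fun f => f b) h2
    exact mul_inv_eq_one.mp (congrArg Subtype.val (h.eq_one_of_ρ y _ h3))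
  have hcharP : CharP (IsLocalRing.ResidueField (G.Y.presheaf.stalk y)) p :=
    charP_of_injective_ringHom (RingHom.injective ((IsLocalRing.residue
      (G.Y.presheaf.stalk y)).comp (fieldToStalk (G.φ ≫ G.π) y).hom)) p
  obtain ⟨n, hn⟩ := IsPGroup.iff_card.mp hP
  have hiter : ∀ σ, (g σ).toRingHom^[p ^ n] t = t := by
    intro σ
    have h1 := G.ρ_pow y ⟨σ, hmem σ⟩ (p ^ n) t
    have h2 : (⟨σ, hmem σ⟩ : G.stab y) ^ (p ^ n) = 1 := by
      apply Subtype.ext
      change σ ^ (p ^ n) = 1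
      rw [← hn]
      exact pow_card_eq_one'
    rw [h2, G.ρ_one] at h1
    exact h1.symm
  have h2 : ∀ σ, σ ≠ 1 → t ^ 2 ∣ t - g σ t := fun σ _ =>
    sq_dvd_sub_of_iterate t ht0 ht p n (g σ).toRingHom (hres σ) (hiter σ)
  have := Fintype.ofFinite P
  rw [Nat.card_eq_fintype_card]
  exact length_kaehler_ge_of_aut t ht0 ht (h.residue_surjective y hy) g 1
    (by rw [hone]; rfl) hinj h2

end

end Pool.Agent.Lib.MP_76d46b_ag
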